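import Pool.Agent.H962.Moves

/-!
# The chain of circles along a segment
-/

set_option autoImplicit false

open Real

namespace Pool.Agent.H962

section circles

variable {c1 c2 ρ γ z a1 a2 b1 b2 q1 q2 : ℝ}

lemma exists_circ (hρ : 0 < ρ) (ha : 0 < a2) (hb : b2 < 0) (hca : On c1 c2 ρ a1 a2)
    (hcb : On c1 c2 ρ b1 b2) : ∃ γ z, Circ c1 c2 ρ γ z := by
  unfold On at hca hcb
  have h1 : c2 < ρ := by
    by_contra h
    push Not at h
    nlinarith [sq_nonneg (b1 - c1)]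
  have h2 : -ρ < c2 := by
    by_contra h
    push Not at h
    nlinarith [sq_nonneg (a1 - c1)]
  have h3 : -1 < -c2 / ρ := by rw [lt_div_iff₀ hρ]; linarith
  have h4 : -c2 / ρ < 1 := by rw [div_lt_iff₀ hρ]; linarith
  refine ⟨arcsin (-c2 / ρ), c1 + ρ * cos (arcsin (-c2 / ρ)), hρ, ?_, ?_, rfl, ?_⟩
  · exact neg_pi_div_two_lt_arcsin.mpr h3
  · exact arcsin_lt_pi_div_two.mpr h4
  · rw [sin_arcsin h3.le h4.le]; field_simp

/-- The left intersection lies on the left of the chord. -/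
lemma left_of_chord (h : Circ c1 c2 ρ γ z) (ha : 0 < a2) (hb : b2 < 0)
    (hca : On c1 c2 ρ a1 a2) (hcb : On c1 c2 ρ b1 b2) :
    (c1 - ρ * cos γ) * (a2 - b2) < a2 * b1 - a1 * b2 := by
  have h1 : Circ (-c1) c2 ρ γ (-c1 + ρ * cos γ) := ⟨h.hρ, h.hγ1, h.hγ2, rfl, h.hc⟩
  have h2 : On (-c1) c2 ρ (-a1) a2 := by unfold On at *; rw [← hca]; ring
  have h3 : On (-c1) c2 ρ (-b1) b2 := by unfold On at *; rw [← hcb]; ring
  obtain ⟨_, _, h4⟩ := chord_data h1.hρ h1.hγ1 h1.hγ2 h1.hz h1.hc ha hb h2 h3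
  unfold RightOf at h4
  linarith

/-- A point of the axis outside the circle on the right of the chord is beyond the right
intersection. -/
lemma beyond (h : Circ c1 c2 ρ γ z) (ha : 0 < a2) (hb : b2 < 0)
    (hca : On c1 c2 ρ a1 a2) (hcb : On c1 c2 ρ b1 b2) {w : ℝ} (hw : RightOf a1 a2 b1 b2 w)
    (hout : ρ ^ 2 ≤ (w - c1) ^ 2 + (0 - c2) ^ 2) : z ≤ w := by
  have h1 := left_of_chord h ha hb hca hcb
  unfold RightOf at hw
  have h2 : c1 - ρ * cos γ < w := by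
    have : (c1 - ρ * cos γ) * (a2 - b2) < w * (a2 - b2) := by linarith
    exact lt_of_mul_lt_mul_right this (by linarith)
  have h3 : 0 < cos γ := cos_pos_of_mem_Ioo ⟨h.hγ1, h.hγ2⟩
  have h4 : (ρ * cos γ) ^ 2 ≤ (w - c1) ^ 2 := by
    have h5 := sin_sq_add_cos_sq γ
    rw [h.hc] at hout
    nlinarith
  rw [h.hz]
  have hρ := h.hρ
  have h6 : 0 < ρ * cos γ := by positivity
  by_contra hneg
  push Not at hneg
  nlinarith

lemma beyond_eq (h : Circ c1 c2 ρ γ z) (ha : 0 < a2) (hb : b2 < 0)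
    (hca : On c1 c2 ρ a1 a2) (hcb : On c1 c2 ρ b1 b2) {w : ℝ} (hw : RightOf a1 a2 b1 b2 w)
    (hon : On c1 c2 ρ w 0) : z = w := by
  unfold On at hon
  apply le_antisymm (beyond h ha hb hca hcb hw hon.ge)
  have h3 : 0 < cos γ := cos_pos_of_mem_Ioo ⟨h.hγ1, h.hγ2⟩
  have h5 := sin_sq_add_cos_sq γ
  have hρ := h.hρ
  rw [h.hc] at hon
  have h4 : (w - c1) ^ 2 = (ρ * cos γ) ^ 2 := by nlinarith
  have h6 : 0 < ρ * cos γ := by positivity
  rw [h.hz]
  nlinarith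

lemma ori_axis {w : ℝ} : ori a1 a2 b1 b2 w 0 = w * (a2 - b2) - (a2 * b1 - a1 * b2) := by
  unfold ori; ring

/-- The right intersection moves to the right. -/
lemma z_mono {c1' c2' ρ' γ' z' : ℝ} (h : Circ c1 c2 ρ γ z) (h' : Circ c1' c2' ρ' γ' z')
    (ha : 0 < a2) (hb : b2 < 0)
    (hca : On c1 c2 ρ a1 a2) (hcb : On c1 c2 ρ b1 b2)
    (hca' : On c1' c2' ρ' a1 a2) (hcb' : On c1' c2' ρ' b1 b2) (hcq' : On c1' c2' ρ' q1 q2)
    (ho : 0 < ori a1 a2 b1 b2 q1 q2) (hout : ρ ^ 2 ≤ (q1 - c1) ^ 2 + (q2 - c2) ^ 2) : z ≤ z' := by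
  obtain ⟨_, _, hR⟩ := chord_data h'.hρ h'.hγ1 h'.hγ2 h'.hz h'.hc ha hb hca' hcb'
  have hz' : On c1' c2' ρ' z' 0 := by
    unfold On
    rw [h'.hz, h'.hc]
    have h5 := sin_sq_add_cos_sq γ'
    nlinarith
  apply beyond h ha hb hca hcb hR
  have hoz : 0 < ori a1 a2 b1 b2 z' 0 := by
    rw [ori_axis]; unfold RightOf at hR; linarith
  unfold On at *
  have key : ((z' - c1) ^ 2 + (0 - c2) ^ 2 - ρ ^ 2) * ori a1 a2 b1 b2 q1 q2
      = ((q1 - c1) ^ 2 + (q2 - c2) ^ 2 - ρ ^ 2) * ori a1 a2 b1 b2 z' 0 := by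
    unfold ori
    have e1 : ((z' - c1) ^ 2 + (0 - c2) ^ 2 - ρ ^ 2)
      = ((z' - c1) ^ 2 + (0 - c2) ^ 2 - ρ ^ 2) - ((z' - c1') ^ 2 + (0 - c2') ^ 2 - ρ' ^ 2) := by
      rw [hz']; ring
    have e2 : ((q1 - c1) ^ 2 + (q2 - c2) ^ 2 - ρ ^ 2)
      = ((q1 - c1) ^ 2 + (q2 - c2) ^ 2 - ρ ^ 2) - ((q1 - c1') ^ 2 + (q2 - c2') ^ 2 - ρ' ^ 2) := by
      rw [hcq']; ring
    have e3 : ((a1 - c1) ^ 2 + (a2 - c2) ^ 2 - ρ ^ 2) - ((a1 - c1') ^ 2 + (a2 - c2') ^ 2 - ρ' ^ 2) = 0 := by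
      rw [hca, hca']; ring
    have e4 : ((b1 - c1) ^ 2 + (b2 - c2) ^ 2 - ρ ^ 2) - ((b1 - c1') ^ 2 + (b2 - c2') ^ 2 - ρ' ^ 2) = 0 := by
      rw [hcb, hcb']; ring
    rw [e1, e2]
    linear_combination ((b1 - a1) * (q2 - a2) - (b2 - a2) * (q1 - a1)
        - ((b1 - a1) * (0 - a2) - (b2 - a2) * (z' - a1))) * e3
      + ((z' - a1) * (q2 - a2) - (0 - a2) * (q1 - a1)) * (e4 - e3)
  have h1 : 0 ≤ ((z' - c1) ^ 2 + (0 - c2) ^ 2 - ρ ^ 2) * ori a1 a2 b1 b2 q1 q2 := by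
    rw [key]; exact mul_nonneg (by linarith) hoz.le
  have h2 := nonneg_of_mul_nonneg_left h1 ho
  linarith

end circles

section chain

variable {P : Type*} (X Y : P → ℝ) (Adj : P → P → Prop)

/-- distance of two points in coordinates -/
noncomputable def dd (p q : P) : ℝ := ed (X p) (Y p) (X q) (Y q)

/-- there is a path from `u` to the point of length at most the given number -/
inductive Reach (u : P) : P → ℝ → Prop
  | base (D : ℝ) (h : 0 ≤ D) : Reach u u D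
  | step (p q : P) (D D' : ℝ) (h : Reach u p D) (hpq : Adj p q) (hD : D + dd X Y p q ≤ D') :
      Reach u q D'

/-- crossing position of the line through `p` and `q` with the axis -/
noncomputable def cr (p q : P) : ℝ := (Y p * X q - X p * Y q) / (Y p - Y q)

/-- The next triangle exists. -/
def HasNext (S : Finset P) (u v : P) : Prop :=
  ∀ a ∈ S, ∀ b ∈ S, Adj a b → 0 < Y a → Y b < 0 → X u < cr X Y a b → cr X Y a b < X v →
    ∃ q ∈ S, Adj a q ∧ Adj b q ∧ 0 < ori (X a) (Y a) (X b) (Y b) (X q) (Y q) ∧ (Y q ≠ 0 ∨ q = v) ∧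
      ∃ c1 c2 ρ : ℝ, 0 < ρ ∧ On c1 c2 ρ (X a) (Y a) ∧ On c1 c2 ρ (X b) (Y b) ∧
        On c1 c2 ρ (X q) (Y q) ∧ ∀ p ∈ S, ρ ^ 2 ≤ (X p - c1) ^ 2 + (Y p - c2) ^ 2

variable {X Y Adj}

lemma Reach.mono {u p : P} {D D' : ℝ} (h : Reach X Y Adj u p D) (hD : D ≤ D') :
    Reach X Y Adj u p D' := by
  cases h with
  | base _ h => exact Reach.base _ (h.trans hD)
  | step p' _ D0 _ h hpq hD0 => exact Reach.step p' _ D0 _ h hpq (hD0.trans hD)

lemma rightOf_iff_cr {a b : P} (ha : 0 < Y a) (hb : Y b < 0) (w : ℝ) :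
    RightOf (X a) (Y a) (X b) (Y b) w ↔ cr X Y a b < w := by
  unfold RightOf cr
  rw [div_lt_iff₀ (by linarith)]

lemma cr_upper {a b q : P} (ha : 0 < Y a) (hb : Y b < 0) (hq : 0 < Y q)
    (ho : 0 < ori (X a) (Y a) (X b) (Y b) (X q) (Y q)) : cr X Y a b < cr X Y q b := by
  unfold cr ori at *
  rw [div_lt_div_iff₀ (by linarith) (by linarith)]
  nlinarith [mul_pos (neg_pos.mpr hb) ho]

lemma cr_lower {a b q : P} (ha : 0 < Y a) (hb : Y b < 0) (hq : Y q < 0)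
    (ho : 0 < ori (X a) (Y a) (X b) (Y b) (X q) (Y q)) : cr X Y a b < cr X Y a q := by
  unfold cr ori at *
  rw [div_lt_div_iff₀ (by linarith) (by linarith)]
  nlinarith [mul_pos ha ho]

lemma dd_comm (p q : P) : dd X Y p q = dd X Y q p := ed_comm _ _ _ _

lemma ed_triangle (a1 a2 b1 b2 c1 c2 : ℝ) : ed a1 a2 c1 c2 ≤ ed a1 a2 b1 b2 + ed b1 b2 c1 c2 := by
  have h : ∀ x1 x2 y1 y2 : ℝ, ed x1 x2 y1 y2 = dist (!₂[x1, x2] : EuclideanSpace ℝ (Fin 2)) !₂[y1, y2] := by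
    intro x1 x2 y1 y2
    rw [EuclideanSpace.dist_eq]
    unfold ed
    simp [Fin.sum_univ_two, Real.dist_eq, sq_abs]
  rw [h, h, h]
  exact dist_triangle _ _ _

lemma dd_triangle (p q r : P) : dd X Y p r ≤ dd X Y p q + dd X Y q r := ed_triangle _ _ _ _ _ _

lemma len_eq_dd (a b : P) : len (X a) (Y a) (X b) (Y b) = dd X Y a b := rfl

/-- What the chain argument needs to know about a potential: `W a1 a2 b1 b2 Da Db z c` says that
the potential of the state is at most `c`. -/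
structure PotSys (t : ℝ) (W : ℝ → ℝ → ℝ → ℝ → ℝ → ℝ → ℝ → ℝ → Prop) : Prop where
  t_pos : 0 < t
  sweep : ∀ a1 a2 b1 b2 Da Db z0 z1 c : ℝ, 0 < a2 → b2 < 0 → |Da - Db| ≤ len a1 a2 b1 b2 →
    RightOf a1 a2 b1 b2 z0 → z0 ≤ z1 → W a1 a2 b1 b2 Da Db z0 c →
    W a1 a2 b1 b2 Da Db z1 (c + t * (z1 - z0))
  moveU : ∀ c1 c2 ρ γ z a1 a2 b1 b2 q1 q2 Da Db Dq c : ℝ, Circ c1 c2 ρ γ z → 0 < a2 → b2 < 0 →
    0 < q2 → On c1 c2 ρ a1 a2 → On c1 c2 ρ b1 b2 → On c1 c2 ρ q1 q2 →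
    0 < ori a1 a2 b1 b2 q1 q2 → |Da - Db| ≤ len a1 a2 b1 b2 → |Dq - Db| ≤ len q1 q2 b1 b2 →
    Dq ≤ Da + ed a1 a2 q1 q2 → W a1 a2 b1 b2 Da Db z c → W q1 q2 b1 b2 Dq Db z c
  moveL : ∀ c1 c2 ρ γ z a1 a2 b1 b2 q1 q2 Da Db Dq c : ℝ, Circ c1 c2 ρ γ z → 0 < a2 → b2 < 0 →
    q2 < 0 → On c1 c2 ρ a1 a2 → On c1 c2 ρ b1 b2 → On c1 c2 ρ q1 q2 →
    0 < ori a1 a2 b1 b2 q1 q2 → |Da - Db| ≤ len a1 a2 b1 b2 → |Da - Dq| ≤ len a1 a2 q1 q2 →
    Dq ≤ Db + ed b1 b2 q1 q2 → W a1 a2 b1 b2 Da Db z c → W a1 a2 q1 q2 Da Dq z c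
  start : ∀ c1 c2 ρ γ z a1 a2 b1 b2 u1 : ℝ, Circ c1 c2 ρ γ z → 0 < a2 → b2 < 0 →
    On c1 c2 ρ a1 a2 → On c1 c2 ρ b1 b2 → u1 = c1 - ρ * cos γ →
    W a1 a2 b1 b2 (ed u1 0 a1 a2) (ed u1 0 b1 b2) z (t * (z - u1))
  final : ∀ c1 c2 ρ γ z a1 a2 b1 b2 Da Db c : ℝ, Circ c1 c2 ρ γ z → 0 < a2 → b2 < 0 →
    On c1 c2 ρ a1 a2 → On c1 c2 ρ b1 b2 → |Da - Db| ≤ len a1 a2 b1 b2 →
    W a1 a2 b1 b2 Da Db z c → min (Da + ed a1 a2 z 0) (Db + ed b1 b2 z 0) ≤ c

theorem Good.potSys {n : ℕ} {t : ℝ} {F : Fin n → Pot} (hF : Good t F) :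
    PotSys t (fun a1 a2 b1 b2 Da Db z c => ∃ i, (F i).F a1 a2 b1 b2 Da Db z ≤ c) where
  t_pos := hF.t_pos
  sweep := by
    intro a1 a2 b1 b2 Da Db z0 z1 c ha hb hD hz0 h01 h
    exact Pool.Agent.H962.sweep hF ha hb hD hz0 h01 h
  moveU := by
    intro c1 c2 ρ γ z a1 a2 b1 b2 q1 q2 Da Db Dq c hC ha hb hq hca hcb hcq ho _ _ hD ⟨i, hi⟩
    exact ⟨i, (move_upper hF hC ha hb hq hca hcb hcq ho hD i).trans hi⟩
  moveL := by
    intro c1 c2 ρ γ z a1 a2 b1 b2 q1 q2 Da Db Dq c hC ha hb hq hca hcb hcq ho _ _ hD ⟨i, hi⟩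
    exact ⟨i, (move_lower hF hC ha hb hq hca hcb hcq ho hD i).trans hi⟩
  start := by
    intro c1 c2 ρ γ z a1 a2 b1 b2 u1 hC ha hb hca hcb hu
    exact start_pot hF hC ha hb hca hcb hu
  final := by
    intro c1 c2 ρ γ z a1 a2 b1 b2 Da Db c hC ha hb hca hcb _ ⟨i, hi⟩
    exact (final_pot hF hC ha hb hca hcb i).trans hi

/-- The main induction. -/
theorem chain {t : ℝ} {W : ℝ → ℝ → ℝ → ℝ → ℝ → ℝ → ℝ → ℝ → Prop} (hW : PotSys t W)
    {S : Finset P} {u v : P}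
    (hsymm : ∀ p q, Adj p q → Adj q p) (hv : v ∈ S) (hYv : Y v = 0)
    (hnext : HasNext X Y Adj S u v) (N : ℕ) :
    ∀ a ∈ S, ∀ b ∈ S, Adj a b → 0 < Y a → Y b < 0 → X u < cr X Y a b → cr X Y a b < X v →
    ((S ×ˢ S).filter (fun pq => 0 < Y pq.1 ∧ Y pq.2 < 0 ∧ cr X Y a b < cr X Y pq.1 pq.2)).card ≤ N →
    ∀ c1 c2 ρ γ z : ℝ, Circ c1 c2 ρ γ z → On c1 c2 ρ (X a) (Y a) → On c1 c2 ρ (X b) (Y b) →
    (∀ p ∈ S, ρ ^ 2 ≤ (X p - c1) ^ 2 + (Y p - c2) ^ 2) →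
    ∀ Da Db : ℝ, Reach X Y Adj u a Da → Reach X Y Adj u b Db → |Da - Db| ≤ dd X Y a b →
    W (X a) (Y a) (X b) (Y b) Da Db z (t * (z - X u)) →
    Reach X Y Adj u v (t * (X v - X u)) := by
  induction N using Nat.strong_induction_on with
  | _ N ih =>
    intro a ha b hb hab hYa hYb hu hcr hcard c1 c2 ρ γ z hC hca hcb hempty Da Db hDa hDb hDab hWab
    obtain ⟨q, hq, haq, hbq, ho, hq0, c1', c2', ρ', hρ', hca', hcb', hcq', hempty'⟩ :=
      hnext a ha b hb hab hYa hYb hu hcr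
    obtain ⟨γ', z', hC'⟩ := exists_circ hρ' hYa hYb hca' hcb'
    have hzz : z ≤ z' := z_mono hC hC' hYa hYb hca hcb hca' hcb' hcq' ho (hempty q hq)
    obtain ⟨_, _, hR⟩ := chord_data hC.hρ hC.hγ1 hC.hγ2 hC.hz hC.hc hYa hYb hca hcb
    obtain ⟨_, _, hR'⟩ := chord_data hC'.hρ hC'.hγ1 hC'.hγ2 hC'.hz hC'.hc hYa hYb hca' hcb'
    have hW1 := hW.sweep _ _ _ _ _ _ _ z' _ hYa hYb hDab hR hzz hWab
    have e1 : t * (z - X u) + t * (z' - z) = t * (z' - X u) := by ring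
    rw [e1] at hW1
    rcases lt_trichotomy (Y q) 0 with hq2 | hq2 | hq2
    · -- lower
      set Dq := min (Da + dd X Y a q) (Db + dd X Y b q) with hDq
      have hDaq : |Da - Dq| ≤ dd X Y a q := by
        rw [abs_le]
        constructor
        · linarith [min_le_left (Da + dd X Y a q) (Db + dd X Y b q)]
        · have h1 : Da - dd X Y a q ≤ Dq := by
            apply le_min
            · linarith [show 0 ≤ dd X Y a q from sqrt_nonneg _]
            · have := dd_triangle (X := X) (Y := Y) a q b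
              rw [dd_comm q b] at this
              have := (abs_le.mp hDab).2
              linarith
          linarith
      have hRq : Reach X Y Adj u q Dq := by
        rcases min_choice (Da + dd X Y a q) (Db + dd X Y b q) with h | h
        · exact Reach.step a q Da Dq hDa haq (by rw [hDq, h])
        · exact Reach.step b q Db Dq hDb hbq (by rw [hDq, h])
      have hW2 := hW.moveL _ _ _ _ _ _ _ _ _ (X q) (Y q) Da Db Dq _ hC' hYa hYb hq2 hca' hcb' hcq' ho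
        hDab hDaq (min_le_right _ _) hW1
      have hcr1 := cr_lower hYa hYb hq2 ho
      obtain ⟨_, _, hRq'⟩ := chord_data hC'.hρ hC'.hγ1 hC'.hγ2 hC'.hz hC'.hc hYa hq2 hca' hcq'
      have hvR : RightOf (X a) (Y a) (X b) (Y b) (X v) := (rightOf_iff_cr hYa hYb _).mpr hcr
      have hz'v : z' ≤ X v := beyond hC' hYa hYb hca' hcb' hvR (by
        have := hempty' v hv; rwa [hYv] at this)
      have hcr2 : cr X Y a q < X v := ((rightOf_iff_cr hYa hq2 _).mp hRq').trans_le hz'v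
      have hlt : ((S ×ˢ S).filter (fun pq => 0 < Y pq.1 ∧ Y pq.2 < 0 ∧
          cr X Y a q < cr X Y pq.1 pq.2)).card < N := by
        refine lt_of_lt_of_le (Finset.card_lt_card ?_) hcard
        rw [Finset.ssubset_iff_of_subset]
        · refine ⟨(a, q), ?_, ?_⟩
          · simp only [Finset.mem_filter, Finset.mem_product]
            exact ⟨⟨ha, hq⟩, hYa, hq2, hcr1⟩
          · simp only [Finset.mem_filter, Finset.mem_product, lt_self_iff_false, and_false,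
              not_false_eq_true]
        · intro pq hpq
          simp only [Finset.mem_filter, Finset.mem_product] at hpq ⊢
          exact ⟨hpq.1, hpq.2.1, hpq.2.2.1, hcr1.trans hpq.2.2.2⟩
      exact ih _ hlt a ha q hq haq hYa hq2 (hu.trans hcr1) hcr2 le_rfl c1' c2' ρ' γ' z' hC' hca'
        hcq' hempty' Da Dq hDa hRq hDaq hW2
    · -- q = v
      have hqv : q = v := by
        rcases hq0 with h | h
        · exact absurd hq2 h
        · exact h
      subst hqv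
      have hvR : RightOf (X a) (Y a) (X b) (Y b) (X q) := (rightOf_iff_cr hYa hYb _).mpr hcr
      have hz'v : z' = X q := beyond_eq hC' hYa hYb hca' hcb' hvR (by rwa [hYv] at hcq')
      have hf := hW.final _ _ _ _ _ _ _ _ _ Da Db _ hC' hYa hYb hca' hcb' hDab hW1
      rw [hz'v] at hf
      rcases min_choice (Da + ed (X a) (Y a) (X q) 0) (Db + ed (X b) (Y b) (X q) 0) with h | h
      · rw [h] at hf
        exact Reach.step a q Da _ hDa haq (by unfold dd; rwa [hYv])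
      · rw [h] at hf
        exact Reach.step b q Db _ hDb hbq (by unfold dd; rwa [hYv])
    · -- upper
      set Dq := min (Da + dd X Y a q) (Db + dd X Y b q) with hDq
      have hDbq : |Dq - Db| ≤ dd X Y q b := by
        rw [abs_le]
        constructor
        · have h1 : Db - dd X Y q b ≤ Dq := by
            apply le_min
            · have := dd_triangle (X := X) (Y := Y) b q a
              rw [dd_comm b q, dd_comm q a, dd_comm b a] at this
              have := (abs_le.mp hDab).1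
              linarith
            · rw [dd_comm b q]
              linarith [show 0 ≤ dd X Y q b from sqrt_nonneg _]
          linarith
        · rw [dd_comm q b]
          linarith [min_le_right (Da + dd X Y a q) (Db + dd X Y b q)]
      have hRq : Reach X Y Adj u q Dq := by
        rcases min_choice (Da + dd X Y a q) (Db + dd X Y b q) with h | h
        · exact Reach.step a q Da Dq hDa haq (by rw [hDq, h])
        · exact Reach.step b q Db Dq hDb hbq (by rw [hDq, h])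
      have hW2 := hW.moveU _ _ _ _ _ _ _ _ _ (X q) (Y q) Da Db Dq _ hC' hYa hYb hq2 hca' hcb' hcq' ho
        hDab hDbq (min_le_left _ _) hW1
      have hcr1 := cr_upper hYa hYb hq2 ho
      obtain ⟨_, _, hRq'⟩ := chord_data hC'.hρ hC'.hγ1 hC'.hγ2 hC'.hz hC'.hc hq2 hYb hcq' hcb'
      have hvR : RightOf (X a) (Y a) (X b) (Y b) (X v) := (rightOf_iff_cr hYa hYb _).mpr hcr
      have hz'v : z' ≤ X v := beyond hC' hYa hYb hca' hcb' hvR (by
        have := hempty' v hv; rwa [hYv] at this)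
      have hcr2 : cr X Y q b < X v := ((rightOf_iff_cr hq2 hYb _).mp hRq').trans_le hz'v
      have hlt : ((S ×ˢ S).filter (fun pq => 0 < Y pq.1 ∧ Y pq.2 < 0 ∧
          cr X Y q b < cr X Y pq.1 pq.2)).card < N := by
        refine lt_of_lt_of_le (Finset.card_lt_card ?_) hcard
        rw [Finset.ssubset_iff_of_subset]
        · refine ⟨(q, b), ?_, ?_⟩
          · simp only [Finset.mem_filter, Finset.mem_product]
            exact ⟨⟨hq, hb⟩, hq2, hYb, hcr1⟩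
          · simp only [Finset.mem_filter, Finset.mem_product, lt_self_iff_false, and_false,
              not_false_eq_true]
        · intro pq hpq
          simp only [Finset.mem_filter, Finset.mem_product] at hpq ⊢
          exact ⟨hpq.1, hpq.2.1, hpq.2.2.1, hcr1.trans hpq.2.2.2⟩
      exact ih _ hlt q hq b hb (hsymm _ _ hbq) hq2 hYb (hu.trans hcr1) hcr2 le_rfl c1' c2' ρ' γ' z'
        hC' hcq' hcb' hempty' Dq Db hRq hDb hDbq hW2

end chain

end Pool.Agent.H962
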