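import Pool.Agent.H962.Sturm

/-!
# The integer certificate and its soundness
-/

set_option autoImplicit false

open Real Set

namespace Pool.Agent.H962

/-- grid: the integer `n` stands for `n / 16384` -/
def QQ : ℤ := 16384
/-- scale of the sine table -/
def ZZ : ℤ := 1267650600228229401496703205376
/-- scale of the parameters -/
def DD : ℤ := 100000
/-- error bound of the sine table -/
def EE : ℤ := 18889465931478580854784
/-- size of the table -/
def NT : ℕ := 57343
/-- `NP / 16384 ≤ π < NX / 16384` -/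
def NP : ℕ := 51471
def NX : ℕ := 51472
/-- the strips of the special potential start at `NS / 16384 = 10 / 64` -/
def NS : ℕ := 2560

/-- The certificate data: number of potentials and their parameters. -/
structure CData where
  n : ℕ
  L : ℕ → ℤ
  A : ℕ → ℤ
  B : ℕ → ℤ
  K : ℕ → ℤ
  T : ℕ → ℤ
  S : ℕ → ℤ
  C : ℕ → ℤ

namespace CData

variable (c : CData)

def fL (j : ℕ) : ℤ := bif Nat.blt j c.n then c.L j else - c.L (j - c.n)
def fA (j : ℕ) : ℤ := bif Nat.blt j c.n then c.A j else c.B (j - c.n)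
def fB (j : ℕ) : ℤ := bif Nat.blt j c.n then c.B j else c.A (j - c.n)
def fK (j : ℕ) : ℤ := bif Nat.blt j c.n then c.K j else c.K (j - c.n)
def fT (j : ℕ) : ℤ := bif Nat.blt j c.n then c.T j else c.T (j - c.n)

/-- value of the affine part, scaled -/
def cv (j e y : ℕ) : ℤ := c.fA j * Int.ofNat e + c.fB j * Int.ofNat y + c.fK j * QQ

/-- test for a lower bound with one other potential -/
def testS (dl : ℤ) (i j e e0 e1 y : ℕ) : Bool :=
  decide (dl * (8 * QQ * QQ * (c.S (e + y) + EE) + (Int.ofNat e1 - Int.ofNat e0) *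
    (Int.ofNat e1 - Int.ofNat e0) * ZZ) < (c.cv i e y - c.cv j e y) * (8 * QQ * ZZ))

def loS (i j e0 e1 y : ℕ) : Bool :=
  decide (c.fL j ≤ c.fL i) && decide (c.fL i - c.fL j ≤ c.fB j - c.fB i) &&
  Nat.ble (e1 + y) NT &&
  c.testS (c.fL i - c.fL j) i j e0 e0 e1 y && c.testS (c.fL i - c.fL j) i j e1 e0 e1 y

def hiS (i j e0 e1 y : ℕ) : Bool :=
  decide (c.fL i ≤ c.fL j) && decide (c.fL j - c.fL i ≤ c.fB i - c.fB j) &&
  Nat.ble (e1 + y) NT &&
  c.testS (c.fL j - c.fL i) i j e0 e0 e1 y && c.testS (c.fL j - c.fL i) i j e1 e0 e1 y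

def testP (i a b e y : ℕ) : Bool :=
  decide (0 < (c.fL b - c.fL a) * c.cv i e y - (c.fL b - c.fL i) * c.cv a e y
    - (c.fL i - c.fL a) * c.cv b e y)

def pairBase (i a b e0 e1 y : ℕ) : Bool :=
  decide (c.fL a ≤ c.fL i) && decide (c.fL i ≤ c.fL b) && c.testP i a b e0 y && c.testP i a b e1 y

def slopeY (i a b : ℕ) : ℤ :=
  (c.fL b - c.fL a) * c.fB i - (c.fL b - c.fL i) * c.fB a - (c.fL i - c.fL a) * c.fB b

def pairLo (i a b e0 e1 y : ℕ) : Bool := c.pairBase i a b e0 e1 y && decide (c.slopeY i a b ≤ 0)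
def pairHi (i a b e0 e1 y : ℕ) : Bool := c.pairBase i a b e0 e1 y && decide (0 ≤ c.slopeY i a b)

/-- positivity of the slack at a grid point -/
def fpos (i e y : ℕ) : Bool :=
  decide (QQ * (2 * c.T i + c.A i + c.B i) * EE * (2 * ZZ + EE) + c.cv i e y * ZZ * EE <
    QQ * (2 * c.T i * (c.S e * c.S y) - c.A i * (c.S e * c.C y) - c.B i * (c.C e * c.S y))
      + c.cv i e y * ZZ * c.C (e + y))

/-- positivity of the slack on the line `x + y = π` -/
def epos (i e : ℕ) : Bool :=
  decide (10000 * QQ * (2 * c.T i + (c.A i - c.B i)) * EE * (2 * ZZ + EE) +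
      (10000 * ((c.A i - c.B i) * Int.ofNat e + c.K i * QQ) + c.B i * QQ * 31416) * ZZ * ZZ <
    10000 * QQ * (2 * c.T i * (c.S e * c.S e) + (c.A i - c.B i) * (c.S e * c.C e)))

def loOK (i e0 e1 y t j1 j2 : ℕ) : Bool :=
  bif Nat.beq t 0 then Nat.beq y 0 else
  bif Nat.beq t 1 then Nat.blt j1 (2 * c.n) && c.loS i j1 e0 e1 y
  else Nat.blt j1 (2 * c.n) && Nat.blt j2 (2 * c.n) && c.pairLo i j1 j2 e0 e1 y

def hiOK (i e0 e1 y t j1 j2 : ℕ) : Bool :=
  bif Nat.beq t 0 then true else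
  bif Nat.beq t 1 then Nat.blt j1 (2 * c.n) && c.hiS i j1 e0 e1 y
  else Nat.blt j1 (2 * c.n) && Nat.blt j2 (2 * c.n) && c.pairHi i j1 j2 e0 e1 y

def vac (e0 ylo yhi t : ℕ) : Bool :=
  (!(Nat.beq t 0) && Nat.ble yhi ylo) || Nat.ble NX (e0 + ylo)

def rect (i e0 e1 ylo yhi t : ℕ) : Bool :=
  !(Nat.beq t 0) && Nat.ble (e1 + yhi) NP && Nat.ble (e1 + ylo) NP &&
  c.fpos i e0 ylo && c.fpos i e1 ylo && c.fpos i e0 yhi && c.fpos i e1 yhi

def hyp (i e0 e1 ylo : ℕ) : Bool :=
  Nat.ble (e1 + ylo) NP && c.fpos i e0 ylo && c.fpos i e1 ylo && c.epos i e0 && c.epos i e1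

def stripOK (i e0 e1 ylo lt lj1 lj2 yhi ht hj1 hj2 : ℕ) : Bool :=
  Nat.blt e0 e1 && c.loOK i e0 e1 ylo lt lj1 lj2 && c.hiOK i e0 e1 yhi ht hj1 hj2 &&
  (vac e0 ylo yhi ht || c.rect i e0 e1 ylo yhi ht || c.hyp i e0 e1 ylo)

/-- Reads the strips of one potential from a number. -/
def strips (i : ℕ) : ℕ → ℕ → ℕ → Bool
  | 0, _, e0 => Nat.ble NX e0
  | k + 1, code, e0 =>
    c.stripOK i e0 (code % 65536) ((code / 65536) % 65536) ((code / 4294967296) % 4)
      ((code / 17179869184) % 4096) ((code / 70368744177664) % 4096)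
      ((code / 288230376151711744) % 65536) ((code / 18889465931478580854784) % 4)
      ((code / 75557863725914323419136) % 4096) ((code / 309485009821345068724781056) % 4096) &&
    strips i k (code / 1267650600228229401496703205376) (code % 65536)

/-- sanity of the parameters of one potential for the bound `TN / 10000` -/
def planeOK (TN : ℤ) (i : ℕ) : Bool :=
  decide (0 ≤ c.K i) && decide (0 ≤ c.L i) && decide (c.L i ≤ DD) && decide (c.B i = DD - c.L i) &&
  decide (DD + c.L i ≤ c.A i) && decide (0 ≤ c.T i) &&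
  decide ((4 * (c.T i * c.T i) + (c.A i - c.B i) * (c.A i - c.B i)) * 100000000
    ≤ 4 * (TN * TN) * (DD * DD))

/-- sanity of the special potential -/
def specOK (i : ℕ) : Bool :=
  decide (c.L i = DD) && decide (c.K i = 0) && decide (c.A i * 10 ≤ 128 * c.T i) &&
  decide (c.A i * 10 * (c.A i + 2 * DD) * 16384 ≤
    3 * (c.A i - 2 * DD) * 16284 * (128 * c.T i - 10 * c.A i))

/-- Checks the strips of consecutive potentials. -/
def allOK (TN : ℤ) (i0 : ℕ) : ℕ → List (ℕ × ℕ) → Bool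
  | _, [] => true
  | i, p :: ps => c.planeOK TN i && c.strips i p.1 p.2 (bif Nat.beq i i0 then NS else 0) &&
      allOK TN i0 (i + 1) ps

end CData

section sound

lemma sin_interp {a b θ : ℝ} (h1 : a ≤ θ) (h2 : θ ≤ b) :
    (b - a) * sin θ ≤ (b - θ) * sin a + (θ - a) * sin b + (b - a) * ((b - a) ^ 2 / 8) := by
  have hconv : ConvexOn ℝ univ (fun s : ℝ => s ^ 2 / 2 + sin s) := by
    have hd : ∀ s : ℝ, HasDerivAt (fun s : ℝ => s ^ 2 / 2 + sin s) (s + cos s) s := by
      intro s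
      have h1 : HasDerivAt (fun s : ℝ => s ^ 2 / 2) s s := by
        have := ((hasDerivAt_id s).pow 2).div_const 2
        refine this.congr_deriv ?_
        simp
      exact h1.add (hasDerivAt_sin s)
    apply Monotone.convexOn_univ_of_deriv
    · intro s; exact (hd s).differentiableAt
    · intro s t hst
      rw [(hd s).deriv, (hd t).deriv]
      have h3 : cos s - cos t ≤ t - s := by
        have h4 : cos s - cos t = -2 * sin ((s + t) / 2) * sin ((s - t) / 2) := cos_sub_cos _ _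
        have h5 : |sin ((s - t) / 2)| ≤ |(s - t) / 2| := abs_sin_le_abs
        have h6 : |sin ((s + t) / 2)| ≤ 1 := abs_sin_le_one _
        have h7 : |(s - t) / 2| = (t - s) / 2 := by rw [abs_of_nonpos (by linarith)]; ring
        rw [h7] at h5
        have h8 : |sin ((s + t) / 2) * sin ((s - t) / 2)| ≤ (t - s) / 2 := by
          rw [abs_mul]
          calc _ ≤ 1 * ((t - s) / 2) := mul_le_mul h6 h5 (abs_nonneg _) (by norm_num)
            _ = _ := one_mul _
        have h9 := neg_abs_le (sin ((s + t) / 2) * sin ((s - t) / 2))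
        rw [h4]; nlinarith
      linarith
  rcases h1.eq_or_lt with h | h
  · rw [← h]; nlinarith [sq_nonneg (b - a), mul_nonneg (sub_nonneg.mpr (h1.trans h2)) (sq_nonneg (b - a))]
  rcases h2.eq_or_lt with h' | h'
  · rw [h']; nlinarith [sq_nonneg (b - a), mul_nonneg (sub_nonneg.mpr (h1.trans h2)) (sq_nonneg (b - a))]
  have hab : 0 < b - a := by linarith
  have hw := hconv.2 (mem_univ a) (mem_univ b)
    (show 0 ≤ (b - θ) / (b - a) by apply div_nonneg <;> linarith)
    (show 0 ≤ (θ - a) / (b - a) by apply div_nonneg <;> linarith)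
    (show (b - θ) / (b - a) + (θ - a) / (b - a) = 1 by field_simp; ring)
  simp only [smul_eq_mul] at hw
  have e1 : (b - θ) / (b - a) * a + (θ - a) / (b - a) * b = θ := by field_simp; ring
  rw [e1] at hw
  have hw2 := mul_le_mul_of_nonneg_left hw hab.le
  have e2 : (b - a) * ((b - θ) / (b - a) * (a ^ 2 / 2 + sin a) + (θ - a) / (b - a) * (b ^ 2 / 2 + sin b))
      = (b - θ) * (a ^ 2 / 2 + sin a) + (θ - a) * (b ^ 2 / 2 + sin b) := by
    field_simp
  rw [e2] at hw2
  nlinarith [mul_nonneg hab.le (sq_nonneg (2 * θ - a - b))]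

lemma sin_lip (a b : ℝ) (h : a ≤ b) : |sin b - sin a| ≤ b - a := by
  have h4 : sin b - sin a = 2 * sin ((b - a) / 2) * cos ((b + a) / 2) := sin_sub_sin _ _
  have h5 : |sin ((b - a) / 2)| ≤ |(b - a) / 2| := abs_sin_le_abs
  have h6 : |cos ((b + a) / 2)| ≤ 1 := abs_cos_le_one _
  rw [abs_of_nonneg (by linarith : 0 ≤ (b - a) / 2)] at h5
  rw [h4, abs_mul, abs_mul, abs_two]
  calc 2 * |sin ((b - a) / 2)| * |cos ((b + a) / 2)| ≤ 2 * ((b - a) / 2) * 1 :=
        mul_le_mul (by linarith) h6 (abs_nonneg _) (by linarith)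
    _ = b - a := by ring

end sound

end Pool.Agent.H962
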