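import Pool.Agent.H962.Sweep

/-!
# Points on a circle which meets the axis
-/

set_option autoImplicit false

open Real

namespace Pool.Agent.H962

section

variable {c1 c2 ρ γ z : ℝ}

/-- An upper point of the circle in terms of the angle. -/
lemma upper_point {p1 p2 : ℝ} (hρ : 0 < ρ) (hγ1 : -(π / 2) < γ) (hγ2 : γ < π / 2)
    (hz : z = c1 + ρ * cos γ) (hc : c2 = -ρ * sin γ) (hp : 0 < p2)
    (hcirc : (p1 - c1) ^ 2 + (p2 - c2) ^ 2 = ρ ^ 2) :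
    p2 = 2 * ρ * sin (ang p1 p2 z - γ) * cos (ang p1 p2 z) ∧
    z - p1 = 2 * ρ * sin (ang p1 p2 z - γ) * sin (ang p1 p2 z) ∧
    0 < ang p1 p2 z - γ ∧ ang p1 p2 z - γ < π := by
  have hcos := cos_ang_pos p1 p2 z
  have hsin := sin_ang p1 p2 z hp
  have hlt := ang_lt p1 p2 z
  have hgt := lt_ang p1 p2 z
  generalize ang p1 p2 z = φ at *
  obtain ⟨L, hL⟩ : ∃ L, L = p2 / cos φ := ⟨_, rfl⟩
  have hLpos : 0 < L := by rw [hL]; positivity
  have e1 : p2 = L * cos φ := by rw [hL]; field_simp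
  have e2 : z - p1 = L * sin φ := by
    have : (z - p1) * cos φ = (L * sin φ) * cos φ := by rw [← hsin, e1]; ring
    exact mul_right_cancel₀ hcos.ne' this
  have e3 : p1 - c1 = ρ * cos γ - L * sin φ := by rw [← e2, hz]; ring
  have e4 : p2 - c2 = L * cos φ + ρ * sin γ := by rw [← e1, hc]; ring
  rw [e3, e4] at hcirc
  have e5 : L * (L - 2 * ρ * sin (φ - γ)) = 0 := by
    rw [sin_sub]
    have h1 := sin_sq_add_cos_sq φ
    have h2 := sin_sq_add_cos_sq γ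
    linear_combination hcirc - ρ ^ 2 * h2 - L ^ 2 * h1
  have e6 : L = 2 * ρ * sin (φ - γ) := by
    rcases mul_eq_zero.mp e5 with h | h
    · exact absurd h hLpos.ne'
    · linarith
  have e7 : 0 < sin (φ - γ) := by
    by_contra hneg
    push Not at hneg
    nlinarith [mul_nonneg hρ.le (neg_nonneg.mpr hneg)]
  refine ⟨by rw [← e6]; exact e1, by rw [← e6]; exact e2, ?_, by linarith⟩
  by_contra hneg
  push Not at hneg
  have : sin (φ - γ) ≤ 0 := sin_nonpos_of_nonpos_of_neg_pi_le hneg (by linarith)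
  linarith

lemma lower_point {p1 p2 : ℝ} (hρ : 0 < ρ) (hγ1 : -(π / 2) < γ) (hγ2 : γ < π / 2)
    (hz : z = c1 + ρ * cos γ) (hc : c2 = -ρ * sin γ) (hp : p2 < 0)
    (hcirc : (p1 - c1) ^ 2 + (p2 - c2) ^ 2 = ρ ^ 2) :
    -p2 = 2 * ρ * sin (ang p1 (-p2) z + γ) * cos (ang p1 (-p2) z) ∧
    z - p1 = 2 * ρ * sin (ang p1 (-p2) z + γ) * sin (ang p1 (-p2) z) ∧
    0 < ang p1 (-p2) z + γ ∧ ang p1 (-p2) z + γ < π := by
  have := upper_point (c1 := c1) (c2 := -c2) (ρ := ρ) (γ := -γ) (z := z) (p1 := p1) (p2 := -p2) hρ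
    (by linarith) (by linarith) (by rw [cos_neg]; exact hz) (by rw [sin_neg, hc]; ring)
    (by linarith) (by rw [← hcirc]; ring)
  simpa only [sub_neg_eq_add] using this

lemma trig1 (φ ψ γ : ℝ) : sin (φ - γ) * sin φ - sin (ψ + γ) * sin ψ
    = sin (φ + ψ) * sin (φ - ψ - γ) := by
  have h1 := sin_sq_add_cos_sq φ
  have h2 := sin_sq_add_cos_sq ψ
  rw [sin_sub φ γ, sin_add ψ γ, sin_add φ ψ, sin_sub (φ - ψ) γ, sin_sub φ ψ, cos_sub φ ψ]
  linear_combination (cos γ * sin ψ ^ 2 + sin γ * sin ψ * cos ψ) * h1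
    + (-cos γ * sin φ ^ 2 + sin γ * sin φ * cos φ) * h2

lemma trig2 (φ ψ γ : ℝ) : sin (φ - γ) * cos φ + sin (ψ + γ) * cos ψ
    = sin (φ + ψ) * cos (φ - ψ - γ) := by
  have h1 := sin_sq_add_cos_sq φ
  have h2 := sin_sq_add_cos_sq ψ
  rw [sin_sub φ γ, sin_add ψ γ, sin_add φ ψ, cos_sub (φ - ψ) γ, sin_sub φ ψ, cos_sub φ ψ]
  linear_combination (-cos γ * sin ψ * cos ψ - sin γ * cos ψ ^ 2) * h1
    + (-cos γ * sin φ * cos φ + sin γ * cos φ ^ 2) * h2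

variable {a1 a2 b1 b2 : ℝ}

/-- Chord data of a circle through an upper point `a` and a lower point `b`. -/
lemma chord_data (hρ : 0 < ρ) (hγ1 : -(π / 2) < γ) (hγ2 : γ < π / 2)
    (hz : z = c1 + ρ * cos γ) (hc : c2 = -ρ * sin γ) (ha : 0 < a2) (hb : b2 < 0)
    (hca : (a1 - c1) ^ 2 + (a2 - c2) ^ 2 = ρ ^ 2) (hcb : (b1 - c1) ^ 2 + (b2 - c2) ^ 2 = ρ ^ 2) :
    tilt a1 a2 b1 b2 = ang a1 a2 z - ang b1 (-b2) z - γ ∧
    radius a1 a2 b1 b2 z = ρ ∧ RightOf a1 a2 b1 b2 z := by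
  obtain ⟨ha2, ha1, hY0, hY1⟩ := upper_point hρ hγ1 hγ2 hz hc ha hca
  obtain ⟨hb2, hb1, hX0, hX1⟩ := lower_point hρ hγ1 hγ2 hz hc hb hcb
  have hlt := ang_lt a1 a2 z
  have hgt := lt_ang a1 a2 z
  have hlt' := ang_lt b1 (-b2) z
  have hgt' := lt_ang b1 (-b2) z
  have hxy : hx a1 a2 b1 b2 z + hy a1 a2 b1 b2 z = ang a1 a2 z + ang b1 (-b2) z := by
    unfold hx hy; ring
  have hcosa := cos_ang_pos a1 a2 z
  have hcosb := cos_ang_pos b1 (-b2) z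
  have hlenp := len_pos a1 a2 b1 b2 (by linarith)
  have hlensq : len a1 a2 b1 b2 ^ 2 = (a1 - b1) ^ 2 + (a2 - b2) ^ 2 := by
    unfold len; rw [sq_sqrt]; positivity
  unfold radius RightOf tilt
  rw [hxy]
  generalize ang a1 a2 z = φ at *
  generalize ang b1 (-b2) z = ψ at *
  have hsY : 0 < sin (φ - γ) := sin_pos_of_pos_of_lt_pi hY0 hY1
  have hsX : 0 < sin (ψ + γ) := sin_pos_of_pos_of_lt_pi hX0 hX1
  have hsw : 0 < sin (φ + ψ) := sin_pos_of_pos_of_lt_pi (by linarith) (by linarith)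
  have e1 : b1 - a1 = 2 * ρ * sin (φ + ψ) * sin (φ - ψ - γ) := by
    have : b1 - a1 = (z - a1) - (z - b1) := by ring
    rw [this, ha1, hb1]
    linear_combination (2 * ρ) * trig1 φ ψ γ
  have e2 : a2 - b2 = 2 * ρ * sin (φ + ψ) * cos (φ - ψ - γ) := by
    have : a2 - b2 = a2 + (-b2) := by ring
    rw [this, ha2, hb2]
    linear_combination (2 * ρ) * trig2 φ ψ γ
  have hr1 : 0 < 2 * ρ * sin (φ + ψ) := by positivity
  have hcth : 0 < cos (φ - ψ - γ) := by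
    have : 0 < 2 * ρ * sin (φ + ψ) * cos (φ - ψ - γ) := by rw [← e2]; linarith
    exact (pos_iff_pos_of_mul_pos this).mp hr1
  have hth1 : φ - ψ - γ < π / 2 := by linarith
  have hth2 : -(π / 2) < φ - ψ - γ := by linarith
  refine ⟨?_, ?_, ?_⟩
  · rw [e1, e2, mul_div_mul_left _ _ hr1.ne', ← tan_eq_sin_div_cos, arctan_tan hth2 hth1]
  · have h3 : len a1 a2 b1 b2 ^ 2 = (2 * ρ * sin (φ + ψ)) ^ 2 := by
      rw [hlensq]
      have h4 := sin_sq_add_cos_sq (φ - ψ - γ)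
      have h5 : (a1 - b1) ^ 2 + (a2 - b2) ^ 2 = (b1 - a1) ^ 2 + (a2 - b2) ^ 2 := by ring
      rw [h5, e1, e2]
      linear_combination (2 * ρ * sin (φ + ψ)) ^ 2 * h4
    have h6 : len a1 a2 b1 b2 = 2 * ρ * sin (φ + ψ) := by
      rwa [sq_eq_sq₀ hlenp.le hr1.le] at h3
    rw [h6]
    field_simp
  · have h7 : z * (a2 - b2) - (a2 * b1 - a1 * b2) = a2 * (z - b1) + (-b2) * (z - a1) := by ring
    have h8 : 0 < a2 * (z - b1) + (-b2) * (z - a1) := by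
      rw [hb1, ha1, hb2]
      nth_rewrite 1 [ha2]
      have h9 : 2 * ρ * sin (φ - γ) * cos φ * (2 * ρ * sin (ψ + γ) * sin ψ) +
        2 * ρ * sin (ψ + γ) * cos ψ * (2 * ρ * sin (φ - γ) * sin φ)
        = (2 * ρ) ^ 2 * sin (φ - γ) * sin (ψ + γ) * sin (φ + ψ) := by
        rw [sin_add φ ψ]; ring
      rw [h9]; positivity
    linarith

/-- hx and hy of a chord of a circle. -/
lemma hxy_data (hρ : 0 < ρ) (hγ1 : -(π / 2) < γ) (hγ2 : γ < π / 2)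
    (hz : z = c1 + ρ * cos γ) (hc : c2 = -ρ * sin γ) (ha : 0 < a2) (hb : b2 < 0)
    (hca : (a1 - c1) ^ 2 + (a2 - c2) ^ 2 = ρ ^ 2) (hcb : (b1 - c1) ^ 2 + (b2 - c2) ^ 2 = ρ ^ 2) :
    hx a1 a2 b1 b2 z = ang b1 (-b2) z + γ ∧ hy a1 a2 b1 b2 z = ang a1 a2 z - γ := by
  obtain ⟨h1, _, _⟩ := chord_data hρ hγ1 hγ2 hz hc ha hb hca hcb
  unfold hx hy
  rw [h1]
  constructor <;> ring

/-- distance in coordinates -/
noncomputable def ed (p1 p2 q1 q2 : ℝ) : ℝ := sqrt ((p1 - q1) ^ 2 + (p2 - q2) ^ 2)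

lemma ed_comm (p1 p2 q1 q2 : ℝ) : ed p1 p2 q1 q2 = ed q1 q2 p1 p2 := by
  unfold ed; congr 1; ring

/-- length of a chord with both ends on the upper side -/
lemma upper_chord {q1 q2 : ℝ} (hρ : 0 < ρ) (hγ1 : -(π / 2) < γ) (hγ2 : γ < π / 2)
    (hz : z = c1 + ρ * cos γ) (hc : c2 = -ρ * sin γ) (ha : 0 < a2) (hq : 0 < q2)
    (hca : (a1 - c1) ^ 2 + (a2 - c2) ^ 2 = ρ ^ 2) (hcq : (q1 - c1) ^ 2 + (q2 - c2) ^ 2 = ρ ^ 2)
    (hle : ang q1 q2 z ≤ ang a1 a2 z) :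
    ed a1 a2 q1 q2 ≤ 2 * ρ * (ang a1 a2 z - ang q1 q2 z) := by
  obtain ⟨ha2, ha1, hY0, hY1⟩ := upper_point hρ hγ1 hγ2 hz hc ha hca
  obtain ⟨hq2, hq1, hX0, hX1⟩ := upper_point hρ hγ1 hγ2 hz hc hq hcq
  generalize ang a1 a2 z = φ at *
  generalize ang q1 q2 z = χ at *
  have e1 : q1 - a1 = 2 * ρ * sin (φ - χ) * sin (φ + χ - γ) := by
    have h := trig1 φ (-χ) γ
    have h2 : sin (-χ + γ) * sin (-χ) = sin (χ - γ) * sin χ := by
      rw [sin_neg, show -χ + γ = -(χ - γ) by ring, sin_neg]; ring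
    rw [h2, show φ + -χ = φ - χ by ring, show φ - -χ - γ = φ + χ - γ by ring] at h
    have : q1 - a1 = (z - a1) - (z - q1) := by ring
    rw [this, ha1, hq1]
    linear_combination (2 * ρ) * h
  have e2 : a2 - q2 = 2 * ρ * sin (φ - χ) * cos (φ + χ - γ) := by
    have h := trig2 φ (-χ) γ
    have h2 : sin (-χ + γ) * cos (-χ) = - (sin (χ - γ) * cos χ) := by
      rw [cos_neg, show -χ + γ = -(χ - γ) by ring, sin_neg]; ring
    rw [h2, show φ + -χ = φ - χ by ring, show φ - -χ - γ = φ + χ - γ by ring] at h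
    rw [ha2, hq2]
    linear_combination (2 * ρ) * h
  have hsin : 0 ≤ sin (φ - χ) := sin_nonneg_of_nonneg_of_le_pi (by linarith) (by linarith)
  have e3 : ed a1 a2 q1 q2 = 2 * ρ * sin (φ - χ) := by
    unfold ed
    have h4 := sin_sq_add_cos_sq (φ + χ - γ)
    have h5 : (a1 - q1) ^ 2 + (a2 - q2) ^ 2 = (2 * ρ * sin (φ - χ)) ^ 2 := by
      have h5 : (a1 - q1) ^ 2 + (a2 - q2) ^ 2 = (q1 - a1) ^ 2 + (a2 - q2) ^ 2 := by ring
      rw [h5, e1, e2]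
      linear_combination (2 * ρ * sin (φ - χ)) ^ 2 * h4
    rw [h5, sqrt_sq (by positivity)]
  rw [e3]
  have := sin_le (by linarith : 0 ≤ φ - χ)
  nlinarith

/-- distance from an upper point to the left intersection -/
lemma upper_left (hρ : 0 < ρ) (hγ1 : -(π / 2) < γ) (hγ2 : γ < π / 2)
    (hz : z = c1 + ρ * cos γ) (hc : c2 = -ρ * sin γ) (ha : 0 < a2)
    (hca : (a1 - c1) ^ 2 + (a2 - c2) ^ 2 = ρ ^ 2) :
    ed (c1 - ρ * cos γ) 0 a1 a2 ≤ ρ * (π - 2 * ang a1 a2 z) := by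
  obtain ⟨ha2, ha1, hY0, hY1⟩ := upper_point hρ hγ1 hγ2 hz hc ha hca
  have hcos := cos_ang_pos a1 a2 z
  have hlt := ang_lt a1 a2 z
  generalize ang a1 a2 z = φ at *
  have e1 : c1 - ρ * cos γ - a1 = - (2 * ρ * cos φ * cos (φ - γ)) := by
    have h2 : cos γ = cos φ * cos (φ - γ) + sin φ * sin (φ - γ) := by
      rw [← cos_sub]; congr 1; ring
    have h3 : c1 = z - ρ * cos γ := by rw [hz]; ring
    have h4 : a1 = z - 2 * ρ * sin (φ - γ) * sin φ := by linarith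
    rw [h3, h4]
    linear_combination (-2 * ρ) * h2
  have e3 : ed (c1 - ρ * cos γ) 0 a1 a2 = 2 * ρ * cos φ := by
    unfold ed
    have h4 := sin_sq_add_cos_sq (φ - γ)
    have h5 : (c1 - ρ * cos γ - a1) ^ 2 + (0 - a2) ^ 2 = (2 * ρ * cos φ) ^ 2 := by
      rw [e1, ha2]
      linear_combination (2 * ρ * cos φ) ^ 2 * h4
    rw [h5, sqrt_sq (by positivity)]
  rw [e3]
  have h6 : cos φ ≤ π / 2 - φ := by
    have := sin_le (by linarith : 0 ≤ π / 2 - φ)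
    rwa [sin_pi_div_two_sub] at this
  nlinarith

/-- distance from an upper point to the right intersection -/
lemma upper_right (hρ : 0 < ρ) (hγ1 : -(π / 2) < γ) (hγ2 : γ < π / 2)
    (hz : z = c1 + ρ * cos γ) (hc : c2 = -ρ * sin γ) (ha : 0 < a2)
    (hca : (a1 - c1) ^ 2 + (a2 - c2) ^ 2 = ρ ^ 2) :
    ed a1 a2 z 0 ≤ 2 * ρ * (ang a1 a2 z - γ) := by
  obtain ⟨ha2, ha1, hY0, hY1⟩ := upper_point hρ hγ1 hγ2 hz hc ha hca
  generalize ang a1 a2 z = φ at *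
  have hs : 0 < sin (φ - γ) := sin_pos_of_pos_of_lt_pi hY0 hY1
  have e3 : ed a1 a2 z 0 = 2 * ρ * sin (φ - γ) := by
    unfold ed
    have h4 := sin_sq_add_cos_sq φ
    have h5 : (a1 - z) ^ 2 + (a2 - 0) ^ 2 = (2 * ρ * sin (φ - γ)) ^ 2 := by
      have h6 : (a1 - z) ^ 2 + (a2 - 0) ^ 2 = (z - a1) ^ 2 + a2 ^ 2 := by ring
      rw [h6, ha1, ha2]
      linear_combination (2 * ρ * sin (φ - γ)) ^ 2 * h4
    rw [h5, sqrt_sq (by positivity)]
  rw [e3]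
  have := sin_le (by linarith : 0 ≤ φ - γ)
  nlinarith

end

end Pool.Agent.H962
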