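import Mathlib

/-!
# Delaunay triangulations as geometric simplicial complexes: the definitions
-/

set_option autoImplicit false

namespace Pool.Agent.H962

/-- the Euclidean plane -/
abbrev Plane := EuclideanSpace ℝ (Fin 2)

/-- `K` is a Delaunay triangulation of the finite set `S`: a geometric simplicial complex with
vertex set `S` which fills the convex hull of `S`, such that every triangle has a circumscribed
circle without points of `S` in its interior. -/
structure IsDelaunay (S : Finset Plane) (K : Geometry.SimplicialComplex ℝ Plane) : Prop where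
  vertices_eq : K.vertices = (S : Set Plane)
  space_eq : K.space = convexHull ℝ (S : Set Plane)
  empty_circle : ∀ s ∈ K.faces, s.card = 3 →
    ∃ (c : Plane) (r : ℝ), (∀ p ∈ s, dist p c = r) ∧ ∀ p ∈ S, r ≤ dist p c

/-- the straight-line graph of a simplicial complex -/
def edgeGraph (K : Geometry.SimplicialComplex ℝ Plane) : SimpleGraph Plane where
  Adj p q := p ≠ q ∧ ∃ s ∈ K.faces, p ∈ s ∧ q ∈ s
  symm := ⟨fun p q h => by
    obtain ⟨h1, s, hs, h2, h3⟩ := h
    exact ⟨h1.symm, s, hs, h3, h2⟩⟩
  loopless := ⟨fun p h => h.1 rfl⟩

/-- Euclidean length of a walk -/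
noncomputable def walkLength {G : SimpleGraph Plane} {u v : Plane} (w : G.Walk u v) : ℝ :=
  (w.darts.map (fun d => dist d.fst d.snd)).sum

end Pool.Agent.H962
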