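import Pool.Agent.H962.Chain
import Pool.Agent.H962.Defs

/-!
# Delaunay triangulations as geometric simplicial complexes
-/

set_option autoImplicit false

open Real

namespace Pool.Agent.H962

section coords

/-- coordinate along the line through `u` and `v` -/
noncomputable def cX (u v p : Plane) : ℝ :=
  ((p 0 - u 0) * (v 0 - u 0) + (p 1 - u 1) * (v 1 - u 1)) / dist u v

/-- coordinate orthogonal to the line through `u` and `v` -/
noncomputable def cY (u v p : Plane) : ℝ :=
  ((p 1 - u 1) * (v 0 - u 0) - (p 0 - u 0) * (v 1 - u 1)) / dist u v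

lemma dist_sq (p q : Plane) : dist p q ^ 2 = (p 0 - q 0) ^ 2 + (p 1 - q 1) ^ 2 := by
  rw [EuclideanSpace.dist_eq, sq_sqrt (by positivity)]
  simp [Fin.sum_univ_two, Real.dist_eq, sq_abs]

variable {u v : Plane}

lemma cX_u : cX u v u = 0 := by simp [cX]
lemma cY_u : cY u v u = 0 := by simp [cY]
lemma cY_v : cY u v v = 0 := by
  unfold cY
  rw [show (v 1 - u 1) * (v 0 - u 0) - (v 0 - u 0) * (v 1 - u 1) = 0 by ring, zero_div]
lemma cX_v (h : u ≠ v) : cX u v v = dist u v := by
  have hd : 0 < dist u v := dist_pos.mpr h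
  have h2 := dist_sq u v
  unfold cX
  rw [div_eq_iff hd.ne']
  nlinarith

lemma coord_sq (h : u ≠ v) (p q : Plane) :
    (cX u v p - cX u v q) ^ 2 + (cY u v p - cY u v q) ^ 2 = dist p q ^ 2 := by
  have hd : 0 < dist u v := dist_pos.mpr h
  have h2 := dist_sq u v
  have h3 := dist_sq p q
  unfold cX cY
  rw [← sub_div, ← sub_div, div_pow, div_pow, ← add_div, h3, div_eq_iff (by positivity), h2]
  ring

lemma ed_coord (h : u ≠ v) (p q : Plane) :
    ed (cX u v p) (cY u v p) (cX u v q) (cY u v q) = dist p q := by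
  unfold ed
  rw [show (cX u v p - cX u v q) ^ 2 + (cY u v p - cY u v q) ^ 2 = dist p q ^ 2 from
    coord_sq h p q]
  exact sqrt_sq dist_nonneg

lemma coord_inj (h : u ≠ v) {p q : Plane} (h1 : cX u v p = cX u v q) (h2 : cY u v p = cY u v q) :
    p = q := by
  have := coord_sq h p q
  rw [h1, h2] at this
  have h3 : dist p q ^ 2 = 0 := by rw [← this]; ring
  exact dist_eq_zero.mp (pow_eq_zero_iff (by norm_num) |>.mp h3)

lemma cX_sum {s : Finset Plane} {w : Plane → ℝ} (hw : ∑ y ∈ s, w y = 1) :
    cX u v (∑ y ∈ s, w y • y) = ∑ y ∈ s, w y * cX u v y := by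
  have e0 : (∑ y ∈ s, w y • y) 0 = ∑ y ∈ s, w y * y 0 := by
    simp [Finset.sum_apply]
  have e1 : (∑ y ∈ s, w y • y) 1 = ∑ y ∈ s, w y * y 1 := by
    simp [Finset.sum_apply]
  unfold cX
  rw [e0, e1]
  simp_rw [← mul_div_assoc]
  rw [← Finset.sum_div]
  congr 1
  have h0 : u 0 = ∑ y ∈ s, w y * u 0 := by rw [← Finset.sum_mul, hw, one_mul]
  have h1 : u 1 = ∑ y ∈ s, w y * u 1 := by rw [← Finset.sum_mul, hw, one_mul]
  have g0 : (∑ y ∈ s, w y * y 0) - u 0 = ∑ y ∈ s, w y * (y 0 - u 0) := by
    conv_lhs => rw [h0]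
    rw [← Finset.sum_sub_distrib]
    exact Finset.sum_congr rfl (fun y _ => by ring)
  have g1 : (∑ y ∈ s, w y * y 1) - u 1 = ∑ y ∈ s, w y * (y 1 - u 1) := by
    conv_lhs => rw [h1]
    rw [← Finset.sum_sub_distrib]
    exact Finset.sum_congr rfl (fun y _ => by ring)
  rw [g0, g1, Finset.sum_mul, Finset.sum_mul, ← Finset.sum_add_distrib]
  exact Finset.sum_congr rfl (fun y _ => by ring)

lemma cY_sum {s : Finset Plane} {w : Plane → ℝ} (hw : ∑ y ∈ s, w y = 1) :
    cY u v (∑ y ∈ s, w y • y) = ∑ y ∈ s, w y * cY u v y := by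
  have e0 : (∑ y ∈ s, w y • y) 0 = ∑ y ∈ s, w y * y 0 := by
    simp [Finset.sum_apply]
  have e1 : (∑ y ∈ s, w y • y) 1 = ∑ y ∈ s, w y * y 1 := by
    simp [Finset.sum_apply]
  unfold cY
  rw [e0, e1]
  simp_rw [← mul_div_assoc]
  rw [← Finset.sum_div]
  congr 1
  have h0 : u 0 = ∑ y ∈ s, w y * u 0 := by rw [← Finset.sum_mul, hw, one_mul]
  have h1 : u 1 = ∑ y ∈ s, w y * u 1 := by rw [← Finset.sum_mul, hw, one_mul]
  have g0 : (∑ y ∈ s, w y * y 0) - u 0 = ∑ y ∈ s, w y * (y 0 - u 0) := by
    conv_lhs => rw [h0]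
    rw [← Finset.sum_sub_distrib]
    exact Finset.sum_congr rfl (fun y _ => by ring)
  have g1 : (∑ y ∈ s, w y * y 1) - u 1 = ∑ y ∈ s, w y * (y 1 - u 1) := by
    conv_lhs => rw [h1]
    rw [← Finset.sum_sub_distrib]
    exact Finset.sum_congr rfl (fun y _ => by ring)
  rw [g0, g1, Finset.sum_mul, Finset.sum_mul, ← Finset.sum_sub_distrib]
  exact Finset.sum_congr rfl (fun y _ => by ring)

lemma cX_comb (p q : Plane) (s : ℝ) :
    cX u v ((1 - s) • p + s • q) = (1 - s) * cX u v p + s * cX u v q := by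
  unfold cX
  simp only [PiLp.add_apply, PiLp.smul_apply, smul_eq_mul]
  ring

lemma cY_comb (p q : Plane) (s : ℝ) :
    cY u v ((1 - s) • p + s • q) = (1 - s) * cY u v p + s * cY u v q := by
  unfold cY
  simp only [PiLp.add_apply, PiLp.smul_apply, smul_eq_mul]
  ring

end coords

section faces

variable {S : Finset Plane} {K : Geometry.SimplicialComplex ℝ Plane}

lemma face_subset (hK : IsDelaunay S K) {s : Finset Plane} (hs : s ∈ K.faces) : s ⊆ S := by
  intro p hp
  have h1 : p ∈ K.vertices :=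
    K.down_closed hs (Finset.singleton_subset_iff.mpr hp) (Finset.singleton_nonempty p)
  rw [hK.vertices_eq] at h1
  exact h1

lemma mem_of_conv (hK : IsDelaunay S K) {s : Finset Plane} (hs : s ∈ K.faces) {p : Plane}
    (hp : p ∈ S) (h : p ∈ convexHull ℝ (s : Set Plane)) : p ∈ s := by
  have h1 : p ∈ K.vertices := by rw [hK.vertices_eq]; exact hp
  exact (K.vertex_mem_convexHull_iff h1 hs).mp h

/-- The segment from `m` towards `v` starts in a face which contains `m`. -/
lemma local_face (hK : IsDelaunay S K) {m v : Plane} (hm : m ∈ convexHull ℝ (S : Set Plane))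
    (hv : v ∈ convexHull ℝ (S : Set Plane)) :
    ∃ f ∈ K.faces, m ∈ convexHull ℝ (f : Set Plane) ∧
      ∃ s : ℝ, 0 < s ∧ s ≤ 1 ∧ (1 - s) • m + s • v ∈ convexHull ℝ (f : Set Plane) := by
  have hcov : ∀ n : ℕ, ∃ f : S.powerset, (f : Finset Plane) ∈ K.faces ∧
      (1 - 1 / ((n : ℝ) + 1)) • m + (1 / ((n : ℝ) + 1)) • v ∈
        convexHull ℝ ((f : Finset Plane) : Set Plane) := by
    intro n
    have h1 : (1 - 1 / ((n : ℝ) + 1)) • m + (1 / ((n : ℝ) + 1)) • v ∈
        convexHull ℝ (S : Set Plane) := by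
      apply (convex_convexHull ℝ (S : Set Plane)) hm hv
      · have : 1 / ((n : ℝ) + 1) ≤ 1 := by
          rw [div_le_one (by positivity)]; linarith [show (0 : ℝ) ≤ n from Nat.cast_nonneg n]
        linarith
      · positivity
      · ring
    rw [← hK.space_eq, Geometry.SimplicialComplex.mem_space_iff] at h1
    obtain ⟨f, hf, hx⟩ := h1
    exact ⟨⟨f, Finset.mem_powerset.mpr (face_subset hK hf)⟩, hf, hx⟩
  choose g hg1 hg2 using hcov
  obtain ⟨f, hf⟩ := Finite.exists_infinite_fiber g
  have hfin : (g ⁻¹' {f}).Infinite := Set.infinite_coe_iff.mp hf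
  obtain ⟨n0, hn0⟩ := hfin.nonempty
  have hn0' : g n0 = f := hn0
  refine ⟨f, by rw [← hn0']; exact hg1 n0, ?_, 1 / ((n0 : ℝ) + 1), by positivity, ?_, ?_⟩
  · have hclosed : IsClosed (convexHull ℝ ((f : Finset Plane) : Set Plane)) :=
      (Set.Finite.isCompact_convexHull (𝕜 := ℝ) (Finset.finite_toSet _)).isClosed
    have hfreq : ∃ᶠ n : ℕ in Filter.atTop,
        (1 - 1 / ((n : ℝ) + 1)) • m + (1 / ((n : ℝ) + 1)) • v ∈
          convexHull ℝ ((f : Finset Plane) : Set Plane) := by
      rw [Nat.frequently_atTop_iff_infinite]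
      apply hfin.mono
      intro n hn
      have hn' : g n = f := hn
      have := hg2 n
      rw [hn'] at this
      exact this
    have hlim : Filter.Tendsto
        (fun n : ℕ => (1 - 1 / ((n : ℝ) + 1)) • m + (1 / ((n : ℝ) + 1)) • v) Filter.atTop
        (nhds m) := by
      have h0 := tendsto_one_div_add_atTop_nhds_zero_nat (𝕜 := ℝ)
      have h1 : Filter.Tendsto (fun n : ℕ => (1 : ℝ) - 1 / ((n : ℝ) + 1)) Filter.atTop
          (nhds (1 - 0)) := h0.const_sub 1
      have h2 := (h1.smul_const m).add (h0.smul_const v)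
      simpa using h2
    exact hclosed.mem_of_frequently_of_tendsto hfreq hlim
  · rw [div_le_one (by positivity)]; linarith [show (0 : ℝ) ≤ n0 from Nat.cast_nonneg n0]
  · have := hg2 n0
    rw [hn0'] at this
    exact this

lemma conv_coords {f : Finset Plane} {x : Plane} (hx : x ∈ convexHull ℝ (f : Set Plane)) :
    ∃ w : Plane → ℝ, (∀ y ∈ f, 0 ≤ w y) ∧ ∑ y ∈ f, w y = 1 ∧
      ∀ u v : Plane, cX u v x = ∑ y ∈ f, w y * cX u v y ∧ cY u v x = ∑ y ∈ f, w y * cY u v y := by
  rw [Finset.mem_convexHull'] at hx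
  obtain ⟨w, h1, h2, h3⟩ := hx
  refine ⟨w, h1, h2, ?_⟩
  intro u v
  rw [← h3]
  exact ⟨cX_sum h2, cY_sum h2⟩

lemma comb_mem_conv {f : Finset Plane} {p q : Plane} (hp : p ∈ convexHull ℝ (f : Set Plane))
    (hq : q ∈ convexHull ℝ (f : Set Plane)) {s : ℝ} (h0 : 0 ≤ s) (h1 : s ≤ 1) :
    (1 - s) • p + s • q ∈ convexHull ℝ (f : Set Plane) :=
  (convex_convexHull ℝ (f : Set Plane)) hp hq (by linarith) h0 (by ring)

lemma card_face_le {s : Finset Plane} (hs : s ∈ K.faces) : s.card ≤ 3 := by
  have h1 := (K.indep hs).card_le_finrank_succ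
  have h2 : Module.finrank ℝ (vectorSpan ℝ (Set.range ((↑) : s → Plane))) ≤ 2 := by
    have := Submodule.finrank_le (vectorSpan ℝ (Set.range ((↑) : s → Plane)))
    simpa using this
  have h3 : Fintype.card s = s.card := Fintype.card_coe s
  omega

/-- if `v` lies behind a point of the axis within the hull of a face then it is in the face -/
lemma mem_of_between (hK : IsDelaunay S K) {u v : Plane} (huv : u ≠ v) (hv : v ∈ S)
    {f : Finset Plane} (hf : f ∈ K.faces) {m q : Plane} (hm : m ∈ convexHull ℝ (f : Set Plane))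
    (hq : q ∈ convexHull ℝ (f : Set Plane)) (hYm : cY u v m = 0) (hYq : cY u v q = 0)
    (hXm : cX u v m ≤ dist u v) (hXq : dist u v ≤ cX u v q) : v ∈ f := by
  apply mem_of_conv hK hf hv
  rcases eq_or_lt_of_le (hXm.trans hXq) with h | h
  · have : v = m := by
      apply coord_inj huv
      · rw [cX_v huv]; linarith
      · rw [cY_v, hYm]
    rwa [this]
  · have h1 : 0 < cX u v q - cX u v m := by linarith
    have hd := cX_v huv
    have : v = (1 - (dist u v - cX u v m) / (cX u v q - cX u v m)) • m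
        + ((dist u v - cX u v m) / (cX u v q - cX u v m)) • q := by
      apply coord_inj huv
      · rw [cX_comb, hd]
        field_simp
        ring
      · rw [cY_comb, cY_v, hYm, hYq]; ring
    rw [this]
    apply comb_mem_conv hm hq
    · exact div_nonneg (by linarith) h1.le
    · rw [div_le_one h1]; linarith

lemma circle_data {u v : Plane} (huv : u ≠ v) {c p : Plane} {r : ℝ} (h : dist p c = r) :
    On (cX u v c) (cY u v c) r (cX u v p) (cY u v p) := by
  unfold On
  rw [coord_sq huv, h]

lemma hasNext (hK : IsDelaunay S K) {u v : Plane} (huv : u ≠ v) (hv : v ∈ S)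
    (hseg : ∀ p ∈ S, cY u v p = 0 → 0 < cX u v p → cX u v p < dist u v → False) :
    HasNext (cX u v) (cY u v) (edgeGraph K).Adj S u v := by
  classical
  intro a ha b hb hab hYa hYb hcr0 hcr1
  rw [cX_u] at hcr0
  rw [cX_v huv] at hcr1
  set X := cX u v with hX
  set Y := cY u v with hY
  have hYab : 0 < Y a - Y b := by linarith
  -- the crossing point
  set s := Y a / (Y a - Y b) with hs
  have hs0 : 0 < s := div_pos hYa hYab
  have hs1 : s < 1 := by rw [hs, div_lt_one hYab]; linarith
  set m : Plane := (1 - s) • a + s • b with hm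
  have hYm : Y m = 0 := by
    rw [hm, hY, cY_comb, hs]; field_simp; ring
  have hXm : X m = cr X Y a b := by
    rw [hm, hX, cX_comb, ← hX, hs]; unfold cr; field_simp; ring
  obtain ⟨hne, s0, hs0f, has0, hbs0⟩ := hab
  have hab_face : ({a, b} : Finset Plane) ∈ K.faces :=
    K.down_closed hs0f (by intro x hx; simp only [Finset.mem_insert, Finset.mem_singleton] at hx
                           rcases hx with rfl | rfl <;> assumption) (by simp)
  have hm_ab : m ∈ convexHull ℝ (({a, b} : Finset Plane) : Set Plane) := by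
    apply comb_mem_conv _ _ hs0.le hs1.le
    · exact subset_convexHull ℝ _ (by simp)
    · exact subset_convexHull ℝ _ (by simp)
  have hm_S : m ∈ convexHull ℝ (S : Set Plane) := by
    refine convexHull_mono ?_ hm_ab
    intro x hx
    simp only [Finset.coe_insert, Finset.coe_singleton, Set.mem_insert_iff,
      Set.mem_singleton_iff] at hx
    rcases hx with rfl | rfl <;> simpa
  obtain ⟨f, hf, hmf, s', hs'0, hs'1, hxf⟩ :=
    local_face hK hm_S (subset_convexHull ℝ _ hv : v ∈ convexHull ℝ (S : Set Plane))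
  -- a and b lie in f
  have hmi := K.inter_subset_convexHull hab_face hf ⟨hm_ab, hmf⟩
  have haf : a ∈ f := by
    by_contra hcon
    have hsub : (↑({a, b} : Finset Plane) ∩ (f : Set Plane)) ⊆ {b} := by
      intro x hx
      simp only [Finset.coe_insert, Finset.coe_singleton, Set.mem_inter_iff, Set.mem_insert_iff,
        Set.mem_singleton_iff, Finset.mem_coe] at hx
      rcases hx.1 with rfl | rfl
      · exact absurd hx.2 hcon
      · simp
    have := convexHull_mono (𝕜 := ℝ) hsub hmi
    rw [convexHull_singleton, Set.mem_singleton_iff] at this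
    rw [this] at hYm
    linarith
  have hbf : b ∈ f := by
    by_contra hcon
    have hsub : (↑({a, b} : Finset Plane) ∩ (f : Set Plane)) ⊆ {a} := by
      intro x hx
      simp only [Finset.coe_insert, Finset.coe_singleton, Set.mem_inter_iff, Set.mem_insert_iff,
        Set.mem_singleton_iff, Finset.mem_coe] at hx
      rcases hx.1 with rfl | rfl
      · simp
      · exact absurd hx.2 hcon
    have := convexHull_mono (𝕜 := ℝ) hsub hmi
    rw [convexHull_singleton, Set.mem_singleton_iff] at this
    rw [this] at hYm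
    linarith
  -- a vertex on the right
  obtain ⟨w, hw0, hw1, hwc⟩ := conv_coords hxf
  obtain ⟨hwx, hwy⟩ := hwc u v
  rw [cX_comb, cX_v huv] at hwx
  rw [cY_comb, cY_v] at hwy
  rw [← hX] at hwx
  rw [← hY] at hwy
  rw [hXm] at hwx
  rw [hYm] at hwy
  have hq : ∃ q ∈ f, 0 < ori (X a) (Y a) (X b) (Y b) (X q) (Y q) := by
    by_contra hcon
    push Not at hcon
    have h1 : ∑ y ∈ f, w y * ori (X a) (Y a) (X b) (Y b) (X y) (Y y) ≤ 0 :=
      Finset.sum_nonpos (fun y hy => mul_nonpos_of_nonneg_of_nonpos (hw0 y hy) (hcon y hy))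
    have h2 : ∑ y ∈ f, w y * ori (X a) (Y a) (X b) (Y b) (X y) (Y y)
        = (X b - X a) * (∑ y ∈ f, w y * Y y) - (Y b - Y a) * (∑ y ∈ f, w y * X y)
          - ((X b - X a) * Y a - (Y b - Y a) * X a) * ∑ y ∈ f, w y := by
      rw [Finset.mul_sum, Finset.mul_sum, Finset.mul_sum, ← Finset.sum_sub_distrib,
        ← Finset.sum_sub_distrib]
      apply Finset.sum_congr rfl
      intro y _
      unfold ori; ring
    rw [h2, hw1, ← hwx, ← hwy] at h1
    have h3 : cr X Y a b * (Y a - Y b) = Y a * X b - X a * Y b := by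
      unfold cr; field_simp
    nlinarith [mul_pos (mul_pos hs'0 hYab) (sub_pos.mpr hcr1)]
  obtain ⟨q, hqf, hqo⟩ := hq
  have hqa : q ≠ a := by
    rintro rfl
    unfold ori at hqo; nlinarith
  have hqb : q ≠ b := by
    rintro rfl
    unfold ori at hqo; nlinarith
  have hT : ({a, b, q} : Finset Plane) ∈ K.faces :=
    K.down_closed hf (by intro x hx; simp only [Finset.mem_insert, Finset.mem_singleton] at hx
                         rcases hx with rfl | rfl | rfl <;> assumption) (by simp)
  have hcard : ({a, b, q} : Finset Plane).card = 3 :=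
    Finset.card_eq_three.mpr ⟨a, b, q, hne, hqa.symm, hqb.symm, rfl⟩
  obtain ⟨c, r, hcirc, hout⟩ := hK.empty_circle _ hT hcard
  have hca := hcirc a (by simp)
  have hcb := hcirc b (by simp)
  have hcq := hcirc q (by simp)
  have hr : 0 < r := by
    rcases (show (0 : ℝ) ≤ r by rw [← hca]; exact dist_nonneg).eq_or_lt with h | h
    · exfalso
      apply hne
      rw [dist_eq_zero.mp (hca.trans h.symm), dist_eq_zero.mp (hcb.trans h.symm)]
    · exact h
  have hqS : q ∈ S := face_subset hK hf hqf
  refine ⟨q, hqS, ⟨hqa.symm, f, hf, haf, hqf⟩, ⟨hqb.symm, f, hf, hbf, hqf⟩, hqo, ?_,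
    X c, Y c, r, hr, circle_data huv hca, circle_data huv hcb, circle_data huv hcq, ?_⟩
  · by_cases hYq : Y q = 0
    · right
      have hXq : cr X Y a b < X q := by
        have h3 : cr X Y a b * (Y a - Y b) = Y a * X b - X a * Y b := by
          unfold cr; field_simp
        unfold ori at hqo
        rw [hYq] at hqo
        nlinarith
      rcases lt_trichotomy (X q) (dist u v) with h | h | h
      · exact (hseg q hqS hYq (hcr0.trans hXq) h).elim
      · apply coord_inj huv
        · rw [cX_v huv]; exact h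
        · rw [cY_v]; exact hYq
      · exfalso
        have hvT : v ∈ ({a, b, q} : Finset Plane) := by
          apply mem_of_between hK huv hv hT (m := m) (q := q) _ _ hYm hYq _ h.le
          · refine convexHull_mono ?_ hm_ab
            intro x hx
            simp only [Finset.coe_insert, Finset.coe_singleton, Set.mem_insert_iff,
              Set.mem_singleton_iff] at hx ⊢
            rcases hx with rfl | rfl <;> simp
          · exact subset_convexHull ℝ _ (by simp)
          · rw [← hX, hXm]; exact hcr1.le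
        simp only [Finset.mem_insert, Finset.mem_singleton] at hvT
        have hYv : Y v = 0 := cY_v
        have hXv : X v = dist u v := cX_v huv
        rcases hvT with h' | h' | h'
        · rw [h'] at hYv; linarith
        · rw [h'] at hYv; linarith
        · rw [← h'] at h; linarith
    · left; exact hYq
  · intro p hp
    have h1 : (X p - X c) ^ 2 + (Y p - Y c) ^ 2 = dist p c ^ 2 := coord_sq huv p c
    rw [h1]
    exact pow_le_pow_left₀ hr.le (hout p hp) 2

/-- What is needed to start the chain at `u`. -/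
def HasStart {P : Type*} (X Y : P → ℝ) (Adj : P → P → Prop) (S : Finset P) (u v : P) : Prop :=
  Adj u v ∨ ∃ a ∈ S, ∃ b ∈ S, Adj u a ∧ Adj u b ∧ Adj a b ∧ 0 < Y a ∧ Y b < 0 ∧
    X u < cr X Y a b ∧ cr X Y a b < X v ∧
    ∃ c1 c2 ρ : ℝ, 0 < ρ ∧ On c1 c2 ρ (X a) (Y a) ∧ On c1 c2 ρ (X b) (Y b) ∧
      On c1 c2 ρ (X u) (Y u) ∧ ∀ p ∈ S, ρ ^ 2 ≤ (X p - c1) ^ 2 + (Y p - c2) ^ 2

lemma hasStart (hK : IsDelaunay S K) {u v : Plane} (huv : u ≠ v) (hu : u ∈ S) (hv : v ∈ S)
    (hseg : ∀ p ∈ S, cY u v p = 0 → 0 < cX u v p → cX u v p < dist u v → False) :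
    HasStart (cX u v) (cY u v) (edgeGraph K).Adj S u v := by
  classical
  set X := cX u v with hX
  set Y := cY u v with hY
  have hXu : X u = 0 := cX_u
  have hYu : Y u = 0 := cY_u
  have hXv : X v = dist u v := cX_v huv
  have hYv : Y v = 0 := cY_v
  have hd : 0 < dist u v := dist_pos.mpr huv
  obtain ⟨f, hf, huf', s', hs'0, hs'1, hxf⟩ :=
    local_face hK (subset_convexHull ℝ _ hu : u ∈ convexHull ℝ (S : Set Plane))
      (subset_convexHull ℝ _ hv : v ∈ convexHull ℝ (S : Set Plane))
  have huf : u ∈ f := mem_of_conv hK hf hu huf'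
  by_cases hvf : v ∈ f
  · left; exact ⟨huv, f, hf, huf, hvf⟩
  right
  obtain ⟨w, hw0, hw1, hwc⟩ := conv_coords hxf
  obtain ⟨hwx, hwy⟩ := hwc u v
  rw [cX_comb, cX_v huv, cX_u] at hwx
  rw [cY_comb, cY_v, cY_u] at hwy
  rw [← hX] at hwx
  rw [← hY] at hwy
  have hsx : 0 < ∑ y ∈ f, w y * X y := by rw [← hwx]; nlinarith [mul_pos hs'0 hd]
  have hsy : ∑ y ∈ f, w y * Y y = 0 := by rw [← hwy]; ring
  -- no vertex of the face on the positive axis
  have hax : ∀ p ∈ f, Y p = 0 → X p ≤ 0 := by
    intro p hp hYp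
    by_contra hcon
    push Not at hcon
    rcases lt_or_ge (X p) (dist u v) with h | h
    · exact hseg p (face_subset hK hf hp) hYp hcon h
    · apply hvf
      exact mem_of_between hK huv hv hf (m := u) (q := p) (subset_convexHull ℝ _ huf)
        (subset_convexHull ℝ _ hp) hYu hYp (by rw [← hX, hXu]; exact hd.le) h
  obtain ⟨p, hp, hwp⟩ : ∃ p ∈ f, 0 < w p * X p := by
    by_contra hcon
    push Not at hcon
    exact absurd (Finset.sum_nonpos hcon) (not_le.mpr hsx)
  have hwp0 : 0 < w p := by
    rcases (hw0 p hp).eq_or_lt with h | h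
    · rw [← h] at hwp; simp at hwp
    · exact h
  have hXp : 0 < X p := by
    by_contra hcon
    push Not at hcon
    exact absurd (mul_nonpos_of_nonneg_of_nonpos hwp0.le hcon) (not_le.mpr hwp)
  have hYp : Y p ≠ 0 := fun h => absurd (hax p hp h) (not_le.mpr hXp)
  have hpn : ∃ q ∈ f, 0 < w q ∧ Y q * Y p < 0 := by
    by_contra hcon
    push Not at hcon
    have h1 : 0 ≤ ∑ y ∈ f.erase p, w y * Y y * Y p := by
      apply Finset.sum_nonneg
      intro y hy
      have hyf := Finset.mem_of_mem_erase hy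
      rcases (hw0 y hyf).eq_or_lt with h | h
      · rw [← h]; simp
      · have := hcon y hyf h
        rw [mul_assoc]
        exact mul_nonneg h.le this
    have h2 : ∑ y ∈ f, w y * Y y * Y p = 0 := by rw [← Finset.sum_mul, hsy, zero_mul]
    rw [← Finset.add_sum_erase f _ hp] at h2
    have h3 : 0 < w p * Y p * Y p := by
      rw [mul_assoc]; exact mul_pos hwp0 (mul_self_pos.mpr hYp)
    linarith
  obtain ⟨a, haf, hwa, hYa, b, hbf, hwb, hYb⟩ :
      ∃ a ∈ f, 0 < w a ∧ 0 < Y a ∧ ∃ b ∈ f, 0 < w b ∧ Y b < 0 := by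
    obtain ⟨q, hq, hwq, hYq⟩ := hpn
    rcases lt_or_gt_of_ne hYp with h | h
    · refine ⟨q, hq, hwq, ?_, p, hp, hwp0, h⟩
      by_contra hcon
      push Not at hcon
      nlinarith
    · refine ⟨p, hp, hwp0, h, q, hq, hwq, ?_⟩
      by_contra hcon
      push Not at hcon
      nlinarith
  have hab : a ≠ b := by rintro rfl; linarith
  have hua : u ≠ a := by rintro rfl; linarith
  have hub : u ≠ b := by rintro rfl; linarith
  have hcard3 : ({u, a, b} : Finset Plane).card = 3 :=
    Finset.card_eq_three.mpr ⟨u, a, b, hua, hub, hab, rfl⟩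
  have hfeq : ({u, a, b} : Finset Plane) = f := by
    apply Finset.eq_of_subset_of_card_le
    · intro x hx
      simp only [Finset.mem_insert, Finset.mem_singleton] at hx
      rcases hx with rfl | rfl | rfl <;> assumption
    · rw [hcard3]; exact card_face_le hf
  have hsum : ∀ g : Plane → ℝ, ∑ y ∈ f, g y = g u + (g a + g b) := by
    intro g
    rw [← hfeq, Finset.sum_insert (by simp [hua, hub]), Finset.sum_insert (by simp [hab]),
      Finset.sum_singleton]
  rw [hsum, hXu] at hsx
  rw [hsum, hYu] at hsy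
  have hYab : 0 < Y a - Y b := by linarith
  have hnum : 0 < Y a * X b - X a * Y b := by
    have h1 : w b * (Y a * X b - X a * Y b) = Y a * (w a * X a + w b * X b) := by
      have : w b * Y b = -(w a * Y a) := by linarith
      calc w b * (Y a * X b - X a * Y b) = Y a * (w b * X b) - X a * (w b * Y b) := by ring
        _ = Y a * (w a * X a + w b * X b) := by rw [this]; ring
    have h2 : 0 < Y a * (w a * X a + w b * X b) := mul_pos hYa (by linarith)
    rw [← h1] at h2
    exact (mul_pos_iff_of_pos_left hwb).mp h2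
  have hcr0 : 0 < cr X Y a b := div_pos hnum hYab
  -- crossing point
  set s := Y a / (Y a - Y b) with hs
  have hs0 : 0 < s := div_pos hYa hYab
  have hs1 : s < 1 := by rw [hs, div_lt_one hYab]; linarith
  set m : Plane := (1 - s) • a + s • b with hm
  have hYm : Y m = 0 := by
    rw [hm, hY, cY_comb, hs]; field_simp; ring
  have hXm : X m = cr X Y a b := by
    rw [hm, hX, cX_comb, ← hX, hs]; unfold cr; field_simp; ring
  have hmf : m ∈ convexHull ℝ (f : Set Plane) := by
    apply comb_mem_conv _ _ hs0.le hs1.le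
    · exact subset_convexHull ℝ _ haf
    · exact subset_convexHull ℝ _ hbf
  have hcr1 : cr X Y a b < dist u v := by
    by_contra hcon
    push Not at hcon
    apply hvf
    exact mem_of_between hK huv hv hf (m := u) (q := m) (subset_convexHull ℝ _ huf) hmf hYu hYm
      (by rw [← hX, hXu]; exact hd.le) (by rw [← hX, hXm]; exact hcon)
  obtain ⟨c, r, hcirc, hout⟩ := hK.empty_circle f hf (by rw [← hfeq]; exact hcard3)
  have hca := hcirc a haf
  have hcb := hcirc b hbf
  have hcu := hcirc u huf
  have hr : 0 < r := by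
    rcases (show (0 : ℝ) ≤ r by rw [← hca]; exact dist_nonneg).eq_or_lt with h | h
    · exfalso
      apply hab
      rw [dist_eq_zero.mp (hca.trans h.symm), dist_eq_zero.mp (hcb.trans h.symm)]
    · exact h
  refine ⟨a, face_subset hK hf haf, b, face_subset hK hf hbf, ⟨hua, f, hf, huf, haf⟩,
    ⟨hub, f, hf, huf, hbf⟩, ⟨hab, f, hf, haf, hbf⟩, hYa, hYb, by rw [hXu]; exact hcr0,
    by rw [hXv]; exact hcr1, X c, Y c, r, hr, circle_data huv hca, circle_data huv hcb,
    circle_data huv hcu, ?_⟩
  intro p hp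
  have h1 : (X p - X c) ^ 2 + (Y p - Y c) ^ 2 = dist p c ^ 2 := coord_sq huv p c
  rw [h1]
  exact pow_le_pow_left₀ hr.le (hout p hp) 2

end faces

section assemble

/-- The chain from start to end. -/
theorem reach_of_start {P : Type*} {X Y : P → ℝ} {Adj : P → P → Prop} {t : ℝ}
    {W : ℝ → ℝ → ℝ → ℝ → ℝ → ℝ → ℝ → ℝ → Prop} (hW : PotSys t W) (ht : 1 ≤ t)
    {S : Finset P} {u v : P}
    (hsymm : ∀ p q, Adj p q → Adj q p) (hv : v ∈ S) (hYu : Y u = 0) (hYv : Y v = 0)
    (huv : X u < X v)
    (hnext : HasNext X Y Adj S u v) (hstart : HasStart X Y Adj S u v) :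
    Reach X Y Adj u v (t * (X v - X u)) := by
  rcases hstart with h | ⟨a, ha, b, hb, hua, hub, hab, hYa, hYb, hcr0, hcr1, c1, c2, ρ, hρ, hca,
    hcb, hcu, hempty⟩
  · refine Reach.step u v 0 _ (Reach.base 0 le_rfl) h ?_
    have h1 : dd X Y u v = X v - X u := by
      unfold dd ed
      rw [hYu, hYv, show (X u - X v) ^ 2 + (0 - 0 : ℝ) ^ 2 = (X v - X u) ^ 2 by ring]
      exact sqrt_sq (by linarith)
    rw [h1]
    nlinarith
  · obtain ⟨γ, z, hC⟩ := exists_circ hρ hYa hYb hca hcb
    obtain ⟨_, _, hR⟩ := chord_data hC.hρ hC.hγ1 hC.hγ2 hC.hz hC.hc hYa hYb hca hcb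
    have hz := (rightOf_iff_cr hYa hYb _).mp hR
    have hu1 : X u = c1 - ρ * cos γ := by
      have h3 : 0 < cos γ := cos_pos_of_mem_Ioo ⟨hC.hγ1, hC.hγ2⟩
      have h5 := sin_sq_add_cos_sq γ
      have hcu' := hcu
      unfold On at hcu'
      rw [hYu, hC.hc] at hcu'
      have h4 : (X u - c1 - ρ * cos γ) * (X u - c1 + ρ * cos γ) = 0 := by nlinarith
      rcases mul_eq_zero.mp h4 with h | h
      · exfalso
        rw [hC.hz] at hz
        linarith
      · linarith
    have hdu : ∀ p : P, ed (X u) 0 (X p) (Y p) = dd X Y u p := by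
      intro p; unfold dd; rw [hYu]
    have hW0 := hW.start c1 c2 ρ γ z (X a) (Y a) (X b) (Y b) (X u) hC hYa hYb hca hcb hu1
    rw [hdu, hdu] at hW0
    refine chain hW hsymm hv hYv hnext _ a ha b hb hab hYa hYb hcr0 hcr1 le_rfl c1 c2 ρ γ z hC
      hca hcb hempty (dd X Y u a) (dd X Y u b) ?_ ?_ ?_ hW0
    · exact Reach.step u a 0 _ (Reach.base 0 le_rfl) hua (by rw [zero_add])
    · exact Reach.step u b 0 _ (Reach.base 0 le_rfl) hub (by rw [zero_add])
    · rw [abs_le]
      have h1 := dd_triangle (X := X) (Y := Y) u a b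
      have h2 := dd_triangle (X := X) (Y := Y) u b a
      rw [dd_comm b a] at h2
      constructor <;> linarith

lemma walkLength_append {G : SimpleGraph Plane} {u v w : Plane} (p : G.Walk u v) (q : G.Walk v w) :
    walkLength (p.append q) = walkLength p + walkLength q := by
  unfold walkLength
  rw [SimpleGraph.Walk.darts_append, List.map_append, List.sum_append]

lemma walkLength_single {G : SimpleGraph Plane} {u v : Plane} (h : G.Adj u v) :
    walkLength (SimpleGraph.Walk.cons h SimpleGraph.Walk.nil) = dist u v := by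
  simp [walkLength]

lemma walk_of_reach {G : SimpleGraph Plane} {u0 v0 : Plane} (huv : u0 ≠ v0) {u p : Plane} {D : ℝ}
    (h : Reach (cX u0 v0) (cY u0 v0) G.Adj u p D) : ∃ w : G.Walk u p, walkLength w ≤ D := by
  induction h with
  | base D h => exact ⟨SimpleGraph.Walk.nil, by simpa [walkLength] using h⟩
  | step p q D D' _ hpq hD ih =>
    obtain ⟨w, hw⟩ := ih
    refine ⟨w.append (SimpleGraph.Walk.cons hpq SimpleGraph.Walk.nil), ?_⟩
    rw [walkLength_append, walkLength_single]
    unfold dd at hD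
    rw [ed_coord huv] at hD
    linarith

/-- Splitting at the points of `S` on the segment. -/
theorem spanner_of_local {t : ℝ} {S : Finset Plane} (G : SimpleGraph Plane)
    (hloc : ∀ u ∈ S, ∀ v ∈ S, u ≠ v →
      (∀ p ∈ S, cY u v p = 0 → 0 < cX u v p → cX u v p < dist u v → False) →
      ∃ w : G.Walk u v, walkLength w ≤ t * dist u v) (N : ℕ) :
    ∀ u ∈ S, ∀ v ∈ S, (S.filter (fun p => dist u p + dist p v = dist u v)).card ≤ N →
      ∃ w : G.Walk u v, walkLength w ≤ t * dist u v := by
  classical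
  induction N using Nat.strong_induction_on with
  | _ N ih =>
    intro u hu v hv hN
    by_cases huv : u = v
    · subst huv
      exact ⟨SimpleGraph.Walk.nil, by simp [walkLength]⟩
    by_cases hseg : ∀ p ∈ S, cY u v p = 0 → 0 < cX u v p → cX u v p < dist u v → False
    · exact hloc u hu v hv huv hseg
    push Not at hseg
    obtain ⟨p, hp, hYp, hXp0, hXp1, -⟩ := hseg
    have hup : dist u p = cX u v p := by
      have := coord_sq huv u p
      rw [cX_u, cY_u, hYp] at this
      have h2 : dist u p ^ 2 = cX u v p ^ 2 := by rw [← this]; ring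
      exact (pow_left_inj₀ dist_nonneg hXp0.le (by norm_num)).mp h2
    have hpv : dist p v = dist u v - cX u v p := by
      have := coord_sq huv p v
      rw [cX_v huv, cY_v, hYp] at this
      have h2 : dist p v ^ 2 = (dist u v - cX u v p) ^ 2 := by rw [← this]; ring
      exact (pow_left_inj₀ dist_nonneg (by linarith) (by norm_num)).mp h2
    have hsum : dist u p + dist p v = dist u v := by rw [hup, hpv]; ring
    have hpv0 : p ≠ v := by
      rintro rfl; rw [cX_v huv] at hXp1; exact lt_irrefl _ hXp1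
    have hpu0 : u ≠ p := by
      rintro rfl; rw [cX_u] at hXp0; exact lt_irrefl _ hXp0
    have c1 : (S.filter (fun q => dist u q + dist q p = dist u p)).card < N := by
      refine lt_of_lt_of_le (Finset.card_lt_card ?_) hN
      rw [Finset.ssubset_iff_of_subset]
      · refine ⟨v, ?_, ?_⟩
        · simp [hv]
        · simp only [Finset.mem_filter, not_and]
          intro _ h
          have h1 : 0 < dist p v := dist_pos.mpr hpv0
          rw [dist_comm v p] at h
          linarith
      · intro q hq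
        simp only [Finset.mem_filter] at hq ⊢
        refine ⟨hq.1, ?_⟩
        have h1 := dist_triangle q p v
        have h2 := dist_triangle u q v
        linarith [hq.2]
    have c2 : (S.filter (fun q => dist p q + dist q v = dist p v)).card < N := by
      refine lt_of_lt_of_le (Finset.card_lt_card ?_) hN
      rw [Finset.ssubset_iff_of_subset]
      · refine ⟨u, ?_, ?_⟩
        · simp [hu]
        · simp only [Finset.mem_filter, not_and]
          intro _ h
          have h1 : 0 < dist u p := dist_pos.mpr hpu0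
          rw [dist_comm p u] at h
          linarith
      · intro q hq
        simp only [Finset.mem_filter] at hq ⊢
        refine ⟨hq.1, ?_⟩
        have h1 := dist_triangle u p q
        have h2 := dist_triangle u q v
        linarith [hq.2]
    obtain ⟨w1, hw1⟩ := ih _ c1 u hu p hp le_rfl
    obtain ⟨w2, hw2⟩ := ih _ c2 p hp v hv le_rfl
    refine ⟨w1.append w2, ?_⟩
    rw [walkLength_append, ← hsum]
    linarith

/-- Stretch bound for all Delaunay triangulations from a potential. -/
theorem spanner_of_potSys {t : ℝ} {W : ℝ → ℝ → ℝ → ℝ → ℝ → ℝ → ℝ → ℝ → Prop} (hW : PotSys t W)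
    (ht : 1 ≤ t) {S : Finset Plane} {K : Geometry.SimplicialComplex ℝ Plane}
    (hK : IsDelaunay S K) {u v : Plane} (hu : u ∈ S) (hv : v ∈ S) :
    ∃ w : (edgeGraph K).Walk u v, walkLength w ≤ t * dist u v := by
  refine spanner_of_local (edgeGraph K) ?_ _ u hu v hv le_rfl
  intro u hu v hv huv hseg
  have h := reach_of_start hW ht (X := cX u v) (Y := cY u v) (Adj := (edgeGraph K).Adj) (S := S)
    (fun p q h => h.symm) hv cY_u cY_v (by rw [cX_u, cX_v huv]; exact dist_pos.mpr huv)
    (hasNext hK huv hv hseg) (hasStart hK huv hu hv hseg)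
  rw [cX_u, cX_v huv, sub_zero] at h
  exact walk_of_reach huv h

end assemble

end Pool.Agent.H962
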