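import Mathlib

/-!
# The rate function of a linear potential

`fF τ A B k x y` is the slack in the rate inequality of a linear potential at a state with half
arcs `x` and `y`.  It is positive on a rectangle as soon as it is positive at the corners.
-/

set_option autoImplicit false

open Real Set

namespace Pool.Agent.H962

/-- Auxiliary one dimensional function. -/
noncomputable def uF (P B R θ : ℝ) : ℝ := (P + B * θ) * cos θ + R * sin θ

lemma gF_mono {P B : ℝ} (hB : 0 ≤ B) {s t : ℝ} (hst : s ≤ t) :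
    P + B * (s - sin s * cos s) ≤ P + B * (t - sin t * cos t) := by
  have h1 : sin t * cos t - sin s * cos s ≤ t - s := by
    have e1 : sin t * cos t = sin (2 * t) / 2 := by rw [sin_two_mul]; ring
    have e2 : sin s * cos s = sin (2 * s) / 2 := by rw [sin_two_mul]; ring
    rw [e1, e2]
    have h2 : sin (2 * t) - sin (2 * s) = 2 * sin ((2 * t - 2 * s) / 2) * cos ((2 * t + 2 * s) / 2) :=
      sin_sub_sin _ _
    have h3 : (2 * t - 2 * s) / 2 = t - s := by ring
    rw [h3] at h2
    have h4 : |sin (t - s)| ≤ |t - s| := abs_sin_le_abs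
    rw [abs_of_nonneg (sub_nonneg.mpr hst)] at h4
    have h5 : |cos ((2 * t + 2 * s) / 2)| ≤ 1 := abs_cos_le_one _
    have h6 : sin (t - s) * cos ((2 * t + 2 * s) / 2) ≤ t - s := by
      calc sin (t - s) * cos ((2 * t + 2 * s) / 2)
          ≤ |sin (t - s) * cos ((2 * t + 2 * s) / 2)| := le_abs_self _
        _ = |sin (t - s)| * |cos ((2 * t + 2 * s) / 2)| := abs_mul _ _
        _ ≤ (t - s) * 1 := mul_le_mul h4 h5 (abs_nonneg _) (sub_nonneg.mpr hst)
        _ = t - s := mul_one _
    linarith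
  have := mul_le_mul_of_nonneg_left h1 hB
  linarith

/-- derivative of the quotient of `uF` by the sine -/
lemma vF_hasDerivAt (P B R : ℝ) {θ : ℝ} (h : sin θ ≠ 0) :
    HasDerivAt (fun θ => uF P B R θ / sin θ)
      (-(P + B * (θ - sin θ * cos θ)) / sin θ ^ 2) θ := by
  have h1 : HasDerivAt (fun θ : ℝ => P + B * θ) B θ := by
    have := ((hasDerivAt_id θ).const_mul B).const_add P
    simpa using this
  have h2 : HasDerivAt (fun θ => uF P B R θ) (B * cos θ + (P + B * θ) * (-sin θ) + R * cos θ) θ := by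
    have := (h1.mul (hasDerivAt_cos θ)).add ((hasDerivAt_sin θ).const_mul R)
    exact this
  have h3 := h2.div (hasDerivAt_sin θ) h
  refine h3.congr_deriv ?_
  congr 1
  unfold uF
  have h4 := sin_sq_add_cos_sq θ
  have h5 : cos θ ^ 2 = 1 - sin θ ^ 2 := by linarith
  ring_nf
  rw [h5]
  ring

lemma vF_mono {P B R s t : ℝ} (hB : 0 ≤ B) (hs : 0 < s) (hst : s ≤ t) (ht : t < π)
    (hg : P + B * (t - sin t * cos t) ≤ 0) :
    uF P B R s / sin s ≤ uF P B R t / sin t := by
  have hsin : ∀ θ ∈ Icc s t, 0 < sin θ := fun θ hθ =>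
    sin_pos_of_pos_of_lt_pi (hs.trans_le hθ.1) (hθ.2.trans_lt ht)
  have hmono : MonotoneOn (fun θ => uF P B R θ / sin θ) (Icc s t) := by
    apply monotoneOn_of_deriv_nonneg (convex_Icc s t)
    · intro θ hθ
      exact (vF_hasDerivAt P B R (hsin θ hθ).ne').continuousAt.continuousWithinAt
    · intro θ hθ
      rw [interior_Icc] at hθ
      exact (vF_hasDerivAt P B R (hsin θ (Ioo_subset_Icc_self hθ)).ne').differentiableAt.differentiableWithinAt
    · intro θ hθ
      rw [interior_Icc] at hθ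
      rw [(vF_hasDerivAt P B R (hsin θ (Ioo_subset_Icc_self hθ)).ne').deriv]
      apply div_nonneg _ (sq_nonneg _)
      have := gF_mono (P := P) hB hθ.2.le
      linarith
  exact hmono (left_mem_Icc.mpr hst) (right_mem_Icc.mpr hst) hst

lemma vF_anti {P B R s t : ℝ} (hB : 0 ≤ B) (hs : 0 < s) (hst : s ≤ t) (ht : t < π)
    (hg : 0 ≤ P + B * (s - sin s * cos s)) :
    uF P B R t / sin t ≤ uF P B R s / sin s := by
  have hsin : ∀ θ ∈ Icc s t, 0 < sin θ := fun θ hθ =>
    sin_pos_of_pos_of_lt_pi (hs.trans_le hθ.1) (hθ.2.trans_lt ht)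
  have hmono : AntitoneOn (fun θ => uF P B R θ / sin θ) (Icc s t) := by
    apply antitoneOn_of_deriv_nonpos (convex_Icc s t)
    · intro θ hθ
      exact (vF_hasDerivAt P B R (hsin θ hθ).ne').continuousAt.continuousWithinAt
    · intro θ hθ
      rw [interior_Icc] at hθ
      exact (vF_hasDerivAt P B R (hsin θ (Ioo_subset_Icc_self hθ)).ne').differentiableAt.differentiableWithinAt
    · intro θ hθ
      rw [interior_Icc] at hθ
      rw [(vF_hasDerivAt P B R (hsin θ (Ioo_subset_Icc_self hθ)).ne').deriv]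
      apply div_nonpos_of_nonpos_of_nonneg _ (sq_nonneg _)
      have := gF_mono (P := P) hB hθ.1.le
      linarith
  exact hmono (left_mem_Icc.mpr hst) (right_mem_Icc.mpr hst) hst

/-- The one dimensional lemma. -/
lemma uF_pos {P B R s t θ : ℝ} (hB : 0 ≤ B) (hs : 0 ≤ s) (hsθ : s ≤ θ) (hθt : θ ≤ t) (ht : t ≤ π)
    (h1 : 0 < uF P B R s) (h2 : 0 < uF P B R t) : 0 < uF P B R θ := by
  rcases hsθ.eq_or_lt with h | h
  · rwa [← h]
  rcases hθt.eq_or_lt with h' | h'
  · rwa [h']
  have hθ0 : 0 < θ := hs.trans_lt h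
  have hθπ : θ < π := h'.trans_le ht
  have hsθ' := sin_pos_of_pos_of_lt_pi hθ0 hθπ
  rcases le_total (P + B * (θ - sin θ * cos θ)) 0 with hg | hg
  · rcases hs.eq_or_lt with h0 | h0
    · exfalso
      have h3 : uF P B R s = P := by unfold uF; rw [← h0]; simp
      rw [h3] at h1
      have := gF_mono (P := P) hB hθ0.le
      simp only [sin_zero, zero_mul, sub_zero, mul_zero, add_zero] at this
      linarith
    · have h4 := vF_mono (R := R) hB h0 h.le hθπ hg
      have h5 : 0 < uF P B R s / sin s :=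
        div_pos h1 (sin_pos_of_pos_of_lt_pi h0 (h.trans hθπ))
      have h6 : 0 < uF P B R θ / sin θ := h5.trans_le h4
      have := mul_pos h6 hsθ'
      rwa [div_mul_cancel₀ _ hsθ'.ne'] at this
  · rcases ht.eq_or_lt with h0 | h0
    · exfalso
      have h3 : uF P B R t = -(P + B * (π - sin π * cos π)) := by unfold uF; rw [h0]; simp
      rw [h3] at h2
      have := gF_mono (P := P) hB hθπ.le
      linarith
    · have h4 := vF_anti (R := R) hB hθ0 h'.le h0 hg
      have h5 : 0 < uF P B R t / sin t :=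
        div_pos h2 (sin_pos_of_pos_of_lt_pi (hθ0.trans h') h0)
      have h6 : 0 < uF P B R θ / sin θ := h5.trans_le h4
      have := mul_pos h6 hsθ'
      rwa [div_mul_cancel₀ _ hsθ'.ne'] at this

/-- The slack of the rate inequality. -/
noncomputable def fF (τ A B k x y : ℝ) : ℝ :=
  2 * τ * (sin x * sin y) - A * (sin x * cos y) - B * (cos x * sin y)
    + (A * x + B * y + k) * cos (x + y)

lemma fF_eq_y (τ A B k x y : ℝ) :
    fF τ A B k x y = uF ((A - B) * x + k + (-(2 * τ * sin x * sin x) - A * sin x * cos x + B * cos x * sin x)) B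
      (2 * τ * sin x * cos x - A * sin x * sin x - B * cos x * cos x) (x + y) := by
  unfold fF uF
  have e1 : sin y = sin (x + y) * cos x - cos (x + y) * sin x := by
    rw [← sin_sub]; congr 1; ring
  have e2 : cos y = cos (x + y) * cos x + sin (x + y) * sin x := by
    rw [← cos_sub]; congr 1; ring
  rw [e1, e2]
  ring

lemma fF_swap (τ A B k x y : ℝ) : fF τ A B k x y = fF τ B A k y x := by
  unfold fF
  rw [add_comm x y]
  ring

lemma fF_pos_y {τ A B k x y0 y1 y : ℝ} (hB : 0 ≤ B) (h0 : 0 ≤ x + y0) (h1 : x + y1 ≤ π)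
    (hy0 : y0 ≤ y) (hy1 : y ≤ y1) (hf0 : 0 < fF τ A B k x y0) (hf1 : 0 < fF τ A B k x y1) :
    0 < fF τ A B k x y := by
  rw [fF_eq_y] at hf0 hf1 ⊢
  exact uF_pos hB h0 (by linarith) (by linarith) h1 hf0 hf1

lemma fF_pos_x {τ A B k y x0 x1 x : ℝ} (hA : 0 ≤ A) (h0 : 0 ≤ x0 + y) (h1 : x1 + y ≤ π)
    (hx0 : x0 ≤ x) (hx1 : x ≤ x1) (hf0 : 0 < fF τ A B k x0 y) (hf1 : 0 < fF τ A B k x1 y) :
    0 < fF τ A B k x y := by
  rw [fF_swap] at hf0 hf1 ⊢
  exact fF_pos_y hA (by linarith) (by linarith) hx0 hx1 hf0 hf1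

/-- The corner criterion. -/
theorem fF_pos_rect {τ A B k x0 x1 y0 y1 x y : ℝ} (hA : 0 ≤ A) (hB : 0 ≤ B) (hx0 : 0 ≤ x0)
    (hy0 : 0 ≤ y0) (h1 : x1 + y1 ≤ π) (hx : x0 ≤ x) (hx' : x ≤ x1) (hy : y0 ≤ y) (hy' : y ≤ y1)
    (h00 : 0 < fF τ A B k x0 y0) (h10 : 0 < fF τ A B k x1 y0)
    (h01 : 0 < fF τ A B k x0 y1) (h11 : 0 < fF τ A B k x1 y1) : 0 < fF τ A B k x y := by
  have e0 : 0 < fF τ A B k x y0 := fF_pos_x hA (by linarith) (by linarith) hx hx' h00 h10
  have e1 : 0 < fF τ A B k x y1 := fF_pos_x hA (by linarith) (by linarith) hx hx' h01 h11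
  exact fF_pos_y hB (by linarith) (by linarith) hy hy' e0 e1

/-- the slack on the line `x + y = π` -/
noncomputable def eF (τ A B k x : ℝ) : ℝ :=
  2 * τ * sin x ^ 2 + (A - B) * (sin x * cos x) - ((A - B) * x + B * π + k)

lemma fF_hyp (τ A B k x : ℝ) : fF τ A B k x (π - x) = eF τ A B k x := by
  unfold fF eF
  have : x + (π - x) = π := by ring
  rw [this, sin_pi_sub, cos_pi_sub, cos_pi]
  ring

lemma eF_hasDerivAt (τ A B k x : ℝ) :
    HasDerivAt (fun x => eF τ A B k x) (2 * sin x * (2 * τ * cos x - (A - B) * sin x)) x := by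
  have h1 : HasDerivAt (fun x : ℝ => (A - B) * x + B * π + k) (A - B) x := by
    have := (((hasDerivAt_id x).const_mul (A - B)).add_const (B * π)).add_const k
    simpa using this
  have h2 := ((((hasDerivAt_sin x).pow 2).const_mul (2 * τ)).add
    (((hasDerivAt_sin x).mul (hasDerivAt_cos x)).const_mul (A - B))).sub h1
  refine h2.congr_deriv ?_
  have h4 := sin_sq_add_cos_sq x
  have h5 : cos x ^ 2 = 1 - sin x ^ 2 := by linarith
  simp only [Nat.cast_ofNat]
  ring_nf
  rw [h5]
  ring

/-- `eF` is unimodal. -/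
lemma eF_pos {τ A B k x0 x1 x : ℝ} (hτ : 0 ≤ τ) (hx0 : 0 ≤ x0) (hx1 : x1 ≤ π)
    (h0 : x0 ≤ x) (h1 : x ≤ x1) (he0 : 0 < eF τ A B k x0) (he1 : 0 < eF τ A B k x1) :
    0 < eF τ A B k x := by
  rcases h0.eq_or_lt with h | h
  · rwa [← h]
  rcases h1.eq_or_lt with h' | h'
  · rwa [h']
  have hx : 0 < sin x := sin_pos_of_pos_of_lt_pi (hx0.trans_lt h) (h'.trans_le hx1)
  rcases le_total 0 (2 * τ * cos x - (A - B) * sin x) with hφ | hφ
  · -- increasing on [x0, x]
    have hmono : MonotoneOn (fun x => eF τ A B k x) (Icc x0 x) := by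
      apply monotoneOn_of_deriv_nonneg (convex_Icc x0 x)
      · intro s _
        exact (eF_hasDerivAt τ A B k s).continuousAt.continuousWithinAt
      · intro s _
        exact (eF_hasDerivAt τ A B k s).differentiableAt.differentiableWithinAt
      · intro s hs
        rw [interior_Icc] at hs
        rw [(eF_hasDerivAt τ A B k s).deriv]
        have hs0 : 0 ≤ sin s := sin_nonneg_of_nonneg_of_le_pi (hx0.trans hs.1.le)
          ((hs.2.trans h').le.trans hx1)
        have h3 : sin x * (2 * τ * cos s - (A - B) * sin s)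
            = sin s * (2 * τ * cos x - (A - B) * sin x) + 2 * τ * sin (x - s) := by
          rw [sin_sub]; ring
        have h4 : 0 ≤ sin (x - s) := sin_nonneg_of_nonneg_of_le_pi (by linarith [hs.2])
          (by linarith [hs.1])
        have h5 : 0 ≤ sin x * (2 * τ * cos s - (A - B) * sin s) := by
          rw [h3]; positivity
        have h6 : 0 ≤ 2 * τ * cos s - (A - B) * sin s := nonneg_of_mul_nonneg_right h5 hx
        positivity
    exact he0.trans_le (hmono (left_mem_Icc.mpr h.le) (right_mem_Icc.mpr h.le) h.le)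
  · have hmono : AntitoneOn (fun x => eF τ A B k x) (Icc x x1) := by
      apply antitoneOn_of_deriv_nonpos (convex_Icc x x1)
      · intro s _
        exact (eF_hasDerivAt τ A B k s).continuousAt.continuousWithinAt
      · intro s _
        exact (eF_hasDerivAt τ A B k s).differentiableAt.differentiableWithinAt
      · intro s hs
        rw [interior_Icc] at hs
        rw [(eF_hasDerivAt τ A B k s).deriv]
        have hs0 : 0 ≤ sin s := sin_nonneg_of_nonneg_of_le_pi ((hx0.trans_lt h).trans hs.1).le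
          (hs.2.le.trans hx1)
        have h3 : sin x * (2 * τ * cos s - (A - B) * sin s)
            = sin s * (2 * τ * cos x - (A - B) * sin x) - 2 * τ * sin (s - x) := by
          rw [sin_sub]; ring
        have h4 : 0 ≤ sin (s - x) := sin_nonneg_of_nonneg_of_le_pi (by linarith [hs.1])
          (by linarith [hs.2, hx0])
        have h5 : sin x * (2 * τ * cos s - (A - B) * sin s) ≤ 0 := by
          rw [h3]
          have := mul_nonpos_of_nonneg_of_nonpos hs0 hφ
          have h7 : 0 ≤ 2 * τ * sin (s - x) := by positivity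
          linarith
        have h6 : 2 * τ * cos s - (A - B) * sin s ≤ 0 := by
          by_contra hcon
          push Not at hcon
          exact absurd h5 (not_le.mpr (mul_pos hx hcon))
        exact mul_nonpos_of_nonneg_of_nonpos (by positivity) h6
    exact he1.trans_le (hmono (left_mem_Icc.mpr h'.le) (right_mem_Icc.mpr h'.le) h'.le)

/-- A strip which reaches the line `x + y = π`. -/
theorem fF_pos_hyp {τ A B k x0 x1 y0 x y : ℝ} (hτ : 0 ≤ τ) (hA : 0 ≤ A) (hB : 0 ≤ B) (hx0 : 0 ≤ x0)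
    (hy0 : 0 ≤ y0) (h1 : x1 + y0 ≤ π) (hx1 : x1 ≤ π) (hx : x0 ≤ x) (hx' : x ≤ x1) (hy : y0 ≤ y)
    (hy' : x + y ≤ π)
    (h00 : 0 < fF τ A B k x0 y0) (h10 : 0 < fF τ A B k x1 y0)
    (he0 : 0 < eF τ A B k x0) (he1 : 0 < eF τ A B k x1) : 0 < fF τ A B k x y := by
  have e0 : 0 < fF τ A B k x y0 := fF_pos_x hA (by linarith) (by linarith) hx hx' h00 h10
  have e1 : 0 < fF τ A B k x (π - x) := by
    rw [fF_hyp]; exact eF_pos hτ hx0 hx1 hx hx' he0 he1
  exact fF_pos_y hB (by linarith) (by linarith) hy (by linarith) e0 e1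

lemma sin_sub_mul_cos_le {x : ℝ} (hx : 0 ≤ x) : sin x - x * cos x ≤ x ^ 3 / 3 := by
  have hd : ∀ s : ℝ, HasDerivAt (fun s : ℝ => s ^ 3 / 3 - (sin s - s * cos s)) (s ^ 2 - s * sin s) s := by
    intro s
    have h1 : HasDerivAt (fun s : ℝ => s ^ 3 / 3) (s ^ 2) s := by
      have := ((hasDerivAt_id s).pow 3).div_const 3
      refine this.congr_deriv ?_
      simp
    have h2 : HasDerivAt (fun s : ℝ => sin s - s * cos s) (s * sin s) s := by
      have := (hasDerivAt_sin s).sub ((hasDerivAt_id s).mul (hasDerivAt_cos s))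
      refine this.congr_deriv ?_
      simp
    exact h1.sub h2
  have hmono : MonotoneOn (fun s : ℝ => s ^ 3 / 3 - (sin s - s * cos s)) (Ici 0) := by
    apply monotoneOn_of_deriv_nonneg (convex_Ici 0)
    · intro s _
      exact (hd s).continuousAt.continuousWithinAt
    · intro s _
      exact (hd s).differentiableAt.differentiableWithinAt
    · intro s hs
      rw [interior_Ici] at hs
      rw [(hd s).deriv]
      have hs' : 0 < s := hs
      have : sin s ≤ s := (Real.sin_lt hs').le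
      nlinarith
  have := hmono (mem_Ici.mpr le_rfl) (mem_Ici.mpr hx) hx
  simp at this
  linarith

/-- The special potential near the point `b`. -/
theorem fF_special {τ A x y xs : ℝ} (hA : 2 ≤ A) (hxs : xs ≤ 1) (hx : 0 < x) (hx' : x ≤ xs)
    (hy : 0 < y) (hxy : x + y ≤ π) (hk : x * (A - 2) ≤ y * (A + 2))
    (h1 : A * xs ≤ 2 * τ)
    (h2 : A * xs / 3 * (A + 2) ≤ (A - 2) * (1 - xs ^ 2 / 4) * (2 * τ - A * xs)) :
    0 ≤ fF τ A 0 0 x y := by
  have hs0 : 0 < sin x := sin_pos_of_pos_of_lt_pi hx (by linarith [pi_gt_three])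
  have hsy : 0 ≤ sin y := sin_nonneg_of_nonneg_of_le_pi hy.le (by linarith)
  have e : fF τ A 0 0 x y = sin y * sin x * (2 * τ - A * x) - A * cos y * (sin x - x * cos x) := by
    unfold fF; rw [cos_add]; ring
  have hxc : 0 ≤ sin x - x * cos x := by
    have hcos : 0 < cos x := cos_pos_of_mem_Ioo ⟨by linarith [pi_gt_three], by linarith [pi_gt_three]⟩
    have := Real.lt_tan hx (by linarith [pi_gt_three])
    rw [tan_eq_sin_div_cos, lt_div_iff₀ hcos] at this
    linarith
  have hAx : A * x ≤ A * xs := mul_le_mul_of_nonneg_left hx' (by linarith)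
  rw [e]
  rcases le_or_gt (cos y) 0 with hc | hc
  · have t1 : 0 ≤ sin y * sin x * (2 * τ - A * x) :=
      mul_nonneg (mul_nonneg hsy hs0.le) (by linarith)
    have t2 : A * cos y * (sin x - x * cos x) ≤ 0 :=
      mul_nonpos_of_nonpos_of_nonneg (mul_nonpos_of_nonneg_of_nonpos (by linarith) hc) hxc
    linarith
  · have hy2 : y < π / 2 := by
      by_contra hcon
      push Not at hcon
      exact absurd (cos_nonpos_of_pi_div_two_le_of_le hcon (by linarith)) (not_le.mpr hc)
    have hty : y * cos y ≤ sin y := by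
      have := (Real.lt_tan hy hy2).le
      rw [tan_eq_sin_div_cos, le_div_iff₀ hc] at this
      exact this
    have hsx : x * (1 - xs ^ 2 / 4) ≤ sin x := by
      have h3 := Real.sin_gt_sub_cube hx
      have h4 : x ^ 2 ≤ xs ^ 2 := pow_le_pow_left₀ hx.le hx' 2
      nlinarith
    have hsxc := sin_sub_mul_cos_le hx.le
    have hxs0 : 0 < xs := hx.trans_le hx'
    have hw : 0 ≤ 2 * τ - A * xs := by linarith
    have hq : 0 ≤ 1 - xs ^ 2 / 4 := by nlinarith
    -- sin y sin x (2τ - A x) ≥ y cos y * x (1 - xs^2/4) (2τ - A xs)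
    have s1 : y * cos y * (x * (1 - xs ^ 2 / 4)) * (2 * τ - A * xs)
        ≤ sin y * sin x * (2 * τ - A * x) := by
      apply mul_le_mul _ (by linarith) hw (mul_nonneg hsy hs0.le)
      exact mul_le_mul hty hsx (by positivity) hsy
    have s2 : A * cos y * (sin x - x * cos x) ≤ A * cos y * (x ^ 3 / 3) :=
      mul_le_mul_of_nonneg_left hsxc (by positivity)
    -- x (A - 2) ≤ y (A + 2)
    have s3 : A * cos y * (x ^ 3 / 3) * (A + 2) ≤
        y * cos y * (x * (1 - xs ^ 2 / 4)) * (2 * τ - A * xs) * (A + 2) := by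
      have c1 : x * (A - 2) * (cos y * x * (1 - xs ^ 2 / 4) * (2 * τ - A * xs))
          ≤ y * (A + 2) * (cos y * x * (1 - xs ^ 2 / 4) * (2 * τ - A * xs)) :=
        mul_le_mul_of_nonneg_right hk (by positivity)
      have c2 : A * x / 3 * (A + 2) ≤ (A - 2) * (1 - xs ^ 2 / 4) * (2 * τ - A * xs) := by
        refine le_trans ?_ h2
        have : A * x / 3 ≤ A * xs / 3 := by linarith
        exact mul_le_mul_of_nonneg_right this (by linarith)
      have c3 : (cos y * x ^ 2) * (A * x / 3 * (A + 2))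
          ≤ (cos y * x ^ 2) * ((A - 2) * (1 - xs ^ 2 / 4) * (2 * τ - A * xs)) :=
        mul_le_mul_of_nonneg_left c2 (by positivity)
      nlinarith
    have s4 : A * cos y * (x ^ 3 / 3) ≤ y * cos y * (x * (1 - xs ^ 2 / 4)) * (2 * τ - A * xs) :=
      le_of_mul_le_mul_right s3 (by linarith)
    linarith

end Pool.Agent.H962
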