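import Pool.Agent.H962.KPot
import Pool.Agent.H962.Sturm

/-!
# A potential from its part with `p ≥ 0`
-/

set_option autoImplicit false

open Real Set Filter Topology

namespace Pool.Agent.H962

/-- the reflected potential -/
def Pot.mir (P : Pot) : Pot := ⟨-P.l, P.a, -P.b, P.k, P.τ⟩

lemma Pot.mir_kv (P : Pot) (x y p : ℝ) : P.mir.kv x y p = P.kv y x (-p) := by
  unfold Pot.kv Pot.mir; ring

lemma Pot.mir_R (P : Pot) (x y : ℝ) : P.mir.R (x + y) (x - y) = P.R (y + x) (y - x) := by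
  unfold Pot.R Pot.mir
  have e : sin (x - y) = - sin (y - x) := by rw [← sin_neg]; congr 1; ring
  rw [e, add_comm y x]
  ring

/-- the rate inequality in terms of the half arcs -/
lemma R_le_iff (P : Pot) (x y : ℝ) :
    P.R (x + y) (x - y) ≤ P.τ * (cos (x - y) - cos (x + y)) ↔
      0 ≤ fF P.τ (P.a + P.b) (P.a - P.b) P.k x y := by
  have e : fF P.τ (P.a + P.b) (P.a - P.b) P.k x y
      = P.τ * (cos (x - y) - cos (x + y)) - P.R (x + y) (x - y) := by
    unfold fF Pot.R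
    rw [cos_sub, cos_add, sin_add, sin_sub]
    ring
  rw [e]; constructor <;> intro h <;> linarith

lemma InD.swap {x y p : ℝ} (h : InD x y p) : InD y x (-p) := by
  refine ⟨h.y0, h.x0, by linarith [h.xy], ?_⟩
  have e : -p + y - x = -(p + x - y) := by ring
  rw [e, abs_neg, add_comm y x]
  exact h.hp

/-- the part of a potential with `p ≥ 0` -/
structure GoodHalf {ι : Type} (t : ℝ) (K : ℝ → ℝ → ℝ → ℝ) (P : ι → Pot) : Prop where
  l_le : ∀ i, |(P i).l| ≤ 1
  hA : ∀ i, 1 - (P i).l ≤ (P i).a - (P i).b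
  hB : ∀ i, 1 + (P i).l ≤ (P i).a + (P i).b
  t_pos : 0 < t
  τ_nonneg : ∀ i, 0 ≤ (P i).τ
  τ_le : ∀ i, (P i).τ ^ 2 + (P i).b ^ 2 ≤ t ^ 2
  cont : ContinuousOn (fun z : ℝ × ℝ × ℝ => K z.1 z.2.1 z.2.2)
    (Icc 0 π ×ˢ (Icc 0 π ×ˢ Icc 0 π))
  symm : ∀ x y, 0 ≤ x → 0 ≤ y → K x y 0 = K y x 0
  main : ∀ x y p, InD x y p → 0 ≤ p → ∃ i, K x y p = (P i).kv x y p ∧
    0 ≤ fF (P i).τ ((P i).a + (P i).b) ((P i).a - (P i).b) (P i).k x y
  final : ∀ x y p, InD x y p → 0 ≤ p → -p ≤ K x y p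

lemma InD.p_le {x y p : ℝ} (h : InD x y p) : p ≤ π := by
  have h1 := (abs_le.mp h.hp).2
  have h2 : sin (x + y) ≤ sin (π / 2) + 0 := by rw [sin_pi_div_two]; linarith [sin_le_one (x + y)]
  have h3 : sin (x + y) ≤ π - (x + y) := by
    have := sin_le (x := π - (x + y)) (by linarith [h.xy])
    rwa [sin_pi_sub] at this
  have := h.x0
  have := h.y0
  linarith

theorem GoodHalf.full {ι : Type} {t : ℝ} {K : ℝ → ℝ → ℝ → ℝ} {P : ι → Pot}
    (h : GoodHalf t K P) : GoodK t (fun x y p => if 0 ≤ p then K x y p else K y x (-p))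
      (fun s : ι ⊕ ι => Sum.elim P (fun i => (P i).mir) s) where
  l_le := by
    rintro (i | i)
    · exact h.l_le i
    · simp only [Sum.elim_inr, Pot.mir, abs_neg]; exact h.l_le i
  hA := by
    rintro (i | i)
    · exact h.hA i
    · simp only [Sum.elim_inr, Pot.mir]; linarith [h.hB i]
  hB := by
    rintro (i | i)
    · exact h.hB i
    · simp only [Sum.elim_inr, Pot.mir]; linarith [h.hA i]
  t_pos := h.t_pos
  τ_nonneg := by
    rintro (i | i)
    · exact h.τ_nonneg i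
    · exact h.τ_nonneg i
  τ_le := by
    rintro (i | i)
    · exact h.τ_le i
    · simp only [Sum.elim_inr, Pot.mir, neg_sq]; exact h.τ_le i
  cont := by
    have c1 : ContinuousOn (fun z : ℝ × ℝ × ℝ => if 0 ≤ z.2.2 then K z.1 z.2.1 z.2.2
        else K z.2.1 z.1 (-z.2.2)) (Icc 0 π ×ˢ (Icc 0 π ×ˢ Icc 0 π)) := by
      apply h.cont.congr
      rintro ⟨x, y, p⟩ hz
      have hp : 0 ≤ p := hz.2.2.1
      simp only [hp, if_true]
    have c2 : ContinuousOn (fun z : ℝ × ℝ × ℝ => if 0 ≤ z.2.2 then K z.1 z.2.1 z.2.2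
        else K z.2.1 z.1 (-z.2.2)) (Icc 0 π ×ˢ (Icc 0 π ×ˢ Icc (-π) 0)) := by
      have hc : ContinuousOn (fun z : ℝ × ℝ × ℝ => ((z.2.1, z.1, -z.2.2) : ℝ × ℝ × ℝ))
          (Icc 0 π ×ˢ (Icc 0 π ×ˢ Icc (-π) 0)) := by fun_prop
      have hm : MapsTo (fun z : ℝ × ℝ × ℝ => ((z.2.1, z.1, -z.2.2) : ℝ × ℝ × ℝ))
          (Icc 0 π ×ˢ (Icc 0 π ×ˢ Icc (-π) 0)) (Icc 0 π ×ˢ (Icc 0 π ×ˢ Icc 0 π)) := by
        rintro ⟨x, y, p⟩ hz
        exact ⟨hz.2.1, hz.1, by linarith [hz.2.2.2], by linarith [hz.2.2.1]⟩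
      apply (h.cont.comp hc hm).congr
      rintro ⟨x, y, p⟩ hz
      have hp : p ≤ 0 := hz.2.2.2
      rcases hp.eq_or_lt with h0 | h0
      · subst h0
        simp only [le_refl, if_true, Function.comp, neg_zero]
        exact h.symm x y hz.1.1 hz.2.1.1
      · simp only [not_le.mpr h0, if_false, Function.comp]
    have hcl1 : IsClosed (Icc (0 : ℝ) π ×ˢ (Icc (0 : ℝ) π ×ˢ Icc (0 : ℝ) π)) :=
      isClosed_Icc.prod (isClosed_Icc.prod isClosed_Icc)
    have hcl2 : IsClosed (Icc (0 : ℝ) π ×ˢ (Icc (0 : ℝ) π ×ˢ Icc (-π) (0 : ℝ))) :=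
      isClosed_Icc.prod (isClosed_Icc.prod isClosed_Icc)
    refine (c1.union_of_isClosed c2 hcl1 hcl2).mono ?_
    rintro ⟨x, y, p⟩ hz
    have hz' : InD x y p := hz
    have hx : x ∈ Icc 0 π := ⟨hz'.x0.le, by linarith [hz'.xy, hz'.y0]⟩
    have hy : y ∈ Icc 0 π := ⟨hz'.y0.le, by linarith [hz'.xy, hz'.x0]⟩
    rcases le_total 0 p with hp | hp
    · left; exact ⟨hx, hy, hp, hz'.p_le⟩
    · right; exact ⟨hx, hy, by linarith [hz'.swap.p_le], hp⟩
  main := by
    intro x y p hz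
    rcases le_or_gt 0 p with hp | hp
    · obtain ⟨i, h1, h2⟩ := h.main x y p hz hp
      refine ⟨Sum.inl i, ?_, ?_⟩
      · simp only [hp, if_true, Sum.elim_inl]; exact h1
      · simp only [Sum.elim_inl]; rw [R_le_iff]; exact h2
    · obtain ⟨i, h1, h2⟩ := h.main y x (-p) hz.swap (by linarith)
      refine ⟨Sum.inr i, ?_, ?_⟩
      · simp only [not_le.mpr hp, if_false, Sum.elim_inr]
        rw [Pot.mir_kv]; exact h1
      · simp only [Sum.elim_inr]
        rw [Pot.mir_R]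
        have := (R_le_iff (P i) y x).mpr h2
        have e1 : cos (x - y) = cos (y - x) := by rw [← cos_neg]; congr 1; ring
        rw [e1, add_comm x y]
        exact this
  final := by
    intro x y p hz
    rcases le_or_gt 0 p with hp | hp
    · simp only [hp, if_true, abs_of_nonneg hp]; exact h.final x y p hz hp
    · simp only [not_le.mpr hp, if_false, abs_of_neg hp]
      exact h.final y x (-p) hz.swap (by linarith)

end Pool.Agent.H962
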