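import Mathlib

/-!
# Piecewise linear interpolation on a product grid (Kuhn triangulation)
-/

set_option autoImplicit false

open Real Set Filter Topology

namespace Pool.Agent.H962

/-- interpolation in the unit cube -/
noncomputable def kuhn (a0 a1 a2 a3 a12 a13 a23 a123 u v w : ℝ) : ℝ :=
  a0 + (a1 - a0) * u + (a2 - a0) * v + (a3 - a0) * w + (a12 - a1 - a2 + a0) * min u v
    + (a13 - a1 - a3 + a0) * min u w + (a23 - a2 - a3 + a0) * min v w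
    + (a123 - a12 - a13 - a23 + a1 + a2 + a3 - a0) * min u (min v w)

/-- interpolation in a cell of the grid -/
noncomputable def cellf (a : ℕ → ℕ → ℕ → ℝ) (i j k : ℕ) (u v w : ℝ) : ℝ :=
  kuhn (a i j k) (a (i + 1) j k) (a i (j + 1) k) (a i j (k + 1)) (a (i + 1) (j + 1) k)
    (a (i + 1) j (k + 1)) (a i (j + 1) (k + 1)) (a (i + 1) (j + 1) (k + 1)) u v w

lemma glue1 (a : ℕ → ℕ → ℕ → ℝ) (i j k : ℕ) {v w : ℝ} (hv0 : 0 ≤ v) (hv1 : v ≤ 1) (hw0 : 0 ≤ w)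
    (hw1 : w ≤ 1) : cellf a (i + 1) j k 0 v w = cellf a i j k 1 v w := by
  unfold cellf kuhn
  have h0 : 0 ≤ min v w := le_min hv0 hw0
  have h1 : min v w ≤ 1 := (min_le_left _ _).trans hv1
  rw [min_eq_left hv0, min_eq_left hw0, min_eq_left h0, min_eq_right hv1, min_eq_right hw1,
    min_eq_right h1]
  ring

lemma glue2 (a : ℕ → ℕ → ℕ → ℝ) (i j k : ℕ) {u w : ℝ} (hu0 : 0 ≤ u) (hu1 : u ≤ 1) (hw0 : 0 ≤ w)
    (hw1 : w ≤ 1) : cellf a i (j + 1) k u 0 w = cellf a i j k u 1 w := by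
  unfold cellf kuhn
  rw [min_eq_right hu0, min_eq_left hw0, min_eq_right hu0, min_eq_left hu1, min_eq_right hw1]
  ring

lemma glue3 (a : ℕ → ℕ → ℕ → ℝ) (i j k : ℕ) {u v : ℝ} (hu0 : 0 ≤ u) (hu1 : u ≤ 1) (hv0 : 0 ≤ v)
    (hv1 : v ≤ 1) : cellf a i j (k + 1) u v 0 = cellf a i j k u v 1 := by
  unfold cellf kuhn
  rw [min_eq_right hu0, min_eq_right hv0, min_eq_right hu0, min_eq_left hu1, min_eq_left hv1]
  ring

/-- local coordinate -/
noncomputable def loc (g : ℕ → ℝ) (i : ℕ) (x : ℝ) : ℝ := (x - g i) / (g (i + 1) - g i)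

/-- index of the cell -/
noncomputable def idx (g : ℕ → ℝ) (x : ℝ) : ℕ :=
  open Classical in if h : ∃ i, g i ≤ x ∧ x < g (i + 1) then Classical.choose h else 0

/-- what we need to know about a grid -/
structure Grid (g : ℕ → ℝ) : Prop where
  zero : g 0 = 0
  mono : StrictMono g
  unb : ∀ x, ∃ i, x < g i

lemma Grid.idx_spec {g : ℕ → ℝ} (hg : Grid g) {x : ℝ} (hx : 0 ≤ x) :
    g (idx g x) ≤ x ∧ x < g (idx g x + 1) := by
  classical
  have h : ∃ i, g i ≤ x ∧ x < g (i + 1) := by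
    have h1 := hg.unb x
    have h2 := Nat.find_spec h1
    have h3 : Nat.find h1 ≠ 0 := by
      intro h0
      rw [h0, hg.zero] at h2
      linarith
    obtain ⟨m, hm⟩ := Nat.exists_eq_succ_of_ne_zero h3
    refine ⟨m, ?_, ?_⟩
    · have := Nat.find_min h1 (m := m) (by omega)
      exact not_lt.mp this
    · rw [hm] at h2; exact h2
  unfold idx
  rw [dif_pos h]
  exact Classical.choose_spec h

lemma Grid.diff_pos {g : ℕ → ℝ} (hg : Grid g) (i : ℕ) : 0 < g (i + 1) - g i :=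
  sub_pos.mpr (hg.mono (Nat.lt_succ_self i))

lemma Grid.loc_mem {g : ℕ → ℝ} (hg : Grid g) {i : ℕ} {x : ℝ} (h0 : g i ≤ x) (h1 : x ≤ g (i + 1)) :
    0 ≤ loc g i x ∧ loc g i x ≤ 1 := by
  have hd := hg.diff_pos i
  unfold loc
  constructor
  · apply div_nonneg _ hd.le; linarith
  · rw [div_le_one hd]; linarith

lemma Grid.idx_cases {g : ℕ → ℝ} (hg : Grid g) {i : ℕ} {x : ℝ} (hx : 0 ≤ x) (h0 : g i ≤ x)
    (h1 : x ≤ g (i + 1)) : idx g x = i ∨ (idx g x = i + 1 ∧ x = g (i + 1)) := by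
  obtain ⟨h2, h3⟩ := hg.idx_spec hx
  have h4 : i < idx g x + 1 := hg.mono.lt_iff_lt.mp (h0.trans_lt h3)
  have h5 : idx g x ≤ i + 1 := hg.mono.le_iff_le.mp (h2.trans h1)
  rcases Nat.lt_or_ge (idx g x) (i + 1) with h | h
  · left; omega
  · right
    have h6 : idx g x = i + 1 := le_antisymm h5 h
    refine ⟨h6, le_antisymm h1 ?_⟩
    rwa [h6] at h2

lemma Grid.loc_zero {g : ℕ → ℝ} (i : ℕ) : loc g i (g i) = 0 := by
  unfold loc; simp

lemma Grid.loc_one {g : ℕ → ℝ} (hg : Grid g) (i : ℕ) : loc g i (g (i + 1)) = 1 := by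
  unfold loc; exact div_self (hg.diff_pos i).ne'

/-- the interpolated function -/
noncomputable def interp (a : ℕ → ℕ → ℕ → ℝ) (g r : ℕ → ℝ) (x y p : ℝ) : ℝ :=
  cellf a (idx g x) (idx g y) (idx r p) (loc g (idx g x) x) (loc g (idx g y) y)
    (loc r (idx r p) p)

/-- The interpolated function is given by the formula of every closed cell which contains the
point. -/
lemma interp_eq {a : ℕ → ℕ → ℕ → ℝ} {g r : ℕ → ℝ} (hg : Grid g) (hr : Grid r) {i j k : ℕ}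
    {x y p : ℝ} (hx : 0 ≤ x) (hy : 0 ≤ y) (hp : 0 ≤ p) (hx0 : g i ≤ x) (hx1 : x ≤ g (i + 1))
    (hy0 : g j ≤ y) (hy1 : y ≤ g (j + 1)) (hp0 : r k ≤ p) (hp1 : p ≤ r (k + 1)) :
    interp a g r x y p = cellf a i j k (loc g i x) (loc g j y) (loc r k p) := by
  unfold interp
  obtain ⟨ix0, ix1⟩ := hg.idx_spec hx
  obtain ⟨iy0, iy1⟩ := hg.idx_spec hy
  obtain ⟨ip0, ip1⟩ := hr.idx_spec hp
  obtain ⟨ly0, ly1⟩ := hg.loc_mem iy0 iy1.le
  obtain ⟨lp0, lp1⟩ := hr.loc_mem ip0 ip1.le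
  obtain ⟨mx0, mx1⟩ := hg.loc_mem hx0 hx1
  obtain ⟨my0, my1⟩ := hg.loc_mem hy0 hy1
  have s1 : cellf a (idx g x) (idx g y) (idx r p) (loc g (idx g x) x) (loc g (idx g y) y)
      (loc r (idx r p) p) = cellf a i (idx g y) (idx r p) (loc g i x) (loc g (idx g y) y)
      (loc r (idx r p) p) := by
    rcases hg.idx_cases hx hx0 hx1 with h | ⟨h, h'⟩
    · rw [h]
    · rw [h, h', Grid.loc_zero, hg.loc_one]
      exact glue1 a i _ _ ly0 ly1 lp0 lp1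
  have s2 : cellf a i (idx g y) (idx r p) (loc g i x) (loc g (idx g y) y)
      (loc r (idx r p) p) = cellf a i j (idx r p) (loc g i x) (loc g j y)
      (loc r (idx r p) p) := by
    rcases hg.idx_cases hy hy0 hy1 with h | ⟨h, h'⟩
    · rw [h]
    · rw [h, h', Grid.loc_zero, hg.loc_one]
      exact glue2 a i _ _ mx0 mx1 lp0 lp1
  have s3 : cellf a i j (idx r p) (loc g i x) (loc g j y)
      (loc r (idx r p) p) = cellf a i j k (loc g i x) (loc g j y) (loc r k p) := by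
    rcases hr.idx_cases hp hp0 hp1 with h | ⟨h, h'⟩
    · rw [h]
    · rw [h, h', Grid.loc_zero, hr.loc_one]
      exact glue3 a i _ _ mx0 mx1 my0 my1
  rw [s1, s2, s3]

lemma interp_continuousOn {a : ℕ → ℕ → ℕ → ℝ} {g r : ℕ → ℝ} (hg : Grid g) (hr : Grid r) {N M : ℕ}
    (hN : π < g N) (hM : π < r M) :
    ContinuousOn (fun z : ℝ × ℝ × ℝ => interp a g r z.1 z.2.1 z.2.2)
      (Icc 0 π ×ˢ (Icc 0 π ×ˢ Icc 0 π)) := by
  have key : ContinuousOn (fun z : ℝ × ℝ × ℝ => interp a g r z.1 z.2.1 z.2.2)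
      (⋃ c : Fin N × Fin N × Fin M, Icc (g c.1) (g (c.1 + 1)) ×ˢ
        (Icc (g c.2.1) (g (c.2.1 + 1)) ×ˢ Icc (r c.2.2) (r (c.2.2 + 1)))) := by
    apply LocallyFinite.continuousOn_iUnion (locallyFinite_of_finite _)
    · intro c
      exact isClosed_Icc.prod (isClosed_Icc.prod isClosed_Icc)
    · intro c
      have hc : ContinuousOn (fun z : ℝ × ℝ × ℝ => cellf a c.1 c.2.1 c.2.2 (loc g c.1 z.1)
          (loc g c.2.1 z.2.1) (loc r c.2.2 z.2.2)) (Icc (g c.1) (g (c.1 + 1)) ×ˢ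
        (Icc (g c.2.1) (g (c.2.1 + 1)) ×ˢ Icc (r c.2.2) (r (c.2.2 + 1)))) := by
        apply Continuous.continuousOn
        unfold cellf kuhn loc
        fun_prop
      apply hc.congr
      rintro ⟨x, y, p⟩ ⟨hx, hy, hp⟩
      have gn : ∀ i, 0 ≤ g i := fun i => by
        rw [← hg.zero]; exact hg.mono.monotone (Nat.zero_le i)
      have rn : ∀ i, 0 ≤ r i := fun i => by
        rw [← hr.zero]; exact hr.mono.monotone (Nat.zero_le i)
      exact interp_eq hg hr ((gn _).trans hx.1) ((gn _).trans hy.1) ((rn _).trans hp.1)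
        hx.1 hx.2 hy.1 hy.2 hp.1 hp.2
  apply key.mono
  rintro ⟨x, y, p⟩ ⟨hx, hy, hp⟩
  obtain ⟨ix0, ix1⟩ := hg.idx_spec hx.1
  obtain ⟨iy0, iy1⟩ := hg.idx_spec hy.1
  obtain ⟨ip0, ip1⟩ := hr.idx_spec hp.1
  have hi : idx g x < N := hg.mono.lt_iff_lt.mp (ix0.trans_lt (hx.2.trans_lt hN))
  have hj : idx g y < N := hg.mono.lt_iff_lt.mp (iy0.trans_lt (hy.2.trans_lt hN))
  have hk : idx r p < M := hr.mono.lt_iff_lt.mp (ip0.trans_lt (hp.2.trans_lt hM))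
  refine mem_iUnion.mpr ⟨(⟨_, hi⟩, ⟨_, hj⟩, ⟨_, hk⟩), ?_⟩
  exact ⟨⟨ix0, ix1.le⟩, ⟨iy0, iy1.le⟩, ⟨ip0, ip1.le⟩⟩

/-- the six orders of the local coordinates -/
def Ord (q : ℕ) (u v w : ℝ) : Prop :=
  (q = 0 ∧ w ≤ v ∧ v ≤ u) ∨ (q = 1 ∧ v ≤ w ∧ w ≤ u) ∨ (q = 2 ∧ v ≤ u ∧ u ≤ w) ∨
  (q = 3 ∧ w ≤ u ∧ u ≤ v) ∨ (q = 4 ∧ u ≤ w ∧ w ≤ v) ∨ (q = 5 ∧ u ≤ v ∧ v ≤ w)

lemma exists_ord (u v w : ℝ) : ∃ q, q < 6 ∧ Ord q u v w := by
  rcases le_total u v with h1 | h1 <;> rcases le_total v w with h2 | h2 <;>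
    rcases le_total u w with h3 | h3
  · exact ⟨5, by norm_num, by unfold Ord; tauto⟩
  · exact ⟨5, by norm_num, by unfold Ord; tauto⟩
  · exact ⟨4, by norm_num, by unfold Ord; tauto⟩
  · exact ⟨3, by norm_num, by unfold Ord; tauto⟩
  · exact ⟨2, by norm_num, by unfold Ord; tauto⟩
  · exact ⟨1, by norm_num, by unfold Ord; tauto⟩
  · exact ⟨0, by norm_num, by unfold Ord; tauto⟩
  · exact ⟨0, by norm_num, by unfold Ord; tauto⟩

lemma kuhn0 (a0 a1 a2 a3 a12 a13 a23 a123 : ℝ) {u v w : ℝ} (h1 : w ≤ v) (h2 : v ≤ u) :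
    kuhn a0 a1 a2 a3 a12 a13 a23 a123 u v w
      = a0 + (a1 - a0) * u + (a12 - a1) * v + (a123 - a12) * w := by
  unfold kuhn
  rw [min_eq_right h1, min_eq_right h2, min_eq_right (h1.trans h2)]; ring

lemma kuhn1 (a0 a1 a2 a3 a12 a13 a23 a123 : ℝ) {u v w : ℝ} (h1 : v ≤ w) (h2 : w ≤ u) :
    kuhn a0 a1 a2 a3 a12 a13 a23 a123 u v w
      = a0 + (a1 - a0) * u + (a13 - a1) * w + (a123 - a13) * v := by
  unfold kuhn
  rw [min_eq_left h1, min_eq_right h2, min_eq_right (h1.trans h2)]; ring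

lemma kuhn2 (a0 a1 a2 a3 a12 a13 a23 a123 : ℝ) {u v w : ℝ} (h1 : v ≤ u) (h2 : u ≤ w) :
    kuhn a0 a1 a2 a3 a12 a13 a23 a123 u v w
      = a0 + (a3 - a0) * w + (a13 - a3) * u + (a123 - a13) * v := by
  unfold kuhn
  rw [min_eq_left (h1.trans h2), min_eq_right h1, min_eq_left h2]; ring

lemma kuhn3 (a0 a1 a2 a3 a12 a13 a23 a123 : ℝ) {u v w : ℝ} (h1 : w ≤ u) (h2 : u ≤ v) :
    kuhn a0 a1 a2 a3 a12 a13 a23 a123 u v w
      = a0 + (a2 - a0) * v + (a12 - a2) * u + (a123 - a12) * w := by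
  unfold kuhn
  rw [min_eq_right (h1.trans h2), min_eq_left h2, min_eq_right h1]; ring

lemma kuhn4 (a0 a1 a2 a3 a12 a13 a23 a123 : ℝ) {u v w : ℝ} (h1 : u ≤ w) (h2 : w ≤ v) :
    kuhn a0 a1 a2 a3 a12 a13 a23 a123 u v w
      = a0 + (a2 - a0) * v + (a23 - a2) * w + (a123 - a23) * u := by
  unfold kuhn
  rw [min_eq_right h2, min_eq_left h1, min_eq_left (h1.trans h2)]; ring

lemma kuhn5 (a0 a1 a2 a3 a12 a13 a23 a123 : ℝ) {u v w : ℝ} (h1 : u ≤ v) (h2 : v ≤ w) :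
    kuhn a0 a1 a2 a3 a12 a13 a23 a123 u v w
      = a0 + (a3 - a0) * w + (a23 - a3) * v + (a123 - a23) * u := by
  unfold kuhn
  rw [min_eq_left h2, min_eq_left h1, min_eq_left (h1.trans h2)]; ring

/-- the second vertex of a simplex -/
def vt1 (a : ℕ → ℕ → ℕ → ℝ) (q i j k : ℕ) : ℝ :=
  if q = 0 ∨ q = 1 then a (i + 1) j k else if q = 3 ∨ q = 4 then a i (j + 1) k else a i j (k + 1)

/-- the third vertex of a simplex -/
def vt2 (a : ℕ → ℕ → ℕ → ℝ) (q i j k : ℕ) : ℝ :=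
  if q = 0 ∨ q = 3 then a (i + 1) (j + 1) k else if q = 1 ∨ q = 2 then a (i + 1) j (k + 1)
    else a i (j + 1) (k + 1)

/-- The interpolated function is in every simplex a convex combination of the values in the
vertices, with weights which do not depend on the values. -/
lemma cell_convex {q i j k : ℕ} {u v w : ℝ} (hq : Ord q u v w)
    (hu0 : 0 ≤ u) (hu1 : u ≤ 1) (hv0 : 0 ≤ v) (hv1 : v ≤ 1) (hw0 : 0 ≤ w) (hw1 : w ≤ 1) :
    ∃ c0 c1 c2 c3 : ℝ, 0 ≤ c0 ∧ 0 ≤ c1 ∧ 0 ≤ c2 ∧ 0 ≤ c3 ∧ c0 + c1 + c2 + c3 = 1 ∧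
      ∀ b : ℕ → ℕ → ℕ → ℝ,
        cellf b i j k u v w = c0 * b i j k + c1 * vt1 b q i j k + c2 * vt2 b q i j k
          + c3 * b (i + 1) (j + 1) (k + 1) := by
  rcases hq with ⟨rfl, h1, h2⟩ | ⟨rfl, h1, h2⟩ | ⟨rfl, h1, h2⟩ | ⟨rfl, h1, h2⟩ | ⟨rfl, h1, h2⟩ |
    ⟨rfl, h1, h2⟩
  · refine ⟨1 - u, u - v, v - w, w, by linarith, by linarith, by linarith, hw0, by ring, ?_⟩
    intro b
    unfold cellf vt1 vt2
    rw [kuhn0 _ _ _ _ _ _ _ _ h1 h2]; simp; ring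
  · refine ⟨1 - u, u - w, w - v, v, by linarith, by linarith, by linarith, hv0, by ring, ?_⟩
    intro b
    unfold cellf vt1 vt2
    rw [kuhn1 _ _ _ _ _ _ _ _ h1 h2]; simp; ring
  · refine ⟨1 - w, w - u, u - v, v, by linarith, by linarith, by linarith, hv0, by ring, ?_⟩
    intro b
    unfold cellf vt1 vt2
    rw [kuhn2 _ _ _ _ _ _ _ _ h1 h2]; simp; ring
  · refine ⟨1 - v, v - u, u - w, w, by linarith, by linarith, by linarith, hw0, by ring, ?_⟩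
    intro b
    unfold cellf vt1 vt2
    rw [kuhn3 _ _ _ _ _ _ _ _ h1 h2]; simp; ring
  · refine ⟨1 - v, v - w, w - u, u, by linarith, by linarith, by linarith, hu0, by ring, ?_⟩
    intro b
    unfold cellf vt1 vt2
    rw [kuhn4 _ _ _ _ _ _ _ _ h1 h2]; simp; ring
  · refine ⟨1 - w, w - v, v - u, u, by linarith, by linarith, by linarith, hu0, by ring, ?_⟩
    intro b
    unfold cellf vt1 vt2
    rw [kuhn5 _ _ _ _ _ _ _ _ h1 h2]; simp; ring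

lemma cellf_x (g : ℕ → ℝ) (i j k : ℕ) (u v w : ℝ) :
    cellf (fun i _ _ => g i) i j k u v w = g i + (g (i + 1) - g i) * u := by
  unfold cellf kuhn; ring

lemma cellf_y (g : ℕ → ℝ) (i j k : ℕ) (u v w : ℝ) :
    cellf (fun _ j _ => g j) i j k u v w = g j + (g (j + 1) - g j) * v := by
  unfold cellf kuhn; ring

lemma cellf_p (g : ℕ → ℝ) (i j k : ℕ) (u v w : ℝ) :
    cellf (fun _ _ k => g k) i j k u v w = g k + (g (k + 1) - g k) * w := by
  unfold cellf kuhn; ring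

end Pool.Agent.H962
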