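import Pool.Agent.H962.KC11

/-!
# Check of the simplices
-/

set_option autoImplicit false

namespace Pool.Agent.H962

namespace KD

lemma t21_167 : allLt (fun j => blkT 21 (Nat.add 167 j)) 17 = true := by decide +kernel

lemma t21_184 : allLt (fun j => blkT 21 (Nat.add 184 j)) 2 = true := by decide +kernel

lemma t21_186 : allLt (fun j => blkT 21 (Nat.add 186 j)) 17 = true := by decide +kernel

lemma t21_203 : allLt (fun j => blkT 21 (Nat.add 203 j)) 21 = true := by decide +kernel

lemma t21_224 : allLt (fun j => blkT 21 (Nat.add 224 j)) 28 = true := by decide +kernel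

lemma t21_252 : allLt (fun j => blkT 21 (Nat.add 252 j)) 28 = true := by decide +kernel

lemma t21_280 : allLt (fun j => blkT 21 (Nat.add 280 j)) 28 = true := by decide +kernel

lemma t21_308 : allLt (fun j => blkT 21 (Nat.add 308 j)) 28 = true := by decide +kernel

lemma t21_336 : allLt (fun j => blkT 21 (Nat.add 336 j)) 28 = true := by decide +kernel

lemma t21_364 : allLt (fun j => blkT 21 (Nat.add 364 j)) 28 = true := by decide +kernel

lemma t21_392 : allLt (fun j => blkT 21 (Nat.add 392 j)) 28 = true := by decide +kernel

lemma t21_420 : allLt (fun j => blkT 21 (Nat.add 420 j)) 10 = true := by decide +kernel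

lemma t21_430 : allLt (fun j => blkT 21 (Nat.add 430 j)) 5 = true := by decide +kernel

lemma t21_435 : allLt (fun j => blkT 21 (Nat.add 435 j)) 4 = true := by decide +kernel

lemma t21_439 : allLt (fun j => blkT 21 (Nat.add 439 j)) 20 = true := by decide +kernel

lemma r21_0 : allLt (fun j => blkR 21 (Nat.add 0 j)) 2 = true := by decide +kernel

lemma r21_2 : allLt (fun j => blkR 21 (Nat.add 2 j)) 3 = true := by decide +kernel

lemma r21_5 : allLt (fun j => blkR 21 (Nat.add 5 j)) 3 = true := by decide +kernel

lemma r21_8 : allLt (fun j => blkR 21 (Nat.add 8 j)) 3 = true := by decide +kernel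

lemma r21_11 : allLt (fun j => blkR 21 (Nat.add 11 j)) 3 = true := by decide +kernel

lemma r21_14 : allLt (fun j => blkR 21 (Nat.add 14 j)) 3 = true := by decide +kernel

lemma r21_17 : allLt (fun j => blkR 21 (Nat.add 17 j)) 3 = true := by decide +kernel

lemma r21_20 : allLt (fun j => blkR 21 (Nat.add 20 j)) 3 = true := by decide +kernel

lemma r21_23 : allLt (fun j => blkR 21 (Nat.add 23 j)) 2 = true := by decide +kernel

lemma r21_25 : allLt (fun j => blkR 21 (Nat.add 25 j)) 1 = true := by decide +kernel

lemma r21_26 : allLt (fun j => blkR 21 (Nat.add 26 j)) 1 = true := by decide +kernel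

lemma r21_27 : allLt (fun j => blkR 21 (Nat.add 27 j)) 1 = true := by decide +kernel

lemma r21_28 : allLt (fun j => blkR 21 (Nat.add 28 j)) 1 = true := by decide +kernel

lemma r21_29 : allLt (fun j => blkR 21 (Nat.add 29 j)) 1 = true := by decide +kernel

lemma r21_30 : allLt (fun j => blkR 21 (Nat.add 30 j)) 1 = true := by decide +kernel

lemma r21_31 : allLt (fun j => blkR 21 (Nat.add 31 j)) 1 = true := by decide +kernel

lemma r21_32 : allLt (fun j => blkR 21 (Nat.add 32 j)) 1 = true := by decide +kernel

lemma r21_33 : allLt (fun j => blkR 21 (Nat.add 33 j)) 1 = true := by decide +kernel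

lemma r21_34 : allLt (fun j => blkR 21 (Nat.add 34 j)) 1 = true := by decide +kernel

lemma r21_35 : allLt (fun j => blkR 21 (Nat.add 35 j)) 1 = true := by decide +kernel

lemma r21_36 : allLt (fun j => blkR 21 (Nat.add 36 j)) 1 = true := by decide +kernel

lemma r21_37 : allLt (fun j => blkR 21 (Nat.add 37 j)) 1 = true := by decide +kernel

lemma r21_38 : allLt (fun j => blkR 21 (Nat.add 38 j)) 1 = true := by decide +kernel

lemma r21_39 : allLt (fun j => blkR 21 (Nat.add 39 j)) 1 = true := by decide +kernel

lemma r21_40 : allLt (fun j => blkR 21 (Nat.add 40 j)) 1 = true := by decide +kernel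

lemma r21_41 : allLt (fun j => blkR 21 (Nat.add 41 j)) 1 = true := by decide +kernel

lemma r21_42 : allLt (fun j => blkR 21 (Nat.add 42 j)) 55 = true := by decide +kernel

lemma rowC21 : rowC 21 = true := by decide +kernel

lemma t22_0 : allLt (fun j => blkT 22 (Nat.add 0 j)) 120 = true := by decide +kernel

lemma t22_120 : allLt (fun j => blkT 22 (Nat.add 120 j)) 18 = true := by decide +kernel

lemma t22_138 : allLt (fun j => blkT 22 (Nat.add 138 j)) 3 = true := by decide +kernel

end KD

end Pool.Agent.H962
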