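import Pool.Agent.H962.KC12

/-!
# Check of the simplices
-/

set_option autoImplicit false

namespace Pool.Agent.H962

namespace KD

lemma t22_141 : allLt (fun j => blkT 22 (Nat.add 141 j)) 2 = true := by decide +kernel

lemma t22_143 : allLt (fun j => blkT 22 (Nat.add 143 j)) 14 = true := by decide +kernel

lemma t22_157 : allLt (fun j => blkT 22 (Nat.add 157 j)) 5 = true := by decide +kernel

lemma t22_162 : allLt (fun j => blkT 22 (Nat.add 162 j)) 2 = true := by decide +kernel

lemma t22_164 : allLt (fun j => blkT 22 (Nat.add 164 j)) 15 = true := by decide +kernel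

lemma t22_179 : allLt (fun j => blkT 22 (Nat.add 179 j)) 3 = true := by decide +kernel

lemma t22_182 : allLt (fun j => blkT 22 (Nat.add 182 j)) 1 = true := by decide +kernel

lemma t22_183 : allLt (fun j => blkT 22 (Nat.add 183 j)) 15 = true := by decide +kernel

lemma t22_198 : allLt (fun j => blkT 22 (Nat.add 198 j)) 3 = true := by decide +kernel

lemma t22_201 : allLt (fun j => blkT 22 (Nat.add 201 j)) 11 = true := by decide +kernel

lemma t22_212 : allLt (fun j => blkT 22 (Nat.add 212 j)) 7 = true := by decide +kernel

lemma t22_219 : allLt (fun j => blkT 22 (Nat.add 219 j)) 12 = true := by decide +kernel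

lemma t22_231 : allLt (fun j => blkT 22 (Nat.add 231 j)) 13 = true := by decide +kernel

lemma t22_244 : allLt (fun j => blkT 22 (Nat.add 244 j)) 23 = true := by decide +kernel

lemma t22_267 : allLt (fun j => blkT 22 (Nat.add 267 j)) 28 = true := by decide +kernel

lemma t22_295 : allLt (fun j => blkT 22 (Nat.add 295 j)) 28 = true := by decide +kernel

lemma t22_323 : allLt (fun j => blkT 22 (Nat.add 323 j)) 28 = true := by decide +kernel

lemma t22_351 : allLt (fun j => blkT 22 (Nat.add 351 j)) 28 = true := by decide +kernel

lemma t22_379 : allLt (fun j => blkT 22 (Nat.add 379 j)) 28 = true := by decide +kernel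

lemma t22_407 : allLt (fun j => blkT 22 (Nat.add 407 j)) 22 = true := by decide +kernel

lemma t22_429 : allLt (fun j => blkT 22 (Nat.add 429 j)) 10 = true := by decide +kernel

lemma t22_439 : allLt (fun j => blkT 22 (Nat.add 439 j)) 20 = true := by decide +kernel

lemma r22_0 : allLt (fun j => blkR 22 (Nat.add 0 j)) 1 = true := by decide +kernel

lemma r22_1 : allLt (fun j => blkR 22 (Nat.add 1 j)) 1 = true := by decide +kernel

lemma r22_2 : allLt (fun j => blkR 22 (Nat.add 2 j)) 1 = true := by decide +kernel

lemma r22_3 : allLt (fun j => blkR 22 (Nat.add 3 j)) 1 = true := by decide +kernel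

lemma r22_4 : allLt (fun j => blkR 22 (Nat.add 4 j)) 1 = true := by decide +kernel

lemma r22_5 : allLt (fun j => blkR 22 (Nat.add 5 j)) 1 = true := by decide +kernel

lemma r22_6 : allLt (fun j => blkR 22 (Nat.add 6 j)) 1 = true := by decide +kernel

lemma r22_7 : allLt (fun j => blkR 22 (Nat.add 7 j)) 1 = true := by decide +kernel

lemma r22_8 : allLt (fun j => blkR 22 (Nat.add 8 j)) 1 = true := by decide +kernel

lemma r22_9 : allLt (fun j => blkR 22 (Nat.add 9 j)) 1 = true := by decide +kernel

lemma r22_10 : allLt (fun j => blkR 22 (Nat.add 10 j)) 1 = true := by decide +kernel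

lemma r22_11 : allLt (fun j => blkR 22 (Nat.add 11 j)) 1 = true := by decide +kernel

lemma r22_12 : allLt (fun j => blkR 22 (Nat.add 12 j)) 1 = true := by decide +kernel

lemma r22_13 : allLt (fun j => blkR 22 (Nat.add 13 j)) 1 = true := by decide +kernel

lemma r22_14 : allLt (fun j => blkR 22 (Nat.add 14 j)) 1 = true := by decide +kernel

lemma r22_15 : allLt (fun j => blkR 22 (Nat.add 15 j)) 1 = true := by decide +kernel

lemma r22_16 : allLt (fun j => blkR 22 (Nat.add 16 j)) 1 = true := by decide +kernel

lemma r22_17 : allLt (fun j => blkR 22 (Nat.add 17 j)) 1 = true := by decide +kernel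

lemma r22_18 : allLt (fun j => blkR 22 (Nat.add 18 j)) 1 = true := by decide +kernel

lemma r22_19 : allLt (fun j => blkR 22 (Nat.add 19 j)) 1 = true := by decide +kernel

lemma r22_20 : allLt (fun j => blkR 22 (Nat.add 20 j)) 1 = true := by decide +kernel

lemma r22_21 : allLt (fun j => blkR 22 (Nat.add 21 j)) 1 = true := by decide +kernel

lemma r22_22 : allLt (fun j => blkR 22 (Nat.add 22 j)) 1 = true := by decide +kernel

end KD

end Pool.Agent.H962
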