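import Pool.Agent.H962.KC14

/-!
# Check of the simplices
-/

set_option autoImplicit false

namespace Pool.Agent.H962

namespace KD

lemma t24_210 : allLt (fun j => blkT 24 (Nat.add 210 j)) 2 = true := by decide +kernel

lemma t24_212 : allLt (fun j => blkT 24 (Nat.add 212 j)) 10 = true := by decide +kernel

lemma t24_222 : allLt (fun j => blkT 24 (Nat.add 222 j)) 2 = true := by decide +kernel

lemma t24_224 : allLt (fun j => blkT 24 (Nat.add 224 j)) 2 = true := by decide +kernel

lemma t24_226 : allLt (fun j => blkT 24 (Nat.add 226 j)) 2 = true := by decide +kernel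

lemma t24_228 : allLt (fun j => blkT 24 (Nat.add 228 j)) 2 = true := by decide +kernel

lemma t24_230 : allLt (fun j => blkT 24 (Nat.add 230 j)) 2 = true := by decide +kernel

lemma t24_232 : allLt (fun j => blkT 24 (Nat.add 232 j)) 8 = true := by decide +kernel

lemma t24_240 : allLt (fun j => blkT 24 (Nat.add 240 j)) 2 = true := by decide +kernel

lemma t24_242 : allLt (fun j => blkT 24 (Nat.add 242 j)) 2 = true := by decide +kernel

lemma t24_244 : allLt (fun j => blkT 24 (Nat.add 244 j)) 2 = true := by decide +kernel

lemma t24_246 : allLt (fun j => blkT 24 (Nat.add 246 j)) 2 = true := by decide +kernel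

lemma t24_248 : allLt (fun j => blkT 24 (Nat.add 248 j)) 2 = true := by decide +kernel

lemma t24_250 : allLt (fun j => blkT 24 (Nat.add 250 j)) 6 = true := by decide +kernel

lemma t24_256 : allLt (fun j => blkT 24 (Nat.add 256 j)) 3 = true := by decide +kernel

lemma t24_259 : allLt (fun j => blkT 24 (Nat.add 259 j)) 3 = true := by decide +kernel

lemma t24_262 : allLt (fun j => blkT 24 (Nat.add 262 j)) 2 = true := by decide +kernel

lemma t24_264 : allLt (fun j => blkT 24 (Nat.add 264 j)) 2 = true := by decide +kernel

lemma t24_266 : allLt (fun j => blkT 24 (Nat.add 266 j)) 2 = true := by decide +kernel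

lemma t24_268 : allLt (fun j => blkT 24 (Nat.add 268 j)) 5 = true := by decide +kernel

lemma t24_273 : allLt (fun j => blkT 24 (Nat.add 273 j)) 3 = true := by decide +kernel

lemma t24_276 : allLt (fun j => blkT 24 (Nat.add 276 j)) 3 = true := by decide +kernel

lemma t24_279 : allLt (fun j => blkT 24 (Nat.add 279 j)) 3 = true := by decide +kernel

lemma t24_282 : allLt (fun j => blkT 24 (Nat.add 282 j)) 2 = true := by decide +kernel

lemma t24_284 : allLt (fun j => blkT 24 (Nat.add 284 j)) 2 = true := by decide +kernel

lemma t24_286 : allLt (fun j => blkT 24 (Nat.add 286 j)) 5 = true := by decide +kernel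

lemma t24_291 : allLt (fun j => blkT 24 (Nat.add 291 j)) 4 = true := by decide +kernel

lemma t24_295 : allLt (fun j => blkT 24 (Nat.add 295 j)) 3 = true := by decide +kernel

lemma t24_298 : allLt (fun j => blkT 24 (Nat.add 298 j)) 2 = true := by decide +kernel

lemma t24_300 : allLt (fun j => blkT 24 (Nat.add 300 j)) 2 = true := by decide +kernel

lemma t24_302 : allLt (fun j => blkT 24 (Nat.add 302 j)) 4 = true := by decide +kernel

lemma t24_306 : allLt (fun j => blkT 24 (Nat.add 306 j)) 5 = true := by decide +kernel

lemma t24_311 : allLt (fun j => blkT 24 (Nat.add 311 j)) 3 = true := by decide +kernel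

lemma t24_314 : allLt (fun j => blkT 24 (Nat.add 314 j)) 3 = true := by decide +kernel

lemma t24_317 : allLt (fun j => blkT 24 (Nat.add 317 j)) 3 = true := by decide +kernel

lemma t24_320 : allLt (fun j => blkT 24 (Nat.add 320 j)) 4 = true := by decide +kernel

lemma t24_324 : allLt (fun j => blkT 24 (Nat.add 324 j)) 4 = true := by decide +kernel

lemma t24_328 : allLt (fun j => blkT 24 (Nat.add 328 j)) 3 = true := by decide +kernel

lemma t24_331 : allLt (fun j => blkT 24 (Nat.add 331 j)) 3 = true := by decide +kernel

lemma t24_334 : allLt (fun j => blkT 24 (Nat.add 334 j)) 2 = true := by decide +kernel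

lemma t24_336 : allLt (fun j => blkT 24 (Nat.add 336 j)) 2 = true := by decide +kernel

lemma t24_338 : allLt (fun j => blkT 24 (Nat.add 338 j)) 4 = true := by decide +kernel

lemma t24_342 : allLt (fun j => blkT 24 (Nat.add 342 j)) 5 = true := by decide +kernel

lemma t24_347 : allLt (fun j => blkT 24 (Nat.add 347 j)) 5 = true := by decide +kernel

lemma t24_352 : allLt (fun j => blkT 24 (Nat.add 352 j)) 4 = true := by decide +kernel

lemma t24_356 : allLt (fun j => blkT 24 (Nat.add 356 j)) 9 = true := by decide +kernel

lemma t24_365 : allLt (fun j => blkT 24 (Nat.add 365 j)) 7 = true := by decide +kernel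

lemma t24_372 : allLt (fun j => blkT 24 (Nat.add 372 j)) 13 = true := by decide +kernel

lemma t24_385 : allLt (fun j => blkT 24 (Nat.add 385 j)) 12 = true := by decide +kernel

lemma t24_397 : allLt (fun j => blkT 24 (Nat.add 397 j)) 11 = true := by decide +kernel

lemma t24_408 : allLt (fun j => blkT 24 (Nat.add 408 j)) 16 = true := by decide +kernel

lemma t24_424 : allLt (fun j => blkT 24 (Nat.add 424 j)) 11 = true := by decide +kernel

lemma t24_435 : allLt (fun j => blkT 24 (Nat.add 435 j)) 24 = true := by decide +kernel

lemma r24_0 : allLt (fun j => blkR 24 (Nat.add 0 j)) 97 = true := by decide +kernel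

lemma rowC24 : rowC 24 = true := by decide +kernel

lemma t25_0 : allLt (fun j => blkT 25 (Nat.add 0 j)) 187 = true := by decide +kernel

lemma t25_187 : allLt (fun j => blkT 25 (Nat.add 187 j)) 170 = true := by decide +kernel

lemma t25_357 : allLt (fun j => blkT 25 (Nat.add 357 j)) 53 = true := by decide +kernel

lemma t25_410 : allLt (fun j => blkT 25 (Nat.add 410 j)) 49 = true := by decide +kernel

lemma r25_0 : allLt (fun j => blkR 25 (Nat.add 0 j)) 97 = true := by decide +kernel

lemma rowC25 : rowC 25 = true := by decide +kernel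

lemma t26_0 : allLt (fun j => blkT 26 (Nat.add 0 j)) 187 = true := by decide +kernel

lemma t26_187 : allLt (fun j => blkT 26 (Nat.add 187 j)) 187 = true := by decide +kernel

lemma t26_374 : allLt (fun j => blkT 26 (Nat.add 374 j)) 85 = true := by decide +kernel

lemma r26_0 : allLt (fun j => blkR 26 (Nat.add 0 j)) 97 = true := by decide +kernel

lemma rowC26 : rowC 26 = true := by decide +kernel

lemma rowC27 : rowC 27 = true := by decide +kernel

end KD

end Pool.Agent.H962
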