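import Pool.Agent.H962.KC2

/-!
# Check of the simplices
-/

set_option autoImplicit false

namespace Pool.Agent.H962

namespace KD

lemma t8_272 : allLt (fun j => blkT 8 (Nat.add 272 j)) 28 = true := by decide +kernel

lemma t8_300 : allLt (fun j => blkT 8 (Nat.add 300 j)) 28 = true := by decide +kernel

lemma t8_328 : allLt (fun j => blkT 8 (Nat.add 328 j)) 28 = true := by decide +kernel

lemma t8_356 : allLt (fun j => blkT 8 (Nat.add 356 j)) 20 = true := by decide +kernel

lemma t8_376 : allLt (fun j => blkT 8 (Nat.add 376 j)) 17 = true := by decide +kernel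

lemma t8_393 : allLt (fun j => blkT 8 (Nat.add 393 j)) 3 = true := by decide +kernel

lemma t8_396 : allLt (fun j => blkT 8 (Nat.add 396 j)) 45 = true := by decide +kernel

lemma t8_441 : allLt (fun j => blkT 8 (Nat.add 441 j)) 18 = true := by decide +kernel

lemma r8_0 : allLt (fun j => blkR 8 (Nat.add 0 j)) 19 = true := by decide +kernel

lemma r8_19 : allLt (fun j => blkR 8 (Nat.add 19 j)) 21 = true := by decide +kernel

lemma r8_40 : allLt (fun j => blkR 8 (Nat.add 40 j)) 23 = true := by decide +kernel

lemma r8_63 : allLt (fun j => blkR 8 (Nat.add 63 j)) 19 = true := by decide +kernel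

lemma r8_82 : allLt (fun j => blkR 8 (Nat.add 82 j)) 15 = true := by decide +kernel

lemma rowC8 : rowC 8 = true := by decide +kernel

lemma t9_0 : allLt (fun j => blkT 9 (Nat.add 0 j)) 36 = true := by decide +kernel

lemma t9_36 : allLt (fun j => blkT 9 (Nat.add 36 j)) 1 = true := by decide +kernel

lemma t9_37 : allLt (fun j => blkT 9 (Nat.add 37 j)) 1 = true := by decide +kernel

lemma t9_38 : allLt (fun j => blkT 9 (Nat.add 38 j)) 8 = true := by decide +kernel

lemma t9_46 : allLt (fun j => blkT 9 (Nat.add 46 j)) 12 = true := by decide +kernel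

lemma t9_58 : allLt (fun j => blkT 9 (Nat.add 58 j)) 3 = true := by decide +kernel

lemma t9_61 : allLt (fun j => blkT 9 (Nat.add 61 j)) 21 = true := by decide +kernel

lemma t9_82 : allLt (fun j => blkT 9 (Nat.add 82 j)) 28 = true := by decide +kernel

lemma t9_110 : allLt (fun j => blkT 9 (Nat.add 110 j)) 28 = true := by decide +kernel

lemma t9_138 : allLt (fun j => blkT 9 (Nat.add 138 j)) 28 = true := by decide +kernel

lemma t9_166 : allLt (fun j => blkT 9 (Nat.add 166 j)) 28 = true := by decide +kernel

lemma t9_194 : allLt (fun j => blkT 9 (Nat.add 194 j)) 28 = true := by decide +kernel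

lemma t9_222 : allLt (fun j => blkT 9 (Nat.add 222 j)) 28 = true := by decide +kernel

lemma t9_250 : allLt (fun j => blkT 9 (Nat.add 250 j)) 28 = true := by decide +kernel

lemma t9_278 : allLt (fun j => blkT 9 (Nat.add 278 j)) 28 = true := by decide +kernel

lemma t9_306 : allLt (fun j => blkT 9 (Nat.add 306 j)) 28 = true := by decide +kernel

lemma t9_334 : allLt (fun j => blkT 9 (Nat.add 334 j)) 28 = true := by decide +kernel

lemma t9_362 : allLt (fun j => blkT 9 (Nat.add 362 j)) 28 = true := by decide +kernel

lemma t9_390 : allLt (fun j => blkT 9 (Nat.add 390 j)) 5 = true := by decide +kernel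

lemma t9_395 : allLt (fun j => blkT 9 (Nat.add 395 j)) 18 = true := by decide +kernel

lemma t9_413 : allLt (fun j => blkT 9 (Nat.add 413 j)) 46 = true := by decide +kernel

lemma r9_0 : allLt (fun j => blkR 9 (Nat.add 0 j)) 19 = true := by decide +kernel

lemma r9_19 : allLt (fun j => blkR 9 (Nat.add 19 j)) 21 = true := by decide +kernel

lemma r9_40 : allLt (fun j => blkR 9 (Nat.add 40 j)) 22 = true := by decide +kernel

lemma r9_62 : allLt (fun j => blkR 9 (Nat.add 62 j)) 19 = true := by decide +kernel

lemma r9_81 : allLt (fun j => blkR 9 (Nat.add 81 j)) 11 = true := by decide +kernel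

lemma r9_92 : allLt (fun j => blkR 9 (Nat.add 92 j)) 5 = true := by decide +kernel

lemma rowC9 : rowC 9 = true := by decide +kernel

lemma t10_0 : allLt (fun j => blkT 10 (Nat.add 0 j)) 18 = true := by decide +kernel

lemma t10_18 : allLt (fun j => blkT 10 (Nat.add 18 j)) 19 = true := by decide +kernel

lemma t10_37 : allLt (fun j => blkT 10 (Nat.add 37 j)) 1 = true := by decide +kernel

lemma t10_38 : allLt (fun j => blkT 10 (Nat.add 38 j)) 18 = true := by decide +kernel

lemma t10_56 : allLt (fun j => blkT 10 (Nat.add 56 j)) 2 = true := by decide +kernel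

lemma t10_58 : allLt (fun j => blkT 10 (Nat.add 58 j)) 2 = true := by decide +kernel

lemma t10_60 : allLt (fun j => blkT 10 (Nat.add 60 j)) 8 = true := by decide +kernel

lemma t10_68 : allLt (fun j => blkT 10 (Nat.add 68 j)) 26 = true := by decide +kernel

lemma t10_94 : allLt (fun j => blkT 10 (Nat.add 94 j)) 28 = true := by decide +kernel

lemma t10_122 : allLt (fun j => blkT 10 (Nat.add 122 j)) 28 = true := by decide +kernel

lemma t10_150 : allLt (fun j => blkT 10 (Nat.add 150 j)) 28 = true := by decide +kernel

lemma t10_178 : allLt (fun j => blkT 10 (Nat.add 178 j)) 28 = true := by decide +kernel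

lemma t10_206 : allLt (fun j => blkT 10 (Nat.add 206 j)) 28 = true := by decide +kernel

lemma t10_234 : allLt (fun j => blkT 10 (Nat.add 234 j)) 28 = true := by decide +kernel

lemma t10_262 : allLt (fun j => blkT 10 (Nat.add 262 j)) 28 = true := by decide +kernel

lemma t10_290 : allLt (fun j => blkT 10 (Nat.add 290 j)) 28 = true := by decide +kernel

lemma t10_318 : allLt (fun j => blkT 10 (Nat.add 318 j)) 28 = true := by decide +kernel

end KD

end Pool.Agent.H962
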