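import Pool.Agent.H962.KC4

/-!
# Check of the simplices
-/

set_option autoImplicit false

namespace Pool.Agent.H962

namespace KD

lemma t12_207 : allLt (fun j => blkT 12 (Nat.add 207 j)) 28 = true := by decide +kernel

lemma t12_235 : allLt (fun j => blkT 12 (Nat.add 235 j)) 28 = true := by decide +kernel

lemma t12_263 : allLt (fun j => blkT 12 (Nat.add 263 j)) 28 = true := by decide +kernel

lemma t12_291 : allLt (fun j => blkT 12 (Nat.add 291 j)) 28 = true := by decide +kernel

lemma t12_319 : allLt (fun j => blkT 12 (Nat.add 319 j)) 28 = true := by decide +kernel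

lemma t12_347 : allLt (fun j => blkT 12 (Nat.add 347 j)) 28 = true := by decide +kernel

lemma t12_375 : allLt (fun j => blkT 12 (Nat.add 375 j)) 28 = true := by decide +kernel

lemma t12_403 : allLt (fun j => blkT 12 (Nat.add 403 j)) 6 = true := by decide +kernel

lemma t12_409 : allLt (fun j => blkT 12 (Nat.add 409 j)) 1 = true := by decide +kernel

lemma t12_410 : allLt (fun j => blkT 12 (Nat.add 410 j)) 1 = true := by decide +kernel

lemma t12_411 : allLt (fun j => blkT 12 (Nat.add 411 j)) 2 = true := by decide +kernel

lemma t12_413 : allLt (fun j => blkT 12 (Nat.add 413 j)) 2 = true := by decide +kernel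

lemma t12_415 : allLt (fun j => blkT 12 (Nat.add 415 j)) 2 = true := by decide +kernel

lemma t12_417 : allLt (fun j => blkT 12 (Nat.add 417 j)) 42 = true := by decide +kernel

lemma r12_0 : allLt (fun j => blkR 12 (Nat.add 0 j)) 16 = true := by decide +kernel

lemma r12_16 : allLt (fun j => blkR 12 (Nat.add 16 j)) 18 = true := by decide +kernel

lemma r12_34 : allLt (fun j => blkR 12 (Nat.add 34 j)) 21 = true := by decide +kernel

lemma r12_55 : allLt (fun j => blkR 12 (Nat.add 55 j)) 16 = true := by decide +kernel

lemma r12_71 : allLt (fun j => blkR 12 (Nat.add 71 j)) 12 = true := by decide +kernel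

lemma r12_83 : allLt (fun j => blkR 12 (Nat.add 83 j)) 14 = true := by decide +kernel

lemma rowC12 : rowC 12 = true := by decide +kernel

lemma t13_0 : allLt (fun j => blkT 13 (Nat.add 0 j)) 35 = true := by decide +kernel

lemma t13_35 : allLt (fun j => blkT 13 (Nat.add 35 j)) 17 = true := by decide +kernel

lemma t13_52 : allLt (fun j => blkT 13 (Nat.add 52 j)) 1 = true := by decide +kernel

lemma t13_53 : allLt (fun j => blkT 13 (Nat.add 53 j)) 1 = true := by decide +kernel

lemma t13_54 : allLt (fun j => blkT 13 (Nat.add 54 j)) 1 = true := by decide +kernel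

lemma t13_55 : allLt (fun j => blkT 13 (Nat.add 55 j)) 1 = true := by decide +kernel

lemma t13_56 : allLt (fun j => blkT 13 (Nat.add 56 j)) 1 = true := by decide +kernel

lemma t13_57 : allLt (fun j => blkT 13 (Nat.add 57 j)) 1 = true := by decide +kernel

lemma t13_58 : allLt (fun j => blkT 13 (Nat.add 58 j)) 1 = true := by decide +kernel

lemma t13_59 : allLt (fun j => blkT 13 (Nat.add 59 j)) 1 = true := by decide +kernel

lemma t13_60 : allLt (fun j => blkT 13 (Nat.add 60 j)) 2 = true := by decide +kernel

lemma t13_62 : allLt (fun j => blkT 13 (Nat.add 62 j)) 18 = true := by decide +kernel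

lemma t13_80 : allLt (fun j => blkT 13 (Nat.add 80 j)) 19 = true := by decide +kernel

lemma t13_99 : allLt (fun j => blkT 13 (Nat.add 99 j)) 23 = true := by decide +kernel

lemma t13_122 : allLt (fun j => blkT 13 (Nat.add 122 j)) 28 = true := by decide +kernel

lemma t13_150 : allLt (fun j => blkT 13 (Nat.add 150 j)) 28 = true := by decide +kernel

lemma t13_178 : allLt (fun j => blkT 13 (Nat.add 178 j)) 28 = true := by decide +kernel

lemma t13_206 : allLt (fun j => blkT 13 (Nat.add 206 j)) 28 = true := by decide +kernel

lemma t13_234 : allLt (fun j => blkT 13 (Nat.add 234 j)) 28 = true := by decide +kernel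

lemma t13_262 : allLt (fun j => blkT 13 (Nat.add 262 j)) 28 = true := by decide +kernel

lemma t13_290 : allLt (fun j => blkT 13 (Nat.add 290 j)) 28 = true := by decide +kernel

lemma t13_318 : allLt (fun j => blkT 13 (Nat.add 318 j)) 28 = true := by decide +kernel

lemma t13_346 : allLt (fun j => blkT 13 (Nat.add 346 j)) 28 = true := by decide +kernel

lemma t13_374 : allLt (fun j => blkT 13 (Nat.add 374 j)) 28 = true := by decide +kernel

lemma t13_402 : allLt (fun j => blkT 13 (Nat.add 402 j)) 7 = true := by decide +kernel

lemma t13_409 : allLt (fun j => blkT 13 (Nat.add 409 j)) 1 = true := by decide +kernel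

lemma t13_410 : allLt (fun j => blkT 13 (Nat.add 410 j)) 1 = true := by decide +kernel

lemma t13_411 : allLt (fun j => blkT 13 (Nat.add 411 j)) 1 = true := by decide +kernel

lemma t13_412 : allLt (fun j => blkT 13 (Nat.add 412 j)) 1 = true := by decide +kernel

lemma t13_413 : allLt (fun j => blkT 13 (Nat.add 413 j)) 2 = true := by decide +kernel

lemma t13_415 : allLt (fun j => blkT 13 (Nat.add 415 j)) 2 = true := by decide +kernel

lemma t13_417 : allLt (fun j => blkT 13 (Nat.add 417 j)) 19 = true := by decide +kernel

lemma t13_436 : allLt (fun j => blkT 13 (Nat.add 436 j)) 23 = true := by decide +kernel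

lemma r13_0 : allLt (fun j => blkR 13 (Nat.add 0 j)) 15 = true := by decide +kernel

lemma r13_15 : allLt (fun j => blkR 13 (Nat.add 15 j)) 17 = true := by decide +kernel

lemma r13_32 : allLt (fun j => blkR 13 (Nat.add 32 j)) 20 = true := by decide +kernel

lemma r13_52 : allLt (fun j => blkR 13 (Nat.add 52 j)) 15 = true := by decide +kernel

lemma r13_67 : allLt (fun j => blkR 13 (Nat.add 67 j)) 14 = true := by decide +kernel

lemma r13_81 : allLt (fun j => blkR 13 (Nat.add 81 j)) 16 = true := by decide +kernel

lemma rowC13 : rowC 13 = true := by decide +kernel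

lemma t14_0 : allLt (fun j => blkT 14 (Nat.add 0 j)) 52 = true := by decide +kernel

lemma t14_52 : allLt (fun j => blkT 14 (Nat.add 52 j)) 1 = true := by decide +kernel

lemma t14_53 : allLt (fun j => blkT 14 (Nat.add 53 j)) 1 = true := by decide +kernel

end KD

end Pool.Agent.H962
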