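import Pool.Agent.H962.KC7

/-!
# Check of the simplices
-/

set_option autoImplicit false

namespace Pool.Agent.H962

namespace KD

lemma r16_73 : allLt (fun j => blkR 16 (Nat.add 73 j)) 1 = true := by decide +kernel

lemma r16_74 : allLt (fun j => blkR 16 (Nat.add 74 j)) 23 = true := by decide +kernel

lemma rowC16 : rowC 16 = true := by decide +kernel

lemma t17_0 : allLt (fun j => blkT 17 (Nat.add 0 j)) 68 = true := by decide +kernel

lemma t17_68 : allLt (fun j => blkT 17 (Nat.add 68 j)) 4 = true := by decide +kernel

lemma t17_72 : allLt (fun j => blkT 17 (Nat.add 72 j)) 1 = true := by decide +kernel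

lemma t17_73 : allLt (fun j => blkT 17 (Nat.add 73 j)) 1 = true := by decide +kernel

lemma t17_74 : allLt (fun j => blkT 17 (Nat.add 74 j)) 1 = true := by decide +kernel

lemma t17_75 : allLt (fun j => blkT 17 (Nat.add 75 j)) 1 = true := by decide +kernel

lemma t17_76 : allLt (fun j => blkT 17 (Nat.add 76 j)) 2 = true := by decide +kernel

lemma t17_78 : allLt (fun j => blkT 17 (Nat.add 78 j)) 16 = true := by decide +kernel

lemma t17_94 : allLt (fun j => blkT 17 (Nat.add 94 j)) 1 = true := by decide +kernel

lemma t17_95 : allLt (fun j => blkT 17 (Nat.add 95 j)) 1 = true := by decide +kernel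

lemma t17_96 : allLt (fun j => blkT 17 (Nat.add 96 j)) 1 = true := by decide +kernel

lemma t17_97 : allLt (fun j => blkT 17 (Nat.add 97 j)) 16 = true := by decide +kernel

lemma t17_113 : allLt (fun j => blkT 17 (Nat.add 113 j)) 3 = true := by decide +kernel

lemma t17_116 : allLt (fun j => blkT 17 (Nat.add 116 j)) 14 = true := by decide +kernel

lemma t17_130 : allLt (fun j => blkT 17 (Nat.add 130 j)) 24 = true := by decide +kernel

lemma t17_154 : allLt (fun j => blkT 17 (Nat.add 154 j)) 28 = true := by decide +kernel

lemma t17_182 : allLt (fun j => blkT 17 (Nat.add 182 j)) 28 = true := by decide +kernel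

lemma t17_210 : allLt (fun j => blkT 17 (Nat.add 210 j)) 28 = true := by decide +kernel

lemma t17_238 : allLt (fun j => blkT 17 (Nat.add 238 j)) 28 = true := by decide +kernel

lemma t17_266 : allLt (fun j => blkT 17 (Nat.add 266 j)) 28 = true := by decide +kernel

lemma t17_294 : allLt (fun j => blkT 17 (Nat.add 294 j)) 28 = true := by decide +kernel

lemma t17_322 : allLt (fun j => blkT 17 (Nat.add 322 j)) 28 = true := by decide +kernel

lemma t17_350 : allLt (fun j => blkT 17 (Nat.add 350 j)) 28 = true := by decide +kernel

lemma t17_378 : allLt (fun j => blkT 17 (Nat.add 378 j)) 28 = true := by decide +kernel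

lemma t17_406 : allLt (fun j => blkT 17 (Nat.add 406 j)) 4 = true := by decide +kernel

lemma t17_410 : allLt (fun j => blkT 17 (Nat.add 410 j)) 3 = true := by decide +kernel

lemma t17_413 : allLt (fun j => blkT 17 (Nat.add 413 j)) 17 = true := by decide +kernel

lemma t17_430 : allLt (fun j => blkT 17 (Nat.add 430 j)) 2 = true := by decide +kernel

lemma t17_432 : allLt (fun j => blkT 17 (Nat.add 432 j)) 1 = true := by decide +kernel

lemma t17_433 : allLt (fun j => blkT 17 (Nat.add 433 j)) 1 = true := by decide +kernel

lemma t17_434 : allLt (fun j => blkT 17 (Nat.add 434 j)) 1 = true := by decide +kernel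

lemma t17_435 : allLt (fun j => blkT 17 (Nat.add 435 j)) 2 = true := by decide +kernel

lemma t17_437 : allLt (fun j => blkT 17 (Nat.add 437 j)) 3 = true := by decide +kernel

lemma t17_440 : allLt (fun j => blkT 17 (Nat.add 440 j)) 19 = true := by decide +kernel

lemma r17_0 : allLt (fun j => blkR 17 (Nat.add 0 j)) 11 = true := by decide +kernel

lemma r17_11 : allLt (fun j => blkR 17 (Nat.add 11 j)) 13 = true := by decide +kernel

lemma r17_24 : allLt (fun j => blkR 17 (Nat.add 24 j)) 12 = true := by decide +kernel

lemma r17_36 : allLt (fun j => blkR 17 (Nat.add 36 j)) 12 = true := by decide +kernel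

lemma r17_48 : allLt (fun j => blkR 17 (Nat.add 48 j)) 12 = true := by decide +kernel

lemma r17_60 : allLt (fun j => blkR 17 (Nat.add 60 j)) 7 = true := by decide +kernel

lemma r17_67 : allLt (fun j => blkR 17 (Nat.add 67 j)) 1 = true := by decide +kernel

lemma r17_68 : allLt (fun j => blkR 17 (Nat.add 68 j)) 1 = true := by decide +kernel

lemma r17_69 : allLt (fun j => blkR 17 (Nat.add 69 j)) 1 = true := by decide +kernel

lemma r17_70 : allLt (fun j => blkR 17 (Nat.add 70 j)) 1 = true := by decide +kernel

lemma r17_71 : allLt (fun j => blkR 17 (Nat.add 71 j)) 26 = true := by decide +kernel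

lemma rowC17 : rowC 17 = true := by decide +kernel

lemma t18_0 : allLt (fun j => blkT 18 (Nat.add 0 j)) 70 = true := by decide +kernel

lemma t18_70 : allLt (fun j => blkT 18 (Nat.add 70 j)) 2 = true := by decide +kernel

lemma t18_72 : allLt (fun j => blkT 18 (Nat.add 72 j)) 1 = true := by decide +kernel

lemma t18_73 : allLt (fun j => blkT 18 (Nat.add 73 j)) 2 = true := by decide +kernel

lemma t18_75 : allLt (fun j => blkT 18 (Nat.add 75 j)) 16 = true := by decide +kernel

lemma t18_91 : allLt (fun j => blkT 18 (Nat.add 91 j)) 1 = true := by decide +kernel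

lemma t18_92 : allLt (fun j => blkT 18 (Nat.add 92 j)) 1 = true := by decide +kernel

lemma t18_93 : allLt (fun j => blkT 18 (Nat.add 93 j)) 1 = true := by decide +kernel

lemma t18_94 : allLt (fun j => blkT 18 (Nat.add 94 j)) 1 = true := by decide +kernel

lemma t18_95 : allLt (fun j => blkT 18 (Nat.add 95 j)) 1 = true := by decide +kernel

end KD

end Pool.Agent.H962
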