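import Pool.Agent.H962.Check

/-!
# Soundness of the certificate checker
-/

set_option autoImplicit false

open Real Set

namespace Pool.Agent.H962

namespace CData

/-- the tables of the certificate are correct -/
structure Tab (c : CData) : Prop where
  s : ∀ n : ℕ, n ≤ NT → |(c.S n : ℝ) - (ZZ : ℝ) * sin ((n : ℝ) / 16384)| ≤ (EE : ℝ)
  c : ∀ n : ℕ, n ≤ NT → |(c.C n : ℝ) - (ZZ : ℝ) * cos ((n : ℝ) / 16384)| ≤ (EE : ℝ)

noncomputable def cr (c : CData) (j : ℕ) (x y : ℝ) : ℝ :=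
  (c.fA j : ℝ) * x + (c.fB j : ℝ) * y + (c.fK j : ℝ)

noncomputable def V (c : CData) (j : ℕ) (x y h : ℝ) : ℝ := -(c.fL j : ℝ) * h + cr c j x y

lemma cv_cast (c : CData) (j e y : ℕ) :
    ((c.cv j e y : ℤ) : ℝ) = 16384 * cr c j ((e : ℝ) / 16384) ((y : ℝ) / 16384) := by
  unfold cv cr QQ
  push_cast [Int.ofNat_eq_natCast]
  field_simp

lemma Z_pos : (0 : ℝ) < (ZZ : ℝ) := by unfold ZZ; norm_num
lemma E_nonneg : (0 : ℝ) ≤ (EE : ℝ) := by unfold EE; norm_num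

lemma row_pos {c : CData} (hT : Tab c) {dl : ℤ} {i j e0 e1 y : ℕ} (he : e0 < e1)
    (hy : e1 + y ≤ NT) (hdl : 0 ≤ dl) (h0 : c.testS dl i j e0 e0 e1 y = true)
    (h1 : c.testS dl i j e1 e0 e1 y = true) {x : ℝ} (hx0 : (e0 : ℝ) / 16384 ≤ x)
    (hx1 : x ≤ (e1 : ℝ) / 16384) :
    (dl : ℝ) * sin (x + (y : ℝ) / 16384) <
      cr c i x ((y : ℝ) / 16384) - cr c j x ((y : ℝ) / 16384) := by
  have hZ := Z_pos
  have hdl' : (0 : ℝ) ≤ dl := by exact_mod_cast hdl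
  have key : ∀ e : ℕ, e ≤ e1 → c.testS dl i j e e0 e1 y = true →
      0 < cr c i ((e : ℝ) / 16384) ((y : ℝ) / 16384) - cr c j ((e : ℝ) / 16384) ((y : ℝ) / 16384)
        - (dl : ℝ) * (sin (((e : ℝ) + y) / 16384) + (((e1 : ℝ) - e0) / 16384) ^ 2 / 8) := by
    intro e hle h
    have h2 := of_decide_eq_true h
    have h3 : ((dl * (8 * QQ * QQ * (c.S (e + y) + EE) + (Int.ofNat e1 - Int.ofNat e0) *
      (Int.ofNat e1 - Int.ofNat e0) * ZZ) : ℤ) : ℝ) <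
      (((c.cv i e y - c.cv j e y) * (8 * QQ * ZZ) : ℤ) : ℝ) := by exact_mod_cast h2
    push_cast [Int.ofNat_eq_natCast] at h3
    rw [cv_cast, cv_cast] at h3
    have hS := (abs_le.mp (hT.s (e + y) (by omega))).1
    push_cast at hS
    have hQ : (QQ : ℝ) = 16384 := by unfold QQ; norm_num
    rw [hQ] at h3
    have h4 : (dl : ℝ) * (8 * 16384 * 16384 * ((ZZ : ℝ) * sin (((e : ℝ) + y) / 16384)) +
        ((e1 : ℝ) - e0) * ((e1 : ℝ) - e0) * ZZ) ≤
        (dl : ℝ) * (8 * 16384 * 16384 * ((c.S (e + y) : ℝ) + EE) +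
        ((e1 : ℝ) - e0) * ((e1 : ℝ) - e0) * ZZ) := by
      apply mul_le_mul_of_nonneg_left _ hdl'
      nlinarith
    have h5 := lt_of_le_of_lt h4 h3
    have h6 : 0 < (ZZ : ℝ) * (8 * 16384 * 16384) * (cr c i ((e : ℝ) / 16384) ((y : ℝ) / 16384)
        - cr c j ((e : ℝ) / 16384) ((y : ℝ) / 16384)
        - (dl : ℝ) * (sin (((e : ℝ) + y) / 16384) + (((e1 : ℝ) - e0) / 16384) ^ 2 / 8)) := by
      nlinarith
    exact (mul_pos_iff_of_pos_left (by positivity)).mp h6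
  have G0 := key e0 he.le h0
  have G1 := key e1 le_rfl h1
  have hx0' : (((e0 : ℝ) + y) / 16384) ≤ x + (y : ℝ) / 16384 := by
    rw [add_div]; linarith
  have hx1' : x + (y : ℝ) / 16384 ≤ (((e1 : ℝ) + y) / 16384) := by
    rw [add_div]; linarith
  have hs := sin_interp hx0' hx1'
  set p := (((e1 : ℝ) + y) / 16384) - (x + (y : ℝ) / 16384) with hp
  set q := (x + (y : ℝ) / 16384) - (((e0 : ℝ) + y) / 16384) with hq
  have hw : (((e1 : ℝ) + y) / 16384) - (((e0 : ℝ) + y) / 16384) = p + q := by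
    rw [hp, hq]; ring
  have hw2 : (((e1 : ℝ) - e0) / 16384) = p + q := by rw [← hw]; ring
  rw [hw] at hs
  rw [hw2] at G0 G1
  have hp0 : 0 ≤ p := by rw [hp]; linarith
  have hq0 : 0 ≤ q := by rw [hq]; linarith
  have hlt : (e0 : ℝ) < e1 := by exact_mod_cast he
  have hpq : 0 < p + q := by rw [← hw2]; apply div_pos <;> linarith
  have hD : (p + q) * (cr c i x ((y : ℝ) / 16384) - cr c j x ((y : ℝ) / 16384)) =
      p * (cr c i ((e0 : ℝ) / 16384) ((y : ℝ) / 16384) - cr c j ((e0 : ℝ) / 16384) ((y : ℝ) / 16384))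
      + q * (cr c i ((e1 : ℝ) / 16384) ((y : ℝ) / 16384)
        - cr c j ((e1 : ℝ) / 16384) ((y : ℝ) / 16384)) := by
    rw [hp, hq]; unfold cr; ring
  have hpos : 0 < p * (cr c i ((e0 : ℝ) / 16384) ((y : ℝ) / 16384)
        - cr c j ((e0 : ℝ) / 16384) ((y : ℝ) / 16384)
        - (dl : ℝ) * (sin (((e0 : ℝ) + y) / 16384) + (p + q) ^ 2 / 8)) +
      q * (cr c i ((e1 : ℝ) / 16384) ((y : ℝ) / 16384)
        - cr c j ((e1 : ℝ) / 16384) ((y : ℝ) / 16384)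
        - (dl : ℝ) * (sin (((e1 : ℝ) + y) / 16384) + (p + q) ^ 2 / 8)) := by
    rcases hp0.eq_or_lt with h | h
    · have hq1 : 0 < q := by linarith
      rw [← h]; rw [← h] at G1
      have := mul_pos hq1 G1
      linarith
    · have h7 := mul_pos h G0
      have h8 := mul_nonneg hq0 G1.le
      linarith
  have hs2 := mul_le_mul_of_nonneg_left hs hdl'
  have hfin : 0 < (p + q) * (cr c i x ((y : ℝ) / 16384) - cr c j x ((y : ℝ) / 16384)
      - (dl : ℝ) * sin (x + (y : ℝ) / 16384)) := by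
    have e1 : (p + q) * (cr c i x ((y : ℝ) / 16384) - cr c j x ((y : ℝ) / 16384)
      - (dl : ℝ) * sin (x + (y : ℝ) / 16384)) =
      (p + q) * (cr c i x ((y : ℝ) / 16384) - cr c j x ((y : ℝ) / 16384))
      - (dl : ℝ) * ((p + q) * sin (x + (y : ℝ) / 16384)) := by ring
    rw [e1, hD]
    nlinarith
  have := (mul_pos_iff_of_pos_left hpq).mp hfin
  linarith

lemma sin_le_shift {a b : ℝ} (h : a ≤ b) : sin a ≤ sin b + (b - a) := by
  have := (abs_le.mp (sin_lip a b h)).1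
  linarith

lemma sin_le_shift' {a b : ℝ} (h : a ≤ b) : sin b ≤ sin a + (b - a) := by
  have := (abs_le.mp (sin_lip a b h)).2
  linarith

lemma loS_sound {c : CData} (hT : Tab c) {i j e0 e1 y0 : ℕ} (he : e0 < e1)
    (h : c.loS i j e0 e1 y0 = true) {x y hh : ℝ} (hx0 : (e0 : ℝ) / 16384 ≤ x)
    (hx1 : x ≤ (e1 : ℝ) / 16384) (hy : y ≤ (y0 : ℝ) / 16384) (hh1 : |hh| ≤ sin (x + y))
    (hact : V c i x y hh ≤ V c j x y hh) : False := by
  unfold loS at h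
  simp only [Bool.and_eq_true, decide_eq_true_eq] at h
  obtain ⟨⟨⟨⟨h1, h2⟩, h3⟩, h4⟩, h5⟩ := h
  have hrow := row_pos hT he (Nat.le_of_ble_eq_true h3) (by omega) h4 h5 hx0 hx1
  have hdl : (0 : ℝ) ≤ ((c.fL i - c.fL j : ℤ) : ℝ) := by
    have : (0 : ℤ) ≤ c.fL i - c.fL j := by omega
    exact_mod_cast this
  have h2' : ((c.fL i - c.fL j : ℤ) : ℝ) ≤ ((c.fB j - c.fB i : ℤ) : ℝ) := by exact_mod_cast h2
  have hsh : sin (x + y) ≤ sin (x + (y0 : ℝ) / 16384) + ((y0 : ℝ) / 16384 - y) := by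
    have := sin_le_shift (a := x + y) (b := x + (y0 : ℝ) / 16384) (by linarith)
    linarith
  have hcr : cr c i x y - cr c j x y = cr c i x ((y0 : ℝ) / 16384) - cr c j x ((y0 : ℝ) / 16384)
      + ((c.fB j - c.fB i : ℤ) : ℝ) * ((y0 : ℝ) / 16384 - y) := by
    unfold cr; push_cast; ring
  have hact' : cr c i x y - cr c j x y ≤ ((c.fL i - c.fL j : ℤ) : ℝ) * hh := by
    unfold V at hact; push_cast; linarith
  have hh2 : hh ≤ sin (x + y) := (le_abs_self _).trans hh1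
  have e1 := mul_le_mul_of_nonneg_left hh2 hdl
  have e2 := mul_le_mul_of_nonneg_left hsh hdl
  have e3 := mul_le_mul_of_nonneg_right h2' (by linarith : 0 ≤ (y0 : ℝ) / 16384 - y)
  linarith

lemma hiS_sound {c : CData} (hT : Tab c) {i j e0 e1 y0 : ℕ} (he : e0 < e1)
    (h : c.hiS i j e0 e1 y0 = true) {x y hh : ℝ} (hx0 : (e0 : ℝ) / 16384 ≤ x)
    (hx1 : x ≤ (e1 : ℝ) / 16384) (hy : (y0 : ℝ) / 16384 ≤ y) (hh1 : |hh| ≤ sin (x + y))
    (hact : V c i x y hh ≤ V c j x y hh) : False := by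
  unfold hiS at h
  simp only [Bool.and_eq_true, decide_eq_true_eq] at h
  obtain ⟨⟨⟨⟨h1, h2⟩, h3⟩, h4⟩, h5⟩ := h
  have hrow := row_pos hT he (Nat.le_of_ble_eq_true h3) (by omega) h4 h5 hx0 hx1
  have hdl : (0 : ℝ) ≤ ((c.fL j - c.fL i : ℤ) : ℝ) := by
    have : (0 : ℤ) ≤ c.fL j - c.fL i := by omega
    exact_mod_cast this
  have h2' : ((c.fL j - c.fL i : ℤ) : ℝ) ≤ ((c.fB i - c.fB j : ℤ) : ℝ) := by exact_mod_cast h2
  have hsh : sin (x + y) ≤ sin (x + (y0 : ℝ) / 16384) + (y - (y0 : ℝ) / 16384) := by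
    have := sin_le_shift' (a := x + (y0 : ℝ) / 16384) (b := x + y) (by linarith)
    linarith
  have hcr : cr c i x y - cr c j x y = cr c i x ((y0 : ℝ) / 16384) - cr c j x ((y0 : ℝ) / 16384)
      + ((c.fB i - c.fB j : ℤ) : ℝ) * (y - (y0 : ℝ) / 16384) := by
    unfold cr; push_cast; ring
  have hact' : cr c i x y - cr c j x y ≤ ((c.fL j - c.fL i : ℤ) : ℝ) * (-hh) := by
    unfold V at hact; push_cast; linarith
  have hh2 : -hh ≤ sin (x + y) := (neg_le_abs _).trans hh1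
  have e1 := mul_le_mul_of_nonneg_left hh2 hdl
  have e2 := mul_le_mul_of_nonneg_left hsh hdl
  have e3 := mul_le_mul_of_nonneg_right h2' (by linarith : 0 ≤ y - (y0 : ℝ) / 16384)
  linarith

/-- the combination of three potentials which does not contain `h` -/
noncomputable def comb (c : CData) (i a b : ℕ) (x y : ℝ) : ℝ :=
  ((c.fL b : ℝ) - c.fL a) * cr c i x y - ((c.fL b : ℝ) - c.fL i) * cr c a x y
    - ((c.fL i : ℝ) - c.fL a) * cr c b x y

lemma comb_row {c : CData} {i a b e0 e1 y0 : ℕ} (he : e0 < e1)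
    (h : c.pairBase i a b e0 e1 y0 = true) {x : ℝ} (hx0 : (e0 : ℝ) / 16384 ≤ x)
    (hx1 : x ≤ (e1 : ℝ) / 16384) :
    (c.fL a : ℝ) ≤ c.fL i ∧ (c.fL i : ℝ) ≤ c.fL b ∧ 0 < comb c i a b x ((y0 : ℝ) / 16384) := by
  unfold pairBase at h
  simp only [Bool.and_eq_true, decide_eq_true_eq] at h
  obtain ⟨⟨⟨h1, h2⟩, h3⟩, h4⟩ := h
  refine ⟨by exact_mod_cast h1, by exact_mod_cast h2, ?_⟩
  have key : ∀ e : ℕ, c.testP i a b e y0 = true →
      0 < comb c i a b ((e : ℝ) / 16384) ((y0 : ℝ) / 16384) := by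
    intro e h
    unfold testP at h
    have h5 := of_decide_eq_true h
    have h6 : ((0 : ℤ) : ℝ) < (((c.fL b - c.fL a) * c.cv i e y0 - (c.fL b - c.fL i) * c.cv a e y0
      - (c.fL i - c.fL a) * c.cv b e y0 : ℤ) : ℝ) := by exact_mod_cast h5
    push_cast at h6
    rw [cv_cast, cv_cast, cv_cast] at h6
    unfold comb
    nlinarith
  have G0 := key e0 h3
  have G1 := key e1 h4
  have hlt : (e0 : ℝ) < e1 := by exact_mod_cast he
  have hlt' : (e0 : ℝ) / 16384 < (e1 : ℝ) / 16384 := by linarith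
  have hD : ((e1 : ℝ) / 16384 - (e0 : ℝ) / 16384) * comb c i a b x ((y0 : ℝ) / 16384) =
      ((e1 : ℝ) / 16384 - x) * comb c i a b ((e0 : ℝ) / 16384) ((y0 : ℝ) / 16384) +
      (x - (e0 : ℝ) / 16384) * comb c i a b ((e1 : ℝ) / 16384) ((y0 : ℝ) / 16384) := by
    unfold comb cr; ring
  have hpos : 0 < ((e1 : ℝ) / 16384 - (e0 : ℝ) / 16384) * comb c i a b x ((y0 : ℝ) / 16384) := by
    rw [hD]
    rcases hx1.eq_or_lt with h | h
    · rw [h]
      have := mul_pos (by linarith : 0 < (e1 : ℝ) / 16384 - (e0 : ℝ) / 16384) G1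
      linarith
    · have h7 := mul_pos (by linarith : 0 < (e1 : ℝ) / 16384 - x) G0
      have h8 := mul_nonneg (by linarith : 0 ≤ x - (e0 : ℝ) / 16384) G1.le
      linarith
  exact (mul_pos_iff_of_pos_left (by linarith)).mp hpos

lemma comb_act {c : CData} {i a b : ℕ} {x y hh : ℝ} (h1 : (c.fL a : ℝ) ≤ c.fL i)
    (h2 : (c.fL i : ℝ) ≤ c.fL b) (ha : V c i x y hh ≤ V c a x y hh)
    (hb : V c i x y hh ≤ V c b x y hh) : comb c i a b x y ≤ 0 := by
  have e1 := mul_le_mul_of_nonneg_left ha (by linarith : 0 ≤ (c.fL b : ℝ) - c.fL i)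
  have e2 := mul_le_mul_of_nonneg_left hb (by linarith : 0 ≤ (c.fL i : ℝ) - c.fL a)
  unfold V at e1 e2
  unfold comb
  nlinarith

lemma comb_shift {c : CData} {i a b : ℕ} {x y y' : ℝ} :
    comb c i a b x y = comb c i a b x y' + (c.slopeY i a b : ℝ) * (y - y') := by
  unfold comb cr slopeY
  push_cast
  ring

lemma pairLo_sound {c : CData} {i a b e0 e1 y0 : ℕ} (he : e0 < e1)
    (h : c.pairLo i a b e0 e1 y0 = true) {x y hh : ℝ} (hx0 : (e0 : ℝ) / 16384 ≤ x)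
    (hx1 : x ≤ (e1 : ℝ) / 16384) (hy : y ≤ (y0 : ℝ) / 16384)
    (ha : V c i x y hh ≤ V c a x y hh) (hb : V c i x y hh ≤ V c b x y hh) : False := by
  unfold pairLo at h
  simp only [Bool.and_eq_true, decide_eq_true_eq] at h
  obtain ⟨h1, h2, h3⟩ := comb_row he h.1 hx0 hx1
  have h4 := comb_act h1 h2 ha hb
  rw [comb_shift (y' := (y0 : ℝ) / 16384)] at h4
  have h5 : (c.slopeY i a b : ℝ) ≤ 0 := by exact_mod_cast h.2
  nlinarith

lemma pairHi_sound {c : CData} {i a b e0 e1 y0 : ℕ} (he : e0 < e1)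
    (h : c.pairHi i a b e0 e1 y0 = true) {x y hh : ℝ} (hx0 : (e0 : ℝ) / 16384 ≤ x)
    (hx1 : x ≤ (e1 : ℝ) / 16384) (hy : (y0 : ℝ) / 16384 ≤ y)
    (ha : V c i x y hh ≤ V c a x y hh) (hb : V c i x y hh ≤ V c b x y hh) : False := by
  unfold pairHi at h
  simp only [Bool.and_eq_true, decide_eq_true_eq] at h
  obtain ⟨h1, h2, h3⟩ := comb_row he h.1 hx0 hx1
  have h4 := comb_act h1 h2 ha hb
  rw [comb_shift (y' := (y0 : ℝ) / 16384)] at h4
  have h5 : (0 : ℝ) ≤ (c.slopeY i a b : ℝ) := by exact_mod_cast h.2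
  nlinarith

/-- consequences of the sanity check of a potential -/
structure POK (c : CData) (TN : ℤ) (i : ℕ) : Prop where
  k0 : 0 ≤ c.K i
  l0 : 0 ≤ c.L i
  l1 : c.L i ≤ DD
  b0 : c.B i = DD - c.L i
  a0 : DD + c.L i ≤ c.A i
  t0 : 0 ≤ c.T i
  t1 : (4 * (c.T i * c.T i) + (c.A i - c.B i) * (c.A i - c.B i)) * 100000000
    ≤ 4 * (TN * TN) * (DD * DD)

lemma pok_of {c : CData} {TN : ℤ} {i : ℕ} (h : c.planeOK TN i = true) : POK c TN i := by
  unfold planeOK at h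
  simp only [Bool.and_eq_true, decide_eq_true_eq] at h
  obtain ⟨⟨⟨⟨⟨⟨h1, h2⟩, h3⟩, h4⟩, h5⟩, h6⟩, h7⟩ := h
  exact ⟨h1, h2, h3, h4, h5, h6, h7⟩

lemma prod_err {P1 P2 p1 p2 Z E : ℝ} (hZ : 0 ≤ Z) (hE : 0 ≤ E) (h1 : |P1 - Z * p1| ≤ E)
    (h2 : |P2 - Z * p2| ≤ E) (hp1 : |p1| ≤ 1) (hp2 : |p2| ≤ 1) :
    |P1 * P2 - Z * Z * (p1 * p2)| ≤ E * (2 * Z + E) := by
  have e : P1 * P2 - Z * Z * (p1 * p2) = (P1 - Z * p1) * P2 + Z * p1 * (P2 - Z * p2) := by ring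
  have hP2 : |P2| ≤ Z + E := by
    have : P2 = (P2 - Z * p2) + Z * p2 := by ring
    rw [this]
    calc _ ≤ |P2 - Z * p2| + |Z * p2| := abs_add_le _ _
      _ ≤ E + Z * 1 := by
        rw [abs_mul, abs_of_nonneg hZ]
        exact add_le_add h2 (mul_le_mul_of_nonneg_left hp2 hZ)
      _ = Z + E := by ring
  rw [e]
  calc _ ≤ |(P1 - Z * p1) * P2| + |Z * p1 * (P2 - Z * p2)| := abs_add_le _ _
    _ ≤ E * (Z + E) + Z * 1 * E := by
      rw [abs_mul, abs_mul, abs_mul, abs_of_nonneg hZ]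
      refine add_le_add (mul_le_mul h1 hP2 (abs_nonneg _) hE) ?_
      exact mul_le_mul (mul_le_mul_of_nonneg_left hp1 hZ) h2 (abs_nonneg _) (by positivity)
    _ = E * (2 * Z + E) := by ring

end CData

end Pool.Agent.H962
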