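import Pool.Agent.H962.KTab
import Pool.Agent.H962.Sturm
import Pool.Agent.H962.Sound

/-!
# Checker for the pieces of a piecewise affine potential
-/

set_option autoImplicit false

open Real Set

namespace Pool.Agent.H962

/-- positivity of the slack in a grid point -/
def fOK (A B qA qB qT kpQ knQ err x y sx cx sy cy : ℕ) : Bool :=
  force (tC2 (Nat.add x y)) fun cw =>
  force (Nat.mul qA sx) fun e1 =>
  force (Nat.mul qB sy) fun e2 =>
  force (Nat.add (Nat.add (Nat.mul A x) (Nat.mul B y)) kpQ) fun xp =>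
  Nat.blt
    (Nat.add (Nat.add (Nat.add (Nat.mul e1 cy) (Nat.mul e2 cx))
      (Nat.mul Zs (Nat.add (Nat.mul xp Zs) (Nat.mul knQ cw)))) err)
    (Nat.add (Nat.mul qT (Nat.mul sx sy))
      (Nat.mul Zs (Nat.add (Nat.add e1 e2) (Nat.add (Nat.mul xp cw) (Nat.mul knQ Zs)))))

/-- positivity of the slack on the line `x + y = π` -/
def eOK (A B qA qB qT kpQ knQ err x sx cx : ℕ) : Bool :=
  force (Nat.mul sx cx) fun sc =>
  force (Nat.mul sx Zs) fun sz =>
  force (Nat.mul Zs Zs) fun zz =>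
  Nat.blt
    (Nat.add (Nat.mul (nat_lit 1000000) (Nat.add (Nat.add (Nat.add (Nat.mul qA sz) (Nat.mul qB sc))
      (Nat.mul (Nat.add (Nat.mul A x) kpQ) zz)) err)) (Nat.mul (Nat.mul qB (nat_lit 3141593)) zz))
    (Nat.mul (nat_lit 1000000) (Nat.add (Nat.add (Nat.add (Nat.mul qT (Nat.mul sx sx)) (Nat.mul qA sc))
      (Nat.mul qB sz)) (Nat.mul (Nat.add (Nat.mul B x) knQ) zz)))

/-- the states over a rectangle have no value of `p` in the given range -/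
def exclW (gk dp x0 x1 y0 y1 ln ld hn hd : ℕ) : Bool :=
  force (Nat.add (Nat.mul ld gk) (Nat.mul dp ln)) fun lo =>
  force (Nat.add (Nat.mul hd gk) (Nat.mul dp hn)) fun hi =>
  (Nat.blt (Nat.mul ld NXs) (Nat.add lo (Nat.mul (Nat.mul 2 ld) x0)) ||
   Nat.blt (Nat.add (Nat.mul hd NXs) hi) (Nat.mul (Nat.mul 2 hd) y0)) ||
  ((Nat.ble (Nat.add x0 y1) NPs &&
    Nat.blt (Nat.mul ld (Nat.add (Nat.mul (Nat.add (tS2 (Nat.add x0 y1)) Es) 2048) (Nat.mul y1 Zs)))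
      (Nat.add (Nat.mul Zs lo) (Nat.mul (Nat.mul ld x0) Zs))) ||
   (Nat.ble (Nat.add x1 y0) NPs &&
    Nat.blt (Nat.add (Nat.mul Zs hi) (Nat.mul hd (Nat.add (Nat.mul (Nat.add (tS2 (Nat.add x1 y0)) Es) 2048)
      (Nat.mul x1 Zs)))) (Nat.mul (Nat.mul hd y0) Zs)))

/-- the simplex has no state over the rectangle -/
def excl (q gi gj gk dx dy dp x0 x1 y0 y1 : ℕ) : Bool :=
  Nat.ble NXs (Nat.add x0 y0) ||
  (force (Nat.sub x0 gi) fun u0 => force (Nat.sub x1 gi) fun u1 =>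
   force (Nat.sub y0 gj) fun v0 => force (Nat.sub y1 gj) fun v1 =>
   (Nat.ble q 2 && Nat.blt (Nat.mul u1 dy) (Nat.mul v0 dx)) ||
   (Nat.ble 3 q && Nat.ble q 5 && Nat.blt (Nat.mul v1 dx) (Nat.mul u0 dy)) ||
   (bif Nat.beq q 0 then exclW gk dp x0 x1 y0 y1 0 1 v1 dy else
    bif Nat.beq q 1 then exclW gk dp x0 x1 y0 y1 v0 dy u1 dx else
    bif Nat.beq q 2 then exclW gk dp x0 x1 y0 y1 u0 dx 1 1 else
    bif Nat.beq q 3 then exclW gk dp x0 x1 y0 y1 0 1 u1 dx else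
    bif Nat.beq q 4 then exclW gk dp x0 x1 y0 y1 u0 dx v1 dy else
    bif Nat.beq q 5 then exclW gk dp x0 x1 y0 y1 v0 dy 1 1 else
    bif Nat.beq q 6 then exclW gk dp x0 x1 y0 y1 0 1 u1 dx else
    bif Nat.beq q 7 then exclW gk dp x0 x1 y0 y1 u0 dx 1 1 else false))

/-- all subrectangles are excluded -/
def exAll (q gi gj gk dx dy dp : ℕ) (d : ℕ) : ℕ → ℕ → ℕ → ℕ → Bool :=
  Nat.rec (motive := fun _ => ℕ → ℕ → ℕ → ℕ → Bool)
    (fun x0 x1 y0 y1 => excl q gi gj gk dx dy dp x0 x1 y0 y1)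
    (fun _ ih x0 x1 y0 y1 =>
      bif excl q gi gj gk dx dy dp x0 x1 y0 y1 then true else
      bif Nat.ble (Nat.sub y1 y0) (Nat.sub x1 x0) then
        force (Nat.div (Nat.add x0 x1) 2) fun m =>
          bif ih x0 m y0 y1 then ih m x1 y0 y1 else false
      else
        force (Nat.div (Nat.add y0 y1) 2) fun m =>
          bif ih x0 x1 y0 m then ih x0 x1 m y1 else false) d

/-- positivity on a rectangle -/
def rectPos (A B qA qB qT kpQ knQ err x0 x1 y0 y1 : ℕ) : Bool :=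
  force (tS2 x0) fun sx0 => force (tC2 x0) fun cx0 =>
  force (tS2 y0) fun sy0 => force (tC2 y0) fun cy0 =>
  bif fOK A B qA qB qT kpQ knQ err x0 y0 sx0 cx0 sy0 cy0 then
    bif Nat.ble (Nat.add x1 y1) NPs then
      force (tS2 x1) fun sx1 => force (tC2 x1) fun cx1 =>
      force (tS2 y1) fun sy1 => force (tC2 y1) fun cy1 =>
      bif fOK A B qA qB qT kpQ knQ err x1 y0 sx1 cx1 sy0 cy0 then
        bif fOK A B qA qB qT kpQ knQ err x0 y1 sx0 cx0 sy1 cy1 then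
          fOK A B qA qB qT kpQ knQ err x1 y1 sx1 cx1 sy1 cy1
        else false
      else false
    else
      bif eOK A B qA qB qT kpQ knQ err x0 sx0 cx0 then
        eOK B A qB qA qT kpQ knQ err y0 sy0 cy0
      else false
  else false

/-- positivity on the part of a simplex over a rectangle -/
def cover (A B qA qB qT kpQ knQ err q gi gj gk dx dy dp : ℕ) (d : ℕ) : ℕ → ℕ → ℕ → ℕ → Bool :=
  Nat.rec (motive := fun _ => ℕ → ℕ → ℕ → ℕ → Bool)
    (fun x0 x1 y0 y1 => bif Nat.ble NXs (Nat.add x0 y0) then true else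
      bif rectPos A B qA qB qT kpQ knQ err x0 x1 y0 y1 then true else
      excl q gi gj gk dx dy dp x0 x1 y0 y1)
    (fun _ ih x0 x1 y0 y1 =>
      bif Nat.ble NXs (Nat.add x0 y0) then true else
      bif rectPos A B qA qB qT kpQ knQ err x0 x1 y0 y1 then true else
      bif excl q gi gj gk dx dy dp x0 x1 y0 y1 then true else
      bif Nat.ble (Nat.sub y1 y0) (Nat.sub x1 x0) then
        force (Nat.div (Nat.add x0 x1) 2) fun m =>
          bif ih x0 m y0 y1 then ih m x1 y0 y1 else false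
      else
        force (Nat.div (Nat.add y0 y1) 2) fun m =>
          bif ih x0 x1 y0 m then ih x0 x1 m y1 else false) d

section sound

/-- the scaled tables -/
lemma prod_err2 {P1 P2 p1 p2 Z E : ℝ} (hZ : 0 ≤ Z) (hE : 0 ≤ E) (h1 : |P1 - Z * p1| ≤ E)
    (h2 : |P2 - Z * (1 + p2)| ≤ E) (hp1 : |p1| ≤ 1) (hp2 : |p2| ≤ 1) :
    |P1 * (P2 - Z) - Z * Z * (p1 * p2)| ≤ E * (2 * Z + E) := by
  have e : P2 - Z - Z * p2 = P2 - Z * (1 + p2) := by ring
  exact CData.prod_err hZ hE h1 (by rw [e]; exact h2) hp1 hp2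

lemma fOK_sound {A B T kp kn err x y : ℕ} (hx : x ≤ NPs) (hy : y ≤ NPs) (hxy : x + y ≤ NPs)
    (herr : Es * (2 * Zs + Es) * 2048 * (2 * T + 5 * A + 5 * B + kp + kn) ≤ err)
    (h : fOK A B (2048 * A) (2048 * B) (2 * 2048 * T) (kp * 2048) (kn * 2048) err x y
      (tS2 x) (tC2 x) (tS2 y) (tC2 y) = true) :
    0 < fF (T : ℝ) (A : ℝ) (B : ℝ) ((kp : ℝ) - kn) ((x : ℝ) / 2048) ((y : ℝ) / 2048) := by
  unfold fOK at h
  simp only [force_eq, Nat.blt_eq] at h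
  have h1 : ((((2048 * A * tS2 x * tC2 y + 2048 * B * tS2 y * tC2 x) +
      Zs * ((A * x + B * y + kp * 2048) * Zs + kn * 2048 * tC2 (x + y))) + err : ℕ) : ℝ)
      < ((2 * 2048 * T * (tS2 x * tS2 y) + Zs * ((2048 * A * tS2 x + 2048 * B * tS2 y) +
        ((A * x + B * y + kp * 2048) * tC2 (x + y) + kn * 2048 * Zs)) : ℕ) : ℝ) := by
    exact_mod_cast h
  push_cast at h1
  have herr' : ((Es * (2 * Zs + Es) * 2048 * (2 * T + 5 * A + 5 * B + kp + kn) : ℕ) : ℝ) ≤ (err : ℝ) := by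
    exact_mod_cast herr
  push_cast at herr'
  obtain ⟨sx, cx⟩ := tab2_ok x hx
  obtain ⟨sy, cy⟩ := tab2_ok y hy
  obtain ⟨_, cw⟩ := tab2_ok (x + y) hxy
  have hZ : (0 : ℝ) ≤ (Zs : ℝ) := Nat.cast_nonneg _
  have hE : (0 : ℝ) ≤ (Es : ℝ) := Nat.cast_nonneg _
  have hZp : (0 : ℝ) < (Zs : ℝ) := by unfold Zs; norm_num
  have hss := CData.prod_err hZ hE sx sy (abs_sin_le_one _) (abs_sin_le_one _)
  have hsc := prod_err2 hZ hE sx cy (abs_sin_le_one _) (abs_cos_le_one _)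
  have hcs := prod_err2 hZ hE sy cx (abs_sin_le_one _) (abs_cos_le_one _)
  have hadd : (((x + y : ℕ) : ℝ) / 2048) = (x : ℝ) / 2048 + (y : ℝ) / 2048 := by push_cast; ring
  rw [hadd] at cw
  have hNP : (NPs : ℝ) = 6433 := by unfold NPs; norm_num
  have hX : ((x : ℝ)) / 2048 ≤ 4 := by
    have : (x : ℝ) ≤ (NPs : ℝ) := by exact_mod_cast hx
    rw [hNP] at this; linarith
  have hY : ((y : ℝ)) / 2048 ≤ 4 := by
    have : (y : ℝ) ≤ (NPs : ℝ) := by exact_mod_cast hy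
    rw [hNP] at this; linarith
  have hX0 : (0 : ℝ) ≤ (x : ℝ) / 2048 := by positivity
  have hY0 : (0 : ℝ) ≤ (y : ℝ) / 2048 := by positivity
  have ex : (x : ℝ) = 2048 * ((x : ℝ) / 2048) := by ring
  have ey : (y : ℝ) = 2048 * ((y : ℝ) / 2048) := by ring
  have hA : (0 : ℝ) ≤ (A : ℝ) := Nat.cast_nonneg _
  have hB : (0 : ℝ) ≤ (B : ℝ) := Nat.cast_nonneg _
  have hT : (0 : ℝ) ≤ (T : ℝ) := Nat.cast_nonneg _
  have hkp : (0 : ℝ) ≤ (kp : ℝ) := Nat.cast_nonneg _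
  have hkn : (0 : ℝ) ≤ (kn : ℝ) := Nat.cast_nonneg _
  generalize (tS2 x : ℝ) = Sx at *
  generalize (tC2 x : ℝ) = Cx at *
  generalize (tS2 y : ℝ) = Sy at *
  generalize (tC2 y : ℝ) = Cy at *
  generalize (tC2 (x + y) : ℝ) = Cw at *
  generalize (x : ℝ) / 2048 = X at *
  generalize (y : ℝ) / 2048 = Y at *
  rw [ex, ey] at h1
  generalize (Zs : ℝ) = Z at *
  generalize (Es : ℝ) = E at *
  generalize hV : (A : ℝ) * X + B * Y + ((kp : ℝ) - kn) = V at *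
  have hVabs : |V| ≤ 4 * A + 4 * B + kp + kn := by
    rw [← hV, abs_le]
    constructor
    · have := mul_nonneg hA hX0; have := mul_nonneg hB hY0; linarith
    · have := mul_le_mul_of_nonneg_left hX hA; have := mul_le_mul_of_nonneg_left hY hB; linarith
  have b1 := mul_le_mul_of_nonneg_left (abs_le.mp hss).2 hT
  have b2 := mul_le_mul_of_nonneg_left (abs_le.mp hsc).1 hA
  have b3 := mul_le_mul_of_nonneg_left (abs_le.mp hcs).1 hB
  have b4 : V * (Cw - Z * (1 + cos (X + Y))) ≤ (4 * A + 4 * B + kp + kn) * E := by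
    calc _ ≤ |V * (Cw - Z * (1 + cos (X + Y)))| := le_abs_self _
      _ = |V| * |Cw - Z * (1 + cos (X + Y))| := abs_mul _ _
      _ ≤ _ := mul_le_mul hVabs cw (abs_nonneg _) (by positivity)
  have b5 := mul_le_mul_of_nonneg_left b4 hZ
  have hEZ : Z * E ≤ E * (2 * Z + E) := by nlinarith
  have b6 := mul_le_mul_of_nonneg_left hEZ (by positivity : 0 ≤ 4 * (A : ℝ) + 4 * B + kp + kn)
  have key : 2048 * (2 * T * (Sx * Sy) - A * (Sx * (Cy - Z)) - B * (Sy * (Cx - Z)) + Z * (V * (Cw - Z)))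
      > 2048 * (E * (2 * Z + E) * (2 * T + 5 * A + 5 * B + kp + kn)) := by
    rw [← hV]
    linarith
  have hfin : 0 < (Z * Z) * fF (T : ℝ) (A : ℝ) (B : ℝ) ((kp : ℝ) - kn) X Y := by
    unfold fF
    rw [hV]
    linarith
  exact (mul_pos_iff_of_pos_left (by positivity)).mp hfin

lemma eOK_sound {A B T kp kn err x : ℕ} (hx : x ≤ NPs)
    (herr : Es * (2 * Zs + Es) * 2048 * (2 * T + 5 * A + 5 * B + kp + kn) ≤ err)
    (h : eOK A B (2048 * A) (2048 * B) (2 * 2048 * T) (kp * 2048) (kn * 2048) err x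
      (tS2 x) (tC2 x) = true) :
    0 < eF (T : ℝ) (A : ℝ) (B : ℝ) ((kp : ℝ) - kn) ((x : ℝ) / 2048) := by
  unfold eOK at h
  simp only [force_eq, Nat.blt_eq] at h
  have h1 : ((1000000 * (((2048 * A * (tS2 x * Zs) + 2048 * B * (tS2 x * tC2 x)) +
      (A * x + kp * 2048) * (Zs * Zs)) + err) + 2048 * B * 3141593 * (Zs * Zs) : ℕ) : ℝ)
      < ((1000000 * (((2 * 2048 * T * (tS2 x * tS2 x) + 2048 * A * (tS2 x * tC2 x)) +
        2048 * B * (tS2 x * Zs)) + (B * x + kn * 2048) * (Zs * Zs)) : ℕ) : ℝ) := by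
    exact_mod_cast h
  push_cast at h1
  have herr' : ((Es * (2 * Zs + Es) * 2048 * (2 * T + 5 * A + 5 * B + kp + kn) : ℕ) : ℝ) ≤ (err : ℝ) := by
    exact_mod_cast herr
  push_cast at herr'
  obtain ⟨sx, cx⟩ := tab2_ok x hx
  have hZ : (0 : ℝ) ≤ (Zs : ℝ) := Nat.cast_nonneg _
  have hE : (0 : ℝ) ≤ (Es : ℝ) := Nat.cast_nonneg _
  have hZp : (0 : ℝ) < (Zs : ℝ) := by unfold Zs; norm_num
  have hss := CData.prod_err hZ hE sx sx (abs_sin_le_one _) (abs_sin_le_one _)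
  have hsc := prod_err2 hZ hE sx cx (abs_sin_le_one _) (abs_cos_le_one _)
  have ex : (x : ℝ) = 2048 * ((x : ℝ) / 2048) := by ring
  have hA : (0 : ℝ) ≤ (A : ℝ) := Nat.cast_nonneg _
  have hB : (0 : ℝ) ≤ (B : ℝ) := Nat.cast_nonneg _
  have hT : (0 : ℝ) ≤ (T : ℝ) := Nat.cast_nonneg _
  have hkp : (0 : ℝ) ≤ (kp : ℝ) := Nat.cast_nonneg _
  have hkn : (0 : ℝ) ≤ (kn : ℝ) := Nat.cast_nonneg _
  have hpi : π < 3.141593 := pi_lt_d6
  generalize (tS2 x : ℝ) = Sx at *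
  generalize (tC2 x : ℝ) = Cx at *
  generalize (x : ℝ) / 2048 = X at *
  rw [ex] at h1
  generalize (Zs : ℝ) = Z at *
  generalize (Es : ℝ) = E at *
  have b1 := mul_le_mul_of_nonneg_left (abs_le.mp hss).2 hT
  have b2 := mul_le_mul_of_nonneg_left (abs_le.mp hsc).2 hA
  have b3 := mul_le_mul_of_nonneg_left (abs_le.mp hsc).1 hB
  have hpi2 : (B : ℝ) * π * (Z * Z) ≤ (B : ℝ) * 3.141593 * (Z * Z) := by
    apply mul_le_mul_of_nonneg_right _ (by positivity)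
    exact mul_le_mul_of_nonneg_left hpi.le hB
  have hEE : 0 ≤ E * (2 * Z + E) := by positivity
  have b4 := mul_nonneg hEE hA
  have b5 := mul_nonneg hEE hB
  have b6 := mul_nonneg hEE hkp
  have b7 := mul_nonneg hEE hkn
  have hfin : 0 < (Z * Z) * eF (T : ℝ) (A : ℝ) (B : ℝ) ((kp : ℝ) - kn) X := by
    unfold eF
    linarith
  exact (mul_pos_iff_of_pos_left (by positivity)).mp hfin

end sound

end Pool.Agent.H962
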