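import Pool.Agent.H962.KMain4

/-!
# The main theorem about the data
-/

set_option autoImplicit false

open Real Set Filter Topology

namespace Pool.Agent.H962

section

variable {c : KData} {TN CN TC ib L N M ed d ed2 d2 : ℕ}

theorem KOK.half (h : KOK c TN CN TC ib L N M ed d ed2 d2) :
    GoodHalf ((TN : ℝ) / 10000) (KK c CN) (KPots c TN CN TC N M) where
  l_le := fun i => (KPots_adm h i).l_le
  hA := fun i => (KPots_adm h i).hA
  hB := fun i => (KPots_adm h i).hB
  t_pos := by
    have : (0 : ℝ) < TN := by exact_mod_cast h.tpos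
    positivity
  τ_nonneg := fun i => (KPots_adm h i).τ_nonneg
  τ_le := fun i => (KPots_adm h i).τ_le
  cont := by
    have hg := grid_of h.G0 h.Gm
    have hr := grid_of h.P0 h.Pm
    have hN : π < (c.G N : ℝ) / 2048 := NXs_gt.trans_le (cast_div_le h.GN)
    have hM : π < (c.P M : ℝ) / 2048 := NXs_gt.trans_le (cast_div_le h.PM)
    have hi := interp_continuousOn (a := fun i j k => (c.V i j k : ℝ)) hg hr hN hM
    unfold KK
    apply ContinuousOn.sub
    · have c1 : ContinuousOn (fun z : ℝ × ℝ × ℝ => (CN : ℝ) / 100 * z.1)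
          (Icc 0 π ×ˢ (Icc 0 π ×ˢ Icc 0 π)) := by fun_prop
      have c2 : ContinuousOn (fun z : ℝ × ℝ × ℝ => 2 * z.2.2 + (CN : ℝ) / 100 * z.2.1)
          (Icc 0 π ×ˢ (Icc 0 π ×ˢ Icc 0 π)) := by fun_prop
      exact continuous_min.comp_continuousOn
        (c1.prodMk (continuous_min.comp_continuousOn (c2.prodMk (hi.div_const _))))
    · fun_prop
  symm := by
    intro x y hx hy
    have hg := grid_of h.G0 h.Gm
    have hr := grid_of h.P0 h.Pm
    have hs := interp_symm (a := fun i j k => (c.V i j k : ℝ)) hg hr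
      (fun i j => by rw [h.sym]) hx hy
    unfold KK
    rw [hs]
    simp only [mul_zero, zero_add]
    rw [← min_assoc, ← min_assoc, min_comm ((CN : ℝ) / 100 * x)]
  main := by
    intro x y p hD hp
    have hg := grid_of h.G0 h.Gm
    have hr := grid_of h.P0 h.Pm
    have hN : π < (c.G N : ℝ) / 2048 := NXs_gt.trans_le (cast_div_le h.GN)
    have hM : π < (c.P M : ℝ) / 2048 := NXs_gt.trans_le (cast_div_le h.PM)
    obtain ⟨ix0, ix1⟩ := hg.idx_spec hD.x0.le
    obtain ⟨iy0, iy1⟩ := hg.idx_spec hD.y0.le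
    obtain ⟨ip0, ip1⟩ := hr.idx_spec hp
    obtain ⟨lx0, lx1⟩ := hg.loc_mem ix0 ix1.le
    obtain ⟨ly0, ly1⟩ := hg.loc_mem iy0 iy1.le
    obtain ⟨lp0, lp1⟩ := hr.loc_mem ip0 ip1.le
    have hxπ : x ≤ π := by linarith [hD.xy, hD.y0]
    have hyπ : y ≤ π := by linarith [hD.xy, hD.x0]
    have hi : idx (fun i => (c.G i : ℝ) / 2048) x < N :=
      hg.mono.lt_iff_lt.mp (ix0.trans_lt (hxπ.trans_lt hN))
    have hj : idx (fun i => (c.G i : ℝ) / 2048) y < N :=
      hg.mono.lt_iff_lt.mp (iy0.trans_lt (hyπ.trans_lt hN))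
    have hk : idx (fun k => (c.P k : ℝ) / 2048) p < M :=
      hr.mono.lt_iff_lt.mp (ip0.trans_lt (hD.p_le.trans_lt hM))
    have hux := loc_eq h.Gm (idx (fun i => (c.G i : ℝ) / 2048) x) x
    have huy := loc_eq h.Gm (idx (fun i => (c.G i : ℝ) / 2048) y) y
    have hup := loc_eq h.Pm (idx (fun k => (c.P k : ℝ) / 2048) p) p
    have hF : interp (fun i j k => (c.V i j k : ℝ)) (fun i => (c.G i : ℝ) / 2048)
      (fun k => (c.P k : ℝ) / 2048) x y p = cval c (idx (fun i => (c.G i : ℝ) / 2048) x)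
        (idx (fun i => (c.G i : ℝ) / 2048) y) (idx (fun k => (c.P k : ℝ) / 2048) p)
        (loc (fun i => (c.G i : ℝ) / 2048) (idx (fun i => (c.G i : ℝ) / 2048) x) x)
        (loc (fun i => (c.G i : ℝ) / 2048) (idx (fun i => (c.G i : ℝ) / 2048) y) y)
        (loc (fun k => (c.P k : ℝ) / 2048) (idx (fun k => (c.P k : ℝ) / 2048) p) p) := rfl
    generalize idx (fun i => (c.G i : ℝ) / 2048) x = i at *
    generalize idx (fun i => (c.G i : ℝ) / 2048) y = j at *
    generalize idx (fun k => (c.P k : ℝ) / 2048) p = k at *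
    generalize loc (fun i => (c.G i : ℝ) / 2048) i x = u at *
    generalize loc (fun i => (c.G i : ℝ) / 2048) j y = v at *
    generalize loc (fun k => (c.P k : ℝ) / 2048) k p = w at *
    have hc : InCell c i j k x y p u v w := ⟨hux, huy, hup, lx0, lx1, ly0, ly1, lp0, lp1⟩
    obtain ⟨q, hq6, hq⟩ := exists_ord u v w
    have hub := (abs_le.mp hD.hp).2
    have hlb := (abs_le.mp hD.hp).1
    have hsin : sin (x + y) ≤ x + y := sin_le (by linarith [hD.x0, hD.y0])
    have hC0 : (0 : ℝ) ≤ (CN : ℝ) / 100 := by positivity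
    -- upper bounds away from the corner
    have hbx : (c.G ib : ℝ) / 2048 < x → cval c i j k u v w ≤ 1000000 * ((CN : ℝ) / 100 * x) := by
      intro hx
      have h1 : ib < i + 1 := hg.mono.lt_iff_lt.mp (hx.trans ix1)
      exact cval_le_x h hc hq hi hj hk (by omega)
    have hby : (c.G ib : ℝ) / 2048 < y →
        cval c i j k u v w ≤ 1000000 * (2 * p + (CN : ℝ) / 100 * y) := by
      intro hy
      have h1 : ib < j + 1 := hg.mono.lt_iff_lt.mp (hy.trans iy1)
      exact cval_le_y h hc hq hi hj hk (by omega)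
    unfold KK
    rw [hF]
    -- the potential at b
    by_cases hA : x ≤ (c.G ib : ℝ) / 2048 ∧ (CN : ℝ) / 100 * x ≤ 2 * p + (CN : ℝ) / 100 * y ∧
        1000000 * ((CN : ℝ) / 100 * x) ≤ cval c i j k u v w
    · obtain ⟨h1, h2, h3⟩ := hA
      refine ⟨Sum.inl true, ?_, ?_⟩
      · show _ = (capP CN TC).kv x y p
        rw [capP_kv, min_eq_left]
        apply le_min h2
        rw [le_div_iff₀ (by norm_num)]; linarith
      · apply cap_fF h hD.x0 h1 hD.y0 hD.xy
        nlinarith
    -- the potential at a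
    by_cases hB : y ≤ (c.G ib : ℝ) / 2048 ∧ 2 * p + (CN : ℝ) / 100 * y ≤ (CN : ℝ) / 100 * x ∧
        1000000 * (2 * p + (CN : ℝ) / 100 * y) ≤ cval c i j k u v w
    · obtain ⟨h1, h2, h3⟩ := hB
      refine ⟨Sum.inl false, ?_, ?_⟩
      · show _ = (capP CN TC).mir.kv x y p
        rw [Pot.mir_kv, capP_kv, min_eq_right, min_eq_left]
        · ring
        · rw [le_div_iff₀ (by norm_num)]; linarith
        · apply (min_le_left _ _).trans h2
      · have h4 := cap_fF h (x := y) (y := x) hD.y0 h1 hD.x0 (by linarith [hD.xy]) (by nlinarith)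
        rw [fF_swap] at h4
        show 0 ≤ fF (capP CN TC).mir.τ ((capP CN TC).mir.a + (capP CN TC).mir.b)
          ((capP CN TC).mir.a - (capP CN TC).mir.b) (capP CN TC).mir.k x y
        have e1 : (capP CN TC).mir.a + (capP CN TC).mir.b = (capP CN TC).a - (capP CN TC).b := by
          simp only [Pot.mir]; ring
        have e2 : (capP CN TC).mir.a - (capP CN TC).mir.b = (capP CN TC).a + (capP CN TC).b := by
          simp only [Pot.mir]; ring
        rw [e1, e2]
        exact h4
    -- the interpolated function is the smallest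
    have hFx : cval c i j k u v w ≤ 1000000 * ((CN : ℝ) / 100 * x) := by
      by_contra hcon
      push Not at hcon
      have h1 : x ≤ (c.G ib : ℝ) / 2048 := by
        by_contra h2
        exact absurd (hbx (not_le.mp h2)) (not_le.mpr hcon)
      have h2 : 2 * p + (CN : ℝ) / 100 * y < (CN : ℝ) / 100 * x := by
        by_contra h3
        exact hA ⟨h1, not_lt.mp h3, hcon.le⟩
      have h3 : (c.G ib : ℝ) / 2048 < y := by
        by_contra h4
        exact hB ⟨not_lt.mp h4, h2.le, by linarith⟩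
      have h4 := hby h3
      linarith
    have hFy : cval c i j k u v w ≤ 1000000 * (2 * p + (CN : ℝ) / 100 * y) := by
      by_contra hcon
      push Not at hcon
      have h1 : y ≤ (c.G ib : ℝ) / 2048 := by
        by_contra h2
        exact absurd (hby (not_le.mp h2)) (not_le.mpr hcon)
      have h2 : (CN : ℝ) / 100 * x < 2 * p + (CN : ℝ) / 100 * y := by
        by_contra h3
        exact hB ⟨h1, not_lt.mp h3, hcon.le⟩
      linarith
    have hmin : min ((CN : ℝ) / 100 * x) (min (2 * p + (CN : ℝ) / 100 * y)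
        (cval c i j k u v w / 1000000)) - p = cval c i j k u v w / 1000000 - p := by
      congr 1
      rw [min_eq_right, min_eq_right]
      · rw [div_le_iff₀ (by norm_num)]; linarith
      · rw [min_eq_right]
        · rw [div_le_iff₀ (by norm_num)]; linarith
        · rw [div_le_iff₀ (by norm_num)]; linarith
    rw [hmin]
    have hxle : x ≤ (c.G (i + 1) : ℝ) / 2048 := ix1.le
    have hyle : y ≤ (c.G (j + 1) : ℝ) / 2048 := iy1.le
    rcases Nat.lt_or_ge k L with hkL | hkL
    · rcases tet_case h hc hq hi hj hk hkL hq6 hD with ⟨h1, h2⟩ | ⟨h1, h2⟩ | ⟨s, h1, h2⟩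
      · exfalso
        apply hA
        exact ⟨hxle.trans (cast_div_le h1), by linarith, h2⟩
      · exfalso
        apply hB
        exact ⟨hyle.trans (cast_div_le h1), by linarith, h2⟩
      · exact ⟨s, h1.symm, h2⟩
    · rcases tri_case h hc hi hj hk hkL hD with ⟨h1, h2⟩ | ⟨s, h1, h2⟩
      · exfalso
        apply hA
        exact ⟨hxle.trans (cast_div_le h1), by linarith, h2⟩
      · exact ⟨s, h1.symm, h2⟩
  final := by
    intro x y p hD hp
    have hg := grid_of h.G0 h.Gm
    have hr := grid_of h.P0 h.Pm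
    obtain ⟨ix0, ix1⟩ := hg.idx_spec hD.x0.le
    obtain ⟨iy0, iy1⟩ := hg.idx_spec hD.y0.le
    obtain ⟨ip0, ip1⟩ := hr.idx_spec hp
    obtain ⟨lx0, lx1⟩ := hg.loc_mem ix0 ix1.le
    obtain ⟨ly0, ly1⟩ := hg.loc_mem iy0 iy1.le
    obtain ⟨lp0, lp1⟩ := hr.loc_mem ip0 ip1.le
    obtain ⟨q, hq6, hq⟩ := exists_ord (loc (fun i => (c.G i : ℝ) / 2048) (idx (fun i => (c.G i : ℝ) / 2048) x) x)
        (loc (fun i => (c.G i : ℝ) / 2048) (idx (fun i => (c.G i : ℝ) / 2048) y) y)
        (loc (fun k => (c.P k : ℝ) / 2048) (idx (fun k => (c.P k : ℝ) / 2048) p) p)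
    have h0 := cval_nonneg (c := c) (i := idx (fun i => (c.G i : ℝ) / 2048) x)
      (j := idx (fun i => (c.G i : ℝ) / 2048) y) (k := idx (fun k => (c.P k : ℝ) / 2048) p)
      hq lx0 lx1 ly0 ly1 lp0 lp1
    have hF : interp (fun i j k => (c.V i j k : ℝ)) (fun i => (c.G i : ℝ) / 2048)
      (fun k => (c.P k : ℝ) / 2048) x y p = cval c (idx (fun i => (c.G i : ℝ) / 2048) x)
        (idx (fun i => (c.G i : ℝ) / 2048) y) (idx (fun k => (c.P k : ℝ) / 2048) p)
        (loc (fun i => (c.G i : ℝ) / 2048) (idx (fun i => (c.G i : ℝ) / 2048) x) x)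
        (loc (fun i => (c.G i : ℝ) / 2048) (idx (fun i => (c.G i : ℝ) / 2048) y) y)
        (loc (fun k => (c.P k : ℝ) / 2048) (idx (fun k => (c.P k : ℝ) / 2048) p) p) := rfl
    unfold KK
    rw [hF]
    have hx := hD.x0
    have hy := hD.y0
    have hC0 : (0 : ℝ) ≤ (CN : ℝ) / 100 := by positivity
    have : 0 ≤ min ((CN : ℝ) / 100 * x) (min (2 * p + (CN : ℝ) / 100 * y)
        (cval c (idx (fun i => (c.G i : ℝ) / 2048) x)
        (idx (fun i => (c.G i : ℝ) / 2048) y) (idx (fun k => (c.P k : ℝ) / 2048) p)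
        (loc (fun i => (c.G i : ℝ) / 2048) (idx (fun i => (c.G i : ℝ) / 2048) x) x)
        (loc (fun i => (c.G i : ℝ) / 2048) (idx (fun i => (c.G i : ℝ) / 2048) y) y)
        (loc (fun k => (c.P k : ℝ) / 2048) (idx (fun k => (c.P k : ℝ) / 2048) p) p) / 1000000)) := by
      apply le_min (by positivity)
      apply le_min (by positivity)
      positivity
    linarith

/-- The chain argument applies. -/
theorem KOK.potSys (h : KOK c TN CN TC ib L N M ed d ed2 d2) :
    ∃ W, PotSys ((TN : ℝ) / 10000) W := ⟨_, h.half.full.potSys⟩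

end

end Pool.Agent.H962
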