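import Mathlib

/-!
# The potential along a pencil of circles

Points `a = (a1, a2)` above and `b = (b1, b2)` below the horizontal axis are fixed and the
circle through `a`, `b` and the point `(z, 0)` of the axis is moved to the right.
-/

set_option autoImplicit false

open Real

namespace Pool.Agent.H962

/-- One linear potential: it stands for the expression
`(1 - l)/2 * Da + (1 + l)/2 * Db + r * (a * ω + b * δ + k)`. -/
structure Pot where
  l : ℝ
  a : ℝ
  b : ℝ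
  k : ℝ
  τ : ℝ

/-- normalised value of the potential -/
noncomputable def Pot.val (p : Pot) (ω δ h : ℝ) : ℝ := -p.l * h + (p.a * ω + p.b * δ + p.k)

/-- the radial rate -/
noncomputable def Pot.R (p : Pot) (ω δ : ℝ) : ℝ :=
  p.a * sin ω + p.b * sin δ - (p.a * ω + p.b * δ + p.k) * cos ω

/-- A finite family of potentials which proves the bound `t`. -/
structure Good {n : ℕ} (t : ℝ) (F : Fin n → Pot) : Prop where
  l_le : ∀ i, |(F i).l| ≤ 1
  hA : ∀ i, 1 - (F i).l ≤ (F i).a - (F i).b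
  hB : ∀ i, 1 + (F i).l ≤ (F i).a + (F i).b
  k_nonneg : ∀ i, 0 ≤ (F i).k
  t_pos : 0 < t
  τ_nonneg : ∀ i, 0 ≤ (F i).τ
  τ_le : ∀ i, (F i).τ ^ 2 + (F i).b ^ 2 ≤ t ^ 2
  main : ∀ ω δ h, 0 < ω → ω < π → |δ| < ω → |h| ≤ sin ω →
    ∃ i, (∀ j, (F i).val ω δ h ≤ (F j).val ω δ h) ∧ (F i).R ω δ ≤ (F i).τ * (cos δ - cos ω)
  start : ∀ γ, -(π / 2) < γ → γ < π / 2 →
    ∃ i, (F i).a * π + (F i).b * (2 * γ) + (F i).k ≤ 2 * t * cos γ

section Geometry

/-- angle of the segment from `(p1, p2)` (with `p2 > 0`) to `(z, 0)` with the vertical -/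
noncomputable def ang (p1 p2 z : ℝ) : ℝ := arctan ((z - p1) / p2)

/-- tilt of the chord -/
noncomputable def tilt (a1 a2 b1 b2 : ℝ) : ℝ := arctan ((b1 - a1) / (a2 - b2))

/-- length of the chord -/
noncomputable def len (a1 a2 b1 b2 : ℝ) : ℝ := sqrt ((a1 - b1) ^ 2 + (a2 - b2) ^ 2)

lemma ang_lt (p1 p2 z : ℝ) : ang p1 p2 z < π / 2 := arctan_lt_pi_div_two _
lemma lt_ang (p1 p2 z : ℝ) : -(π / 2) < ang p1 p2 z := neg_pi_div_two_lt_arctan _
lemma cos_ang_pos (p1 p2 z : ℝ) : 0 < cos (ang p1 p2 z) :=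
  cos_pos_of_mem_Ioo ⟨lt_ang _ _ _, ang_lt _ _ _⟩

lemma sin_ang (p1 p2 z : ℝ) (hp : 0 < p2) : p2 * sin (ang p1 p2 z) = (z - p1) * cos (ang p1 p2 z) := by
  have h1 : tan (ang p1 p2 z) = (z - p1) / p2 := tan_arctan _
  have h2 : cos (ang p1 p2 z) ≠ 0 := (cos_ang_pos _ _ _).ne'
  rw [tan_eq_sin_div_cos, div_eq_div_iff h2 hp.ne'] at h1
  linarith

lemma hasDerivAt_ang (p1 p2 z : ℝ) :
    HasDerivAt (fun z => ang p1 p2 z) (cos (ang p1 p2 z) ^ 2 / p2) z := by
  have h1 : HasDerivAt (fun z : ℝ => (z - p1) / p2) (1 / p2) z := by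
    have := ((hasDerivAt_id z).sub_const p1).div_const p2
    simpa using this
  have h2 := (hasDerivAt_arctan ((z - p1) / p2)).comp z h1
  have h3 : cos (ang p1 p2 z) ^ 2 = 1 / (1 + ((z - p1) / p2) ^ 2) := by
    unfold ang; exact cos_sq_arctan _
  rw [h3]
  have h4 : 1 / (1 + ((z - p1) / p2) ^ 2) / p2 = 1 / (1 + ((z - p1) / p2) ^ 2) * (1 / p2) := by
    rw [div_eq_mul_one_div]
  rw [h4]
  exact h2

variable (a1 a2 b1 b2 : ℝ)

lemma tilt_lt : tilt a1 a2 b1 b2 < π / 2 := arctan_lt_pi_div_two _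
lemma lt_tilt : -(π / 2) < tilt a1 a2 b1 b2 := neg_pi_div_two_lt_arctan _
lemma cos_tilt_pos : 0 < cos (tilt a1 a2 b1 b2) :=
  cos_pos_of_mem_Ioo ⟨lt_tilt _ _ _ _, tilt_lt _ _ _ _⟩

lemma len_pos (h : b2 < a2) : 0 < len a1 a2 b1 b2 := by
  unfold len
  apply sqrt_pos.mpr
  have : 0 < a2 - b2 := by linarith
  positivity

lemma sin_tilt (h : b2 < a2) :
    (a2 - b2) * sin (tilt a1 a2 b1 b2) = (b1 - a1) * cos (tilt a1 a2 b1 b2) := by
  have h1 : tan (tilt a1 a2 b1 b2) = (b1 - a1) / (a2 - b2) := tan_arctan _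
  have h2 : cos (tilt a1 a2 b1 b2) ≠ 0 := (cos_tilt_pos _ _ _ _).ne'
  have h3 : a2 - b2 ≠ 0 := (sub_pos.mpr h).ne'
  rw [tan_eq_sin_div_cos, div_eq_div_iff h2 h3] at h1
  linarith

lemma len_cos (h : b2 < a2) : len a1 a2 b1 b2 * cos (tilt a1 a2 b1 b2) = a2 - b2 := by
  have h1 := sin_tilt a1 a2 b1 b2 h
  have h2 := cos_tilt_pos a1 a2 b1 b2
  have h3 := len_pos a1 a2 b1 b2 h
  have h4 : len a1 a2 b1 b2 ^ 2 = (a1 - b1) ^ 2 + (a2 - b2) ^ 2 := by
    unfold len; rw [sq_sqrt]; positivity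
  have h5 := sin_sq_add_cos_sq (tilt a1 a2 b1 b2)
  have h6 : (len a1 a2 b1 b2 * cos (tilt a1 a2 b1 b2)) ^ 2 = (a2 - b2) ^ 2 := by
    rw [mul_pow, h4]
    have : (b1 - a1) ^ 2 * cos (tilt a1 a2 b1 b2) ^ 2 = (a2 - b2) ^ 2 * sin (tilt a1 a2 b1 b2) ^ 2 := by
      rw [← mul_pow, ← mul_pow, h1]
    nlinarith [this, h5]
  have h7 : 0 < a2 - b2 := by linarith
  nlinarith [mul_pos h3 h2, h6, h7]

lemma len_sin (h : b2 < a2) : len a1 a2 b1 b2 * sin (tilt a1 a2 b1 b2) = b1 - a1 := by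
  have h1 := sin_tilt a1 a2 b1 b2 h
  have h2 := cos_tilt_pos a1 a2 b1 b2
  have h3 := len_cos a1 a2 b1 b2 h
  have h4 : (len a1 a2 b1 b2 * sin (tilt a1 a2 b1 b2)) * cos (tilt a1 a2 b1 b2)
      = (b1 - a1) * cos (tilt a1 a2 b1 b2) := by
    rw [← h1, ← h3]; ring
  exact mul_right_cancel₀ h2.ne' h4

variable {a1 a2 b1 b2}

/-- `(z, 0)` lies to the right of the chord -/
def RightOf (a1 a2 b1 b2 z : ℝ) : Prop := a2 * b1 - a1 * b2 < z * (a2 - b2)

/-- the half arc at `b` (angle at `a`) -/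
noncomputable def hx (a1 a2 b1 b2 z : ℝ) : ℝ := ang a1 a2 z - tilt a1 a2 b1 b2
/-- the half arc at `a` (angle at `b`) -/
noncomputable def hy (a1 a2 b1 b2 z : ℝ) : ℝ := ang b1 (-b2) z + tilt a1 a2 b1 b2

lemma hx_pos (ha : 0 < a2) (hb : b2 < 0) {z : ℝ} (h : RightOf a1 a2 b1 b2 z) :
    0 < hx a1 a2 b1 b2 z := by
  unfold hx ang tilt
  have : (b1 - a1) / (a2 - b2) < (z - a1) / a2 := by
    rw [div_lt_div_iff₀ (by linarith) ha]
    unfold RightOf at h
    nlinarith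
  have := arctan_strictMono this
  linarith

lemma hy_pos (ha : 0 < a2) (hb : b2 < 0) {z : ℝ} (h : RightOf a1 a2 b1 b2 z) :
    0 < hy a1 a2 b1 b2 z := by
  unfold hy ang tilt
  have : -((b1 - a1) / (a2 - b2)) < (z - b1) / (-b2) := by
    rw [← neg_div, div_lt_div_iff₀ (by linarith) (by linarith)]
    unfold RightOf at h
    nlinarith
  have := arctan_strictMono this
  rw [arctan_neg] at this
  linarith

/-- law of sines, first part -/
lemma sine_a (ha : 0 < a2) (hb : b2 < 0) (z : ℝ) :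
    a2 * sin (hx a1 a2 b1 b2 z + hy a1 a2 b1 b2 z)
      = len a1 a2 b1 b2 * cos (ang a1 a2 z) * sin (hy a1 a2 b1 b2 z) := by
  set pa := ang a1 a2 z with hpa
  set pb := ang b1 (-b2) z with hpb
  set th := tilt a1 a2 b1 b2 with hth
  set G := len a1 a2 b1 b2 with hG
  have h1 : a2 * sin pa = (z - a1) * cos pa := sin_ang a1 a2 z ha
  have h2 : (-b2) * sin pb = (z - b1) * cos pb := sin_ang b1 (-b2) z (by linarith)
  have h3 : G * cos th = a2 - b2 := len_cos a1 a2 b1 b2 (by linarith)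
  have h4 : G * sin th = b1 - a1 := len_sin a1 a2 b1 b2 (by linarith)
  have e1 : hx a1 a2 b1 b2 z + hy a1 a2 b1 b2 z = pa + pb := by unfold hx hy; ring
  have e2 : hy a1 a2 b1 b2 z = pb + th := rfl
  rw [e1, e2, sin_add, sin_add]
  have h5 : G * cos pa * (sin pb * cos th + cos pb * sin th)
      = cos pa * (sin pb * (G * cos th) + cos pb * (G * sin th)) := by ring
  rw [h5, h3, h4]
  linear_combination cos pb * h1 - cos pa * h2

lemma sine_b (ha : 0 < a2) (hb : b2 < 0) (z : ℝ) :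
    (-b2) * sin (hx a1 a2 b1 b2 z + hy a1 a2 b1 b2 z)
      = len a1 a2 b1 b2 * cos (ang b1 (-b2) z) * sin (hx a1 a2 b1 b2 z) := by
  set pa := ang a1 a2 z with hpa
  set pb := ang b1 (-b2) z with hpb
  set th := tilt a1 a2 b1 b2 with hth
  set G := len a1 a2 b1 b2 with hG
  have h1 : a2 * sin pa = (z - a1) * cos pa := sin_ang a1 a2 z ha
  have h2 : (-b2) * sin pb = (z - b1) * cos pb := sin_ang b1 (-b2) z (by linarith)
  have h3 : G * cos th = a2 - b2 := len_cos a1 a2 b1 b2 (by linarith)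
  have h4 : G * sin th = b1 - a1 := len_sin a1 a2 b1 b2 (by linarith)
  have e1 : hx a1 a2 b1 b2 z + hy a1 a2 b1 b2 z = pa + pb := by unfold hx hy; ring
  have e2 : hx a1 a2 b1 b2 z = pa - th := rfl
  rw [e1, e2, sin_add, sin_sub]
  have h5 : G * cos pb * (sin pa * cos th - cos pa * sin th)
      = cos pb * (sin pa * (G * cos th) - cos pa * (G * sin th)) := by ring
  rw [h5, h3, h4]
  linear_combination - cos pb * h1 + cos pa * h2

lemma hx_lt (z : ℝ) : hx a1 a2 b1 b2 z < π := by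
  unfold hx; linarith [ang_lt a1 a2 z, lt_tilt a1 a2 b1 b2]
lemma hy_lt (z : ℝ) : hy a1 a2 b1 b2 z < π := by
  unfold hy; linarith [ang_lt b1 (-b2) z, tilt_lt a1 a2 b1 b2]
lemma hxy_lt (z : ℝ) : hx a1 a2 b1 b2 z + hy a1 a2 b1 b2 z < π := by
  unfold hx hy; linarith [ang_lt b1 (-b2) z, ang_lt a1 a2 z]

/-- radius of the circle through the endpoints of the chord and `(z, 0)` -/
noncomputable def radius (a1 a2 b1 b2 z : ℝ) : ℝ :=
  len a1 a2 b1 b2 / (2 * sin (hx a1 a2 b1 b2 z + hy a1 a2 b1 b2 z))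

/-- a potential as a function of `z` -/
noncomputable def Pot.F (p : Pot) (a1 a2 b1 b2 Da Db z : ℝ) : ℝ :=
  (1 - p.l) / 2 * Da + (1 + p.l) / 2 * Db + radius a1 a2 b1 b2 z *
    (p.a * (hx a1 a2 b1 b2 z + hy a1 a2 b1 b2 z) + p.b * (hx a1 a2 b1 b2 z - hy a1 a2 b1 b2 z) + p.k)

/-- the trigonometric identity behind the derivative of a potential -/
lemma rate_identity {pa pb th x y A B G : ℝ} (a b N : ℝ) (hx : x = pa - th) (hy : y = pb + th)
    (hA : A ≠ 0) (hB : B ≠ 0) (hsx : sin x ≠ 0) (hsy : sin y ≠ 0) (hsw : sin (x + y) ≠ 0)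
    (hsa : A * sin (x + y) = G * cos pa * sin y) (hsb : B * sin (x + y) = G * cos pb * sin x) :
    ((-(G * (2 * (cos (x + y) * (cos pa ^ 2 / A + cos pb ^ 2 / B)))) / (2 * sin (x + y)) ^ 2) * N +
      G / (2 * sin (x + y)) * (a * (cos pa ^ 2 / A + cos pb ^ 2 / B) +
        b * (cos pa ^ 2 / A - cos pb ^ 2 / B))) * (cos (x - y) - cos (x + y))
    = cos (pa - pb - th) * (a * sin (x + y) + b * sin (x - y) - N * cos (x + y))
      - b * sin (pa - pb - th) * (cos (x - y) - cos (x + y)) := by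
  have hP1 : G / (2 * sin (x + y)) * (cos pa ^ 2 / A) = cos pa / (2 * sin y) := by
    field_simp
    linear_combination (-cos pa) * hsa
  have hP2 : G / (2 * sin (x + y)) * (cos pb ^ 2 / B) = cos pb / (2 * sin x) := by
    field_simp
    linear_combination (-cos pb) * hsb
  have hQ : cos (x - y) - cos (x + y) = 2 * sin x * sin y := by
    rw [cos_sub, cos_add]; ring
  generalize hg : pa - pb - th = g
  have e2 : pa = g + y := by rw [← hg, hy]; ring
  have e3 : pb = x - g := by rw [← hg, hx]; ring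
  have hS : (cos pa / (2 * sin y) + cos pb / (2 * sin x)) * (2 * sin x * sin y)
      = cos g * sin (x + y) := by
    have : (cos pa / (2 * sin y) + cos pb / (2 * sin x)) * (2 * sin x * sin y)
      = cos pa * sin x + cos pb * sin y := by field_simp
    rw [this, e2, e3, cos_add, cos_sub, sin_add]; ring
  have hD : (cos pa / (2 * sin y) - cos pb / (2 * sin x)) * (2 * sin x * sin y)
      = cos g * sin (x - y) - sin g * (2 * sin x * sin y) := by
    have : (cos pa / (2 * sin y) - cos pb / (2 * sin x)) * (2 * sin x * sin y)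
      = cos pa * sin x - cos pb * sin y := by field_simp
    rw [this, e2, e3, cos_add, cos_sub, sin_sub]; ring
  have hfirst : (-(G * (2 * (cos (x + y) * (cos pa ^ 2 / A + cos pb ^ 2 / B)))) / (2 * sin (x + y)) ^ 2)
      = - (cos (x + y) / sin (x + y)) * (G / (2 * sin (x + y)) * (cos pa ^ 2 / A)
        + G / (2 * sin (x + y)) * (cos pb ^ 2 / B)) := by
    field_simp
  have hsecond : G / (2 * sin (x + y)) * (a * (cos pa ^ 2 / A + cos pb ^ 2 / B) +
        b * (cos pa ^ 2 / A - cos pb ^ 2 / B))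
      = a * (G / (2 * sin (x + y)) * (cos pa ^ 2 / A) + G / (2 * sin (x + y)) * (cos pb ^ 2 / B))
       + b * (G / (2 * sin (x + y)) * (cos pa ^ 2 / A) - G / (2 * sin (x + y)) * (cos pb ^ 2 / B)) := by
    ring
  rw [hfirst, hsecond, hP1, hP2, hQ]
  have hc : cos (x + y) / sin (x + y) * sin (x + y) = cos (x + y) := by field_simp
  calc (-(cos (x + y) / sin (x + y)) * (cos pa / (2 * sin y) + cos pb / (2 * sin x)) * N +
        (a * (cos pa / (2 * sin y) + cos pb / (2 * sin x)) +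
          b * (cos pa / (2 * sin y) - cos pb / (2 * sin x)))) * (2 * sin x * sin y)
      = -(cos (x + y) / sin (x + y)) * N *
          ((cos pa / (2 * sin y) + cos pb / (2 * sin x)) * (2 * sin x * sin y))
        + a * ((cos pa / (2 * sin y) + cos pb / (2 * sin x)) * (2 * sin x * sin y))
        + b * ((cos pa / (2 * sin y) - cos pb / (2 * sin x)) * (2 * sin x * sin y)) := by ring
    _ = -(cos (x + y) / sin (x + y)) * N * (cos g * sin (x + y))
        + a * (cos g * sin (x + y))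
        + b * (cos g * sin (x - y) - sin g * (2 * sin x * sin y)) := by rw [hS, hD]
    _ = -(cos (x + y) / sin (x + y) * sin (x + y)) * N * cos g
        + a * (cos g * sin (x + y))
        + b * (cos g * sin (x - y) - sin g * (2 * sin x * sin y)) := by ring
    _ = _ := by rw [hc]; ring

lemma Pot.F_hasDerivAt (p : Pot) (ha : 0 < a2) (hb : b2 < 0) (Da Db : ℝ) {z : ℝ}
    (h : RightOf a1 a2 b1 b2 z) :
    ∃ D : ℝ, HasDerivAt (fun z => p.F a1 a2 b1 b2 Da Db z) D z ∧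
      ∃ γ : ℝ, 0 < cos γ ∧
        D * (cos (hx a1 a2 b1 b2 z - hy a1 a2 b1 b2 z) - cos (hx a1 a2 b1 b2 z + hy a1 a2 b1 b2 z))
        = cos γ * p.R (hx a1 a2 b1 b2 z + hy a1 a2 b1 b2 z) (hx a1 a2 b1 b2 z - hy a1 a2 b1 b2 z)
          - p.b * sin γ * (cos (hx a1 a2 b1 b2 z - hy a1 a2 b1 b2 z)
            - cos (hx a1 a2 b1 b2 z + hy a1 a2 b1 b2 z)) := by
  have hx0 := hx_pos ha hb h
  have hy0 := hy_pos ha hb h
  have hx1 := hx_lt (a1 := a1) (a2 := a2) (b1 := b1) (b2 := b2) z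
  have hy1 := hy_lt (a1 := a1) (a2 := a2) (b1 := b1) (b2 := b2) z
  have hxy1 := hxy_lt (a1 := a1) (a2 := a2) (b1 := b1) (b2 := b2) z
  have hsa := sine_a (a1 := a1) (b1 := b1) ha hb z
  have hsb := sine_b (a1 := a1) (b1 := b1) ha hb z
  have hL := len_pos a1 a2 b1 b2 (by linarith)
  have hca := cos_ang_pos a1 a2 z
  have hcb := cos_ang_pos b1 (-b2) z
  have hdx : HasDerivAt (fun z => hx a1 a2 b1 b2 z) (cos (ang a1 a2 z) ^ 2 / a2) z := by
    unfold hx; exact (hasDerivAt_ang a1 a2 z).sub_const _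
  have hdy : HasDerivAt (fun z => hy a1 a2 b1 b2 z) (cos (ang b1 (-b2) z) ^ 2 / (-b2)) z := by
    unfold hy; exact (hasDerivAt_ang b1 (-b2) z).add_const _
  have hsw : 0 < sin (hx a1 a2 b1 b2 z + hy a1 a2 b1 b2 z) :=
    sin_pos_of_pos_of_lt_pi (by linarith) hxy1
  have hsx : 0 < sin (hx a1 a2 b1 b2 z) := sin_pos_of_pos_of_lt_pi hx0 hx1
  have hsy : 0 < sin (hy a1 a2 b1 b2 z) := sin_pos_of_pos_of_lt_pi hy0 hy1
  have hdw : HasDerivAt (fun z => hx a1 a2 b1 b2 z + hy a1 a2 b1 b2 z) _ z := hdx.add hdy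
  have hdd : HasDerivAt (fun z => hx a1 a2 b1 b2 z - hy a1 a2 b1 b2 z) _ z := hdx.sub hdy
  have hds := ((hdw.sin).const_mul 2)
  have hdr : HasDerivAt (fun z => radius a1 a2 b1 b2 z) _ z :=
    (hasDerivAt_const z (len a1 a2 b1 b2)).div hds (by positivity)
  have hdN : HasDerivAt (fun z => p.a * (hx a1 a2 b1 b2 z + hy a1 a2 b1 b2 z)
      + p.b * (hx a1 a2 b1 b2 z - hy a1 a2 b1 b2 z) + p.k) _ z :=
    ((hdw.const_mul p.a).add (hdd.const_mul p.b)).add_const p.k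
  have hdF := (hdr.mul hdN).const_add ((1 - p.l) / 2 * Da + (1 + p.l) / 2 * Db)
  have hx_eq : hx a1 a2 b1 b2 z = ang a1 a2 z - tilt a1 a2 b1 b2 := rfl
  have hy_eq : hy a1 a2 b1 b2 z = ang b1 (-b2) z + tilt a1 a2 b1 b2 := rfl
  have hid := rate_identity p.a p.b (p.a * (hx a1 a2 b1 b2 z + hy a1 a2 b1 b2 z)
      + p.b * (hx a1 a2 b1 b2 z - hy a1 a2 b1 b2 z) + p.k) hx_eq hy_eq ha.ne' (by linarith : -b2 ≠ 0)
      hsx.ne' hsy.ne' hsw.ne' hsa hsb
  refine ⟨_, hdF, ang a1 a2 z - ang b1 (-b2) z - tilt a1 a2 b1 b2, ?_, ?_⟩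
  · -- positivity of the cosine
    have e1 : cos (ang a1 a2 z - ang b1 (-b2) z - tilt a1 a2 b1 b2)
        * sin (hx a1 a2 b1 b2 z + hy a1 a2 b1 b2 z)
        = sin (hx a1 a2 b1 b2 z) * cos (ang a1 a2 z) + sin (hy a1 a2 b1 b2 z) * cos (ang b1 (-b2) z) := by
      generalize hg : ang a1 a2 z - ang b1 (-b2) z - tilt a1 a2 b1 b2 = g
      have e2 : ang a1 a2 z = g + hy a1 a2 b1 b2 z := by rw [hy_eq, ← hg]; ring
      have e3 : ang b1 (-b2) z = hx a1 a2 b1 b2 z - g := by rw [hx_eq, ← hg]; ring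
      rw [e2, e3, cos_add, cos_sub, sin_add]
      ring
    have e4 : 0 < cos (ang a1 a2 z - ang b1 (-b2) z - tilt a1 a2 b1 b2)
        * sin (hx a1 a2 b1 b2 z + hy a1 a2 b1 b2 z) := by rw [e1]; positivity
    exact (pos_iff_pos_of_mul_pos e4).mpr hsw
  · unfold Pot.R
    rw [← hid]
    unfold radius
    simp only [zero_mul, zero_sub]

lemma radius_pos (ha : 0 < a2) (hb : b2 < 0) {z : ℝ} (h : RightOf a1 a2 b1 b2 z) :
    0 < radius a1 a2 b1 b2 z := by
  have hx0 := hx_pos ha hb h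
  have hy0 := hy_pos ha hb h
  have hxy1 := hxy_lt (a1 := a1) (a2 := a2) (b1 := b1) (b2 := b2) z
  have hL := len_pos a1 a2 b1 b2 (by linarith)
  have hsw : 0 < sin (hx a1 a2 b1 b2 z + hy a1 a2 b1 b2 z) :=
    sin_pos_of_pos_of_lt_pi (by linarith) hxy1
  unfold radius; positivity

lemma len_eq (ha : 0 < a2) (hb : b2 < 0) {z : ℝ} (h : RightOf a1 a2 b1 b2 z) :
    len a1 a2 b1 b2 = 2 * radius a1 a2 b1 b2 z * sin (hx a1 a2 b1 b2 z + hy a1 a2 b1 b2 z) := by
  have hx0 := hx_pos ha hb h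
  have hy0 := hy_pos ha hb h
  have hxy1 := hxy_lt (a1 := a1) (a2 := a2) (b1 := b1) (b2 := b2) z
  have hsw : 0 < sin (hx a1 a2 b1 b2 z + hy a1 a2 b1 b2 z) :=
    sin_pos_of_pos_of_lt_pi (by linarith) hxy1
  unfold radius; field_simp

lemma Pot.F_eq (p : Pot) (Da Db z : ℝ) (hr : radius a1 a2 b1 b2 z ≠ 0) :
    p.F a1 a2 b1 b2 Da Db z = (Da + Db) / 2 + radius a1 a2 b1 b2 z *
      p.val (hx a1 a2 b1 b2 z + hy a1 a2 b1 b2 z) (hx a1 a2 b1 b2 z - hy a1 a2 b1 b2 z)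
        ((Da - Db) / (2 * radius a1 a2 b1 b2 z)) := by
  unfold Pot.F Pot.val
  field_simp
  ring

/-- At every position there is a smallest potential whose derivative is at most `t`. -/
lemma exists_active {n : ℕ} {t : ℝ} {F : Fin n → Pot} (hF : Good t F) (ha : 0 < a2) (hb : b2 < 0)
    {Da Db : ℝ} (hD : |Da - Db| ≤ len a1 a2 b1 b2) {z : ℝ} (h : RightOf a1 a2 b1 b2 z) :
    ∃ i, (∀ j, (F i).F a1 a2 b1 b2 Da Db z ≤ (F j).F a1 a2 b1 b2 Da Db z) ∧
      ∃ D, HasDerivAt (fun z => (F i).F a1 a2 b1 b2 Da Db z) D z ∧ D ≤ t := by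
  have hx0 := hx_pos ha hb h
  have hy0 := hy_pos ha hb h
  have hxy1 := hxy_lt (a1 := a1) (a2 := a2) (b1 := b1) (b2 := b2) z
  have hr := radius_pos ha hb h
  have hlen := len_eq ha hb h
  set ω := hx a1 a2 b1 b2 z + hy a1 a2 b1 b2 z with hω
  set δ := hx a1 a2 b1 b2 z - hy a1 a2 b1 b2 z with hδ
  have hh : |(Da - Db) / (2 * radius a1 a2 b1 b2 z)| ≤ sin ω := by
    rw [abs_div, abs_of_pos (by positivity : 0 < 2 * radius a1 a2 b1 b2 z), div_le_iff₀ (by positivity)]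
    linarith
  obtain ⟨i, hi1, hi2⟩ := hF.main ω δ ((Da - Db) / (2 * radius a1 a2 b1 b2 z)) (by linarith) hxy1
    (by rw [abs_lt]; constructor <;> linarith) hh
  refine ⟨i, ?_, ?_⟩
  · intro j
    rw [Pot.F_eq _ _ _ _ hr.ne', Pot.F_eq _ _ _ _ hr.ne']
    have := mul_le_mul_of_nonneg_left (hi1 j) hr.le
    linarith
  · obtain ⟨D, hD1, γ, hγ, hD2⟩ := (F i).F_hasDerivAt ha hb Da Db h
    refine ⟨D, hD1, ?_⟩
    have hQ : 0 < cos δ - cos ω := by
      have : cos δ - cos ω = 2 * sin (hx a1 a2 b1 b2 z) * sin (hy a1 a2 b1 b2 z) := by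
        rw [hω, hδ, cos_sub, cos_add]; ring
      rw [this]
      have h1 : 0 < sin (hx a1 a2 b1 b2 z) := sin_pos_of_pos_of_lt_pi hx0 (hx_lt z)
      have h2 : 0 < sin (hy a1 a2 b1 b2 z) := sin_pos_of_pos_of_lt_pi hy0 (hy_lt z)
      positivity
    have h1 : D * (cos δ - cos ω) ≤ (cos γ * (F i).τ - (F i).b * sin γ) * (cos δ - cos ω) := by
      rw [hD2]
      have := mul_le_mul_of_nonneg_left hi2 hγ.le
      nlinarith
    have h2 : D ≤ cos γ * (F i).τ - (F i).b * sin γ := le_of_mul_le_mul_right h1 hQ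
    have h3 := hF.τ_le i
    have h4 : (cos γ * (F i).τ - (F i).b * sin γ) ^ 2 ≤ t ^ 2 := by
      have h5 := sin_sq_add_cos_sq γ
      nlinarith [sq_nonneg (sin γ * (F i).τ + (F i).b * cos γ)]
    have h5 : cos γ * (F i).τ - (F i).b * sin γ ≤ t := abs_le_of_sq_le_sq' h4 hF.t_pos.le |>.2
    linarith

lemma rightOf_mono {z0 z1 : ℝ} (hab : b2 < a2) (h : RightOf a1 a2 b1 b2 z0) (h01 : z0 ≤ z1) :
    RightOf a1 a2 b1 b2 z1 := by
  unfold RightOf at *
  nlinarith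

/-- The smallest potential grows at most with slope `t` when the circle sweeps to the right. -/
theorem sweep {n : ℕ} {t : ℝ} {F : Fin n → Pot} (hF : Good t F) (ha : 0 < a2) (hb : b2 < 0)
    {Da Db : ℝ} (hD : |Da - Db| ≤ len a1 a2 b1 b2) {z0 z1 : ℝ} (h0 : RightOf a1 a2 b1 b2 z0)
    (h01 : z0 ≤ z1) {c : ℝ} (hc : ∃ i, (F i).F a1 a2 b1 b2 Da Db z0 ≤ c) :
    ∃ i, (F i).F a1 a2 b1 b2 Da Db z1 ≤ c + t * (z1 - z0) := by
  obtain ⟨i0, hi0⟩ := hc
  have : Nonempty (Fin n) := ⟨i0⟩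
  have hne : (Finset.univ : Finset (Fin n)).Nonempty := Finset.univ_nonempty
  set f : ℝ → ℝ := fun z => Finset.univ.inf' hne (fun i => (F i).F a1 a2 b1 b2 Da Db z) with hf
  have hle : ∀ i z, f z ≤ (F i).F a1 a2 b1 b2 Da Db z := fun i z => Finset.inf'_le _ (Finset.mem_univ i)
  have hR : ∀ z ∈ Set.Icc z0 z1, RightOf a1 a2 b1 b2 z := fun z hz =>
    rightOf_mono (by linarith) h0 hz.1
  have hcont : ContinuousOn f (Set.Icc z0 z1) := by
    simp only [hf]
    apply ContinuousOn.finset_inf'_apply hne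
    intro i _ z hz
    obtain ⟨D, hD1, _⟩ := (F i).F_hasDerivAt ha hb Da Db (hR z hz)
    exact hD1.continuousAt.continuousWithinAt
  have key : ∀ x ∈ Set.Icc z0 z1, f x ≤ f z0 + t * (x - z0) := by
    apply image_le_of_liminf_slope_right_le_deriv_boundary hcont (B := fun x => f z0 + t * (x - z0))
      (B' := fun _ => t)
    · simp
    · fun_prop
    · intro x _
      have : HasDerivAt (fun x => f z0 + t * (x - z0)) t x := by
        have := (((hasDerivAt_id x).sub_const z0).const_mul t).const_add (f z0)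
        simpa using this
      exact this.hasDerivWithinAt
    · intro x hx r hr
      obtain ⟨i, hi1, D, hD1, hD2⟩ := exists_active hF ha hb hD (hR x ⟨hx.1, hx.2.le⟩)
      have hfx : f x = (F i).F a1 a2 b1 b2 Da Db x := by
        apply le_antisymm (hle i x)
        simp only [hf]
        exact Finset.le_inf' _ _ (fun j _ => hi1 j)
      have hs := (hasDerivAt_iff_tendsto_slope.mp hD1)
      have hs2 : Filter.Tendsto (slope (fun z => (F i).F a1 a2 b1 b2 Da Db z) x)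
          (nhdsWithin x (Set.Ioi x)) (nhds D) :=
        hs.mono_left (nhdsWithin_mono x (fun y hy => ne_of_gt hy))
      have hev : ∀ᶠ y in nhdsWithin x (Set.Ioi x), slope (fun z => (F i).F a1 a2 b1 b2 Da Db z) x y < r :=
        hs2.eventually (gt_mem_nhds (lt_of_le_of_lt hD2 hr))
      have hev2 : ∀ᶠ y in nhdsWithin x (Set.Ioi x), slope f x y < r := by
        filter_upwards [hev, self_mem_nhdsWithin] with y hy hxy
        refine lt_of_le_of_lt ?_ hy
        rw [slope_def_field, slope_def_field, hfx]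
        have hpos : 0 < y - x := sub_pos.mpr hxy
        apply div_le_div_of_nonneg_right _ hpos.le
        have := hle i y
        linarith
      exact hev2.frequently
  have h1 := key z1 ⟨h01, le_refl _⟩
  obtain ⟨i, _, hi⟩ := Finset.exists_mem_eq_inf' hne (fun i => (F i).F a1 a2 b1 b2 Da Db z1)
  refine ⟨i, ?_⟩
  have h2 : f z1 = (F i).F a1 a2 b1 b2 Da Db z1 := hi
  rw [← h2]
  have h3 := hle i0 z0
  linarith

end Geometry

end Pool.Agent.H962
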