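import Pool.Agent.H962.Sound2
import Pool.Agent.H962.Sweep

/-!
# The certificate gives a good family of potentials
-/

set_option autoImplicit false

open Real Set

namespace Pool.Agent.H962

lemma fF_smul (r τ A B k x y : ℝ) : fF (r * τ) (r * A) (r * B) (r * k) x y = r * fF τ A B k x y := by
  unfold fF; ring

namespace CData

lemma D_pos : (0 : ℝ) < (DD : ℝ) := by unfold DD; norm_num

lemma V_own {c : CData} {i : ℕ} (h : i < c.n) (x y hh : ℝ) :
    V c i x y hh = -(c.L i : ℝ) * hh + ((c.A i : ℝ) * x + (c.B i : ℝ) * y + (c.K i : ℝ)) := by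
  unfold V cr; rw [fL_own h, fA_own h, fB_own h, fK_own h]

lemma V_mir {c : CData} {i : ℕ} (x y hh : ℝ) :
    V c (c.n + i) x y hh = (c.L i : ℝ) * hh + ((c.B i : ℝ) * x + (c.A i : ℝ) * y + (c.K i : ℝ)) := by
  unfold V cr; rw [fL_mir, fA_mir, fB_mir, fK_mir]; push_cast; ring

lemma spec_sound {c : CData} {TN : ℤ} {i : ℕ} (hi : i < c.n) (hp : POK c TN i)
    (h : c.specOK i = true) {x y hh : ℝ} (hx : 0 < x) (hx1 : x ≤ 10 / 64) (hy : 0 < y)
    (hxy : x + y ≤ π) (hh1 : |hh| ≤ sin (x + y)) (hact : Act c i x y hh) :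
    0 ≤ fF (c.T i) (c.A i) (c.B i) (c.K i) x y := by
  unfold specOK at h
  simp only [Bool.and_eq_true, decide_eq_true_eq] at h
  obtain ⟨⟨⟨h1, h2⟩, h3⟩, h4⟩ := h
  have hB : c.B i = 0 := by have := hp.b0; omega
  have hA : 2 * DD ≤ c.A i := by have := hp.a0; omega
  have hact1 := hact (c.n + i) (by omega)
  rw [V_own hi, V_mir, hB, h2, h1] at hact1
  have hD := D_pos
  have hs : sin (x + y) ≤ x + y := sin_le (by linarith)
  have hh2 : hh ≤ x + y := ((le_abs_self _).trans hh1).trans hs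
  push_cast at hact1
  rw [hB, h2]
  have e1 : fF (c.T i) (c.A i) ((0 : ℤ) : ℝ) ((0 : ℤ) : ℝ) x y =
      (DD : ℝ) * fF ((c.T i : ℝ) / DD) ((c.A i : ℝ) / DD) 0 0 x y := by
    rw [← fF_smul]
    congr 1 <;> field_simp <;> simp
  rw [e1]
  apply mul_nonneg hD.le
  have hA' : 2 * (DD : ℝ) ≤ (c.A i : ℝ) := by exact_mod_cast hA
  have h3' : (c.A i : ℝ) * 10 ≤ 128 * (c.T i : ℝ) := by exact_mod_cast h3
  have h4' : (c.A i : ℝ) * 10 * ((c.A i : ℝ) + 2 * DD) * 16384 ≤
    3 * ((c.A i : ℝ) - 2 * DD) * 16284 * (128 * (c.T i : ℝ) - 10 * (c.A i : ℝ)) := by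
    exact_mod_cast h4
  apply fF_special (xs := 10 / 64) _ (by norm_num) hx hx1 hy hxy
  · -- the cone condition
    have e2 : x * ((c.A i : ℝ) / DD - 2) = (x * ((c.A i : ℝ) - 2 * DD)) / DD := by field_simp
    have e3 : y * ((c.A i : ℝ) / DD + 2) = (y * ((c.A i : ℝ) + 2 * DD)) / DD := by field_simp
    rw [e2, e3]
    apply div_le_div_of_nonneg_right _ hD.le
    have := mul_le_mul_of_nonneg_left hh2 hD.le
    nlinarith
  · have e6 : (c.A i : ℝ) / DD * (10 / 64) = ((c.A i : ℝ) * 10 / 64) / DD := by ring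
    have e7 : 2 * ((c.T i : ℝ) / DD) = (2 * (c.T i : ℝ)) / DD := by ring
    rw [e6, e7]
    apply div_le_div_of_nonneg_right _ hD.le
    linarith
  · have e4 : (c.A i : ℝ) / DD * (10 / 64) / 3 * ((c.A i : ℝ) / DD + 2) =
        ((c.A i : ℝ) * 10 * ((c.A i : ℝ) + 2 * DD) * 16384) / (DD * DD * (64 * 3 * 16384)) := by
      field_simp
    have e5 : ((c.A i : ℝ) / DD - 2) * (1 - (10 / 64) ^ 2 / 4) * (2 * ((c.T i : ℝ) / DD) - (c.A i : ℝ) / DD * (10 / 64)) =
        (3 * ((c.A i : ℝ) - 2 * DD) * 16284 * (128 * (c.T i : ℝ) - 10 * (c.A i : ℝ)))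
          / (DD * DD * (64 * 3 * 16384)) := by
      field_simp; ring
    rw [e4, e5]
    exact div_le_div_of_nonneg_right h4' (by positivity)
  · rw [le_div_iff₀ hD]; exact hA'

/-- everything which the kernel has to check -/
structure Cert (c : CData) (TN : ℤ) (i0 : ℕ) : Prop where
  tab : Tab c
  npos : 0 < c.n
  tpos : 0 < TN
  plane : ∀ i, i < c.n → c.planeOK TN i = true
  spec : c.specOK i0 = true
  st : ∀ i, i < c.n → ∃ k code, c.strips i k code (bif Nat.beq i i0 then NS else 0) = true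

lemma own_nonneg {c : CData} {TN : ℤ} {i0 i : ℕ} (hc : Cert c TN i0) (hi : i < c.n)
    {x y hh : ℝ} (hx : 0 < x) (hy : 0 < y)
    (hxy : x + y ≤ π) (hh1 : |hh| ≤ sin (x + y)) (hact : Act c i x y hh) :
    0 ≤ fF (c.T i) (c.A i) (c.B i) (c.K i) x y := by
  have hp := pok_of (hc.plane i hi)
  obtain ⟨k, code, hst⟩ := hc.st i hi
  rcases hb : Nat.beq i i0 with _ | _
  · rw [hb] at hst
    simp only [cond_false] at hst
    exact (strips_sound hc.tab hi hp k code 0 hst (by simpa using hx.le) hy hxy hh1 hact).le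
  · rw [hb] at hst
    simp only [cond_true] at hst
    have hii : i = i0 := Nat.eq_of_beq_eq_true hb
    rcases le_total x (10 / 64) with hx1 | hx1
    · exact spec_sound hi hp (hii ▸ hc.spec) hx hx1 hy hxy hh1 hact
    · refine (strips_sound hc.tab hi hp k code NS hst ?_ hy hxy hh1 hact).le
      unfold NS; norm_num at hx1 ⊢; exact hx1

/-- reflection of the index -/
lemma V_swap {c : CData} {j : ℕ} (hj : j < 2 * c.n) (x y hh : ℝ) :
    ∃ j', j' < 2 * c.n ∧ V c j y x (-hh) = V c j' x y hh := by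
  rcases lt_or_ge j c.n with h | h
  · refine ⟨c.n + j, by omega, ?_⟩
    rw [V_own h, V_mir]; ring
  · obtain ⟨m, rfl⟩ := Nat.exists_eq_add_of_le h
    refine ⟨m, by omega, ?_⟩
    rw [V_mir, V_own (show m < c.n by omega)]; ring

lemma act_nonneg {c : CData} {TN : ℤ} {i0 j : ℕ} (hc : Cert c TN i0) (hj : j < 2 * c.n)
    {x y hh : ℝ} (hx : 0 < x) (hy : 0 < y)
    (hxy : x + y ≤ π) (hh1 : |hh| ≤ sin (x + y)) (hact : Act c j x y hh) :
    0 ≤ fF (c.fT j) (c.fA j) (c.fB j) (c.fK j) x y := by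
  rcases lt_or_ge j c.n with h | h
  · rw [fT_own h, fA_own h, fB_own h, fK_own h]
    exact own_nonneg hc h hx hy hxy hh1 hact
  · obtain ⟨m, rfl⟩ := Nat.exists_eq_add_of_le h
    have hm : m < c.n := by omega
    rw [fT_mir, fA_mir, fB_mir, fK_mir, fF_swap]
    refine own_nonneg (hh := -hh) hc hm hy hx (by linarith) (by rw [abs_neg, add_comm y x]; exact hh1) ?_
    intro j hj
    obtain ⟨j', hj', he⟩ := V_swap hj x y hh
    rw [he]
    have := hact j' hj'
    rw [V_own hm]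
    rw [V_mir] at this
    linarith

noncomputable def pot (c : CData) (j : ℕ) : Pot where
  l := (c.fL j : ℝ) / DD
  a := ((c.fA j : ℝ) + c.fB j) / (2 * DD)
  b := ((c.fA j : ℝ) - c.fB j) / (2 * DD)
  k := (c.fK j : ℝ) / DD
  τ := (c.fT j : ℝ) / DD

lemma pot_val (c : CData) (j : ℕ) (ω δ h : ℝ) :
    (c.pot j).val ω δ h = V c j ((ω + δ) / 2) ((ω - δ) / 2) h / DD := by
  have hD := D_pos
  unfold pot Pot.val V cr
  simp only
  field_simp
  ring

lemma pot_slack (c : CData) (j : ℕ) (ω δ : ℝ) :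
    (c.pot j).τ * (cos δ - cos ω) - (c.pot j).R ω δ =
      fF (c.fT j) (c.fA j) (c.fB j) (c.fK j) ((ω + δ) / 2) ((ω - δ) / 2) / DD := by
  have hD := D_pos
  unfold pot Pot.R fF
  simp only
  have hω : ω = (ω + δ) / 2 + (ω - δ) / 2 := by ring
  have hδ : δ = (ω + δ) / 2 - (ω - δ) / 2 := by ring
  have c1 : cos ω = cos ((ω + δ) / 2) * cos ((ω - δ) / 2) - sin ((ω + δ) / 2) * sin ((ω - δ) / 2) := by
    rw [← cos_add, ← hω]
  have c2 : cos δ = cos ((ω + δ) / 2) * cos ((ω - δ) / 2) + sin ((ω + δ) / 2) * sin ((ω - δ) / 2) := by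
    rw [← cos_sub, ← hδ]
  have s1 : sin ω = sin ((ω + δ) / 2) * cos ((ω - δ) / 2) + cos ((ω + δ) / 2) * sin ((ω - δ) / 2) := by
    rw [← sin_add, ← hω]
  have s2 : sin δ = sin ((ω + δ) / 2) * cos ((ω - δ) / 2) - cos ((ω + δ) / 2) * sin ((ω - δ) / 2) := by
    rw [← sin_sub, ← hδ]
  rw [← hω, s1, s2, c2]
  rw [c1]
  field_simp
  ring

lemma full_ok {c : CData} {TN : ℤ} {i0 j : ℕ} (hc : Cert c TN i0) (hj : j < 2 * c.n) :
    |c.fL j| ≤ DD ∧ DD - c.fL j ≤ c.fB j ∧ DD + c.fL j ≤ c.fA j ∧ 0 ≤ c.fK j ∧ 0 ≤ c.fT j ∧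
    (4 * (c.fT j * c.fT j) + (c.fA j - c.fB j) * (c.fA j - c.fB j)) * 100000000
      ≤ 4 * (TN * TN) * (DD * DD) := by
  rcases lt_or_ge j c.n with h | h
  · have hp := pok_of (hc.plane j h)
    rw [fL_own h, fA_own h, fB_own h, fK_own h, fT_own h]
    refine ⟨?_, hp.b0.ge, hp.a0, hp.k0, hp.t0, hp.t1⟩
    rw [abs_of_nonneg hp.l0]; exact hp.l1
  · obtain ⟨m, rfl⟩ := Nat.exists_eq_add_of_le h
    have hm : m < c.n := by omega
    have hp := pok_of (hc.plane m hm)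
    rw [fL_mir, fA_mir, fB_mir, fK_mir, fT_mir]
    refine ⟨?_, ?_, ?_, hp.k0, hp.t0, ?_⟩
    · rw [abs_neg, abs_of_nonneg hp.l0]; exact hp.l1
    · have := hp.a0; linarith
    · have := hp.b0; linarith
    · have := hp.t1; linarith

/-- The family of potentials given by a checked certificate is good. -/
theorem good {c : CData} {TN : ℤ} {i0 : ℕ} (hc : Cert c TN i0) :
    Good ((TN : ℝ) / 10000) (fun j : Fin (2 * c.n) => c.pot j) := by
  have hD := D_pos
  have hmin : ∀ ω δ h : ℝ, ∃ i : Fin (2 * c.n), ∀ j : Fin (2 * c.n),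
      (c.pot i).val ω δ h ≤ (c.pot j).val ω δ h := by
    intro ω δ h
    have : Nonempty (Fin (2 * c.n)) := ⟨⟨0, by have := hc.npos; omega⟩⟩
    exact Finite.exists_min _
  have hAct : ∀ (ω δ h : ℝ) (i : Fin (2 * c.n)), (∀ j : Fin (2 * c.n),
      (c.pot i).val ω δ h ≤ (c.pot j).val ω δ h) → Act c i ((ω + δ) / 2) ((ω - δ) / 2) h := by
    intro ω δ h i hi j hj
    have := hi ⟨j, hj⟩
    rw [pot_val, pot_val] at this
    exact (div_le_div_iff_of_pos_right hD).mp this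
  have htau : ∀ j : Fin (2 * c.n), ((c.pot j).τ) ^ 2 + ((c.pot j).b) ^ 2 ≤ ((TN : ℝ) / 10000) ^ 2 := by
    intro j
    obtain ⟨_, _, _, _, _, h6⟩ := full_ok hc j.2
    have h6' : (4 * ((c.fT j : ℝ) * c.fT j) + ((c.fA j : ℝ) - c.fB j) * ((c.fA j : ℝ) - c.fB j))
      * 100000000 ≤ 4 * ((TN : ℝ) * TN) * ((DD : ℝ) * DD) := by exact_mod_cast h6
    unfold pot
    simp only
    have e1 : ((c.fT j : ℝ) / DD) ^ 2 + (((c.fA j : ℝ) - c.fB j) / (2 * DD)) ^ 2 =
        ((4 * ((c.fT j : ℝ) * c.fT j) + ((c.fA j : ℝ) - c.fB j) * ((c.fA j : ℝ) - c.fB j))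
      * 100000000) / (4 * (DD * DD) * 100000000) := by
      field_simp; ring
    have e2 : ((TN : ℝ) / 10000) ^ 2 = (4 * ((TN : ℝ) * TN) * ((DD : ℝ) * DD)) / (4 * (DD * DD) * 100000000) := by
      field_simp; ring
    rw [e1, e2]
    exact div_le_div_of_nonneg_right h6' (by positivity)
  refine ⟨?_, ?_, ?_, ?_, ?_, ?_, htau, ?_, ?_⟩
  · intro j
    obtain ⟨h1, _⟩ := full_ok hc j.2
    have h1' : |(c.fL j : ℝ)| ≤ (DD : ℝ) := by exact_mod_cast h1
    unfold pot
    simp only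
    rw [abs_div, abs_of_pos hD, div_le_one hD]
    exact h1'
  · intro j
    obtain ⟨_, h1, _⟩ := full_ok hc j.2
    have h1' : (DD : ℝ) - c.fL j ≤ c.fB j := by exact_mod_cast h1
    unfold pot
    simp only
    have e1 : ((c.fA j : ℝ) + c.fB j) / (2 * DD) - ((c.fA j : ℝ) - c.fB j) / (2 * DD) =
      (c.fB j : ℝ) / DD := by field_simp; ring
    have e2 : 1 - (c.fL j : ℝ) / DD = ((DD : ℝ) - c.fL j) / DD := by field_simp
    rw [e1, e2]
    exact div_le_div_of_nonneg_right h1' hD.le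
  · intro j
    obtain ⟨_, _, h1, _⟩ := full_ok hc j.2
    have h1' : (DD : ℝ) + c.fL j ≤ c.fA j := by exact_mod_cast h1
    unfold pot
    simp only
    have e1 : ((c.fA j : ℝ) + c.fB j) / (2 * DD) + ((c.fA j : ℝ) - c.fB j) / (2 * DD) =
      (c.fA j : ℝ) / DD := by field_simp; ring
    have e2 : 1 + (c.fL j : ℝ) / DD = ((DD : ℝ) + c.fL j) / DD := by field_simp
    rw [e1, e2]
    exact div_le_div_of_nonneg_right h1' hD.le
  · intro j
    obtain ⟨_, _, _, h1, _⟩ := full_ok hc j.2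
    have h1' : (0 : ℝ) ≤ c.fK j := by exact_mod_cast h1
    unfold pot
    simp only
    exact div_nonneg h1' hD.le
  · have : (0 : ℝ) < TN := by exact_mod_cast hc.tpos
    positivity
  · intro j
    obtain ⟨_, _, _, _, h1, _⟩ := full_ok hc j.2
    have h1' : (0 : ℝ) ≤ c.fT j := by exact_mod_cast h1
    unfold pot
    simp only
    exact div_nonneg h1' hD.le
  · intro ω δ h hω0 hωπ hδ hh
    obtain ⟨i, hi⟩ := hmin ω δ h
    refine ⟨i, hi, ?_⟩
    have hδ' := abs_lt.mp hδ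
    have hsum : (ω + δ) / 2 + (ω - δ) / 2 = ω := by ring
    have := act_nonneg hc i.2 (x := (ω + δ) / 2) (y := (ω - δ) / 2) (hh := h) (by linarith)
      (by linarith) (by linarith) (by rw [hsum]; exact hh) (hAct ω δ h i hi)
    have h2 := pot_slack c i ω δ
    have h3 := div_nonneg this hD.le
    rw [← h2] at h3
    linarith
  · intro γ h1 h2
    obtain ⟨i, hi⟩ := hmin π (2 * γ) 0
    refine ⟨i, ?_⟩
    have hsum : (π + 2 * γ) / 2 + (π - 2 * γ) / 2 = π := by ring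
    have := act_nonneg hc i.2 (x := (π + 2 * γ) / 2) (y := (π - 2 * γ) / 2) (hh := 0) (by linarith)
      (by linarith) (by linarith) (by rw [hsum]; simp) (hAct π (2 * γ) 0 i hi)
    have h3 := div_nonneg this hD.le
    rw [← pot_slack] at h3
    have ht := htau i
    have htpos : (0 : ℝ) < TN := by exact_mod_cast hc.tpos
    unfold Pot.R at h3
    simp only [sin_pi, cos_pi] at h3
    set a := (c.pot i).a
    set b := (c.pot i).b
    set k := (c.pot i).k
    set τ := (c.pot i).τ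
    have hc1 : 0 < cos γ := cos_pos_of_mem_Ioo ⟨by linarith, h2⟩
    have hc2 : cos (2 * γ) = 2 * cos γ ^ 2 - 1 := cos_two_mul γ
    have hs2 : sin (2 * γ) = 2 * sin γ * cos γ := sin_two_mul γ
    rw [hc2, hs2] at h3
    have hsc := sin_sq_add_cos_sq γ
    have hCS : τ * cos γ - b * sin γ ≤ (TN : ℝ) / 10000 := by
      apply abs_le_of_sq_le_sq' _ (by positivity) |>.2
      nlinarith [sq_nonneg (τ * sin γ + b * cos γ)]
    have := mul_le_mul_of_nonneg_left hCS (by positivity : 0 ≤ 2 * cos γ)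
    nlinarith

end CData

end Pool.Agent.H962
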