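import Pool.Agent.H962.KSimp
import Pool.Agent.H962.Sound3

/-!
# A potential from nodal values on a grid
-/

set_option autoImplicit false

open Real Set Filter Topology

namespace Pool.Agent.H962

/-- grid and nodal values; the grid has step `1 / 2048`, the values have scale `10 ^ 6` -/
structure KData where
  G : ℕ → ℕ
  P : ℕ → ℕ
  V : ℕ → ℕ → ℕ → ℕ

def nv1 (f : ℕ → ℕ → ℕ → ℕ) (q i j k : ℕ) : ℕ :=
  bif Nat.ble q 1 then f (Nat.succ i) j k else
  bif Nat.beq q 3 || Nat.beq q 4 then f i (Nat.succ j) k else f i j (Nat.succ k)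

def nv2 (f : ℕ → ℕ → ℕ → ℕ) (q i j k : ℕ) : ℕ :=
  bif Nat.beq q 0 || Nat.beq q 3 then f (Nat.succ i) (Nat.succ j) k else
  bif Nat.beq q 1 || Nat.beq q 2 then f (Nat.succ i) j (Nat.succ k) else
    f i (Nat.succ j) (Nat.succ k)

lemma nv1_cast (f : ℕ → ℕ → ℕ → ℕ) {q : ℕ} (hq : q < 6) (i j k : ℕ) :
    ((nv1 f q i j k : ℕ) : ℝ) = vt1 (fun i j k => (f i j k : ℝ)) q i j k := by
  interval_cases q <;> simp [nv1, vt1] <;> rfl

lemma nv2_cast (f : ℕ → ℕ → ℕ → ℕ) {q : ℕ} (hq : q < 6) (i j k : ℕ) :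
    ((nv2 f q i j k : ℕ) : ℝ) = vt2 (fun i j k => (f i j k : ℝ)) q i j k := by
  interval_cases q <;> simp [nv2, vt2] <;> rfl

def c1f (q a0 a1 a2 a3 : ℕ) : ℕ :=
  bif Nat.ble q 1 then Nat.sub a1 a0 else bif Nat.ble q 3 then Nat.sub a2 a1 else Nat.sub a3 a2
def c2f (q a0 a1 a2 a3 : ℕ) : ℕ :=
  bif Nat.beq q 3 || Nat.beq q 4 then Nat.sub a1 a0 else
  bif Nat.beq q 0 || Nat.beq q 5 then Nat.sub a2 a1 else Nat.sub a3 a2
def c3f (q a0 a1 a2 a3 : ℕ) : ℕ :=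
  bif Nat.beq q 2 || Nat.beq q 5 then Nat.sub a1 a0 else
  bif Nat.beq q 1 || Nat.beq q 4 then Nat.sub a2 a1 else Nat.sub a3 a2

/-- value at least the one of the potential at `b` -/
def skB1 (CN x a : ℕ) : Bool :=
  Nat.ble (Nat.mul (nat_lit 1000000) (Nat.mul CN x)) (Nat.mul (nat_lit 204800) a)

/-- value at least the one of the potential at `a` -/
def skA1 (CN y p a : ℕ) : Bool :=
  Nat.ble (Nat.mul (nat_lit 1000000) (Nat.add (Nat.mul (nat_lit 200) p) (Nat.mul CN y)))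
    (Nat.mul (nat_lit 204800) a)

def mono4 (a0 a1 a2 a3 : ℕ) : Bool := Nat.ble a0 a1 && Nat.ble a1 a2 && Nat.ble a2 a3

def tetOK (c : KData) (TN CN XB ed d i j k q : ℕ) : Bool :=
  force (c.G i) fun gi => force (c.G (Nat.succ i)) fun gi1 => force (Nat.sub gi1 gi) fun dx =>
  force (c.G j) fun gj => force (c.G (Nat.succ j)) fun gj1 => force (Nat.sub gj1 gj) fun dy =>
  force (c.P k) fun gk => force (c.P (Nat.succ k)) fun gk1 => force (Nat.sub gk1 gk) fun dp =>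
  bif exAll q gi gj gk dx dy dp ed gi gi1 gj gj1 then true else
  force (c.V i j k) fun a0 => force (nv1 c.V q i j k) fun a1 =>
  force (nv2 c.V q i j k) fun a2 => force (c.V (Nat.succ i) (Nat.succ j) (Nat.succ k)) fun a3 =>
  bif Nat.ble gi1 XB && (skB1 CN gi a0 && skB1 CN (nv1 (fun i _ _ => c.G i) q i j k) a1 &&
    skB1 CN (nv2 (fun i _ _ => c.G i) q i j k) a2 && skB1 CN gi1 a3) then true else
  bif Nat.ble gj1 XB && (skA1 CN gj gk a0 &&
    skA1 CN (nv1 (fun _ j _ => c.G j) q i j k) (nv1 (fun _ _ k => c.P k) q i j k) a1 &&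
    skA1 CN (nv2 (fun _ j _ => c.G j) q i j k) (nv2 (fun _ _ k => c.P k) q i j k) a2 &&
    skA1 CN gj1 gk1 a3) then true else
  bif mono4 a0 a1 a2 a3 then
    force (c1f q a0 a1 a2 a3) fun c1 => force (c2f q a0 a1 a2 a3) fun c2 =>
    force (c3f q a0 a1 a2 a3) fun c3 =>
    posOK TN gi gj gk dx dy dp q a0 c1 c2 c3 gj gj1 d
  else false

/-- middle vertex of a triangle -/
def mv (f : ℕ → ℕ → ℕ) (q i k : ℕ) : ℕ := bif Nat.beq q 6 then f (Nat.succ i) k else f i (Nat.succ k)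

def triOK (c : KData) (TN CN XB ed d i k q : ℕ) : Bool :=
  force (c.G i) fun gi => force (c.G (Nat.succ i)) fun gi1 => force (Nat.sub gi1 gi) fun dx =>
  force (c.P k) fun gk => force (c.P (Nat.succ k)) fun gk1 => force (Nat.sub gk1 gk) fun dp =>
  bif exAll q gi 0 gk dx 1 dp ed gi gi1 0 NXs then true else
  force (c.V i 0 k) fun a0 => force (mv (fun i k => c.V i 0 k) q i k) fun a1 =>
  force (c.V (Nat.succ i) 0 (Nat.succ k)) fun a3 =>
  bif Nat.ble gi1 XB && (skB1 CN gi a0 && skB1 CN (mv (fun i _ => c.G i) q i k) a1 &&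
    skB1 CN gi1 a3) then true else
  bif Nat.ble a0 a1 && Nat.ble a1 a3 then
    force (bif Nat.beq q 6 then Nat.sub a1 a0 else Nat.sub a3 a1) fun c1 =>
    force (bif Nat.beq q 6 then Nat.sub a3 a1 else Nat.sub a1 a0) fun c3 =>
    posOK TN gi 0 gk dx 1 dp q a0 c1 0 c3 0 NXs d
  else false

/-- everything which has to be known about the data -/
structure KOK (c : KData) (TN CN TC ib L N M ed d ed2 d2 : ℕ) : Prop where
  G0 : c.G 0 = 0
  P0 : c.P 0 = 0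
  Gm : ∀ i, c.G i < c.G (i + 1)
  Pm : ∀ k, c.P k < c.P (k + 1)
  GN : NXs ≤ c.G N
  PM : NXs ≤ c.P M
  sym : ∀ i j, c.V i j 0 = c.V j i 0
  ind : ∀ i j k, L ≤ k → c.V i j k = c.V i 0 k
  n2 : ∀ i j k, i ≤ N → j ≤ N → k ≤ M → ib ≤ i → c.V i j k * 204800 ≤ 1000000 * (CN * c.G i)
  n3 : ∀ i j k, i ≤ N → j ≤ N → k ≤ M → ib ≤ j →
    c.V i j k * 204800 ≤ 1000000 * (200 * c.P k + CN * c.G j)
  tet : ∀ i j k q, i < N → j < N → k < L → k < M → q < 6 → tetOK c TN CN (c.G ib) ed d i j k q = true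
  tri : ∀ i k q, i < N → k < M → L ≤ k → (q = 6 ∨ q = 7) → triOK c TN CN (c.G ib) ed2 d2 i k q = true
  capA : (capP CN TC).Adm ((TN : ℝ) / 10000)
  tpos : 0 < TN
  xs1 : (c.G ib : ℝ) / 2048 ≤ 1
  xs2 : (2 + (CN : ℝ) / 100) * ((c.G ib : ℝ) / 2048) ≤ 2 * ((TC : ℝ) / 10000)
  xs3 : (2 + (CN : ℝ) / 100) * ((c.G ib : ℝ) / 2048) / 3 * ((2 + (CN : ℝ) / 100) + 2) ≤
    ((2 + (CN : ℝ) / 100) - 2) * (1 - ((c.G ib : ℝ) / 2048) ^ 2 / 4) *
      (2 * ((TC : ℝ) / 10000) - (2 + (CN : ℝ) / 100) * ((c.G ib : ℝ) / 2048))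

section

variable {c : KData} {TN CN TC ib L N M ed d ed2 d2 : ℕ}

lemma grid_of {g : ℕ → ℕ} (h0 : g 0 = 0) (hm : ∀ i, g i < g (i + 1)) :
    Grid (fun i => (g i : ℝ) / 2048) where
  zero := by simp [h0]
  mono := by
    apply strictMono_nat_of_lt_succ
    intro i
    have : (g i : ℝ) < g (i + 1) := by exact_mod_cast hm i
    linarith
  unb := by
    intro x
    have hg : ∀ i, i ≤ g i := by
      intro i
      induction i with
      | zero => omega
      | succ i ih => have := hm i; omega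
    obtain ⟨n, hn⟩ := exists_nat_gt (x * 2048)
    refine ⟨n, ?_⟩
    have : (n : ℝ) ≤ g n := by exact_mod_cast hg n
    linarith

/-- the function on the part `0 ≤ p` -/
noncomputable def KK (c : KData) (CN : ℕ) (x y p : ℝ) : ℝ :=
  min ((CN : ℝ) / 100 * x) (min (2 * p + (CN : ℝ) / 100 * y)
    (interp (fun i j k => (c.V i j k : ℝ)) (fun i => (c.G i : ℝ) / 2048)
      (fun k => (c.P k : ℝ) / 2048) x y p / 1000000)) - p

lemma nat_min_zero {u : ℝ} (h : 0 ≤ u) : min u 0 = 0 := min_eq_right h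

lemma interp_symm {a : ℕ → ℕ → ℕ → ℝ} {g r : ℕ → ℝ} (hg : Grid g) (hr : Grid r)
    (hs : ∀ i j, a i j 0 = a j i 0) {x y : ℝ} (hx : 0 ≤ x) (hy : 0 ≤ y) :
    interp a g r x y 0 = interp a g r y x 0 := by
  have h0 : idx r 0 = 0 := by
    obtain ⟨h1, h2⟩ := hr.idx_spec (le_refl (0 : ℝ))
    by_contra hne
    have : r 0 < r (idx r 0) := hr.mono (Nat.pos_of_ne_zero hne)
    rw [hr.zero] at this
    linarith
  have hl : loc r 0 0 = 0 := by unfold loc; rw [hr.zero]; simp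
  obtain ⟨ix0, ix1⟩ := hg.idx_spec hx
  obtain ⟨iy0, iy1⟩ := hg.idx_spec hy
  obtain ⟨lx0, lx1⟩ := hg.loc_mem ix0 ix1.le
  obtain ⟨ly0, ly1⟩ := hg.loc_mem iy0 iy1.le
  unfold interp
  rw [h0, hl]
  unfold cellf kuhn
  rw [nat_min_zero lx0, nat_min_zero ly0, nat_min_zero lx0, min_comm (loc g (idx g y) y),
    hs (idx g y) (idx g x), hs (idx g y + 1) (idx g x), hs (idx g y) (idx g x + 1),
    hs (idx g y + 1) (idx g x + 1)]
  ring

/-- index set of the potentials -/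
abbrev KI (N M : ℕ) : Type := Bool ⊕ (Fin N × Fin N × Fin M × Fin 8)

/-- the potentials -/
noncomputable def KPots (c : KData) (TN CN TC N M : ℕ) : KI N M → Pot
  | Sum.inl true => capP CN TC
  | Sum.inl false => (capP CN TC).mir
  | Sum.inr (i, j, k, q) =>
    if (q : ℕ) < 6 then
      potOf TN CN TC (c.G i) (c.G j) (c.P k) (c.G (i + 1) - c.G i) (c.G (j + 1) - c.G j)
        (c.P (k + 1) - c.P k) (c.V i j k)
        (c1f q (c.V i j k) (nv1 c.V q i j k) (nv2 c.V q i j k) (c.V (i + 1) (j + 1) (k + 1)))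
        (c2f q (c.V i j k) (nv1 c.V q i j k) (nv2 c.V q i j k) (c.V (i + 1) (j + 1) (k + 1)))
        (c3f q (c.V i j k) (nv1 c.V q i j k) (nv2 c.V q i j k) (c.V (i + 1) (j + 1) (k + 1)))
    else
      potOf TN CN TC (c.G i) 0 (c.P k) (c.G (i + 1) - c.G i) 1
        (c.P (k + 1) - c.P k) (c.V i 0 k)
        (bif Nat.beq q 6 then Nat.sub (mv (fun i k => c.V i 0 k) q i k) (c.V i 0 k)
          else Nat.sub (c.V (i + 1) 0 (k + 1)) (mv (fun i k => c.V i 0 k) q i k)) 0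
        (bif Nat.beq q 6 then Nat.sub (c.V (i + 1) 0 (k + 1)) (mv (fun i k => c.V i 0 k) q i k)
          else Nat.sub (mv (fun i k => c.V i 0 k) q i k) (c.V i 0 k))

lemma Pot.Adm.mir {P : Pot} {t : ℝ} (h : P.Adm t) : P.mir.Adm t := by
  refine ⟨?_, ?_, ?_, ?_, ?_⟩
  · simp only [Pot.mir, abs_neg]; exact h.l_le
  · simp only [Pot.mir]; linarith [h.hB]
  · simp only [Pot.mir]; linarith [h.hA]
  · exact h.τ_nonneg
  · simp only [Pot.mir, neg_sq]; exact h.τ_le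

lemma KPots_adm (h : KOK c TN CN TC ib L N M ed d ed2 d2) (i : KI N M) :
    (KPots c TN CN TC N M i).Adm ((TN : ℝ) / 10000) := by
  rcases i with (_ | _) | ⟨i, j, k, q⟩
  · exact h.capA.mir
  · exact h.capA
  · unfold KPots
    simp only
    split_ifs
    · exact potOf_adm h.capA
    · exact potOf_adm h.capA

lemma capP_kv (CN TC : ℕ) (x y p : ℝ) : (capP CN TC).kv x y p = (CN : ℝ) / 100 * x - p := by
  unfold Pot.kv capP; simp only; ring

/-- the special potential is fine in its range -/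
lemma cap_fF (h : KOK c TN CN TC ib L N M ed d ed2 d2) {x y : ℝ} (hx : 0 < x)
    (hx' : x ≤ (c.G ib : ℝ) / 2048) (hy : 0 < y) (hxy : x + y ≤ π)
    (hk : x * ((CN : ℝ) / 100) ≤ y * (4 + (CN : ℝ) / 100)) :
    0 ≤ fF (capP CN TC).τ ((capP CN TC).a + (capP CN TC).b) ((capP CN TC).a - (capP CN TC).b)
      (capP CN TC).k x y := by
  have e1 : (capP CN TC).a + (capP CN TC).b = 2 + (CN : ℝ) / 100 := by
    unfold capP; simp only; ring
  have e2 : (capP CN TC).a - (capP CN TC).b = 0 := by unfold capP; simp only; ring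
  have e3 : (capP CN TC).k = 0 := rfl
  have e4 : (capP CN TC).τ = (TC : ℝ) / 10000 := rfl
  rw [e1, e2, e3, e4]
  have hC : (0 : ℝ) ≤ (CN : ℝ) / 100 := by positivity
  exact fF_special (xs := (c.G ib : ℝ) / 2048) (by linarith) h.xs1 hx hx' hy hxy
    (by linarith) h.xs2 h.xs3

lemma convex_ge {c0 c1 c2 c3 a0 a1 a2 a3 b0 b1 b2 b3 : ℝ} (h0 : 0 ≤ c0) (h1 : 0 ≤ c1)
    (h2 : 0 ≤ c2) (h3 : 0 ≤ c3) (g0 : b0 ≤ a0) (g1 : b1 ≤ a1) (g2 : b2 ≤ a2) (g3 : b3 ≤ a3) :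
    c0 * b0 + c1 * b1 + c2 * b2 + c3 * b3 ≤ c0 * a0 + c1 * a1 + c2 * a2 + c3 * a3 := by
  have := mul_le_mul_of_nonneg_left g0 h0
  have := mul_le_mul_of_nonneg_left g1 h1
  have := mul_le_mul_of_nonneg_left g2 h2
  have := mul_le_mul_of_nonneg_left g3 h3
  linarith

end

end Pool.Agent.H962
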