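import Pool.Agent.H962.KMain

/-!
# The data give a good potential
-/

set_option autoImplicit false

open Real Set Filter Topology

namespace Pool.Agent.H962

lemma cell_le {f b : ℕ → ℕ → ℕ → ℝ} {q i j k : ℕ} {u v w : ℝ} (hq : Ord q u v w)
    (hu0 : 0 ≤ u) (hu1 : u ≤ 1) (hv0 : 0 ≤ v) (hv1 : v ≤ 1) (hw0 : 0 ≤ w) (hw1 : w ≤ 1)
    (h : ∀ i' j' k', (i' = i ∨ i' = i + 1) → (j' = j ∨ j' = j + 1) → (k' = k ∨ k' = k + 1) →
      f i' j' k' ≤ b i' j' k') : cellf f i j k u v w ≤ cellf b i j k u v w := by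
  obtain ⟨c0, c1, c2, c3, h0, h1, h2, h3, _, hc⟩ :=
    cell_convex (i := i) (j := j) (k := k) hq hu0 hu1 hv0 hv1 hw0 hw1
  rw [hc f, hc b]
  apply convex_ge h0 h1 h2 h3
  · exact h _ _ _ (Or.inl rfl) (Or.inl rfl) (Or.inl rfl)
  · unfold vt1
    split_ifs
    · exact h _ _ _ (Or.inr rfl) (Or.inl rfl) (Or.inl rfl)
    · exact h _ _ _ (Or.inl rfl) (Or.inr rfl) (Or.inl rfl)
    · exact h _ _ _ (Or.inl rfl) (Or.inl rfl) (Or.inr rfl)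
  · unfold vt2
    split_ifs
    · exact h _ _ _ (Or.inr rfl) (Or.inr rfl) (Or.inl rfl)
    · exact h _ _ _ (Or.inr rfl) (Or.inl rfl) (Or.inr rfl)
    · exact h _ _ _ (Or.inl rfl) (Or.inr rfl) (Or.inr rfl)
  · exact h _ _ _ (Or.inr rfl) (Or.inr rfl) (Or.inr rfl)

/-- values in a simplex in terms of the increments -/
lemma cell_incr {q i j k : ℕ} {u v w : ℝ} (c : KData) (hq6 : q < 6) (hq : Ord q u v w)
    (hm : mono4 (c.V i j k) (nv1 c.V q i j k) (nv2 c.V q i j k)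
      (c.V (Nat.succ i) (Nat.succ j) (Nat.succ k)) = true) :
    cellf (fun i j k => (c.V i j k : ℝ)) i j k u v w = (c.V i j k : ℝ)
      + (c1f q (c.V i j k) (nv1 c.V q i j k) (nv2 c.V q i j k)
        (c.V (Nat.succ i) (Nat.succ j) (Nat.succ k)) : ℕ) * u
      + (c2f q (c.V i j k) (nv1 c.V q i j k) (nv2 c.V q i j k)
        (c.V (Nat.succ i) (Nat.succ j) (Nat.succ k)) : ℕ) * v
      + (c3f q (c.V i j k) (nv1 c.V q i j k) (nv2 c.V q i j k)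
        (c.V (Nat.succ i) (Nat.succ j) (Nat.succ k)) : ℕ) * w := by
  unfold mono4 at hm
  simp only [Bool.and_eq_true] at hm
  obtain ⟨⟨m1, m2⟩, m3⟩ := hm
  have m1' := Nat.le_of_ble_eq_true m1
  have m2' := Nat.le_of_ble_eq_true m2
  have m3' := Nat.le_of_ble_eq_true m3
  have s1 : ((Nat.sub (nv1 c.V q i j k) (c.V i j k) : ℕ) : ℝ)
      = (nv1 c.V q i j k : ℝ) - c.V i j k := Nat.cast_sub m1'
  have s2 : ((Nat.sub (nv2 c.V q i j k) (nv1 c.V q i j k) : ℕ) : ℝ)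
      = (nv2 c.V q i j k : ℝ) - nv1 c.V q i j k := Nat.cast_sub m2'
  have s3 : ((Nat.sub (c.V (Nat.succ i) (Nat.succ j) (Nat.succ k)) (nv2 c.V q i j k) : ℕ) : ℝ)
      = (c.V (Nat.succ i) (Nat.succ j) (Nat.succ k) : ℝ) - nv2 c.V q i j k := Nat.cast_sub m3'
  rcases hq with ⟨rfl, h1, h2⟩ | ⟨rfl, h1, h2⟩ | ⟨rfl, h1, h2⟩ | ⟨rfl, h1, h2⟩ | ⟨rfl, h1, h2⟩ |
    ⟨rfl, h1, h2⟩
  · have e1 : c1f 0 (c.V i j k) (nv1 c.V 0 i j k) (nv2 c.V 0 i j k)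
        (c.V (Nat.succ i) (Nat.succ j) (Nat.succ k)) = Nat.sub (nv1 c.V 0 i j k) (c.V i j k) := rfl
    have e2 : c2f 0 (c.V i j k) (nv1 c.V 0 i j k) (nv2 c.V 0 i j k)
        (c.V (Nat.succ i) (Nat.succ j) (Nat.succ k)) = Nat.sub (nv2 c.V 0 i j k) (nv1 c.V 0 i j k) := rfl
    have e3 : c3f 0 (c.V i j k) (nv1 c.V 0 i j k) (nv2 c.V 0 i j k)
        (c.V (Nat.succ i) (Nat.succ j) (Nat.succ k)) = Nat.sub (c.V (Nat.succ i) (Nat.succ j) (Nat.succ k)) (nv2 c.V 0 i j k) := rfl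
    rw [e1, e2, e3, s1, s2, s3]
    unfold cellf
    rw [kuhn0 _ _ _ _ _ _ _ _ h1 h2]
    rfl
  · have e1 : c1f 1 (c.V i j k) (nv1 c.V 1 i j k) (nv2 c.V 1 i j k)
        (c.V (Nat.succ i) (Nat.succ j) (Nat.succ k)) = Nat.sub (nv1 c.V 1 i j k) (c.V i j k) := rfl
    have e2 : c2f 1 (c.V i j k) (nv1 c.V 1 i j k) (nv2 c.V 1 i j k)
        (c.V (Nat.succ i) (Nat.succ j) (Nat.succ k)) = Nat.sub (c.V (Nat.succ i) (Nat.succ j) (Nat.succ k)) (nv2 c.V 1 i j k) := rfl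
    have e3 : c3f 1 (c.V i j k) (nv1 c.V 1 i j k) (nv2 c.V 1 i j k)
        (c.V (Nat.succ i) (Nat.succ j) (Nat.succ k)) = Nat.sub (nv2 c.V 1 i j k) (nv1 c.V 1 i j k) := rfl
    rw [e1, e2, e3, s1, s2, s3]
    unfold cellf
    rw [kuhn1 _ _ _ _ _ _ _ _ h1 h2]
    show _ = (c.V i j k : ℝ) + ((c.V (i + 1) j k : ℝ) - c.V i j k) * u
      + ((c.V (i + 1) (j + 1) (k + 1) : ℝ) - c.V (i + 1) j (k + 1)) * v
      + ((c.V (i + 1) j (k + 1) : ℝ) - c.V (i + 1) j k) * w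
    ring
  · have e1 : c1f 2 (c.V i j k) (nv1 c.V 2 i j k) (nv2 c.V 2 i j k)
        (c.V (Nat.succ i) (Nat.succ j) (Nat.succ k)) = Nat.sub (nv2 c.V 2 i j k) (nv1 c.V 2 i j k) := rfl
    have e2 : c2f 2 (c.V i j k) (nv1 c.V 2 i j k) (nv2 c.V 2 i j k)
        (c.V (Nat.succ i) (Nat.succ j) (Nat.succ k)) = Nat.sub (c.V (Nat.succ i) (Nat.succ j) (Nat.succ k)) (nv2 c.V 2 i j k) := rfl
    have e3 : c3f 2 (c.V i j k) (nv1 c.V 2 i j k) (nv2 c.V 2 i j k)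
        (c.V (Nat.succ i) (Nat.succ j) (Nat.succ k)) = Nat.sub (nv1 c.V 2 i j k) (c.V i j k) := rfl
    rw [e1, e2, e3, s1, s2, s3]
    unfold cellf
    rw [kuhn2 _ _ _ _ _ _ _ _ h1 h2]
    show _ = (c.V i j k : ℝ) + ((c.V (i + 1) j (k + 1) : ℝ) - c.V i j (k + 1)) * u
      + ((c.V (i + 1) (j + 1) (k + 1) : ℝ) - c.V (i + 1) j (k + 1)) * v
      + ((c.V i j (k + 1) : ℝ) - c.V i j k) * w
    ring
  · have e1 : c1f 3 (c.V i j k) (nv1 c.V 3 i j k) (nv2 c.V 3 i j k)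
        (c.V (Nat.succ i) (Nat.succ j) (Nat.succ k)) = Nat.sub (nv2 c.V 3 i j k) (nv1 c.V 3 i j k) := rfl
    have e2 : c2f 3 (c.V i j k) (nv1 c.V 3 i j k) (nv2 c.V 3 i j k)
        (c.V (Nat.succ i) (Nat.succ j) (Nat.succ k)) = Nat.sub (nv1 c.V 3 i j k) (c.V i j k) := rfl
    have e3 : c3f 3 (c.V i j k) (nv1 c.V 3 i j k) (nv2 c.V 3 i j k)
        (c.V (Nat.succ i) (Nat.succ j) (Nat.succ k)) = Nat.sub (c.V (Nat.succ i) (Nat.succ j) (Nat.succ k)) (nv2 c.V 3 i j k) := rfl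
    rw [e1, e2, e3, s1, s2, s3]
    unfold cellf
    rw [kuhn3 _ _ _ _ _ _ _ _ h1 h2]
    show _ = (c.V i j k : ℝ) + ((c.V (i + 1) (j + 1) k : ℝ) - c.V i (j + 1) k) * u
      + ((c.V i (j + 1) k : ℝ) - c.V i j k) * v
      + ((c.V (i + 1) (j + 1) (k + 1) : ℝ) - c.V (i + 1) (j + 1) k) * w
    ring
  · have e1 : c1f 4 (c.V i j k) (nv1 c.V 4 i j k) (nv2 c.V 4 i j k)
        (c.V (Nat.succ i) (Nat.succ j) (Nat.succ k)) = Nat.sub (c.V (Nat.succ i) (Nat.succ j) (Nat.succ k)) (nv2 c.V 4 i j k) := rfl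
    have e2 : c2f 4 (c.V i j k) (nv1 c.V 4 i j k) (nv2 c.V 4 i j k)
        (c.V (Nat.succ i) (Nat.succ j) (Nat.succ k)) = Nat.sub (nv1 c.V 4 i j k) (c.V i j k) := rfl
    have e3 : c3f 4 (c.V i j k) (nv1 c.V 4 i j k) (nv2 c.V 4 i j k)
        (c.V (Nat.succ i) (Nat.succ j) (Nat.succ k)) = Nat.sub (nv2 c.V 4 i j k) (nv1 c.V 4 i j k) := rfl
    rw [e1, e2, e3, s1, s2, s3]
    unfold cellf
    rw [kuhn4 _ _ _ _ _ _ _ _ h1 h2]
    show _ = (c.V i j k : ℝ) + ((c.V (i + 1) (j + 1) (k + 1) : ℝ) - c.V i (j + 1) (k + 1)) * u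
      + ((c.V i (j + 1) k : ℝ) - c.V i j k) * v
      + ((c.V i (j + 1) (k + 1) : ℝ) - c.V i (j + 1) k) * w
    ring
  · have e1 : c1f 5 (c.V i j k) (nv1 c.V 5 i j k) (nv2 c.V 5 i j k)
        (c.V (Nat.succ i) (Nat.succ j) (Nat.succ k)) = Nat.sub (c.V (Nat.succ i) (Nat.succ j) (Nat.succ k)) (nv2 c.V 5 i j k) := rfl
    have e2 : c2f 5 (c.V i j k) (nv1 c.V 5 i j k) (nv2 c.V 5 i j k)
        (c.V (Nat.succ i) (Nat.succ j) (Nat.succ k)) = Nat.sub (nv2 c.V 5 i j k) (nv1 c.V 5 i j k) := rfl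
    have e3 : c3f 5 (c.V i j k) (nv1 c.V 5 i j k) (nv2 c.V 5 i j k)
        (c.V (Nat.succ i) (Nat.succ j) (Nat.succ k)) = Nat.sub (nv1 c.V 5 i j k) (c.V i j k) := rfl
    rw [e1, e2, e3, s1, s2, s3]
    unfold cellf
    rw [kuhn5 _ _ _ _ _ _ _ _ h1 h2]
    show _ = (c.V i j k : ℝ) + ((c.V (i + 1) (j + 1) (k + 1) : ℝ) - c.V i (j + 1) (k + 1)) * u
      + ((c.V i (j + 1) (k + 1) : ℝ) - c.V i j (k + 1)) * v
      + ((c.V i j (k + 1) : ℝ) - c.V i j k) * w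
    ring

/-- a state in a cell of the grid -/
structure InCell (c : KData) (i j k : ℕ) (x y p u v w : ℝ) : Prop where
  hu : 2048 * x = c.G i + ((c.G (i + 1) - c.G i : ℕ) : ℝ) * u
  hv : 2048 * y = c.G j + ((c.G (j + 1) - c.G j : ℕ) : ℝ) * v
  hw : 2048 * p = c.P k + ((c.P (k + 1) - c.P k : ℕ) : ℝ) * w
  u0 : 0 ≤ u
  u1 : u ≤ 1
  v0 : 0 ≤ v
  v1 : v ≤ 1
  w0 : 0 ≤ w
  w1 : w ≤ 1

section

variable {c : KData} {TN CN TC ib L N M ed d ed2 d2 : ℕ}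

lemma cell_x {i j k : ℕ} {x y p u v w : ℝ} (h : InCell c i j k x y p u v w)
    (hm : c.G i < c.G (i + 1)) :
    cellf (fun i _ _ => (c.G i : ℝ) / 2048) i j k u v w = x := by
  rw [cellf_x (fun i => (c.G i : ℝ) / 2048)]
  have := h.hu
  rw [Nat.cast_sub hm.le] at this
  linarith

lemma cell_y {i j k : ℕ} {x y p u v w : ℝ} (h : InCell c i j k x y p u v w)
    (hm : c.G j < c.G (j + 1)) :
    cellf (fun _ j _ => (c.G j : ℝ) / 2048) i j k u v w = y := by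
  rw [cellf_y (fun i => (c.G i : ℝ) / 2048)]
  have := h.hv
  rw [Nat.cast_sub hm.le] at this
  linarith

lemma cell_p {i j k : ℕ} {x y p u v w : ℝ} (h : InCell c i j k x y p u v w)
    (hm : c.P k < c.P (k + 1)) :
    cellf (fun _ _ k => (c.P k : ℝ) / 2048) i j k u v w = p := by
  rw [cellf_p (fun i => (c.P i : ℝ) / 2048)]
  have := h.hw
  rw [Nat.cast_sub hm.le] at this
  linarith

lemma loc_eq {g : ℕ → ℕ} (hm : ∀ i, g i < g (i + 1)) (i : ℕ) (x : ℝ) :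
    2048 * x = g i + ((g (i + 1) - g i : ℕ) : ℝ) * loc (fun i => (g i : ℝ) / 2048) i x := by
  unfold loc
  rw [Nat.cast_sub (hm i).le]
  have h1 : (g i : ℝ) < g (i + 1) := by exact_mod_cast hm i
  have h2 : (g (i + 1) : ℝ) / 2048 - (g i : ℝ) / 2048 = ((g (i + 1) : ℝ) - g i) / 2048 := by ring
  have h3 : ((g (i + 1) : ℝ) - g i) ≠ 0 := by linarith [sub_pos.mpr h1]
  rw [h2]
  field_simp
  ring

end

end Pool.Agent.H962
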