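import Pool.Agent.H962.KMain2

/-!
# The data give a good potential, conclusion
-/

set_option autoImplicit false

open Real Set Filter Topology

namespace Pool.Agent.H962

section

variable {c : KData} {TN CN TC ib L N M ed d ed2 d2 : ℕ}

/-- the interpolated value -/
noncomputable def cval (c : KData) (i j k : ℕ) (u v w : ℝ) : ℝ :=
  cellf (fun i j k => (c.V i j k : ℝ)) i j k u v w

lemma cval_nonneg {q i j k : ℕ} {u v w : ℝ} (hq : Ord q u v w)
    (hu0 : 0 ≤ u) (hu1 : u ≤ 1) (hv0 : 0 ≤ v) (hv1 : v ≤ 1) (hw0 : 0 ≤ w) (hw1 : w ≤ 1) :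
    0 ≤ cval c i j k u v w := by
  have h := cell_le (f := fun _ _ _ => 0) (b := fun i j k => (c.V i j k : ℝ)) (i := i) (j := j)
    (k := k) hq hu0 hu1 hv0 hv1 hw0 hw1 (fun _ _ _ _ _ _ => Nat.cast_nonneg _)
  have e : cellf (fun _ _ _ => (0 : ℝ)) i j k u v w = 0 := by unfold cellf kuhn; ring
  rw [e] at h
  exact h

lemma cval_le_x (h : KOK c TN CN TC ib L N M ed d ed2 d2) {q i j k : ℕ} {x y p u v w : ℝ}
    (hc : InCell c i j k x y p u v w) (hq : Ord q u v w) (hi : i < N) (hj : j < N) (hk : k < M)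
    (hib : ib ≤ i) : cval c i j k u v w ≤ 1000000 * ((CN : ℝ) / 100 * x) := by
  have h1 := cell_le (f := fun i j k => (c.V i j k : ℝ))
    (b := fun i _ _ => 1000000 * ((CN : ℝ) / 100) * ((c.G i : ℝ) / 2048)) (i := i) (j := j)
    (k := k) hq hc.u0 hc.u1 hc.v0 hc.v1 hc.w0 hc.w1 (by
      intro i' j' k' hi' hj' hk'
      have h2 := h.n2 i' j' k' (by omega) (by omega) (by omega) (by omega)
      have h3 : ((c.V i' j' k' * 204800 : ℕ) : ℝ) ≤ ((1000000 * (CN * c.G i') : ℕ) : ℝ) := by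
        exact_mod_cast h2
      push_cast at h3
      linarith)
  have e : cellf (fun i _ _ => 1000000 * ((CN : ℝ) / 100) * ((c.G i : ℝ) / 2048)) i j k u v w
      = 1000000 * ((CN : ℝ) / 100) * x := by
    have := cell_x hc (h.Gm i)
    rw [← this]
    unfold cellf kuhn; ring
  rw [e] at h1
  unfold cval
  linarith

lemma cval_le_y (h : KOK c TN CN TC ib L N M ed d ed2 d2) {q i j k : ℕ} {x y p u v w : ℝ}
    (hc : InCell c i j k x y p u v w) (hq : Ord q u v w) (hi : i < N) (hj : j < N) (hk : k < M)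
    (hib : ib ≤ j) : cval c i j k u v w ≤ 1000000 * (2 * p + (CN : ℝ) / 100 * y) := by
  have h1 := cell_le (f := fun i j k => (c.V i j k : ℝ))
    (b := fun _ j k => 1000000 * (2 * ((c.P k : ℝ) / 2048) + (CN : ℝ) / 100 * ((c.G j : ℝ) / 2048)))
    (i := i) (j := j) (k := k) hq hc.u0 hc.u1 hc.v0 hc.v1 hc.w0 hc.w1 (by
      intro i' j' k' hi' hj' hk'
      have h2 := h.n3 i' j' k' (by omega) (by omega) (by omega) (by omega)
      have h3 : ((c.V i' j' k' * 204800 : ℕ) : ℝ) ≤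
          ((1000000 * (200 * c.P k' + CN * c.G j') : ℕ) : ℝ) := by
        exact_mod_cast h2
      push_cast at h3
      linarith)
  have e : cellf (fun _ j k => 1000000 * (2 * ((c.P k : ℝ) / 2048) + (CN : ℝ) / 100 * ((c.G j : ℝ) / 2048)))
      i j k u v w = 1000000 * (2 * p + (CN : ℝ) / 100 * y) := by
    have e1 := cell_y hc (h.Gm j)
    have e2 := cell_p hc (h.Pm k)
    rw [← e1, ← e2]
    unfold cellf kuhn; ring
  rw [e] at h1
  exact h1

/-- vertexwise comparison with the potential at `b` -/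
lemma skB_sound {q i j k : ℕ} {x y p u v w : ℝ} (hG : c.G i < c.G (i + 1)) (hq6 : q < 6)
    (hc : InCell c i j k x y p u v w) (hq : Ord q u v w)
    (hs : (skB1 CN (c.G i) (c.V i j k) && skB1 CN (nv1 (fun i _ _ => c.G i) q i j k) (nv1 c.V q i j k) &&
    skB1 CN (nv2 (fun i _ _ => c.G i) q i j k) (nv2 c.V q i j k) &&
    skB1 CN (c.G (Nat.succ i)) (c.V (Nat.succ i) (Nat.succ j) (Nat.succ k))) = true) :
    1000000 * ((CN : ℝ) / 100 * x) ≤ cval c i j k u v w := by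
  simp only [Bool.and_eq_true] at hs
  obtain ⟨⟨⟨s0, s1⟩, s2⟩, s3⟩ := hs
  have key : ∀ g a : ℕ, skB1 CN g a = true →
      1000000 * ((CN : ℝ) / 100) * ((g : ℝ) / 2048) ≤ (a : ℝ) := by
    intro g a hs
    have h2 : 1000000 * (CN * g) ≤ 204800 * a := Nat.le_of_ble_eq_true hs
    have h3 : ((1000000 * (CN * g) : ℕ) : ℝ) ≤ ((204800 * a : ℕ) : ℝ) := by exact_mod_cast h2
    push_cast at h3
    linarith
  have t0 := key _ _ s0
  have t1 := key _ _ s1
  have t2 := key _ _ s2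
  have t3 := key _ _ s3
  rw [nv1_cast _ hq6, nv1_cast _ hq6] at t1
  rw [nv2_cast _ hq6, nv2_cast _ hq6] at t2
  obtain ⟨c0, c1, c2, c3, h0, h1, h2, h3, _, hcc⟩ :=
    cell_convex (i := i) (j := j) (k := k) hq hc.u0 hc.u1 hc.v0 hc.v1 hc.w0 hc.w1
  have ex := cell_x hc hG
  have ec := hcc (fun i _ _ => (c.G i : ℝ) / 2048)
  rw [ex] at ec
  unfold cval
  rw [hcc (fun i j k => (c.V i j k : ℝ))]
  have hge := convex_ge h0 h1 h2 h3 t0 t1 t2 t3
  refine le_trans (le_of_eq ?_) hge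
  have e1 : vt1 (fun i _ _ => (c.G i : ℝ) / 2048) q i j k
      = vt1 (fun i _ _ => (c.G i : ℝ)) q i j k / 2048 := by
    unfold vt1; split_ifs <;> rfl
  have e2 : vt2 (fun i _ _ => (c.G i : ℝ) / 2048) q i j k
      = vt2 (fun i _ _ => (c.G i : ℝ)) q i j k / 2048 := by
    unfold vt2; split_ifs <;> rfl
  rw [ec, e1, e2]
  show 1000000 * ((CN : ℝ) / 100 * (c0 * ((c.G i : ℝ) / 2048) + _ + _ + c3 * ((c.G (i + 1) : ℝ) / 2048))) = _
  ring

/-- vertexwise comparison with the potential at `a` -/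
lemma skA_sound {q i j k : ℕ} {x y p u v w : ℝ} (hG : c.G j < c.G (j + 1))
    (hP : c.P k < c.P (k + 1)) (hq6 : q < 6)
    (hc : InCell c i j k x y p u v w) (hq : Ord q u v w)
    (hs : (skA1 CN (c.G j) (c.P k) (c.V i j k) &&
    skA1 CN (nv1 (fun _ j _ => c.G j) q i j k) (nv1 (fun _ _ k => c.P k) q i j k) (nv1 c.V q i j k) &&
    skA1 CN (nv2 (fun _ j _ => c.G j) q i j k) (nv2 (fun _ _ k => c.P k) q i j k) (nv2 c.V q i j k) &&
    skA1 CN (c.G (Nat.succ j)) (c.P (Nat.succ k)) (c.V (Nat.succ i) (Nat.succ j) (Nat.succ k))) = true) :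
    1000000 * (2 * p + (CN : ℝ) / 100 * y) ≤ cval c i j k u v w := by
  simp only [Bool.and_eq_true] at hs
  obtain ⟨⟨⟨s0, s1⟩, s2⟩, s3⟩ := hs
  have key : ∀ g r a : ℕ, skA1 CN g r a = true →
      1000000 * (2 * ((r : ℝ) / 2048) + (CN : ℝ) / 100 * ((g : ℝ) / 2048)) ≤ (a : ℝ) := by
    intro g r a hs
    have h2 : 1000000 * (200 * r + CN * g) ≤ 204800 * a := Nat.le_of_ble_eq_true hs
    have h3 : ((1000000 * (200 * r + CN * g) : ℕ) : ℝ) ≤ ((204800 * a : ℕ) : ℝ) := by exact_mod_cast h2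
    push_cast at h3
    linarith
  have t0 := key _ _ _ s0
  have t1 := key _ _ _ s1
  have t2 := key _ _ _ s2
  have t3 := key _ _ _ s3
  rw [nv1_cast _ hq6, nv1_cast _ hq6, nv1_cast _ hq6] at t1
  rw [nv2_cast _ hq6, nv2_cast _ hq6, nv2_cast _ hq6] at t2
  obtain ⟨c0, c1, c2, c3, h0, h1, h2, h3, _, hcc⟩ :=
    cell_convex (i := i) (j := j) (k := k) hq hc.u0 hc.u1 hc.v0 hc.v1 hc.w0 hc.w1
  have ey := cell_y hc hG
  have ep := cell_p hc hP
  have ec := hcc (fun _ j _ => (c.G j : ℝ) / 2048)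
  have ec' := hcc (fun _ _ k => (c.P k : ℝ) / 2048)
  rw [ey] at ec
  rw [ep] at ec'
  unfold cval
  rw [hcc (fun i j k => (c.V i j k : ℝ))]
  have hge := convex_ge h0 h1 h2 h3 t0 t1 t2 t3
  refine le_trans (le_of_eq ?_) hge
  have e1 : vt1 (fun _ j _ => (c.G j : ℝ) / 2048) q i j k
      = vt1 (fun _ j _ => (c.G j : ℝ)) q i j k / 2048 := by
    unfold vt1; split_ifs <;> rfl
  have e2 : vt2 (fun _ j _ => (c.G j : ℝ) / 2048) q i j k
      = vt2 (fun _ j _ => (c.G j : ℝ)) q i j k / 2048 := by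
    unfold vt2; split_ifs <;> rfl
  have e3 : vt1 (fun _ _ k => (c.P k : ℝ) / 2048) q i j k
      = vt1 (fun _ _ k => (c.P k : ℝ)) q i j k / 2048 := by
    unfold vt1; split_ifs <;> rfl
  have e4 : vt2 (fun _ _ k => (c.P k : ℝ) / 2048) q i j k
      = vt2 (fun _ _ k => (c.P k : ℝ)) q i j k / 2048 := by
    unfold vt2; split_ifs <;> rfl
  rw [ec, ec', e1, e2, e3, e4]
  show 1000000 * (2 * (c0 * ((c.P k : ℝ) / 2048) + _ + _ + c3 * ((c.P (k + 1) : ℝ) / 2048))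
    + (CN : ℝ) / 100 * (c0 * ((c.G j : ℝ) / 2048) + _ + _ + c3 * ((c.G (j + 1) : ℝ) / 2048))) = _
  ring

end

end Pool.Agent.H962
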