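import Pool.Agent.H962.KMain3

/-!
# The data give a good potential, assembly
-/

set_option autoImplicit false

open Real Set Filter Topology

namespace Pool.Agent.H962

section

variable {c : KData} {TN CN TC ib L N M ed d ed2 d2 : ℕ}

lemma Ord.to8 {q : ℕ} {u v w : ℝ} (h : Ord q u v w) : Ord8 q u v w := by
  unfold Ord at h
  unfold Ord8
  rcases h with h | h | h | h | h | h
  · exact Or.inl h
  · exact Or.inr (Or.inl h)
  · exact Or.inr (Or.inr (Or.inl h))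
  · exact Or.inr (Or.inr (Or.inr (Or.inl h)))
  · exact Or.inr (Or.inr (Or.inr (Or.inr (Or.inl h))))
  · exact Or.inr (Or.inr (Or.inr (Or.inr (Or.inr (Or.inl h)))))

lemma tet_case (h : KOK c TN CN TC ib L N M ed d ed2 d2) {q i j k : ℕ} {x y p u v w : ℝ}
    (hc : InCell c i j k x y p u v w) (hq : Ord q u v w) (hi : i < N) (hj : j < N) (hk : k < M)
    (hkL : k < L) (hq6 : q < 6) (hD : InD x y p) :
    (c.G (i + 1) ≤ c.G ib ∧ 1000000 * ((CN : ℝ) / 100 * x) ≤ cval c i j k u v w) ∨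
    (c.G (j + 1) ≤ c.G ib ∧ 1000000 * (2 * p + (CN : ℝ) / 100 * y) ≤ cval c i j k u v w) ∨
    (∃ s : KI N M, (KPots c TN CN TC N M s).kv x y p = cval c i j k u v w / 1000000 - p ∧
      0 ≤ fF (KPots c TN CN TC N M s).τ ((KPots c TN CN TC N M s).a + (KPots c TN CN TC N M s).b)
        ((KPots c TN CN TC N M s).a - (KPots c TN CN TC N M s).b) (KPots c TN CN TC N M s).k x y) := by
  have ht := h.tet i j k q hi hj hkL hk hq6
  unfold tetOK at ht
  simp only [force_eq] at ht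
  have hGi := h.Gm i
  have hGj := h.Gm j
  have hPk := h.Pm k
  have hdx : 0 < c.G (i + 1) - c.G i := by omega
  have hdy : 0 < c.G (j + 1) - c.G j := by omega
  have hdp : 0 < c.P (k + 1) - c.P k := by omega
  have hdx' : (0 : ℝ) ≤ ((c.G (i + 1) - c.G i : ℕ) : ℝ) := Nat.cast_nonneg _
  have hdy' : (0 : ℝ) ≤ ((c.G (j + 1) - c.G j : ℕ) : ℝ) := Nat.cast_nonneg _
  have cx := Nat.cast_sub (R := ℝ) hGi.le
  have cy := Nat.cast_sub (R := ℝ) hGj.le
  have hx0 : (c.G i : ℝ) / 2048 ≤ x := by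
    have := hc.hu
    have := mul_nonneg hdx' hc.u0
    linarith
  have hx1 : x ≤ (c.G (i + 1) : ℝ) / 2048 := by
    have := hc.hu
    have h2 := mul_le_mul_of_nonneg_left hc.u1 hdx'
    rw [mul_one, cx] at h2
    rw [cx] at this
    linarith
  have hy0 : (c.G j : ℝ) / 2048 ≤ y := by
    have := hc.hv
    have := mul_nonneg hdy' hc.v0
    linarith
  have hy1 : y ≤ (c.G (j + 1) : ℝ) / 2048 := by
    have := hc.hv
    have h2 := mul_le_mul_of_nonneg_left hc.v1 hdy'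
    rw [mul_one, cy] at h2
    rw [cy] at this
    linarith
  rcases hex : exAll q (c.G i) (c.G j) (c.P k) (Nat.sub (c.G (Nat.succ i)) (c.G i))
    (Nat.sub (c.G (Nat.succ j)) (c.G j)) (Nat.sub (c.P (Nat.succ k)) (c.P k)) ed
    (c.G i) (c.G (Nat.succ i)) (c.G j) (c.G (Nat.succ j)) with _ | _
  swap
  · exact (exAll_sound hdx hdy hc.hu hc.hv hc.hw hc.u0 hc.v0 hc.w0 hc.w1 hq.to8 hD _ _ _ _ _
      hex hx0 hx1 hy0 hy1).elim
  rw [hex] at ht
  simp only [cond_false] at ht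
  rcases hB : (Nat.ble (c.G (Nat.succ i)) (c.G ib) && (skB1 CN (c.G i) (c.V i j k) &&
    skB1 CN (nv1 (fun i _ _ => c.G i) q i j k) (nv1 c.V q i j k) &&
    skB1 CN (nv2 (fun i _ _ => c.G i) q i j k) (nv2 c.V q i j k) &&
    skB1 CN (c.G (Nat.succ i)) (c.V (Nat.succ i) (Nat.succ j) (Nat.succ k)))) with _ | _
  swap
  · left
    rw [Bool.and_eq_true] at hB
    exact ⟨Nat.le_of_ble_eq_true hB.1, skB_sound hGi hq6 hc hq hB.2⟩
  rw [hB] at ht
  simp only [cond_false] at ht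
  rcases hA : (Nat.ble (c.G (Nat.succ j)) (c.G ib) && (skA1 CN (c.G j) (c.P k) (c.V i j k) &&
    skA1 CN (nv1 (fun _ j _ => c.G j) q i j k) (nv1 (fun _ _ k => c.P k) q i j k) (nv1 c.V q i j k) &&
    skA1 CN (nv2 (fun _ j _ => c.G j) q i j k) (nv2 (fun _ _ k => c.P k) q i j k) (nv2 c.V q i j k) &&
    skA1 CN (c.G (Nat.succ j)) (c.P (Nat.succ k)) (c.V (Nat.succ i) (Nat.succ j) (Nat.succ k)))) with _ | _
  swap
  · right; left
    rw [Bool.and_eq_true] at hA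
    exact ⟨Nat.le_of_ble_eq_true hA.1, skA_sound hGj hPk hq6 hc hq hA.2⟩
  rw [hA] at ht
  simp only [cond_false] at ht
  rcases hm : mono4 (c.V i j k) (nv1 c.V q i j k) (nv2 c.V q i j k)
    (c.V (Nat.succ i) (Nat.succ j) (Nat.succ k)) with _ | _
  · rw [hm] at ht; simp at ht
  rw [hm] at ht
  simp only [cond_true] at ht
  right; right
  refine ⟨Sum.inr (⟨i, hi⟩, ⟨j, hj⟩, ⟨k, hk⟩, ⟨q, by omega⟩), ?_⟩
  have hP : KPots c TN CN TC N M (Sum.inr (⟨i, hi⟩, ⟨j, hj⟩, ⟨k, hk⟩, ⟨q, by omega⟩)) =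
      potOf TN CN TC (c.G i) (c.G j) (c.P k) (c.G (i + 1) - c.G i) (c.G (j + 1) - c.G j)
        (c.P (k + 1) - c.P k) (c.V i j k)
        (c1f q (c.V i j k) (nv1 c.V q i j k) (nv2 c.V q i j k) (c.V (i + 1) (j + 1) (k + 1)))
        (c2f q (c.V i j k) (nv1 c.V q i j k) (nv2 c.V q i j k) (c.V (i + 1) (j + 1) (k + 1)))
        (c3f q (c.V i j k) (nv1 c.V q i j k) (nv2 c.V q i j k) (c.V (i + 1) (j + 1) (k + 1))) := by
    unfold KPots
    simp only
    rw [if_pos hq6]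
  rw [hP]
  constructor
  · rw [potOf_kv hdx hdy hdp ht hc.hu hc.hv hc.hw]
    unfold cval
    rw [cell_incr c hq6 hq hm]
  · exact potOf_fF hdx hdy hdp ht hc.hu hc.hv hc.hw hc.u0 hc.u1 hc.v0 hc.w0 hc.w1 hq.to8 hD hy0 hy1

/-- the value where the second coordinate plays no role -/
lemma cval_ind (h : KOK c TN CN TC ib L N M ed d ed2 d2) {i j k : ℕ} {u v w : ℝ} (hL : L ≤ k) :
    cval c i j k u v w = (c.V i 0 k : ℝ) + ((c.V (i + 1) 0 k : ℝ) - c.V i 0 k) * u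
      + ((c.V i 0 (k + 1) : ℝ) - c.V i 0 k) * w
      + ((c.V (i + 1) 0 (k + 1) : ℝ) - c.V (i + 1) 0 k - c.V i 0 (k + 1) + c.V i 0 k) * min u w := by
  unfold cval cellf kuhn
  simp only
  rw [h.ind i j k hL, h.ind (i + 1) j k hL, h.ind i (j + 1) k hL, h.ind i j (k + 1) (by omega),
    h.ind (i + 1) (j + 1) k hL, h.ind (i + 1) j (k + 1) (by omega),
    h.ind i (j + 1) (k + 1) (by omega), h.ind (i + 1) (j + 1) (k + 1) (by omega)]
  ring

lemma tri_case (h : KOK c TN CN TC ib L N M ed d ed2 d2) {i j k : ℕ} {x y p u v w : ℝ}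
    (hc : InCell c i j k x y p u v w) (hi : i < N) (hj : j < N) (hk : k < M)
    (hkL : L ≤ k) (hD : InD x y p) :
    (c.G (i + 1) ≤ c.G ib ∧ 1000000 * ((CN : ℝ) / 100 * x) ≤ cval c i j k u v w) ∨
    (∃ s : KI N M, (KPots c TN CN TC N M s).kv x y p = cval c i j k u v w / 1000000 - p ∧
      0 ≤ fF (KPots c TN CN TC N M s).τ ((KPots c TN CN TC N M s).a + (KPots c TN CN TC N M s).b)
        ((KPots c TN CN TC N M s).a - (KPots c TN CN TC N M s).b) (KPots c TN CN TC N M s).k x y) := by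
  obtain ⟨q, hq, hord⟩ : ∃ q, (q = 6 ∨ q = 7) ∧ ((q = 6 ∧ w ≤ u) ∨ (q = 7 ∧ u ≤ w)) := by
    rcases le_total w u with h1 | h1
    · exact ⟨6, Or.inl rfl, Or.inl ⟨rfl, h1⟩⟩
    · exact ⟨7, Or.inr rfl, Or.inr ⟨rfl, h1⟩⟩
  have ht := h.tri i k q hi hk hkL hq
  unfold triOK at ht
  simp only [force_eq] at ht
  have hGi := h.Gm i
  have hPk := h.Pm k
  have hdx : 0 < c.G (i + 1) - c.G i := by omega
  have hdp : 0 < c.P (k + 1) - c.P k := by omega
  have hdx' : (0 : ℝ) ≤ ((c.G (i + 1) - c.G i : ℕ) : ℝ) := Nat.cast_nonneg _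
  have cx := Nat.cast_sub (R := ℝ) hGi.le
  have hx0 : (c.G i : ℝ) / 2048 ≤ x := by
    have := hc.hu
    have := mul_nonneg hdx' hc.u0
    linarith
  have hx1 : x ≤ (c.G (i + 1) : ℝ) / 2048 := by
    have := hc.hu
    have h2 := mul_le_mul_of_nonneg_left hc.u1 hdx'
    rw [mul_one, cx] at h2
    rw [cx] at this
    linarith
  have hy0 : ((0 : ℕ) : ℝ) / 2048 ≤ y := by have := hD.y0; simpa using this.le
  have hy1 : y ≤ ((NXs : ℕ) : ℝ) / 2048 := by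
    have := NXs_gt; have := hD.xy; have := hD.x0; linarith
  have hv' : 2048 * y = ((0 : ℕ) : ℝ) + ((1 : ℕ) : ℝ) * (2048 * y) := by push_cast; ring
  have hv0 : 0 ≤ 2048 * y := by have := hD.y0; linarith
  have h8 : Ord8 q u (2048 * y) w := by
    unfold Ord8
    rcases hord with h1 | h1
    · exact Or.inr (Or.inr (Or.inr (Or.inr (Or.inr (Or.inr (Or.inl h1))))))
    · exact Or.inr (Or.inr (Or.inr (Or.inr (Or.inr (Or.inr (Or.inr h1))))))
  have hval := cval_ind h (i := i) (j := j) (u := u) (v := v) (w := w) hkL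
  rcases hex : exAll q (c.G i) 0 (c.P k) (Nat.sub (c.G (Nat.succ i)) (c.G i))
    1 (Nat.sub (c.P (Nat.succ k)) (c.P k)) ed2
    (c.G i) (c.G (Nat.succ i)) 0 NXs with _ | _
  swap
  · exact (exAll_sound hdx Nat.one_pos hc.hu hv' hc.hw hc.u0 hv0 hc.w0 hc.w1 h8 hD _ _ _ _ _
      hex hx0 hx1 hy0 hy1).elim
  rw [hex] at ht
  simp only [cond_false] at ht
  have hux : 2048 * x = c.G i + ((c.G (i + 1) : ℝ) - c.G i) * u := by
    have := hc.hu; rwa [cx] at this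
  have key : ∀ g a : ℕ, skB1 CN g a = true →
      1000000 * ((CN : ℝ) / 100) * ((g : ℝ) / 2048) ≤ (a : ℝ) := by
    intro g a hs
    have h2 : 1000000 * (CN * g) ≤ 204800 * a := Nat.le_of_ble_eq_true hs
    have h3 : ((1000000 * (CN * g) : ℕ) : ℝ) ≤ ((204800 * a : ℕ) : ℝ) := by exact_mod_cast h2
    push_cast at h3
    linarith
  rcases hB : (Nat.ble (c.G (Nat.succ i)) (c.G ib) && (skB1 CN (c.G i) (c.V i 0 k) &&
    skB1 CN (mv (fun i _ => c.G i) q i k) (mv (fun i k => c.V i 0 k) q i k) &&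
    skB1 CN (c.G (Nat.succ i)) (c.V (Nat.succ i) 0 (Nat.succ k)))) with _ | _
  swap
  · left
    simp only [Bool.and_eq_true] at hB
    obtain ⟨hb0, ⟨s0, s1⟩, s2⟩ := hB
    refine ⟨Nat.le_of_ble_eq_true hb0, ?_⟩
    have t0 := key _ _ s0
    have t2 := key _ _ s2
    rw [hval]
    have hxx : x = ((c.G i : ℝ) / 2048) * (1 - u) + ((c.G (i + 1) : ℝ) / 2048) * u := by linarith
    rcases hord with ⟨rfl, h1⟩ | ⟨rfl, h1⟩
    · rw [min_eq_right h1]
      have t1 := key _ _ s1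
      have t1' : 1000000 * ((CN : ℝ) / 100) * ((c.G (i + 1) : ℝ) / 2048) ≤ (c.V (i + 1) 0 k : ℝ) := t1
      have t2' : 1000000 * ((CN : ℝ) / 100) * ((c.G (i + 1) : ℝ) / 2048) ≤ (c.V (i + 1) 0 (k + 1) : ℝ) := t2
      have m0 := mul_le_mul_of_nonneg_left t0 (by linarith [hc.u1] : 0 ≤ 1 - u)
      have m1 := mul_le_mul_of_nonneg_left t1' (by linarith : 0 ≤ u - w)
      have m2 := mul_le_mul_of_nonneg_left t2' hc.w0
      rw [hxx]
      linarith
    · rw [min_eq_left h1]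
      have t1 := key _ _ s1
      have t1' : 1000000 * ((CN : ℝ) / 100) * ((c.G i : ℝ) / 2048) ≤ (c.V i 0 (k + 1) : ℝ) := t1
      have t2' : 1000000 * ((CN : ℝ) / 100) * ((c.G (i + 1) : ℝ) / 2048) ≤ (c.V (i + 1) 0 (k + 1) : ℝ) := t2
      have m0 := mul_le_mul_of_nonneg_left t0 (by linarith [hc.w1] : 0 ≤ 1 - w)
      have m1 := mul_le_mul_of_nonneg_left t1' (by linarith : 0 ≤ w - u)
      have m2 := mul_le_mul_of_nonneg_left t2' hc.u0
      rw [hxx]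
      linarith
  rw [hB] at ht
  simp only [cond_false] at ht
  rcases hm : (Nat.ble (c.V i 0 k) (mv (fun i k => c.V i 0 k) q i k) &&
    Nat.ble (mv (fun i k => c.V i 0 k) q i k) (c.V (Nat.succ i) 0 (Nat.succ k))) with _ | _
  · rw [hm] at ht; simp at ht
  rw [hm] at ht
  simp only [cond_true] at ht
  simp only [Bool.and_eq_true] at hm
  have hm1 := Nat.le_of_ble_eq_true hm.1
  have hm2 := Nat.le_of_ble_eq_true hm.2
  right
  have hq8 : q < 8 := by rcases hq with h1 | h1 <;> omega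
  refine ⟨Sum.inr (⟨i, hi⟩, ⟨j, hj⟩, ⟨k, hk⟩, ⟨q, hq8⟩), ?_⟩
  have hP : KPots c TN CN TC N M (Sum.inr (⟨i, hi⟩, ⟨j, hj⟩, ⟨k, hk⟩, ⟨q, hq8⟩)) =
      potOf TN CN TC (c.G i) 0 (c.P k) (c.G (i + 1) - c.G i) 1
        (c.P (k + 1) - c.P k) (c.V i 0 k)
        (bif Nat.beq q 6 then Nat.sub (mv (fun i k => c.V i 0 k) q i k) (c.V i 0 k)
          else Nat.sub (c.V (i + 1) 0 (k + 1)) (mv (fun i k => c.V i 0 k) q i k)) 0
        (bif Nat.beq q 6 then Nat.sub (c.V (i + 1) 0 (k + 1)) (mv (fun i k => c.V i 0 k) q i k)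
          else Nat.sub (mv (fun i k => c.V i 0 k) q i k) (c.V i 0 k)) := by
    unfold KPots
    simp only
    rw [if_neg (by rcases hq with h1 | h1 <;> omega)]
  rw [hP]
  constructor
  · rw [potOf_kv hdx Nat.one_pos hdp ht hc.hu hv' hc.hw, hval]
    congr 2
    rcases hord with ⟨rfl, h1⟩ | ⟨rfl, h1⟩
    · rw [min_eq_right h1]
      have s1 : ((Nat.sub (mv (fun i k => c.V i 0 k) 6 i k) (c.V i 0 k) : ℕ) : ℝ)
        = (mv (fun i k => c.V i 0 k) 6 i k : ℝ) - c.V i 0 k := Nat.cast_sub hm1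
      have s2 : ((Nat.sub (c.V (i + 1) 0 (k + 1)) (mv (fun i k => c.V i 0 k) 6 i k) : ℕ) : ℝ)
        = (c.V (i + 1) 0 (k + 1) : ℝ) - mv (fun i k => c.V i 0 k) 6 i k := Nat.cast_sub hm2
      show (c.V i 0 k : ℝ) + ((Nat.sub (mv (fun i k => c.V i 0 k) 6 i k) (c.V i 0 k) : ℕ) : ℝ) * u
        + ((0 : ℕ) : ℝ) * (2048 * y)
        + ((Nat.sub (c.V (i + 1) 0 (k + 1)) (mv (fun i k => c.V i 0 k) 6 i k) : ℕ) : ℝ) * w = _
      rw [s1, s2]
      show (c.V i 0 k : ℝ) + ((c.V (i + 1) 0 k : ℝ) - c.V i 0 k) * u + ((0 : ℕ) : ℝ) * (2048 * y)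
        + ((c.V (i + 1) 0 (k + 1) : ℝ) - c.V (i + 1) 0 k) * w = _
      push_cast
      ring
    · rw [min_eq_left h1]
      have s1 : ((Nat.sub (mv (fun i k => c.V i 0 k) 7 i k) (c.V i 0 k) : ℕ) : ℝ)
        = (mv (fun i k => c.V i 0 k) 7 i k : ℝ) - c.V i 0 k := Nat.cast_sub hm1
      have s2 : ((Nat.sub (c.V (i + 1) 0 (k + 1)) (mv (fun i k => c.V i 0 k) 7 i k) : ℕ) : ℝ)
        = (c.V (i + 1) 0 (k + 1) : ℝ) - mv (fun i k => c.V i 0 k) 7 i k := Nat.cast_sub hm2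
      show (c.V i 0 k : ℝ) + ((Nat.sub (c.V (i + 1) 0 (k + 1)) (mv (fun i k => c.V i 0 k) 7 i k) : ℕ) : ℝ) * u
        + ((0 : ℕ) : ℝ) * (2048 * y)
        + ((Nat.sub (mv (fun i k => c.V i 0 k) 7 i k) (c.V i 0 k) : ℕ) : ℝ) * w = _
      rw [s1, s2]
      show (c.V i 0 k : ℝ) + ((c.V (i + 1) 0 (k + 1) : ℝ) - c.V i 0 (k + 1)) * u + ((0 : ℕ) : ℝ) * (2048 * y)
        + ((c.V i 0 (k + 1) : ℝ) - c.V i 0 k) * w = _
      push_cast
      ring
  · exact potOf_fF hdx Nat.one_pos hdp ht hc.hu hv' hc.hw hc.u0 hc.u1 hv0 hc.w0 hc.w1 h8 hD hy0 hy1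

end

end Pool.Agent.H962
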