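import Pool.Agent.H962.Chain

/-!
# Potentials given by a continuous function with many affine pieces
-/

set_option autoImplicit false

open Real Set Filter Topology

namespace Pool.Agent.H962

/-- A continuous function which at every point agrees with one of finitely many functions of
slope at most `c` grows at most with slope `c`. -/
lemma cover_growth {ι : Type*} [Finite ι] {f : ℝ → ℝ} {F φ : ι → ℝ → ℝ} {a b c : ℝ}
    (hab : a ≤ b) (hf : ContinuousOn f (Icc a b))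
    (hF : ∀ i, ContinuousOn (F i) (Icc a b)) (hφ : ∀ i, ContinuousOn (φ i) (Icc a b))
    (hcov : ∀ z ∈ Icc a b, ∃ i, f z = F i z ∧ φ i z ≤ 0)
    (hD : ∀ i, ∀ z ∈ Icc a b, φ i z ≤ 0 → ∃ D, HasDerivAt (F i) D z ∧ D ≤ c) :
    f b ≤ f a + c * (b - a) := by
  have key : ∀ x ∈ Icc a b, f x ≤ f a + c * (x - a) := by
    apply image_le_of_liminf_slope_right_le_deriv_boundary hf (B := fun x => f a + c * (x - a))
      (B' := fun _ => c)
    · simp
    · fun_prop
    · intro x _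
      have : HasDerivAt (fun x => f a + c * (x - a)) c x := by
        have := (((hasDerivAt_id x).sub_const a).const_mul c).const_add (f a)
        simpa using this
      exact this.hasDerivWithinAt
    · intro x hx r hr
      have hev : ∀ᶠ z in 𝓝[>] x, z ∈ Icc a b := by
        filter_upwards [Ioo_mem_nhdsGT hx.2] with z hz
        exact ⟨hx.1.trans hz.1.le, hz.2.le⟩
      have hex : ∃ i, ∃ᶠ z in 𝓝[>] x, z ∈ Icc a b ∧ f z = F i z ∧ φ i z ≤ 0 := by
        by_contra hcon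
        have h2 : ∀ᶠ z in 𝓝[>] x, ∀ i, ¬ (z ∈ Icc a b ∧ f z = F i z ∧ φ i z ≤ 0) :=
          eventually_all.mpr (fun i => not_frequently.mp (not_exists.mp hcon i))
        obtain ⟨z, hz, hz2⟩ := (hev.and h2).exists
        obtain ⟨i, hi⟩ := hcov z hz
        exact hz2 i ⟨hz, hi⟩
      obtain ⟨i, hi⟩ := hex
      have hcl : IsClosed {z | z ∈ Icc a b ∧ f z = F i z ∧ φ i z ≤ 0} := by
        have h1 : ContinuousOn (fun z => (f z - F i z, φ i z)) (Icc a b) :=
          (hf.sub (hF i)).prodMk (hφ i)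
        have h2 := h1.preimage_isClosed_of_isClosed isClosed_Icc
          ((isClosed_singleton (x := (0 : ℝ))).prod (isClosed_Iic (a := (0 : ℝ))))
        convert h2 using 1
        ext z
        simp [sub_eq_zero]
      have hmem : x ∈ {z | z ∈ Icc a b ∧ f z = F i z ∧ φ i z ≤ 0} :=
        hcl.mem_of_frequently_of_tendsto hi (tendsto_id.mono_left nhdsWithin_le_nhds)
      obtain ⟨hx0, hx1, hx2⟩ := hmem
      obtain ⟨D, hD1, hD2⟩ := hD i x hx0 hx2
      have hs := (hasDerivAt_iff_tendsto_slope.mp hD1)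
      have hs2 : Tendsto (slope (F i) x) (𝓝[>] x) (𝓝 D) :=
        hs.mono_left (nhdsWithin_mono x (fun y hy => ne_of_gt hy))
      have hev3 : ∀ᶠ y in 𝓝[>] x, slope (F i) x y < r :=
        hs2.eventually (gt_mem_nhds (lt_of_le_of_lt hD2 hr))
      refine (hi.and_eventually hev3).mono ?_
      rintro y ⟨⟨_, hy1, _⟩, hy2⟩
      rw [slope_def_field] at hy2 ⊢
      rw [hx1, hy1]
      exact hy2
  exact key b ⟨hab, le_rfl⟩

/-- the domain of a potential: half arcs `x`, `y` and the normalised difference of distances -/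
structure InD (x y p : ℝ) : Prop where
  x0 : 0 < x
  y0 : 0 < y
  xy : x + y ≤ π
  hp : |p + x - y| ≤ sin (x + y)

/-- the value of an affine piece -/
def Pot.kv (P : Pot) (x y p : ℝ) : ℝ :=
  (P.a + P.b - P.l - 1) * x + (P.a - P.b + P.l - 1) * y - P.l * p + P.k

lemma Pot.val_eq_kv (P : Pot) (x y h : ℝ) :
    P.val (x + y) (x - y) h = x + y + P.kv x y (h - x + y) := by
  unfold Pot.val Pot.kv; ring

/-- A continuous potential which consists of affine pieces and proves the bound `t`. -/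
structure GoodK {ι : Type} (t : ℝ) (K : ℝ → ℝ → ℝ → ℝ) (P : ι → Pot) : Prop where
  l_le : ∀ i, |(P i).l| ≤ 1
  hA : ∀ i, 1 - (P i).l ≤ (P i).a - (P i).b
  hB : ∀ i, 1 + (P i).l ≤ (P i).a + (P i).b
  t_pos : 0 < t
  τ_nonneg : ∀ i, 0 ≤ (P i).τ
  τ_le : ∀ i, (P i).τ ^ 2 + (P i).b ^ 2 ≤ t ^ 2
  cont : ContinuousOn (fun z : ℝ × ℝ × ℝ => K z.1 z.2.1 z.2.2) {z | InD z.1 z.2.1 z.2.2}
  main : ∀ x y p, InD x y p → ∃ i, K x y p = (P i).kv x y p ∧
    (P i).R (x + y) (x - y) ≤ (P i).τ * (cos (x - y) - cos (x + y))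
  final : ∀ x y p, InD x y p → -|p| ≤ K x y p

lemma InD.convex {x y p x' y' p' : ℝ} (h : InD x y p) (h' : InD x' y' p') {s : ℝ} (hs0 : 0 ≤ s)
    (hs1 : s ≤ 1) : InD (x' + s * (x - x')) (y' + s * (y - y')) (p' + s * (p - p')) := by
  have e1 : x' + s * (x - x') = (1 - s) * x' + s * x := by ring
  have e2 : y' + s * (y - y') = (1 - s) * y' + s * y := by ring
  have hx := h.x0
  have hx' := h'.x0
  have hy := h.y0
  have hy' := h'.y0
  have hxy := h.xy
  have hxy' := h'.xy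
  have p1 : 0 < (1 - s) * x' + s * x := by
    rcases hs0.eq_or_lt with h0 | h0
    · rw [← h0]; linarith
    · have := mul_pos h0 hx; have := mul_nonneg (by linarith : 0 ≤ 1 - s) hx'.le; linarith
  have p2 : 0 < (1 - s) * y' + s * y := by
    rcases hs0.eq_or_lt with h0 | h0
    · rw [← h0]; linarith
    · have := mul_pos h0 hy; have := mul_nonneg (by linarith : 0 ≤ 1 - s) hy'.le; linarith
  refine ⟨by rw [e1]; exact p1, by rw [e2]; exact p2, ?_, ?_⟩
  · have q1 := mul_le_mul_of_nonneg_left hxy hs0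
    have q2 := mul_le_mul_of_nonneg_left hxy' (by linarith : 0 ≤ 1 - s)
    nlinarith
  · have hc := strictConcaveOn_sin_Icc.concaveOn.2 (x := x' + y') ⟨by linarith, hxy'⟩
      (y := x + y) ⟨by linarith, hxy⟩ (by linarith : 0 ≤ 1 - s) hs0 (by ring)
    simp only [smul_eq_mul] at hc
    have e3 : x' + s * (x - x') + (y' + s * (y - y')) = (1 - s) * (x' + y') + s * (x + y) := by ring
    rw [e3]
    have e4 : p' + s * (p - p') + (x' + s * (x - x')) - (y' + s * (y - y'))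
      = (1 - s) * (p' + x' - y') + s * (p + x - y) := by ring
    rw [e4]
    refine le_trans ?_ hc
    calc _ ≤ |(1 - s) * (p' + x' - y')| + |s * (p + x - y)| := abs_add_le _ _
      _ = (1 - s) * |p' + x' - y'| + s * |p + x - y| := by
        rw [abs_mul, abs_mul, abs_of_nonneg hs0, abs_of_nonneg (by linarith : 0 ≤ 1 - s)]
      _ ≤ _ := add_le_add (mul_le_mul_of_nonneg_left h'.hp (by linarith))
          (mul_le_mul_of_nonneg_left h.hp hs0)

section

variable {ι : Type} [Finite ι] {t : ℝ} {K : ℝ → ℝ → ℝ → ℝ} {P : ι → Pot}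

lemma GoodK.mono (hK : GoodK t K P) {x y p x' y' p' : ℝ} (h : InD x y p) (h' : InD x' y' p')
    (hx : x' ≤ x) (hy : y' ≤ y) : K x' y' p' ≤ K x y p + |p - p'| := by
  have key := cover_growth (ι := ι)
    (f := fun s => - K (x' + s * (x - x')) (y' + s * (y - y')) (p' + s * (p - p')))
    (F := fun i s => - (P i).kv (x' + s * (x - x')) (y' + s * (y - y')) (p' + s * (p - p')))
    (φ := fun _ _ => 0) (a := 0) (b := 1) (c := |p - p'|) zero_le_one ?_ ?_ ?_ ?_ ?_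
  · simp only [zero_mul, add_zero, one_mul, add_sub_cancel, sub_zero, mul_one] at key
    linarith
  · have hc : ContinuousOn (fun s : ℝ => (x' + s * (x - x'), y' + s * (y - y'), p' + s * (p - p')))
        (Icc 0 1) := by fun_prop
    have hm : MapsTo (fun s : ℝ => (x' + s * (x - x'), y' + s * (y - y'), p' + s * (p - p')))
        (Icc 0 1) {z | InD z.1 z.2.1 z.2.2} := fun s hs => h.convex h' hs.1 hs.2
    exact (hK.cont.comp hc hm).neg
  · intro i
    unfold Pot.kv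
    fun_prop
  · intro i; fun_prop
  · intro s hs
    obtain ⟨i, hi, _⟩ := hK.main _ _ _ (h.convex h' hs.1 hs.2)
    exact ⟨i, by simp only [hi], le_rfl⟩
  · intro i s _ _
    refine ⟨-(((P i).a + (P i).b - (P i).l - 1) * (x - x') + ((P i).a - (P i).b + (P i).l - 1) * (y - y')
      - (P i).l * (p - p')), ?_, ?_⟩
    · have e : (fun s => - (P i).kv (x' + s * (x - x')) (y' + s * (y - y')) (p' + s * (p - p')))
          = fun s => -(((P i).a + (P i).b - (P i).l - 1) * (x - x')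
            + ((P i).a - (P i).b + (P i).l - 1) * (y - y') - (P i).l * (p - p')) * s
            + - (P i).kv x' y' p' := by
        funext s; unfold Pot.kv; ring
      rw [e]
      have := ((hasDerivAt_id s).const_mul (-(((P i).a + (P i).b - (P i).l - 1) * (x - x')
            + ((P i).a - (P i).b + (P i).l - 1) * (y - y') - (P i).l * (p - p')))).add_const
            (- (P i).kv x' y' p')
      simpa using this
    · have h1 : 0 ≤ ((P i).a + (P i).b - (P i).l - 1) * (x - x') :=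
        mul_nonneg (by linarith [hK.hB i]) (by linarith)
      have h2 : 0 ≤ ((P i).a - (P i).b + (P i).l - 1) * (y - y') :=
        mul_nonneg (by linarith [hK.hA i]) (by linarith)
      have h3 : (P i).l * (p - p') ≤ |p - p'| := by
        calc _ ≤ |(P i).l * (p - p')| := le_abs_self _
          _ = |(P i).l| * |p - p'| := abs_mul _ _
          _ ≤ 1 * |p - p'| := mul_le_mul_of_nonneg_right (hK.l_le i) (abs_nonneg _)
          _ = _ := one_mul _
      linarith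

variable {a1 a2 b1 b2 : ℝ}

/-- the potential of a state -/
noncomputable def KW (K : ℝ → ℝ → ℝ → ℝ) (a1 a2 b1 b2 Da Db z : ℝ) : ℝ :=
  (Da + Db) / 2 + radius a1 a2 b1 b2 z * (hx a1 a2 b1 b2 z + hy a1 a2 b1 b2 z +
    K (hx a1 a2 b1 b2 z) (hy a1 a2 b1 b2 z)
      ((Da - Db) / (2 * radius a1 a2 b1 b2 z) - hx a1 a2 b1 b2 z + hy a1 a2 b1 b2 z))

lemma inD_state (ha : 0 < a2) (hb : b2 < 0) {Da Db : ℝ} (hD : |Da - Db| ≤ len a1 a2 b1 b2) {z : ℝ}
    (h : RightOf a1 a2 b1 b2 z) : InD (hx a1 a2 b1 b2 z) (hy a1 a2 b1 b2 z)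
      ((Da - Db) / (2 * radius a1 a2 b1 b2 z) - hx a1 a2 b1 b2 z + hy a1 a2 b1 b2 z) := by
  have hr := radius_pos ha hb h
  have hlen := len_eq ha hb h
  refine ⟨hx_pos ha hb h, hy_pos ha hb h, (hxy_lt z).le, ?_⟩
  have e : (Da - Db) / (2 * radius a1 a2 b1 b2 z) - hx a1 a2 b1 b2 z + hy a1 a2 b1 b2 z
      + hx a1 a2 b1 b2 z - hy a1 a2 b1 b2 z = (Da - Db) / (2 * radius a1 a2 b1 b2 z) := by ring
  rw [e, abs_div, abs_of_pos (by positivity : 0 < 2 * radius a1 a2 b1 b2 z),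
    div_le_iff₀ (by positivity)]
  linarith

lemma Pot.F_eq_kv (p : Pot) (Da Db z : ℝ) (hr : radius a1 a2 b1 b2 z ≠ 0) :
    p.F a1 a2 b1 b2 Da Db z = (Da + Db) / 2 + radius a1 a2 b1 b2 z *
      (hx a1 a2 b1 b2 z + hy a1 a2 b1 b2 z + p.kv (hx a1 a2 b1 b2 z) (hy a1 a2 b1 b2 z)
        ((Da - Db) / (2 * radius a1 a2 b1 b2 z) - hx a1 a2 b1 b2 z + hy a1 a2 b1 b2 z)) := by
  rw [Pot.F_eq _ _ _ _ hr, Pot.val_eq_kv]

/-- the derivative of an affine potential where the rate inequality holds -/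
lemma Pot.deriv_le {p : Pot} {t : ℝ} (ht : 0 < t) (hτ : p.τ ^ 2 + p.b ^ 2 ≤ t ^ 2)
    (ha : 0 < a2) (hb : b2 < 0) (Da Db : ℝ) {z : ℝ} (h : RightOf a1 a2 b1 b2 z)
    (hi2 : p.R (hx a1 a2 b1 b2 z + hy a1 a2 b1 b2 z) (hx a1 a2 b1 b2 z - hy a1 a2 b1 b2 z) ≤
      p.τ * (cos (hx a1 a2 b1 b2 z - hy a1 a2 b1 b2 z)
        - cos (hx a1 a2 b1 b2 z + hy a1 a2 b1 b2 z))) :
    ∃ D, HasDerivAt (fun z => p.F a1 a2 b1 b2 Da Db z) D z ∧ D ≤ t := by
  have hx0 := hx_pos ha hb h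
  have hy0 := hy_pos ha hb h
  set ω := hx a1 a2 b1 b2 z + hy a1 a2 b1 b2 z with hω
  set δ := hx a1 a2 b1 b2 z - hy a1 a2 b1 b2 z with hδ
  obtain ⟨D, hD1, γ, hγ, hD2⟩ := p.F_hasDerivAt ha hb Da Db h
  refine ⟨D, hD1, ?_⟩
  have hQ : 0 < cos δ - cos ω := by
    have : cos δ - cos ω = 2 * sin (hx a1 a2 b1 b2 z) * sin (hy a1 a2 b1 b2 z) := by
      rw [hω, hδ, cos_sub, cos_add]; ring
    rw [this]
    have h1 : 0 < sin (hx a1 a2 b1 b2 z) := sin_pos_of_pos_of_lt_pi hx0 (hx_lt z)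
    have h2 : 0 < sin (hy a1 a2 b1 b2 z) := sin_pos_of_pos_of_lt_pi hy0 (hy_lt z)
    positivity
  have h1 : D * (cos δ - cos ω) ≤ (cos γ * p.τ - p.b * sin γ) * (cos δ - cos ω) := by
    rw [hD2]
    have := mul_le_mul_of_nonneg_left hi2 hγ.le
    nlinarith
  have h2 : D ≤ cos γ * p.τ - p.b * sin γ := le_of_mul_le_mul_right h1 hQ
  have h4 : (cos γ * p.τ - p.b * sin γ) ^ 2 ≤ t ^ 2 := by
    have h5 := sin_sq_add_cos_sq γ
    nlinarith [sq_nonneg (sin γ * p.τ + p.b * cos γ)]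
  have h5 : cos γ * p.τ - p.b * sin γ ≤ t := abs_le_of_sq_le_sq' h4 ht.le |>.2
  linarith

lemma continuousAt_hx (z : ℝ) : ContinuousAt (fun z => hx a1 a2 b1 b2 z) z := by
  unfold hx; exact ((hasDerivAt_ang a1 a2 z).sub_const _).continuousAt

lemma continuousAt_hy (z : ℝ) : ContinuousAt (fun z => hy a1 a2 b1 b2 z) z := by
  unfold hy; exact ((hasDerivAt_ang b1 (-b2) z).add_const _).continuousAt

lemma continuousAt_radius (ha : 0 < a2) (hb : b2 < 0) {z : ℝ} (h : RightOf a1 a2 b1 b2 z) :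
    ContinuousAt (fun z => radius a1 a2 b1 b2 z) z := by
  unfold radius
  have hx0 := hx_pos ha hb h
  have hy0 := hy_pos ha hb h
  have hxy1 := hxy_lt (a1 := a1) (a2 := a2) (b1 := b1) (b2 := b2) z
  have hsw : 0 < sin (hx a1 a2 b1 b2 z + hy a1 a2 b1 b2 z) :=
    sin_pos_of_pos_of_lt_pi (by linarith) hxy1
  apply ContinuousAt.div continuousAt_const _ (by positivity)
  exact continuousAt_const.mul
    (continuous_sin.continuousAt.comp ((continuousAt_hx z).add (continuousAt_hy z)))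

theorem GoodK.sweep (hK : GoodK t K P) (ha : 0 < a2) (hb : b2 < 0)
    {Da Db : ℝ} (hD : |Da - Db| ≤ len a1 a2 b1 b2) {z0 z1 : ℝ} (h0 : RightOf a1 a2 b1 b2 z0)
    (h01 : z0 ≤ z1) : KW K a1 a2 b1 b2 Da Db z1 ≤ KW K a1 a2 b1 b2 Da Db z0 + t * (z1 - z0) := by
  have hR : ∀ z ∈ Icc z0 z1, RightOf a1 a2 b1 b2 z := fun z hz =>
    rightOf_mono (by linarith) h0 hz.1
  apply cover_growth (ι := ι) (f := fun z => KW K a1 a2 b1 b2 Da Db z)
    (F := fun i z => (P i).F a1 a2 b1 b2 Da Db z)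
    (φ := fun i z => (P i).R (hx a1 a2 b1 b2 z + hy a1 a2 b1 b2 z)
        (hx a1 a2 b1 b2 z - hy a1 a2 b1 b2 z) -
      (P i).τ * (cos (hx a1 a2 b1 b2 z - hy a1 a2 b1 b2 z)
        - cos (hx a1 a2 b1 b2 z + hy a1 a2 b1 b2 z))) h01
  · -- continuity
    have hcx : ContinuousOn (fun z => hx a1 a2 b1 b2 z) (Icc z0 z1) := fun z _ =>
      (continuousAt_hx z).continuousWithinAt
    have hcy : ContinuousOn (fun z => hy a1 a2 b1 b2 z) (Icc z0 z1) := fun z _ =>
      (continuousAt_hy z).continuousWithinAt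
    have hcr : ContinuousOn (fun z => radius a1 a2 b1 b2 z) (Icc z0 z1) := fun z hz =>
      (continuousAt_radius ha hb (hR z hz)).continuousWithinAt
    have hcp : ContinuousOn (fun z => (Da - Db) / (2 * radius a1 a2 b1 b2 z)
        - hx a1 a2 b1 b2 z + hy a1 a2 b1 b2 z) (Icc z0 z1) := by
      apply ContinuousOn.add _ hcy
      apply ContinuousOn.sub _ hcx
      apply continuousOn_const.div (continuousOn_const.mul hcr)
      intro z hz
      have hrp := radius_pos ha hb (hR z hz)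
      exact (mul_pos two_pos hrp).ne'
    have hcz := hcx.prodMk (hcy.prodMk hcp)
    have hm : MapsTo (fun z => (hx a1 a2 b1 b2 z, hy a1 a2 b1 b2 z,
        (Da - Db) / (2 * radius a1 a2 b1 b2 z) - hx a1 a2 b1 b2 z + hy a1 a2 b1 b2 z))
        (Icc z0 z1) {z | InD z.1 z.2.1 z.2.2} := fun z hz => inD_state ha hb hD (hR z hz)
    have hcK := hK.cont.comp hcz hm
    exact continuousOn_const.add (hcr.mul ((hcx.add hcy).add hcK))
  · intro i z hz
    obtain ⟨D, hD1, _⟩ := (P i).F_hasDerivAt ha hb Da Db (hR z hz)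
    exact hD1.continuousAt.continuousWithinAt
  · intro i
    have hcx : ContinuousOn (fun z => hx a1 a2 b1 b2 z) (Icc z0 z1) := fun z _ =>
      (continuousAt_hx z).continuousWithinAt
    have hcy : ContinuousOn (fun z => hy a1 a2 b1 b2 z) (Icc z0 z1) := fun z _ =>
      (continuousAt_hy z).continuousWithinAt
    unfold Pot.R
    have hs := continuous_sin.continuousOn (s := univ)
    have hcs : ∀ {g : ℝ → ℝ}, ContinuousOn g (Icc z0 z1) → ContinuousOn (fun z => sin (g z)) (Icc z0 z1) :=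
      fun hg => continuous_sin.comp_continuousOn hg
    have hcc : ∀ {g : ℝ → ℝ}, ContinuousOn g (Icc z0 z1) → ContinuousOn (fun z => cos (g z)) (Icc z0 z1) :=
      fun hg => continuous_cos.comp_continuousOn hg
    have hω := hcx.add hcy
    have hδ := hcx.sub hcy
    exact (((continuousOn_const.mul (hcs hω)).add (continuousOn_const.mul (hcs hδ))).sub
      ((((continuousOn_const.mul hω).add (continuousOn_const.mul hδ)).add continuousOn_const).mul
        (hcc hω))).sub (continuousOn_const.mul ((hcc hδ).sub (hcc hω)))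
  · intro z hz
    obtain ⟨i, hi1, hi2⟩ := hK.main _ _ _ (inD_state ha hb hD (hR z hz))
    refine ⟨i, ?_, sub_nonpos.mpr hi2⟩
    rw [Pot.F_eq_kv _ _ _ _ (radius_pos ha hb (hR z hz)).ne', ← hi1]
    rfl
  · intro i z hz hle
    exact Pot.deriv_le hK.t_pos (hK.τ_le i) ha hb Da Db (hR z hz) (sub_nonpos.mp hle)

end

section

variable {ι : Type} [Finite ι] {t : ℝ} {K : ℝ → ℝ → ℝ → ℝ} {P : ι → Pot}
variable {c1 c2 ρ γ z a1 a2 b1 b2 q1 q2 Da Db Dq : ℝ}

/-- the potential on a circle -/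
lemma KW_circ (K : ℝ → ℝ → ℝ → ℝ) (h : Circ c1 c2 ρ γ z) (ha : 0 < a2) (hb : b2 < 0)
    (hca : On c1 c2 ρ a1 a2) (hcb : On c1 c2 ρ b1 b2) :
    KW K a1 a2 b1 b2 Da Db z = (Da + Db) / 2 + ρ * (ang b1 (-b2) z + γ + (ang a1 a2 z - γ) +
      K (ang b1 (-b2) z + γ) (ang a1 a2 z - γ)
        ((Da - Db) / (2 * ρ) - (ang b1 (-b2) z + γ) + (ang a1 a2 z - γ))) := by
  obtain ⟨_, h2, _⟩ := chord_data h.hρ h.hγ1 h.hγ2 h.hz h.hc ha hb hca hcb
  obtain ⟨h3, h4⟩ := hxy_data h.hρ h.hγ1 h.hγ2 h.hz h.hc ha hb hca hcb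
  unfold KW
  rw [h2, h3, h4]

lemma inD_circ (h : Circ c1 c2 ρ γ z) (ha : 0 < a2) (hb : b2 < 0)
    (hca : On c1 c2 ρ a1 a2) (hcb : On c1 c2 ρ b1 b2) (hD : |Da - Db| ≤ len a1 a2 b1 b2) :
    InD (ang b1 (-b2) z + γ) (ang a1 a2 z - γ)
        ((Da - Db) / (2 * ρ) - (ang b1 (-b2) z + γ) + (ang a1 a2 z - γ)) := by
  obtain ⟨_, h2, hR⟩ := chord_data h.hρ h.hγ1 h.hγ2 h.hz h.hc ha hb hca hcb
  obtain ⟨h3, h4⟩ := hxy_data h.hρ h.hγ1 h.hγ2 h.hz h.hc ha hb hca hcb
  have := inD_state ha hb hD hR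
  rwa [h2, h3, h4] at this

lemma GoodK.move_upper (hK : GoodK t K P) (h : Circ c1 c2 ρ γ z) (ha : 0 < a2) (hb : b2 < 0)
    (hq : 0 < q2) (hca : On c1 c2 ρ a1 a2) (hcb : On c1 c2 ρ b1 b2) (hcq : On c1 c2 ρ q1 q2)
    (ho : 0 < ori a1 a2 b1 b2 q1 q2) (hD1 : |Da - Db| ≤ len a1 a2 b1 b2)
    (hD2 : |Dq - Db| ≤ len q1 q2 b1 b2) (hD : Dq ≤ Da + ed a1 a2 q1 q2) :
    KW K q1 q2 b1 b2 Dq Db z ≤ KW K a1 a2 b1 b2 Da Db z := by
  rw [KW_circ K h ha hb hca hcb, KW_circ K h hq hb hcq hcb]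
  have h1 := ang_le_upper h ha hb hq hca hcb hcq ho
  have h2 := upper_chord' h ha hq hca hcq h1.le
  have i1 := inD_circ h ha hb hca hcb hD1
  have i2 := inD_circ h hq hb hcq hcb hD2
  have hρ := h.hρ
  have hm := hK.mono i1 i2 le_rfl (by linarith : ang q1 q2 z - γ ≤ ang a1 a2 z - γ)
  set X := ang b1 (-b2) z + γ
  set Y := ang a1 a2 z - γ
  set Y' := ang q1 q2 z - γ
  set u := (Da - Db) / (2 * ρ) with hu
  set u' := (Dq - Db) / (2 * ρ) with hu'
  have e1 : Da = Db + 2 * ρ * u := by rw [hu]; field_simp; ring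
  have e2 : Dq = Db + 2 * ρ * u' := by rw [hu']; field_simp; ring
  have e3 : Y - Y' = ang a1 a2 z - ang q1 q2 z := by simp only [Y, Y']; ring
  have h3 : u' ≤ u + (Y - Y') := by
    rw [e3]
    have : 2 * ρ * u' ≤ 2 * ρ * (u + (ang a1 a2 z - ang q1 q2 z)) := by linarith
    exact le_of_mul_le_mul_left this (by positivity)
  have h4 : |u - X + Y - (u' - X + Y')| = u - X + Y - (u' - X + Y') := abs_of_nonneg (by linarith)
  rw [h4] at hm
  have h5 := mul_le_mul_of_nonneg_left hm hρ.le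
  rw [e1, e2]
  nlinarith

lemma GoodK.move_lower (hK : GoodK t K P) (h : Circ c1 c2 ρ γ z) (ha : 0 < a2) (hb : b2 < 0)
    (hq : q2 < 0) (hca : On c1 c2 ρ a1 a2) (hcb : On c1 c2 ρ b1 b2) (hcq : On c1 c2 ρ q1 q2)
    (ho : 0 < ori a1 a2 b1 b2 q1 q2) (hD1 : |Da - Db| ≤ len a1 a2 b1 b2)
    (hD2 : |Da - Dq| ≤ len a1 a2 q1 q2) (hD : Dq ≤ Db + ed b1 b2 q1 q2) :
    KW K a1 a2 q1 q2 Da Dq z ≤ KW K a1 a2 b1 b2 Da Db z := by
  rw [KW_circ K h ha hb hca hcb, KW_circ K h ha hq hca hcq]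
  have h1 := ang_le_lower h ha hb hq hca hcb hcq ho
  have h2 := lower_chord' h hb hq hcb hcq h1.le
  have i1 := inD_circ h ha hb hca hcb hD1
  have i2 := inD_circ h ha hq hca hcq hD2
  have hρ := h.hρ
  have hm := hK.mono i1 i2 (by linarith : ang q1 (-q2) z + γ ≤ ang b1 (-b2) z + γ) le_rfl
  set X := ang b1 (-b2) z + γ
  set Y := ang a1 a2 z - γ
  set X' := ang q1 (-q2) z + γ
  set u := (Da - Db) / (2 * ρ) with hu
  set u' := (Da - Dq) / (2 * ρ) with hu'
  have e1 : Db = Da - 2 * ρ * u := by rw [hu]; field_simp; ring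
  have e2 : Dq = Da - 2 * ρ * u' := by rw [hu']; field_simp; ring
  have e3 : X - X' = ang b1 (-b2) z - ang q1 (-q2) z := by simp only [X, X']; ring
  have h3 : u - (X - X') ≤ u' := by
    rw [e3]
    have : 2 * ρ * (u - (ang b1 (-b2) z - ang q1 (-q2) z)) ≤ 2 * ρ * u' := by linarith
    exact le_of_mul_le_mul_left this (by positivity)
  have h4 : |u - X + Y - (u' - X' + Y)| = -(u - X + Y - (u' - X' + Y)) :=
    abs_of_nonpos (by linarith)
  rw [h4] at hm
  have h5 := mul_le_mul_of_nonneg_left hm hρ.le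
  rw [e1, e2]
  nlinarith

lemma GoodK.start_pot (hK : GoodK t K P) (h : Circ c1 c2 ρ γ z) (ha : 0 < a2) (hb : b2 < 0)
    (hca : On c1 c2 ρ a1 a2) (hcb : On c1 c2 ρ b1 b2) {u1 : ℝ} (hu : u1 = c1 - ρ * cos γ) :
    KW K a1 a2 b1 b2 (ed u1 0 a1 a2) (ed u1 0 b1 b2) z ≤ t * (z - u1) := by
  rw [KW_circ K h ha hb hca hcb]
  have h1 : ed u1 0 a1 a2 ≤ ρ * (π - 2 * ang a1 a2 z) := by
    rw [hu]; exact upper_left h.hρ h.hγ1 h.hγ2 h.hz h.hc ha hca
  have h2 : ed u1 0 b1 b2 ≤ ρ * (π - 2 * ang b1 (-b2) z) := by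
    have := upper_left h.mirror.hρ h.mirror.hγ1 h.mirror.hγ2 h.mirror.hz h.mirror.hc
      (by linarith : 0 < -b2) hcb.mirror
    rw [cos_neg, ← hu] at this
    have e : ed u1 0 b1 (-b2) = ed u1 0 b1 b2 := by unfold ed; congr 1; ring
    rwa [e] at this
  have hD : |ed u1 0 a1 a2 - ed u1 0 b1 b2| ≤ len a1 a2 b1 b2 := by
    have t1 := ed_triangle u1 0 b1 b2 a1 a2
    have t2 := ed_triangle u1 0 a1 a2 b1 b2
    have e1 : ed b1 b2 a1 a2 = len a1 a2 b1 b2 := by rw [ed_comm]; rfl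
    have e2 : ed a1 a2 b1 b2 = len a1 a2 b1 b2 := rfl
    rw [e1] at t1
    rw [e2] at t2
    rw [abs_le]; constructor <;> linarith
  have i1 := inD_circ h ha hb hca hcb hD
  have hγ1 := h.hγ1
  have hγ2 := h.hγ2
  have hcos : 0 < cos γ := cos_pos_of_mem_Ioo ⟨hγ1, hγ2⟩
  have i0 : InD (π / 2 + γ) (π / 2 - γ) (-(2 * γ)) := by
    refine ⟨by linarith, by linarith, by linarith, ?_⟩
    have e1 : -(2 * γ) + (π / 2 + γ) - (π / 2 - γ) = 0 := by ring
    have e2 : π / 2 + γ + (π / 2 - γ) = π := by ring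
    rw [e1, e2]; simp
  obtain ⟨i, hi1, hi2⟩ := hK.main _ _ _ i0
  have hlt := ang_lt a1 a2 z
  have hlt' := ang_lt b1 (-b2) z
  have hm := hK.mono i0 i1 (by linarith : ang b1 (-b2) z + γ ≤ π / 2 + γ)
    (by linarith : ang a1 a2 z - γ ≤ π / 2 - γ)
  have hρ := h.hρ
  -- the value at the virtual start
  have hstart : π + K (π / 2 + γ) (π / 2 - γ) (-(2 * γ)) ≤ 2 * t * cos γ := by
    rw [hi1]
    have e1 : π / 2 + γ + (π / 2 - γ) = π := by ring
    have e2 : π / 2 + γ - (π / 2 - γ) = 2 * γ := by ring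
    rw [e1, e2, cos_pi] at hi2
    unfold Pot.R at hi2
    rw [sin_pi, cos_pi, sin_two_mul, cos_two_mul] at hi2
    have e3 : π + (P i).kv (π / 2 + γ) (π / 2 - γ) (-(2 * γ))
        = (P i).a * π + (P i).b * (2 * γ) + (P i).k := by unfold Pot.kv; ring
    rw [e3]
    have h4 : ((P i).τ * cos γ - (P i).b * sin γ) ^ 2 ≤ t ^ 2 := by
      have h5 := sin_sq_add_cos_sq γ
      have h6 := hK.τ_le i
      nlinarith [sq_nonneg (sin γ * (P i).τ + (P i).b * cos γ)]
    have h5 : (P i).τ * cos γ - (P i).b * sin γ ≤ t := abs_le_of_sq_le_sq' h4 hK.t_pos.le |>.2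
    have h6 := mul_le_mul_of_nonneg_left h5 hcos.le
    nlinarith
  set X := ang b1 (-b2) z + γ with hX
  set Y := ang a1 a2 z - γ with hY
  set A := ed u1 0 a1 a2 / (2 * ρ) with hA
  set B := ed u1 0 b1 b2 / (2 * ρ) with hB
  have e1 : ed u1 0 a1 a2 = 2 * ρ * A := by rw [hA]; field_simp
  have e2 : ed u1 0 b1 b2 = 2 * ρ * B := by rw [hB]; field_simp
  have e3 : (ed u1 0 a1 a2 - ed u1 0 b1 b2) / (2 * ρ) = A - B := by rw [hA, hB]; ring
  rw [e3] at hm ⊢
  have hA1 : A ≤ π / 2 - γ - Y := by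
    have : 2 * ρ * A ≤ 2 * ρ * (π / 2 - γ - Y) := by rw [← e1, hY]; linarith
    exact le_of_mul_le_mul_left this (by positivity)
  have hB1 : B ≤ π / 2 + γ - X := by
    have : 2 * ρ * B ≤ 2 * ρ * (π / 2 + γ - X) := by rw [← e2, hX]; linarith
    exact le_of_mul_le_mul_left this (by positivity)
  have habs : |-(2 * γ) - (A - B - X + Y)| ≤ (π / 2 - γ - Y - A) + (π / 2 + γ - X - B) := by
    rw [abs_le]; constructor <;> linarith
  have h9 : z - u1 = 2 * ρ * cos γ := by rw [hu, h.hz]; ring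
  rw [h9, e1, e2]
  have h10 : A + B + (X + Y + K X Y (A - B - X + Y)) ≤ 2 * t * cos γ := by linarith
  have h11 := mul_le_mul_of_nonneg_left h10 hρ.le
  nlinarith

omit [Finite ι] in
lemma GoodK.final_pot (hK : GoodK t K P) (h : Circ c1 c2 ρ γ z) (ha : 0 < a2) (hb : b2 < 0)
    (hca : On c1 c2 ρ a1 a2) (hcb : On c1 c2 ρ b1 b2) (hD : |Da - Db| ≤ len a1 a2 b1 b2) :
    min (Da + ed a1 a2 z 0) (Db + ed b1 b2 z 0) ≤ KW K a1 a2 b1 b2 Da Db z := by
  rw [KW_circ K h ha hb hca hcb]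
  have h1 : ed a1 a2 z 0 ≤ 2 * ρ * (ang a1 a2 z - γ) :=
    upper_right h.hρ h.hγ1 h.hγ2 h.hz h.hc ha hca
  have h2 : ed b1 b2 z 0 ≤ 2 * ρ * (ang b1 (-b2) z + γ) := by
    have := upper_right h.mirror.hρ h.mirror.hγ1 h.mirror.hγ2 h.mirror.hz h.mirror.hc
      (by linarith : 0 < -b2) hcb.mirror
    have e : ed b1 (-b2) z 0 = ed b1 b2 z 0 := by unfold ed; congr 1; ring
    rw [e, sub_neg_eq_add] at this
    exact this
  have i1 := inD_circ h ha hb hca hcb hD
  have hf := hK.final _ _ _ i1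
  have hρ := h.hρ
  set X := ang b1 (-b2) z + γ with hX
  set Y := ang a1 a2 z - γ with hY
  set u := (Da - Db) / (2 * ρ) with hu
  have e1 : Da = Db + 2 * ρ * u := by rw [hu]; field_simp; ring
  have h5 := mul_le_mul_of_nonneg_left hf hρ.le
  rcases le_total 0 (u - X + Y) with h6 | h6
  · rw [abs_of_nonneg h6] at h5
    refine (min_le_right _ _).trans ?_
    rw [e1]; nlinarith
  · rw [abs_of_nonpos h6] at h5
    refine (min_le_left _ _).trans ?_
    rw [e1]; nlinarith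

theorem GoodK.potSys (hK : GoodK t K P) :
    PotSys t (fun a1 a2 b1 b2 Da Db z c => KW K a1 a2 b1 b2 Da Db z ≤ c) where
  t_pos := hK.t_pos
  sweep := by
    intro a1 a2 b1 b2 Da Db z0 z1 c ha hb hD hz0 h01 h
    have := hK.sweep ha hb hD hz0 h01
    linarith
  moveU := by
    intro c1 c2 ρ γ z a1 a2 b1 b2 q1 q2 Da Db Dq c hC ha hb hq hca hcb hcq ho hD1 hD2 hD h
    exact (hK.move_upper hC ha hb hq hca hcb hcq ho hD1 hD2 hD).trans h
  moveL := by
    intro c1 c2 ρ γ z a1 a2 b1 b2 q1 q2 Da Db Dq c hC ha hb hq hca hcb hcq ho hD1 hD2 hD h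
    exact (hK.move_lower hC ha hb hq hca hcb hcq ho hD1 hD2 hD).trans h
  start := by
    intro c1 c2 ρ γ z a1 a2 b1 b2 u1 hC ha hb hca hcb hu
    exact hK.start_pot hC ha hb hca hcb hu
  final := by
    intro c1 c2 ρ γ z a1 a2 b1 b2 Da Db c hC ha hb hca hcb hD h
    exact (hK.final_pot hC ha hb hca hcb hD).trans h

end

end Pool.Agent.H962
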