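import Pool.Agent.H962.KSound
import Pool.Agent.H962.Interp
import Pool.Agent.H962.Half

/-!
# The check of one simplex
-/

set_option autoImplicit false

open Real Set

namespace Pool.Agent.H962

section cover

variable {q gi gj gk dx dy dp : ℕ} {x y p u v w : ℝ}

lemma exAll_sound (hdx : 0 < dx) (hdy : 0 < dy)
    (hu : 2048 * x = gi + dx * u) (hv : 2048 * y = gj + dy * v) (hp : 2048 * p = gk + dp * w)
    (hu0 : 0 ≤ u) (hv0 : 0 ≤ v) (hw0 : 0 ≤ w) (hw1 : w ≤ 1) (hq : Ord8 q u v w)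
    (hD : InD x y p) : ∀ (d : ℕ) (x0 x1 y0 y1 : ℕ), exAll q gi gj gk dx dy dp d x0 x1 y0 y1 = true →
    (x0 : ℝ) / 2048 ≤ x → x ≤ (x1 : ℝ) / 2048 → (y0 : ℝ) / 2048 ≤ y → y ≤ (y1 : ℝ) / 2048 →
    False := by
  intro d
  induction d with
  | zero =>
    intro x0 x1 y0 y1 h hx0 hx1 hy0 hy1
    exact excl_sound h hx0 hx1 hy0 hy1 hdx hdy hu hv hp hu0 hv0 hw0 hw1 hq hD
  | succ d ih =>
    intro x0 x1 y0 y1 h hx0 hx1 hy0 hy1
    have h' : (bif excl q gi gj gk dx dy dp x0 x1 y0 y1 then true else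
      bif Nat.ble (Nat.sub y1 y0) (Nat.sub x1 x0) then
        force (Nat.div (Nat.add x0 x1) 2) fun m =>
          bif exAll q gi gj gk dx dy dp d x0 m y0 y1 then exAll q gi gj gk dx dy dp d m x1 y0 y1
          else false
      else
        force (Nat.div (Nat.add y0 y1) 2) fun m =>
          bif exAll q gi gj gk dx dy dp d x0 x1 y0 m then exAll q gi gj gk dx dy dp d x0 x1 m y1
          else false) = true := h
    rw [force_eq, force_eq] at h'
    rcases he : excl q gi gj gk dx dy dp x0 x1 y0 y1 with _ | _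
    · rw [he] at h'
      simp only [cond_false] at h'
      rcases hb : Nat.ble (Nat.sub y1 y0) (Nat.sub x1 x0) with _ | _
      · rw [hb] at h'
        simp only [cond_false] at h'
        rcases h1 : exAll q gi gj gk dx dy dp d x0 x1 y0 (Nat.div (Nat.add y0 y1) 2) with _ | _
        · rw [h1] at h'; simp at h'
        · rw [h1] at h'
          simp only [cond_true] at h'
          rcases le_total y (((Nat.div (Nat.add y0 y1) 2 : ℕ) : ℝ) / 2048) with h2 | h2
          · exact ih _ _ _ _ h1 hx0 hx1 hy0 h2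
          · exact ih _ _ _ _ h' hx0 hx1 h2 hy1
      · rw [hb] at h'
        simp only [cond_true] at h'
        rcases h1 : exAll q gi gj gk dx dy dp d x0 (Nat.div (Nat.add x0 x1) 2) y0 y1 with _ | _
        · rw [h1] at h'; simp at h'
        · rw [h1] at h'
          simp only [cond_true] at h'
          rcases le_total x (((Nat.div (Nat.add x0 x1) 2 : ℕ) : ℝ) / 2048) with h2 | h2
          · exact ih _ _ _ _ h1 hx0 h2 hy0 hy1
          · exact ih _ _ _ _ h' h2 hx1 hy0 hy1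
    · exact excl_sound he hx0 hx1 hy0 hy1 hdx hdy hu hv hp hu0 hv0 hw0 hw1 hq hD

lemma cast_le_of_div_le {a b : ℕ} {x : ℝ} (h0 : (a : ℝ) / 2048 ≤ x) (h1 : x ≤ (b : ℝ) / 2048) :
    a ≤ b := by
  have : (a : ℝ) ≤ b := by linarith
  exact_mod_cast this

lemma cover_sound {A B T kp kn err : ℕ}
    (herr : Es * (2 * Zs + Es) * 2048 * (2 * T + 5 * A + 5 * B + kp + kn) ≤ err)
    (hdx : 0 < dx) (hdy : 0 < dy)
    (hu : 2048 * x = gi + dx * u) (hv : 2048 * y = gj + dy * v) (hp : 2048 * p = gk + dp * w)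
    (hu0 : 0 ≤ u) (hv0 : 0 ≤ v) (hw0 : 0 ≤ w) (hw1 : w ≤ 1) (hq : Ord8 q u v w)
    (hD : InD x y p) : ∀ (d : ℕ) (x0 x1 y0 y1 : ℕ),
    cover A B (2048 * A) (2048 * B) (2 * 2048 * T) (kp * 2048) (kn * 2048) err
      q gi gj gk dx dy dp d x0 x1 y0 y1 = true →
    (x0 : ℝ) / 2048 ≤ x → x ≤ (x1 : ℝ) / 2048 → (y0 : ℝ) / 2048 ≤ y → y ≤ (y1 : ℝ) / 2048 →
    0 < fF (T : ℝ) (A : ℝ) (B : ℝ) ((kp : ℝ) - kn) x y := by
  have hbig : ∀ {x0 x1 y0 y1 : ℕ}, Nat.ble NXs (Nat.add x0 y0) = true →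
      excl q gi gj gk dx dy dp x0 x1 y0 y1 = true := by
    intro x0 x1 y0 y1 he
    unfold excl
    rw [he]
    rfl
  have hsm : ∀ {x0 y0 : ℕ}, Nat.ble NXs (Nat.add x0 y0) = false → x0 + y0 ≤ NPs := by
    intro x0 y0 he
    by_contra hcon
    have h1 : Nat.ble NXs (Nat.add x0 y0) = true := by
      apply Nat.ble_eq_true_of_le
      have : NXs = NPs + 1 := rfl
      rw [this]
      show NPs + 1 ≤ x0 + y0
      omega
    rw [he] at h1
    simp at h1
  intro d
  induction d with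
  | zero =>
    intro x0 x1 y0 y1 h hx0 hx1 hy0 hy1
    have h' : (bif Nat.ble NXs (Nat.add x0 y0) then true else
      bif rectPos A B (2048 * A) (2048 * B) (2 * 2048 * T) (kp * 2048) (kn * 2048) err x0 x1 y0 y1
        then true else excl q gi gj gk dx dy dp x0 x1 y0 y1) = true := h
    rcases hb0 : Nat.ble NXs (Nat.add x0 y0) with _ | _
    · rw [hb0] at h'
      simp only [cond_false] at h'
      rcases hr : rectPos A B (2048 * A) (2048 * B) (2 * 2048 * T) (kp * 2048) (kn * 2048) err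
        x0 x1 y0 y1 with _ | _
      · rw [hr] at h'
        simp only [cond_false] at h'
        exact (excl_sound h' hx0 hx1 hy0 hy1 hdx hdy hu hv hp hu0 hv0 hw0 hw1 hq hD).elim
      · exact rectPos_sound herr hr (hsm hb0) (cast_le_of_div_le hx0 hx1)
          (cast_le_of_div_le hy0 hy1) hx0 hx1 hy0 hy1 hD.xy
    · exact (excl_sound (hbig hb0) hx0 hx1 hy0 hy1 hdx hdy hu hv hp hu0 hv0 hw0 hw1 hq hD).elim
  | succ d ih =>
    intro x0 x1 y0 y1 h hx0 hx1 hy0 hy1
    have h' : (bif Nat.ble NXs (Nat.add x0 y0) then true else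
      bif rectPos A B (2048 * A) (2048 * B) (2 * 2048 * T) (kp * 2048) (kn * 2048) err x0 x1 y0 y1
        then true else
      bif excl q gi gj gk dx dy dp x0 x1 y0 y1 then true else
      bif Nat.ble (Nat.sub y1 y0) (Nat.sub x1 x0) then
        force (Nat.div (Nat.add x0 x1) 2) fun m =>
          bif cover A B (2048 * A) (2048 * B) (2 * 2048 * T) (kp * 2048) (kn * 2048) err
            q gi gj gk dx dy dp d x0 m y0 y1 then
            cover A B (2048 * A) (2048 * B) (2 * 2048 * T) (kp * 2048) (kn * 2048) err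
              q gi gj gk dx dy dp d m x1 y0 y1
          else false
      else
        force (Nat.div (Nat.add y0 y1) 2) fun m =>
          bif cover A B (2048 * A) (2048 * B) (2 * 2048 * T) (kp * 2048) (kn * 2048) err
            q gi gj gk dx dy dp d x0 x1 y0 m then
            cover A B (2048 * A) (2048 * B) (2 * 2048 * T) (kp * 2048) (kn * 2048) err
              q gi gj gk dx dy dp d x0 x1 m y1
          else false) = true := h
    rw [force_eq, force_eq] at h'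
    rcases hb0 : Nat.ble NXs (Nat.add x0 y0) with _ | _
    · rw [hb0] at h'
      simp only [cond_false] at h'
      rcases hr : rectPos A B (2048 * A) (2048 * B) (2 * 2048 * T) (kp * 2048) (kn * 2048) err
        x0 x1 y0 y1 with _ | _
      · rw [hr] at h'
        simp only [cond_false] at h'
        rcases he : excl q gi gj gk dx dy dp x0 x1 y0 y1 with _ | _
        · rw [he] at h'
          simp only [cond_false] at h'
          rcases hb : Nat.ble (Nat.sub y1 y0) (Nat.sub x1 x0) with _ | _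
          · rw [hb] at h'
            simp only [cond_false] at h'
            rcases h1 : cover A B (2048 * A) (2048 * B) (2 * 2048 * T) (kp * 2048) (kn * 2048) err
              q gi gj gk dx dy dp d x0 x1 y0 (Nat.div (Nat.add y0 y1) 2) with _ | _
            · rw [h1] at h'; simp at h'
            · rw [h1] at h'
              simp only [cond_true] at h'
              rcases le_total y (((Nat.div (Nat.add y0 y1) 2 : ℕ) : ℝ) / 2048) with h2 | h2
              · exact ih _ _ _ _ h1 hx0 hx1 hy0 h2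
              · exact ih _ _ _ _ h' hx0 hx1 h2 hy1
          · rw [hb] at h'
            simp only [cond_true] at h'
            rcases h1 : cover A B (2048 * A) (2048 * B) (2 * 2048 * T) (kp * 2048) (kn * 2048) err
              q gi gj gk dx dy dp d x0 (Nat.div (Nat.add x0 x1) 2) y0 y1 with _ | _
            · rw [h1] at h'; simp at h'
            · rw [h1] at h'
              simp only [cond_true] at h'
              rcases le_total x (((Nat.div (Nat.add x0 x1) 2 : ℕ) : ℝ) / 2048) with h2 | h2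
              · exact ih _ _ _ _ h1 hx0 h2 hy0 hy1
              · exact ih _ _ _ _ h' h2 hx1 hy0 hy1
        · exact (excl_sound he hx0 hx1 hy0 hy1 hdx hdy hu hv hp hu0 hv0 hw0 hw1 hq hD).elim
      · exact rectPos_sound herr hr (hsm hb0) (cast_le_of_div_le hx0 hx1)
          (cast_le_of_div_le hy0 hy1) hx0 hx1 hy0 hy1 hD.xy
    · exact (excl_sound (hbig hb0) hx0 hx1 hy0 hy1 hdx hdy hu hv hp hu0 hv0 hw0 hw1 hq hD).elim

end cover

/-! ### the affine piece of a simplex -/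

/-- Newton iteration for the square root -/
def newt (X : ℕ) (n : ℕ) : ℕ → ℕ :=
  Nat.rec (motive := fun _ => ℕ → ℕ) (fun r => r)
    (fun _ ih r => force (Nat.div (Nat.add r (Nat.div X r)) 2) ih) n

def kU (dx dy dp : ℕ) : ℕ := Nat.mul (Nat.mul (nat_lit 1000000) dx) (Nat.mul dy dp)
def kAl (c1 dy dp : ℕ) : ℕ := Nat.mul (Nat.mul (nat_lit 2048) c1) (Nat.mul dy dp)
def kBe (c2 dx dp : ℕ) : ℕ := Nat.mul (Nat.mul (nat_lit 2048) c2) (Nat.mul dx dp)
def kGa (c3 dx dy : ℕ) : ℕ := Nat.mul (Nat.mul (nat_lit 2048) c3) (Nat.mul dx dy)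
def kA (al ga U : ℕ) : ℕ := Nat.sub (Nat.add al (Nat.mul (nat_lit 2) U)) ga
def kB (be ga : ℕ) : ℕ := Nat.add be ga
def kD (A B : ℕ) : ℕ := Nat.add (Nat.sub A B) (Nat.sub B A)
def kT (TN U D : ℕ) : ℕ :=
  Nat.sub (newt (Nat.div (Nat.sub (Nat.mul (nat_lit 4) (Nat.mul (Nat.mul TN U) (Nat.mul TN U)))
    (Nat.mul (nat_lit 100000000) (Nat.mul D D))) (nat_lit 400000000)) 9
    (Nat.add (Nat.div (Nat.mul TN U) (nat_lit 10000)) 1)) 1
def kP (a0 dx dy dp : ℕ) : ℕ := Nat.mul (Nat.mul a0 dx) (Nat.mul dy dp)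
def kN (c1 c2 c3 gi gj gk dx dy dp : ℕ) : ℕ :=
  Nat.add (Nat.add (Nat.mul (Nat.mul c1 gi) (Nat.mul dy dp)) (Nat.mul (Nat.mul c2 gj) (Nat.mul dx dp)))
    (Nat.mul (Nat.mul c3 gk) (Nat.mul dx dy))

/-- admissibility of the affine piece -/
def planeChk (TN U ga A B T : ℕ) : Bool :=
  Nat.ble ga (Nat.mul (nat_lit 2) U) &&
  Nat.ble (Nat.add (Nat.mul (nat_lit 400000000) (Nat.mul T T))
    (Nat.mul (nat_lit 100000000) (Nat.mul (kD A B) (kD A B))))
    (Nat.mul (nat_lit 4) (Nat.mul (Nat.mul TN U) (Nat.mul TN U)))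

/-- check of the affine piece over a rectangle -/
def posOK (TN gi gj gk dx dy dp q a0 c1 c2 c3 y0 y1 d : ℕ) : Bool :=
  force (kU dx dy dp) fun U =>
  force (kGa c3 dx dy) fun ga =>
  force (kA (kAl c1 dy dp) ga U) fun A =>
  force (kB (kBe c2 dx dp) ga) fun B =>
  force (kT TN U (kD A B)) fun T =>
  bif planeChk TN U ga A B T then
    force (kP a0 dx dy dp) fun kp =>
    force (kN c1 c2 c3 gi gj gk dx dy dp) fun kn =>
    force (Nat.mul (nat_lit 2048) A) fun qA =>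
    force (Nat.mul (nat_lit 2048) B) fun qB =>
    force (Nat.mul (Nat.mul 2 (nat_lit 2048)) T) fun qT =>
    force (Nat.mul kp (nat_lit 2048)) fun kpQ =>
    force (Nat.mul kn (nat_lit 2048)) fun knQ =>
    force (Nat.mul (Nat.mul (Nat.mul Es (Nat.add (Nat.mul 2 Zs) Es)) (nat_lit 2048))
      (Nat.add (Nat.add (Nat.add (Nat.add (Nat.mul 2 T) (Nat.mul 5 A)) (Nat.mul 5 B)) kp) kn)) fun err =>
    cover A B qA qB qT kpQ knQ err q gi gj gk dx dy dp d gi (Nat.add gi dx) y0 y1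
  else false

/-- the special potential near the point `b` -/
noncomputable def capP (CN TC : ℕ) : Pot :=
  ⟨1, 1 + (CN : ℝ) / 200, 1 + (CN : ℝ) / 200, 0, (TC : ℝ) / 10000⟩

open Classical in
/-- the potential of a simplex -/
noncomputable def potOf (TN CN TC gi gj gk dx dy dp a0 c1 c2 c3 : ℕ) : Pot :=
  let U := kU dx dy dp
  let ga := kGa c3 dx dy
  let A := kA (kAl c1 dy dp) ga U
  let B := kB (kBe c2 dx dp) ga
  let T := kT TN U (kD A B)
  if 0 < U ∧ planeChk TN U ga A B T = true then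
    ⟨1 - (ga : ℝ) / U, ((A : ℝ) + B) / (2 * U), ((A : ℝ) - B) / (2 * U),
      ((kP a0 dx dy dp : ℝ) - kN c1 c2 c3 gi gj gk dx dy dp) / U, (T : ℝ) / U⟩
  else capP CN TC

/-- a potential is admissible for the bound `t` -/
structure Pot.Adm (P : Pot) (t : ℝ) : Prop where
  l_le : |P.l| ≤ 1
  hA : 1 - P.l ≤ P.a - P.b
  hB : 1 + P.l ≤ P.a + P.b
  τ_nonneg : 0 ≤ P.τ
  τ_le : P.τ ^ 2 + P.b ^ 2 ≤ t ^ 2

lemma kD_sq (A B : ℕ) : ((kD A B : ℕ) : ℝ) ^ 2 = ((A : ℝ) - B) ^ 2 := by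
  have e : kD A B = (A - B) + (B - A) := rfl
  rcases le_total A B with h | h
  · rw [e, Nat.sub_eq_zero_of_le h, zero_add, Nat.cast_sub h]; ring
  · rw [e, Nat.sub_eq_zero_of_le h, add_zero, Nat.cast_sub h]

lemma potOf_adm {TN CN TC gi gj gk dx dy dp a0 c1 c2 c3 : ℕ}
    (hcap : (capP CN TC).Adm ((TN : ℝ) / 10000)) :
    (potOf TN CN TC gi gj gk dx dy dp a0 c1 c2 c3).Adm ((TN : ℝ) / 10000) := by
  unfold potOf
  simp only
  split_ifs with h
  · obtain ⟨hU, hc⟩ := h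
    unfold planeChk at hc
    rw [Bool.and_eq_true] at hc
    obtain ⟨h1, h2⟩ := hc
    have h1' : kGa c3 dx dy ≤ 2 * kU dx dy dp := Nat.le_of_ble_eq_true h1
    generalize kGa c3 dx dy = ga at *
    generalize kU dx dy dp = U at *
    generalize hAA : kA (kAl c1 dy dp) ga U = A at *
    generalize hBB : kB (kBe c2 dx dp) ga = B at *
    generalize kT TN U (kD A B) = T at *
    have h2' := Nat.le_of_ble_eq_true h2
    have h3 : ((400000000 * (T * T) + 100000000 * (kD A B * kD A B) : ℕ) : ℝ) ≤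
      ((4 * ((TN * U) * (TN * U)) : ℕ) : ℝ) := by exact_mod_cast h2'
    push_cast at h3
    have hD := kD_sq A B
    have hU' : (0 : ℝ) < U := by exact_mod_cast hU
    have h4 : (ga : ℝ) ≤ 2 * U := by exact_mod_cast h1'
    have hga : (0 : ℝ) ≤ (ga : ℝ) := Nat.cast_nonneg _
    have hA1 : ((A : ℕ) : ℝ) = (kAl c1 dy dp : ℝ) + 2 * U - ga := by
      rw [← hAA]
      have : kA (kAl c1 dy dp) ga U = (kAl c1 dy dp + 2 * U) - ga := rfl
      rw [this, Nat.cast_sub (by omega)]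
      push_cast; ring
    have hB1 : ((B : ℕ) : ℝ) = (kBe c2 dx dp : ℝ) + ga := by
      rw [← hBB]
      have : kB (kBe c2 dx dp) ga = kBe c2 dx dp + ga := rfl
      rw [this]; push_cast; ring
    have hal : (0 : ℝ) ≤ (kAl c1 dy dp : ℝ) := Nat.cast_nonneg _
    have hbe : (0 : ℝ) ≤ (kBe c2 dx dp : ℝ) := Nat.cast_nonneg _
    have hT0 : (0 : ℝ) ≤ (T : ℝ) := Nat.cast_nonneg _
    have hdiv : (ga : ℝ) / U ≤ 2 := by rw [div_le_iff₀ hU']; exact h4
    have hdiv0 : 0 ≤ (ga : ℝ) / U := by positivity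
    refine ⟨?_, ?_, ?_, ?_, ?_⟩
    · rw [abs_le]; constructor <;> linarith
    · have e : ((A : ℝ) + B) / (2 * U) - ((A : ℝ) - B) / (2 * U) = (B : ℝ) / U := by field_simp; ring
      show 1 - (1 - (ga : ℝ) / U) ≤ ((A : ℝ) + B) / (2 * U) - ((A : ℝ) - B) / (2 * U)
      rw [e, hB1, add_div]
      have : 0 ≤ (kBe c2 dx dp : ℝ) / U := by positivity
      linarith
    · have e : ((A : ℝ) + B) / (2 * U) + ((A : ℝ) - B) / (2 * U) = (A : ℝ) / U := by field_simp; ring
      show 1 + (1 - (ga : ℝ) / U) ≤ ((A : ℝ) + B) / (2 * U) + ((A : ℝ) - B) / (2 * U)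
      rw [e, hA1, sub_div, add_div]
      have e2 : 2 * (U : ℝ) / U = 2 := by field_simp
      rw [e2]
      have : 0 ≤ (kAl c1 dy dp : ℝ) / U := by positivity
      linarith
    · show 0 ≤ (T : ℝ) / U
      positivity
    · show ((T : ℝ) / U) ^ 2 + (((A : ℝ) - B) / (2 * U)) ^ 2 ≤ ((TN : ℝ) / 10000) ^ 2
      have e : ((T : ℝ) / U) ^ 2 + (((A : ℝ) - B) / (2 * U)) ^ 2
          = (400000000 * (T * T) + 100000000 * ((A : ℝ) - B) ^ 2) / (400000000 * U ^ 2) := by
        field_simp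
        ring
      have e2 : ((TN : ℝ) / 10000) ^ 2 = (4 * ((TN * U) * (TN * U))) / (400000000 * (U : ℝ) ^ 2) := by
        field_simp; ring
      rw [e, e2]
      apply div_le_div_of_nonneg_right _ (by positivity)
      rw [← hD]
      linarith
  · exact hcap

/-- value of the affine piece -/
lemma potOf_kv {TN CN TC gi gj gk dx dy dp q a0 c1 c2 c3 y0 y1 d : ℕ}
    (hdx : 0 < dx) (hdy : 0 < dy) (hdp : 0 < dp)
    (h : posOK TN gi gj gk dx dy dp q a0 c1 c2 c3 y0 y1 d = true) {x y p u v w : ℝ}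
    (hu : 2048 * x = gi + dx * u) (hv : 2048 * y = gj + dy * v) (hp : 2048 * p = gk + dp * w) :
    (potOf TN CN TC gi gj gk dx dy dp a0 c1 c2 c3).kv x y p
      = ((a0 : ℝ) + c1 * u + c2 * v + c3 * w) / 1000000 - p := by
  unfold posOK at h
  simp only [force_eq] at h
  rcases hc : planeChk TN (kU dx dy dp) (kGa c3 dx dy) (kA (kAl c1 dy dp) (kGa c3 dx dy) (kU dx dy dp))
    (kB (kBe c2 dx dp) (kGa c3 dx dy)) (kT TN (kU dx dy dp) (kD (kA (kAl c1 dy dp) (kGa c3 dx dy)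
      (kU dx dy dp)) (kB (kBe c2 dx dp) (kGa c3 dx dy)))) with _ | _
  · rw [hc] at h; simp at h
  have hU : 0 < kU dx dy dp := by
    have : kU dx dy dp = (1000000 * dx) * (dy * dp) := rfl
    rw [this]; positivity
  unfold potOf
  simp only
  rw [if_pos ⟨hU, hc⟩]
  unfold planeChk at hc
  rw [Bool.and_eq_true] at hc
  have h1' : kGa c3 dx dy ≤ 2 * kU dx dy dp := Nat.le_of_ble_eq_true hc.1
  have hA1 : ((kA (kAl c1 dy dp) (kGa c3 dx dy) (kU dx dy dp) : ℕ) : ℝ)
      = (kAl c1 dy dp : ℝ) + 2 * kU dx dy dp - kGa c3 dx dy := by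
    have : kA (kAl c1 dy dp) (kGa c3 dx dy) (kU dx dy dp)
      = (kAl c1 dy dp + 2 * kU dx dy dp) - kGa c3 dx dy := rfl
    rw [this, Nat.cast_sub (by omega)]
    push_cast; ring
  have hB1 : ((kB (kBe c2 dx dp) (kGa c3 dx dy) : ℕ) : ℝ) = (kBe c2 dx dp : ℝ) + kGa c3 dx dy := by
    have : kB (kBe c2 dx dp) (kGa c3 dx dy) = kBe c2 dx dp + kGa c3 dx dy := rfl
    rw [this]; push_cast; ring
  rw [hA1, hB1]
  have eU : ((kU dx dy dp : ℕ) : ℝ) = 1000000 * dx * (dy * dp) := by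
    have : kU dx dy dp = (1000000 * dx) * (dy * dp) := rfl
    rw [this]; push_cast; ring
  have eAl : ((kAl c1 dy dp : ℕ) : ℝ) = 2048 * c1 * (dy * dp) := by
    have : kAl c1 dy dp = (2048 * c1) * (dy * dp) := rfl
    rw [this]; push_cast; ring
  have eBe : ((kBe c2 dx dp : ℕ) : ℝ) = 2048 * c2 * (dx * dp) := by
    have : kBe c2 dx dp = (2048 * c2) * (dx * dp) := rfl
    rw [this]; push_cast; ring
  have eGa : ((kGa c3 dx dy : ℕ) : ℝ) = 2048 * c3 * (dx * dy) := by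
    have : kGa c3 dx dy = (2048 * c3) * (dx * dy) := rfl
    rw [this]; push_cast; ring
  have eP : ((kP a0 dx dy dp : ℕ) : ℝ) = a0 * dx * (dy * dp) := by
    have : kP a0 dx dy dp = (a0 * dx) * (dy * dp) := rfl
    rw [this]; push_cast; ring
  have eN : ((kN c1 c2 c3 gi gj gk dx dy dp : ℕ) : ℝ) = c1 * gi * (dy * dp) + c2 * gj * (dx * dp)
      + c3 * gk * (dx * dy) := by
    have : kN c1 c2 c3 gi gj gk dx dy dp
      = ((c1 * gi) * (dy * dp) + (c2 * gj) * (dx * dp)) + (c3 * gk) * (dx * dy) := rfl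
    rw [this]; push_cast; ring
  have hU' : (0 : ℝ) < ((kU dx dy dp : ℕ) : ℝ) := by exact_mod_cast hU
  unfold Pot.kv
  simp only
  have hdx' : (0 : ℝ) < dx := by exact_mod_cast hdx
  have hdy' : (0 : ℝ) < dy := by exact_mod_cast hdy
  have hdp' : (0 : ℝ) < dp := by exact_mod_cast hdp
  have key : (kU dx dy dp : ℝ) * (((a0 : ℝ) + c1 * u + c2 * v + c3 * w) / 1000000)
      = kAl c1 dy dp * x + kBe c2 dx dp * y + kGa c3 dx dy * p
        + ((kP a0 dx dy dp : ℝ) - kN c1 c2 c3 gi gj gk dx dy dp) := by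
    rw [eU, eAl, eBe, eGa, eP, eN]
    linear_combination (-(c1 : ℝ) * (dy * dp)) * hu - (c2 : ℝ) * (dx * dp) * hv
      - (c3 : ℝ) * (dx * dy) * hp
  have e3 : ((a0 : ℝ) + c1 * u + c2 * v + c3 * w) / 1000000
      = (kAl c1 dy dp * x + kBe c2 dx dp * y + kGa c3 dx dy * p
        + ((kP a0 dx dy dp : ℝ) - kN c1 c2 c3 gi gj gk dx dy dp)) / kU dx dy dp := by
    rw [eq_div_iff hU'.ne', ← key]; ring
  rw [e3]
  field_simp
  ring

lemma fF_smul' (r τ A B k x y : ℝ) : fF (r * τ) (r * A) (r * B) (r * k) x y = r * fF τ A B k x y := by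
  unfold fF; ring

/-- the rate inequality of the affine piece -/
lemma potOf_fF {TN CN TC gi gj gk dx dy dp q a0 c1 c2 c3 y0 y1 d : ℕ}
    (hdx : 0 < dx) (hdy : 0 < dy) (hdp : 0 < dp)
    (h : posOK TN gi gj gk dx dy dp q a0 c1 c2 c3 y0 y1 d = true) {x y p u v w : ℝ}
    (hu : 2048 * x = gi + dx * u) (hv : 2048 * y = gj + dy * v) (hp : 2048 * p = gk + dp * w)
    (hu0 : 0 ≤ u) (hu1 : u ≤ 1) (hv0 : 0 ≤ v) (hw0 : 0 ≤ w) (hw1 : w ≤ 1) (hq : Ord8 q u v w)
    (hD : InD x y p) (hy0 : (y0 : ℝ) / 2048 ≤ y) (hy1 : y ≤ (y1 : ℝ) / 2048) :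
    0 ≤ fF (potOf TN CN TC gi gj gk dx dy dp a0 c1 c2 c3).τ
      ((potOf TN CN TC gi gj gk dx dy dp a0 c1 c2 c3).a + (potOf TN CN TC gi gj gk dx dy dp a0 c1 c2 c3).b)
      ((potOf TN CN TC gi gj gk dx dy dp a0 c1 c2 c3).a - (potOf TN CN TC gi gj gk dx dy dp a0 c1 c2 c3).b)
      (potOf TN CN TC gi gj gk dx dy dp a0 c1 c2 c3).k x y := by
  unfold posOK at h
  simp only [force_eq] at h
  rcases hc : planeChk TN (kU dx dy dp) (kGa c3 dx dy) (kA (kAl c1 dy dp) (kGa c3 dx dy) (kU dx dy dp))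
    (kB (kBe c2 dx dp) (kGa c3 dx dy)) (kT TN (kU dx dy dp) (kD (kA (kAl c1 dy dp) (kGa c3 dx dy)
      (kU dx dy dp)) (kB (kBe c2 dx dp) (kGa c3 dx dy)))) with _ | _
  · rw [hc] at h; simp at h
  rw [hc] at h
  simp only [cond_true] at h
  have hU : 0 < kU dx dy dp := by
    have : kU dx dy dp = (1000000 * dx) * (dy * dp) := rfl
    rw [this]; positivity
  unfold potOf
  simp only
  rw [if_pos ⟨hU, hc⟩]
  generalize kA (kAl c1 dy dp) (kGa c3 dx dy) (kU dx dy dp) = A at *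
  generalize kB (kBe c2 dx dp) (kGa c3 dx dy) = B at *
  generalize kT TN (kU dx dy dp) (kD A B) = T at *
  generalize kP a0 dx dy dp = kp at *
  generalize kN c1 c2 c3 gi gj gk dx dy dp = kn at *
  have hU' : (0 : ℝ) < ((kU dx dy dp : ℕ) : ℝ) := by exact_mod_cast hU
  have hx0 : (gi : ℝ) / 2048 ≤ x := by
    have : (0 : ℝ) ≤ dx * u := by positivity
    linarith
  have hx1 : x ≤ ((gi + dx : ℕ) : ℝ) / 2048 := by
    have : (dx : ℝ) * u ≤ dx * 1 := mul_le_mul_of_nonneg_left hu1 (Nat.cast_nonneg _)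
    push_cast; linarith
  have hpos := cover_sound (A := A) (B := B) (T := T) (kp := kp) (kn := kn) (le_of_eq rfl) hdx hdy
    hu hv hp hu0 hv0 hw0 hw1 hq hD d gi (gi + dx) y0 y1 h hx0 hx1 hy0 hy1
  have e1 : ((A : ℝ) + B) / (2 * kU dx dy dp) + ((A : ℝ) - B) / (2 * kU dx dy dp)
      = (1 / (kU dx dy dp : ℝ)) * A := by field_simp; ring
  have e2 : ((A : ℝ) + B) / (2 * kU dx dy dp) - ((A : ℝ) - B) / (2 * kU dx dy dp)
      = (1 / (kU dx dy dp : ℝ)) * B := by field_simp; ring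
  have e3 : (T : ℝ) / kU dx dy dp = (1 / (kU dx dy dp : ℝ)) * T := by ring
  have e4 : ((kp : ℝ) - kn) / kU dx dy dp = (1 / (kU dx dy dp : ℝ)) * ((kp : ℝ) - kn) := by ring
  simp only [e1, e2, e3, e4, fF_smul']
  exact mul_nonneg (by positivity) hpos.le

end Pool.Agent.H962
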