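import Pool.Agent.H962.KCheck
import Pool.Agent.H962.KPot

/-!
# Soundness of the coverage checker
-/

set_option autoImplicit false

open Real Set

namespace Pool.Agent.H962

/-- A corner triangle at the line `x + y = π`. -/
theorem fF_pos_tri {τ A B k x0 y0 x y : ℝ} (hτ : 0 ≤ τ) (hA : 0 ≤ A) (hB : 0 ≤ B) (hx0 : 0 ≤ x0)
    (hy0 : 0 ≤ y0) (h00 : 0 < fF τ A B k x0 y0) (he0 : 0 < eF τ A B k x0)
    (he1 : 0 < eF τ B A k y0) (hx : x0 ≤ x) (hy : y0 ≤ y) (hxy : x + y ≤ π) :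
    0 < fF τ A B k x y := by
  have e1 : fF τ A B k (π - y0) y0 = eF τ B A k y0 := by rw [fF_swap, fF_hyp]
  have e2 : fF τ A B k (π - y0) y0 = eF τ A B k (π - y0) := by
    rw [← fF_hyp]; congr 1; ring
  have h1 : 0 < fF τ A B k x y0 := by
    apply fF_pos_x hA (by linarith) (by linarith : π - y0 + y0 ≤ π) hx (by linarith) h00
    rw [e1]; exact he1
  have h2 : 0 < fF τ A B k x (π - x) := by
    rw [fF_hyp]
    apply eF_pos hτ hx0 (by linarith : π - y0 ≤ π) hx (by linarith) he0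
    rw [← e2, e1]; exact he1
  exact fF_pos_y hB (by linarith) (by linarith) hy (by linarith) h1 h2

lemma NPs_le : ((NPs : ℕ) : ℝ) / 2048 ≤ π := by
  have := pi_gt_d6
  unfold NPs
  norm_num at this ⊢
  linarith

lemma NXs_gt : π < ((NXs : ℕ) : ℝ) / 2048 := by
  have := pi_lt_d6
  unfold NXs
  norm_num at this ⊢
  linarith

lemma cast_div_le {a : ℕ} {b : ℕ} (h : a ≤ b) : (a : ℝ) / 2048 ≤ (b : ℝ) / 2048 := by
  have : (a : ℝ) ≤ b := by exact_mod_cast h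
  linarith

lemma rectPos_sound {A B T kp kn err x0 x1 y0 y1 : ℕ}
    (herr : Es * (2 * Zs + Es) * 2048 * (2 * T + 5 * A + 5 * B + kp + kn) ≤ err)
    (h : rectPos A B (2048 * A) (2048 * B) (2 * 2048 * T) (kp * 2048) (kn * 2048) err
      x0 x1 y0 y1 = true) (h0 : x0 + y0 ≤ NPs) (hx01 : x0 ≤ x1) (hy01 : y0 ≤ y1) {x y : ℝ}
    (hx0 : (x0 : ℝ) / 2048 ≤ x) (hx1 : x ≤ (x1 : ℝ) / 2048)
    (hy0 : (y0 : ℝ) / 2048 ≤ y) (hy1 : y ≤ (y1 : ℝ) / 2048) (hxy : x + y ≤ π) :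
    0 < fF (T : ℝ) (A : ℝ) (B : ℝ) ((kp : ℝ) - kn) x y := by
  have hA : (0 : ℝ) ≤ (A : ℝ) := Nat.cast_nonneg _
  have hB : (0 : ℝ) ≤ (B : ℝ) := Nat.cast_nonneg _
  have hT : (0 : ℝ) ≤ (T : ℝ) := Nat.cast_nonneg _
  have hxn : (0 : ℝ) ≤ (x0 : ℝ) / 2048 := by positivity
  have hyn : (0 : ℝ) ≤ (y0 : ℝ) / 2048 := by positivity
  have herr' : Es * (2 * Zs + Es) * 2048 * (2 * T + 5 * B + 5 * A + kp + kn) ≤ err := by
    refine le_trans (le_of_eq ?_) herr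
    ring
  unfold rectPos at h
  simp only [force_eq] at h
  rcases hf00 : fOK A B (2048 * A) (2048 * B) (2 * 2048 * T) (kp * 2048) (kn * 2048) err x0 y0
    (tS2 x0) (tC2 x0) (tS2 y0) (tC2 y0) with _ | _
  · rw [hf00] at h; simp at h
  rw [hf00] at h
  simp only [cond_true] at h
  have p00 := fOK_sound (by omega) (by omega) h0 herr hf00
  rcases hle : Nat.ble (Nat.add x1 y1) NPs with _ | _
  · rw [hle] at h
    simp only [cond_false] at h
    rcases he : eOK A B (2048 * A) (2048 * B) (2 * 2048 * T) (kp * 2048) (kn * 2048) err x0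
      (tS2 x0) (tC2 x0) with _ | _
    · rw [he] at h; simp at h
    rw [he] at h
    simp only [cond_true] at h
    have e0 := eOK_sound (by omega) herr he
    have e1 := eOK_sound (by omega) herr' h
    exact fF_pos_tri hT hA hB hxn hyn p00 e0 e1 hx0 hy0 hxy
  · rw [hle] at h
    simp only [cond_true] at h
    have hle' : x1 + y1 ≤ NPs := Nat.le_of_ble_eq_true hle
    rcases hf10 : fOK A B (2048 * A) (2048 * B) (2 * 2048 * T) (kp * 2048) (kn * 2048) err x1 y0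
      (tS2 x1) (tC2 x1) (tS2 y0) (tC2 y0) with _ | _
    · rw [hf10] at h; simp at h
    rw [hf10] at h
    simp only [cond_true] at h
    rcases hf01 : fOK A B (2048 * A) (2048 * B) (2 * 2048 * T) (kp * 2048) (kn * 2048) err x0 y1
      (tS2 x0) (tC2 x0) (tS2 y1) (tC2 y1) with _ | _
    · rw [hf01] at h; simp at h
    rw [hf01] at h
    simp only [cond_true] at h
    have p10 := fOK_sound (by omega) (by omega) (by omega) herr hf10
    have p01 := fOK_sound (by omega) (by omega) (by omega) herr hf01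
    have p11 := fOK_sound (by omega) (by omega) (by omega) herr h
    have h9 := cast_div_le hle'
    push_cast at h9
    have h10 : ((x1 : ℝ) + y1) / 2048 = (x1 : ℝ) / 2048 + (y1 : ℝ) / 2048 := by ring
    rw [h10] at h9
    exact fF_pos_rect hA hB hxn hyn (h9.trans NPs_le) hx0 hx1 hy0 hy1 p00 p10 p01 p11

lemma exclW_sound {gk dp x0 x1 y0 y1 ln ld hn hd : ℕ} {x y p w : ℝ}
    (h : exclW gk dp x0 x1 y0 y1 ln ld hn hd = true)
    (hx0 : (x0 : ℝ) / 2048 ≤ x) (hx1 : x ≤ (x1 : ℝ) / 2048)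
    (hy0 : (y0 : ℝ) / 2048 ≤ y) (hy1 : y ≤ (y1 : ℝ) / 2048) (hp : 2048 * p = gk + dp * w)
    (hD : InD x y p) (hln : (ln : ℝ) ≤ ld * w) (hhn : (hd : ℝ) * w ≤ hn) : False := by
  unfold exclW at h
  simp only [force_eq, Bool.or_eq_true, Bool.and_eq_true, Nat.blt_eq] at h
  have hup := (abs_le.mp hD.hp).2
  have hlo := (abs_le.mp hD.hp).1
  have hxy := hD.xy
  have hxp := hD.x0
  have hyp := hD.y0
  have hld : (0 : ℝ) ≤ (ld : ℝ) := Nat.cast_nonneg _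
  have hhd : (0 : ℝ) ≤ (hd : ℝ) := Nat.cast_nonneg _
  have hdp : (0 : ℝ) ≤ (dp : ℝ) := Nat.cast_nonneg _
  have hs : sin (x + y) ≤ π - (x + y) := by
    have := sin_le (x := π - (x + y)) (by linarith)
    rwa [sin_pi_sub] at this
  have hNX := NXs_gt
  -- lower and upper bounds for p in grid units
  have plo : (ld : ℝ) * gk + dp * ln ≤ ld * (2048 * p) := by
    rw [hp]; nlinarith [mul_le_mul_of_nonneg_left hln hdp]
  have phi : (hd : ℝ) * (2048 * p) ≤ hd * gk + dp * hn := by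
    rw [hp]; nlinarith [mul_le_mul_of_nonneg_left hhn hdp]
  have hZp : (0 : ℝ) < (Zs : ℝ) := by unfold Zs; norm_num
  rcases h with (h | h) | (h | h)
  · -- p ≤ π - 2 x
    have h1 : ((ld * NXs : ℕ) : ℝ) < ((ld * gk + dp * ln + 2 * ld * x0 : ℕ) : ℝ) := by
      exact_mod_cast h
    push_cast at h1
    have h2 : 2048 * p ≤ (NXs : ℝ) - 2 * x0 := by linarith
    have h3 := mul_le_mul_of_nonneg_left h2 hld
    linarith
  · have h1 : ((hd * NXs + (hd * gk + dp * hn) : ℕ) : ℝ) < ((2 * hd * y0 : ℕ) : ℝ) := by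
      exact_mod_cast h
    push_cast at h1
    have h2 : 2 * (y0 : ℝ) - NXs ≤ 2048 * p := by linarith
    have h3 := mul_le_mul_of_nonneg_left h2 hhd
    linarith
  · obtain ⟨hle, h⟩ := h
    have hle' : x0 + y1 ≤ NPs := Nat.le_of_ble_eq_true hle
    obtain ⟨ts, _⟩ := tab2_ok (x0 + y1) hle'
    have ts' := (abs_le.mp ts).1
    have hadd : (((x0 + y1 : ℕ) : ℝ) / 2048) = (x0 : ℝ) / 2048 + (y1 : ℝ) / 2048 := by
      push_cast; ring
    rw [hadd] at ts'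
    have h1 : ((ld * ((tS2 (x0 + y1) + Es) * 2048 + y1 * Zs) : ℕ) : ℝ) <
        ((Zs * (ld * gk + dp * ln) + ld * x0 * Zs : ℕ) : ℝ) := by exact_mod_cast h
    push_cast at h1
    -- sin (x + y) - x + y ≤ sin (x0 + y1) - x0 + y1
    have hl : sin (x + y) - sin ((x0 : ℝ) / 2048 + (y1 : ℝ) / 2048) ≤
        (x - (x0 : ℝ) / 2048) + ((y1 : ℝ) / 2048 - y) := by
      rcases le_total (x + y) ((x0 : ℝ) / 2048 + (y1 : ℝ) / 2048) with h5 | h5
      · have := (abs_le.mp (sin_lip _ _ h5)).1; linarith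
      · have := (abs_le.mp (sin_lip _ _ h5)).2; linarith
    have h2 : 2048 * p ≤ 2048 * sin ((x0 : ℝ) / 2048 + (y1 : ℝ) / 2048) - x0 + y1 := by linarith
    have h3 : (Zs : ℝ) * (2048 * p) ≤ ((tS2 (x0 + y1) : ℝ) + Es) * 2048 - x0 * Zs + y1 * Zs := by
      have := mul_le_mul_of_nonneg_left h2 hZp.le
      linarith
    have h4 := mul_le_mul_of_nonneg_left h3 hld
    have h5 := mul_le_mul_of_nonneg_left plo hZp.le
    linarith
  · obtain ⟨hle, h⟩ := h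
    have hle' : x1 + y0 ≤ NPs := Nat.le_of_ble_eq_true hle
    obtain ⟨ts, _⟩ := tab2_ok (x1 + y0) hle'
    have ts' := (abs_le.mp ts).1
    have hadd : (((x1 + y0 : ℕ) : ℝ) / 2048) = (x1 : ℝ) / 2048 + (y0 : ℝ) / 2048 := by
      push_cast; ring
    rw [hadd] at ts'
    have h1 : ((Zs * (hd * gk + dp * hn) + hd * ((tS2 (x1 + y0) + Es) * 2048 + x1 * Zs) : ℕ) : ℝ) <
        ((hd * y0 * Zs : ℕ) : ℝ) := by exact_mod_cast h
    push_cast at h1
    have hl : sin (x + y) - sin ((x1 : ℝ) / 2048 + (y0 : ℝ) / 2048) ≤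
        ((x1 : ℝ) / 2048 - x) + (y - (y0 : ℝ) / 2048) := by
      rcases le_total (x + y) ((x1 : ℝ) / 2048 + (y0 : ℝ) / 2048) with h5 | h5
      · have := (abs_le.mp (sin_lip _ _ h5)).1; linarith
      · have := (abs_le.mp (sin_lip _ _ h5)).2; linarith
    have h2 : -(2048 * sin ((x1 : ℝ) / 2048 + (y0 : ℝ) / 2048)) - x1 + y0 ≤ 2048 * p := by linarith
    have h3 : -(((tS2 (x1 + y0) : ℝ) + Es) * 2048) - x1 * Zs + y0 * Zs ≤ (Zs : ℝ) * (2048 * p) := by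
      have := mul_le_mul_of_nonneg_left h2 hZp.le
      linarith
    have h4 := mul_le_mul_of_nonneg_left h3 hhd
    have h5 := mul_le_mul_of_nonneg_left phi hZp.le
    linarith

/-- the order of the local coordinates in a simplex; the cases 6 and 7 are for the part of the
grid where the second coordinate plays no role -/
def Ord8 (q : ℕ) (u v w : ℝ) : Prop :=
  (q = 0 ∧ w ≤ v ∧ v ≤ u) ∨ (q = 1 ∧ v ≤ w ∧ w ≤ u) ∨ (q = 2 ∧ v ≤ u ∧ u ≤ w) ∨
  (q = 3 ∧ w ≤ u ∧ u ≤ v) ∨ (q = 4 ∧ u ≤ w ∧ w ≤ v) ∨ (q = 5 ∧ u ≤ v ∧ v ≤ w) ∨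
  (q = 6 ∧ w ≤ u) ∨ (q = 7 ∧ u ≤ w)

lemma cast_sub_ge (a b : ℕ) : (a : ℝ) - b ≤ ((a - b : ℕ) : ℝ) := by
  rcases le_total b a with h | h
  · rw [Nat.cast_sub h]
  · rw [Nat.sub_eq_zero_of_le h]
    have : (a : ℝ) ≤ b := by exact_mod_cast h
    simpa using this

lemma cast_sub_le {a b : ℕ} {z : ℝ} (h1 : (a : ℝ) - b ≤ z) (h2 : 0 ≤ z) : ((a - b : ℕ) : ℝ) ≤ z := by
  rcases le_total b a with h | h
  · rw [Nat.cast_sub h]; exact h1
  · rw [Nat.sub_eq_zero_of_le h]; simpa using h2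

lemma excl_sound {q gi gj gk dx dy dp x0 x1 y0 y1 : ℕ} {x y p u v w : ℝ}
    (h : excl q gi gj gk dx dy dp x0 x1 y0 y1 = true)
    (hx0 : (x0 : ℝ) / 2048 ≤ x) (hx1 : x ≤ (x1 : ℝ) / 2048)
    (hy0 : (y0 : ℝ) / 2048 ≤ y) (hy1 : y ≤ (y1 : ℝ) / 2048)
    (hdx : 0 < dx) (hdy : 0 < dy)
    (hu : 2048 * x = gi + dx * u) (hv : 2048 * y = gj + dy * v) (hp : 2048 * p = gk + dp * w)
    (hu0 : 0 ≤ u) (hv0 : 0 ≤ v) (hw0 : 0 ≤ w) (hw1 : w ≤ 1) (hq : Ord8 q u v w)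
    (hD : InD x y p) : False := by
  unfold excl at h
  simp only [force_eq] at h
  have hdx' : (0 : ℝ) < dx := by exact_mod_cast hdx
  have hdy' : (0 : ℝ) < dy := by exact_mod_cast hdy
  have U0 : ((x0 - gi : ℕ) : ℝ) ≤ dx * u := cast_sub_le (by linarith) (by positivity)
  have U1 : (dx : ℝ) * u ≤ ((x1 - gi : ℕ) : ℝ) := le_trans (by linarith) (cast_sub_ge _ _)
  have V0 : ((y0 - gj : ℕ) : ℝ) ≤ dy * v := cast_sub_le (by linarith) (by positivity)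
  have V1 : (dy : ℝ) * v ≤ ((y1 - gj : ℕ) : ℝ) := le_trans (by linarith) (cast_sub_ge _ _)
  have m1 : ∀ {s t : ℝ}, s ≤ t → (dx : ℝ) * s ≤ dx * t := fun h => mul_le_mul_of_nonneg_left h hdx'.le
  have m2 : ∀ {s t : ℝ}, s ≤ t → (dy : ℝ) * s ≤ dy * t := fun h => mul_le_mul_of_nonneg_left h hdy'.le
  rw [Bool.or_eq_true] at h
  rcases h with h | h
  · have h1 : NXs ≤ x0 + y0 := Nat.le_of_ble_eq_true h
    have h2 := cast_div_le h1
    push_cast at h2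
    have h3 : ((x0 : ℝ) + y0) / 2048 = (x0 : ℝ) / 2048 + (y0 : ℝ) / 2048 := by ring
    rw [h3] at h2
    have := NXs_gt
    have := hD.xy
    linarith
  simp only [Bool.or_eq_true, Bool.and_eq_true, Nat.blt_eq] at h
  rcases h with (⟨h1, h2⟩ | ⟨⟨h1, h1'⟩, h2⟩) | h
  · -- order test, v ≤ u
    have h1' : q ≤ 2 := Nat.le_of_ble_eq_true h1
    have hvu : v ≤ u := by
      unfold Ord8 at hq
      rcases hq with ⟨h, _, _⟩ | ⟨h, _, _⟩ | ⟨h, _, _⟩ | ⟨h, _, _⟩ | ⟨h, _, _⟩ | ⟨h, _, _⟩ | ⟨h, _⟩ |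
        ⟨h, _⟩ <;> linarith
    have h3 : (((x1 - gi) * dy : ℕ) : ℝ) < (((y0 - gj) * dx : ℕ) : ℝ) := by exact_mod_cast h2
    rw [Nat.cast_mul, Nat.cast_mul] at h3
    have h4 := mul_le_mul_of_nonneg_right U1 hdy'.le
    have h5 := mul_le_mul_of_nonneg_right V0 hdx'.le
    have h6 := mul_le_mul_of_nonneg_left hvu (mul_pos hdx' hdy').le
    nlinarith
  · have h1a : 3 ≤ q := Nat.le_of_ble_eq_true h1
    have h1b : q ≤ 5 := Nat.le_of_ble_eq_true h1'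
    have huv : u ≤ v := by
      unfold Ord8 at hq
      rcases hq with ⟨h, _, _⟩ | ⟨h, _, _⟩ | ⟨h, _, _⟩ | ⟨h, _, _⟩ | ⟨h, _, _⟩ | ⟨h, _, _⟩ | ⟨h, _⟩ |
        ⟨h, _⟩ <;> linarith
    have h3 : (((y1 - gj) * dx : ℕ) : ℝ) < (((x0 - gi) * dy : ℕ) : ℝ) := by exact_mod_cast h2
    rw [Nat.cast_mul, Nat.cast_mul] at h3
    have h4 := mul_le_mul_of_nonneg_right V1 hdx'.le
    have h5 := mul_le_mul_of_nonneg_right U0 hdy'.le
    have h6 := mul_le_mul_of_nonneg_left huv (mul_pos hdx' hdy').le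
    nlinarith
  · have c01 : ((0 : ℕ) : ℝ) ≤ ((1 : ℕ) : ℝ) * w := by simpa using hw0
    have c11 : ((1 : ℕ) : ℝ) * w ≤ ((1 : ℕ) : ℝ) := by simpa using hw1
    rcases hq with ⟨rfl, g1, g2⟩ | ⟨rfl, g1, g2⟩ | ⟨rfl, g1, g2⟩ | ⟨rfl, g1, g2⟩ | ⟨rfl, g1, g2⟩ |
      ⟨rfl, g1, g2⟩ | ⟨rfl, g1⟩ | ⟨rfl, g1⟩
    · exact exclW_sound h hx0 hx1 hy0 hy1 hp hD c01 ((m2 g1).trans V1)
    · exact exclW_sound h hx0 hx1 hy0 hy1 hp hD (V0.trans (m2 g1)) ((m1 g2).trans U1)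
    · exact exclW_sound h hx0 hx1 hy0 hy1 hp hD (U0.trans (m1 g2)) c11
    · exact exclW_sound h hx0 hx1 hy0 hy1 hp hD c01 ((m1 g1).trans U1)
    · exact exclW_sound h hx0 hx1 hy0 hy1 hp hD (U0.trans (m1 g1)) ((m2 g2).trans V1)
    · exact exclW_sound h hx0 hx1 hy0 hy1 hp hD (V0.trans (m2 g2)) c11
    · exact exclW_sound h hx0 hx1 hy0 hy1 hp hD c01 ((m1 g1).trans U1)
    · exact exclW_sound h hx0 hx1 hy0 hy1 hp hD (U0.trans (m1 g1)) c11

end Pool.Agent.H962
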