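import Pool.Agent.H962.TabData
import Pool.Agent.H962.Sound3

/-!
# Correctness of the tables
-/

set_option autoImplicit false

open Real Set

namespace Pool.Agent.H962

lemma chainOK_step {s c : ℕ → ℤ} {s1 c1 : ℤ} : ∀ {N : ℕ}, chainOK s c s1 c1 N = true →
    ∀ m, m < N → stepOK s c s1 c1 m = true := by
  intro N
  induction N with
  | zero => intro _ m hm; omega
  | succ N ih =>
    intro h m hm
    unfold chainOK at h
    rw [Bool.and_eq_true] at h
    rcases Nat.lt_succ_iff_lt_or_eq.mp hm with h1 | h1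
    · exact ih h.2 m h1
    · rw [h1]; exact h.1

/-- error of the product with one exact factor -/
lemma rot_term {z e ε S c1 σ κ g : ℝ} (hz : 0 < z) (he : e ≤ z)
    (h1 : |S - z * σ| ≤ e) (h2 : |c1 - z * κ| ≤ ε) (hσ : |σ| ≤ 1) (hκ : |κ| ≤ g) :
    |S * c1 - z * z * (σ * κ)| ≤ e * z * g + 2 * z * ε := by
  have he0 : 0 ≤ e := (abs_nonneg _).trans h1
  have e1 : S * c1 - z * z * (σ * κ) = (S - z * σ) * (z * κ) + S * (c1 - z * κ) := by ring
  have hS : |S| ≤ 2 * z := by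
    have : S = (S - z * σ) + z * σ := by ring
    rw [this]
    calc _ ≤ |S - z * σ| + |z * σ| := abs_add_le _ _
      _ ≤ e + z * 1 := by
        rw [abs_mul, abs_of_pos hz]
        exact add_le_add h1 (mul_le_mul_of_nonneg_left hσ hz.le)
      _ ≤ 2 * z := by linarith
  rw [e1]
  calc _ ≤ |(S - z * σ) * (z * κ)| + |S * (c1 - z * κ)| := abs_add_le _ _
    _ ≤ e * (z * g) + (2 * z) * ε := by
      rw [abs_mul, abs_mul, abs_mul, abs_of_pos hz]
      refine add_le_add (mul_le_mul h1 (mul_le_mul_of_nonneg_left hκ hz.le) (by positivity) he0) ?_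
      exact mul_le_mul hS h2 (abs_nonneg _) (by positivity)
    _ = _ := by ring

lemma rot_chain {s c : ℕ → ℤ} {N : ℕ} {θ ε : ℝ} {s1 c1 : ℤ} (hθ : 0 < θ) (hε : 0 ≤ ε)
    (h0 : s 0 = 0) (h0' : c 0 = 1125899906842624)
    (hs1 : |(s1 : ℝ) - 1125899906842624 * sin θ| ≤ ε)
    (hc1 : |(c1 : ℝ) - 1125899906842624 * cos θ| ≤ ε)
    (hstep : chainOK s c s1 c1 N = true)
    (hN : (4 * ε + 2) * ((1 + θ) ^ N - 1) / θ ≤ 1125899906842624) :
    ∀ m, m ≤ N → |(s m : ℝ) - 1125899906842624 * sin (m * θ)| ≤ (4 * ε + 2) * ((1 + θ) ^ m - 1) / θ ∧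
      |(c m : ℝ) - 1125899906842624 * cos (m * θ)| ≤ (4 * ε + 2) * ((1 + θ) ^ m - 1) / θ := by
  set z : ℝ := 1125899906842624 with hzdef
  have hz : 0 < z := by norm_num [hzdef]
  intro m
  induction m with
  | zero =>
    intro _
    rw [h0, h0']
    constructor <;> simp [hzdef]
  | succ m ih =>
    intro hm
    obtain ⟨i1, i2⟩ := ih (by omega)
    set e : ℝ := (4 * ε + 2) * ((1 + θ) ^ m - 1) / θ with hedef
    have hez : e ≤ z := by
      refine le_trans ?_ hN
      rw [hedef]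
      apply div_le_div_of_nonneg_right _ hθ.le
      apply mul_le_mul_of_nonneg_left _ (by positivity)
      have : (1 + θ) ^ m ≤ (1 + θ) ^ N := pow_le_pow_right₀ (by linarith) (by omega)
      linarith
    have he' : (4 * ε + 2) * ((1 + θ) ^ (m + 1) - 1) / θ = (1 + θ) * e + (4 * ε + 2) := by
      rw [hedef, pow_succ]; field_simp; ring
    rw [he']
    have hst := chainOK_step hstep m (by omega)
    unfold stepOK at hst
    simp only [Bool.and_eq_true, decide_eq_true_eq] at hst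
    obtain ⟨⟨⟨t1, t2⟩, t3⟩, t4⟩ := hst
    have t1' : (s (m + 1) : ℝ) * z - ((s m : ℝ) * c1 + (c m : ℝ) * s1) ≤ 2 * z := by
      have : ((s (m + 1) * 1125899906842624 - (s m * c1 + c m * s1) : ℤ) : ℝ) ≤
        ((2251799813685248 : ℤ) : ℝ) := by exact_mod_cast t1
      push_cast at this; rw [hzdef]; linarith
    have t2' : -(2 * z) ≤ (s (m + 1) : ℝ) * z - ((s m : ℝ) * c1 + (c m : ℝ) * s1) := by
      have : ((-2251799813685248 : ℤ) : ℝ) ≤
        ((s (m + 1) * 1125899906842624 - (s m * c1 + c m * s1) : ℤ) : ℝ) := by exact_mod_cast t2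
      push_cast at this; rw [hzdef]; linarith
    have t3' : (c (m + 1) : ℝ) * z - ((c m : ℝ) * c1 - (s m : ℝ) * s1) ≤ 2 * z := by
      have : ((c (m + 1) * 1125899906842624 - (c m * c1 - s m * s1) : ℤ) : ℝ) ≤
        ((2251799813685248 : ℤ) : ℝ) := by exact_mod_cast t3
      push_cast at this; rw [hzdef]; linarith
    have t4' : -(2 * z) ≤ (c (m + 1) : ℝ) * z - ((c m : ℝ) * c1 - (s m : ℝ) * s1) := by
      have : ((-2251799813685248 : ℤ) : ℝ) ≤
        ((c (m + 1) * 1125899906842624 - (c m * c1 - s m * s1) : ℤ) : ℝ) := by exact_mod_cast t4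
      push_cast at this; rw [hzdef]; linarith
    have hsθ : |sin θ| ≤ θ := by
      have : |sin θ| ≤ |θ| := abs_sin_le_abs
      rwa [abs_of_pos hθ] at this
    have r1 := rot_term hz hez i1 hc1 (abs_sin_le_one _) (abs_cos_le_one _)
    have r2 := rot_term hz hez i2 hs1 (abs_cos_le_one _) hsθ
    have r3 := rot_term hz hez i2 hc1 (abs_cos_le_one _) (abs_cos_le_one _)
    have r4 := rot_term hz hez i1 hs1 (abs_sin_le_one _) hsθ
    have hcast : ((m + 1 : ℕ) : ℝ) * θ = m * θ + θ := by push_cast; ring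
    rw [hcast, sin_add, cos_add]
    rw [abs_le] at r1 r2 r3 r4
    obtain ⟨r1, r1'⟩ := r1
    obtain ⟨r2, r2'⟩ := r2
    obtain ⟨r3, r3'⟩ := r3
    obtain ⟨r4, r4'⟩ := r4
    constructor
    · rw [abs_le]
      constructor
      · apply le_of_mul_le_mul_left _ hz; nlinarith
      · apply le_of_mul_le_mul_left _ hz; nlinarith
    · rw [abs_le]
      constructor
      · apply le_of_mul_le_mul_left _ hz; nlinarith
      · apply le_of_mul_le_mul_left _ hz; nlinarith

lemma fine_check : chainOK tSf tCf (tSf 1) (tCf 1) 256 = true := by decide +kernel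

lemma coarse_check : chainOK tSc tCc (tSf 256) (tCf 256) 223 = true := by decide +kernel

lemma fine_zero : tSf 0 = 0 ∧ tCf 0 = 1125899906842624 ∧ tSc 0 = 0 ∧ tCc 0 = 1125899906842624 ∧
    tSf 1 = 68719476693 ∧ tCf 1 = 1125899904745472 := by decide +kernel

lemma fine_ok : ∀ m, m ≤ 256 → |(tSf m : ℝ) - 1125899906842624 * sin (m * (1 / 16384))| ≤ 1600 ∧
      |(tCf m : ℝ) - 1125899906842624 * cos (m * (1 / 16384))| ≤ 1600 := by
  have hs := sin_bound (x := 1 / 16384) (by norm_num)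
  have hc := cos_bound (x := 1 / 16384) (by norm_num)
  rw [abs_of_pos (by norm_num : (0 : ℝ) < 1 / 16384)] at hs hc
  rw [abs_le] at hs hc
  obtain ⟨h0, h0', _, _, h1, h1'⟩ := fine_zero
  have hch := rot_chain (s := tSf) (c := tCf) (N := 256) (θ := 1 / 16384) (ε := 1) (s1 := tSf 1)
    (c1 := tCf 1) (by norm_num) (by norm_num) h0 h0'
    (by rw [h1, abs_le]; push_cast; constructor <;> nlinarith [hs.1, hs.2])
    (by rw [h1', abs_le]; push_cast; constructor <;> nlinarith [hc.1, hc.2]) fine_check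
    (by norm_num)
  intro m hm
  obtain ⟨i1, i2⟩ := hch m hm
  have hb : (4 * (1 : ℝ) + 2) * ((1 + 1 / 16384) ^ m - 1) / (1 / 16384) ≤ 1600 := by
    have h2 : (1 + 1 / 16384 : ℝ) ^ m ≤ (1 + 1 / 16384) ^ 256 := pow_le_pow_right₀ (by norm_num) hm
    have h3 : (4 * (1 : ℝ) + 2) * ((1 + 1 / 16384) ^ 256 - 1) / (1 / 16384) ≤ 1600 := by norm_num
    refine le_trans ?_ h3
    apply div_le_div_of_nonneg_right _ (by norm_num)
    linarith
  exact ⟨i1.trans hb, i2.trans hb⟩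

lemma coarse_ok : ∀ m, m ≤ 223 → |(tSc m : ℝ) - 1125899906842624 * sin (m * (1 / 64))| ≤ 13000000 ∧
      |(tCc m : ℝ) - 1125899906842624 * cos (m * (1 / 64))| ≤ 13000000 := by
  obtain ⟨i1, i2⟩ := fine_ok 256 le_rfl
  obtain ⟨_, _, h0, h0', _, _⟩ := fine_zero
  have e : ((256 : ℕ) : ℝ) * (1 / 16384) = 1 / 64 := by norm_num
  rw [e] at i1 i2
  have hch := rot_chain (s := tSc) (c := tCc) (N := 223) (θ := 1 / 64) (ε := 1600)
    (by norm_num) (by norm_num) h0 h0' i1 i2 coarse_check (by norm_num)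
  intro m hm
  obtain ⟨i1, i2⟩ := hch m hm
  have hb : (4 * (1600 : ℝ) + 2) * ((1 + 1 / 64) ^ m - 1) / (1 / 64) ≤ 13000000 := by
    have h2 : (1 + 1 / 64 : ℝ) ^ m ≤ (1 + 1 / 64) ^ 223 := pow_le_pow_right₀ (by norm_num) hm
    have h3 : (4 * (1600 : ℝ) + 2) * ((1 + 1 / 64) ^ 223 - 1) / (1 / 64) ≤ 13000000 := by norm_num
    refine le_trans ?_ h3
    apply div_le_div_of_nonneg_right _ (by norm_num)
    linarith
  exact ⟨i1.trans hb, i2.trans hb⟩

lemma div_mod_real (n : ℕ) : (n : ℝ) / 16384 = ((n / 256 : ℕ) : ℝ) * (1 / 64) +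
    ((n % 256 : ℕ) : ℝ) * (1 / 16384) := by
  have h : n = 256 * (n / 256) + n % 256 := (Nat.div_add_mod n 256).symm
  have h2 : (n : ℝ) = 256 * ((n / 256 : ℕ) : ℝ) + ((n % 256 : ℕ) : ℝ) := by exact_mod_cast h
  rw [h2]
  have e1 : ((256 * (n / 256) + n % 256 : ℕ) : ℝ) = (n : ℝ) := by rw [← h]
  ring

/-- The tables are correct. -/
theorem tab_ok : ∀ n : ℕ, n ≤ NT → |(tabS n : ℝ) - (ZZ : ℝ) * sin ((n : ℝ) / 16384)| ≤ (EE : ℝ) ∧
    |(tabC n : ℝ) - (ZZ : ℝ) * cos ((n : ℝ) / 16384)| ≤ (EE : ℝ) := by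
  intro n hn
  set z : ℝ := 1125899906842624 with hzdef
  have hz : 0 < z := by norm_num [hzdef]
  have hZ : (ZZ : ℝ) = z * z := by unfold ZZ; rw [hzdef]; norm_num
  have hE : (EE : ℝ) = z * 16777216 := by unfold EE; rw [hzdef]; norm_num
  have hm : n / 256 ≤ 223 := by unfold NT at hn; omega
  have hr : n % 256 ≤ 256 := (Nat.mod_lt n (by norm_num)).le
  obtain ⟨c1, c2⟩ := coarse_ok (n / 256) hm
  obtain ⟨f1, f2⟩ := fine_ok (n % 256) hr
  rw [div_mod_real n, sin_add, cos_add]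
  have hfs : |sin (((n % 256 : ℕ) : ℝ) * (1 / 16384))| ≤ 1 / 64 := by
    have h1 : |sin (((n % 256 : ℕ) : ℝ) * (1 / 16384))| ≤ |((n % 256 : ℕ) : ℝ) * (1 / 16384)| :=
      abs_sin_le_abs
    refine h1.trans ?_
    rw [abs_of_nonneg (by positivity)]
    have : ((n % 256 : ℕ) : ℝ) ≤ 256 := by exact_mod_cast hr
    linarith
  have hez : (13000000 : ℝ) ≤ z := by norm_num [hzdef]
  have r1 := rot_term hz hez c1 f2 (abs_sin_le_one _) (abs_cos_le_one _)
  have r2 := rot_term hz hez c2 f1 (abs_cos_le_one _) hfs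
  have r3 := rot_term hz hez c2 f2 (abs_cos_le_one _) (abs_cos_le_one _)
  have r4 := rot_term hz hez c1 f1 (abs_sin_le_one _) hfs
  have eS : (tabS n : ℝ) = (tSc (n / 256) : ℝ) * tCf (n % 256) + (tCc (n / 256) : ℝ) * tSf (n % 256) := by
    have : tabS n = tSc (n / 256) * tCf (n % 256) + tCc (n / 256) * tSf (n % 256) := rfl
    rw [this]; push_cast; ring
  have eC : (tabC n : ℝ) = (tCc (n / 256) : ℝ) * tCf (n % 256) - (tSc (n / 256) : ℝ) * tSf (n % 256) := by
    have : tabC n = tCc (n / 256) * tCf (n % 256) - tSc (n / 256) * tSf (n % 256) := rfl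
    rw [this]; push_cast; ring
  rw [eS, eC, hZ, hE]
  rw [abs_le] at r1 r2 r3 r4
  obtain ⟨r1, r1'⟩ := r1
  obtain ⟨r2, r2'⟩ := r2
  obtain ⟨r3, r3'⟩ := r3
  obtain ⟨r4, r4'⟩ := r4
  constructor
  · rw [abs_le]; constructor <;> nlinarith
  · rw [abs_le]; constructor <;> nlinarith

end Pool.Agent.H962
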