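import Pool.Agent.H962.KTabData
import Pool.Agent.H962.Table

/-!
# Coarse tables with nonnegative entries
-/

set_option autoImplicit false

open Real Set

namespace Pool.Agent.H962

/-- evaluation of an argument before use -/
def force {β : Type} (n : ℕ) (f : ℕ → β) : β := Nat.casesOn n (f 0) (fun m => f (Nat.succ m))

lemma force_eq {β : Type} (n : ℕ) (f : ℕ → β) : force n f = f n := by
  cases n <;> rfl

/-- a loop -/
def allLt (f : ℕ → Bool) (n : ℕ) : Bool :=
  Nat.rec (motive := fun _ => Bool) true (fun i ih => bif f i then ih else false) n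

lemma allLt_spec {f : ℕ → Bool} : ∀ {n : ℕ}, allLt f n = true → ∀ i, i < n → f i = true := by
  intro n
  induction n with
  | zero => intro _ i hi; omega
  | succ n ih =>
    intro h i hi
    have h' : (bif f n then allLt f n else false) = true := h
    rcases hf : f n with _ | _
    · rw [hf] at h'; simp at h'
    · rw [hf] at h'
      simp only [cond_true] at h'
      rcases Nat.lt_succ_iff_lt_or_eq.mp hi with h1 | h1
      · exact ih h' i h1
      · rw [h1]; exact hf

/-- sine table with scale `2 ^ 48` and step `1 / 2048` -/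
def tS2 (n : ℕ) : ℕ := Nat.land (Nat.shiftRight pS2 (Nat.mul (nat_lit 50) n)) (nat_lit 1125899906842623)
/-- table of `1 + cos` -/
def tC2 (n : ℕ) : ℕ := Nat.land (Nat.shiftRight pC2 (Nat.mul (nat_lit 50) n)) (nat_lit 1125899906842623)

def Zs : ℕ := nat_lit 281474976710656
def Es : ℕ := nat_lit 4194308
def NPs : ℕ := nat_lit 6433
def NXs : ℕ := nat_lit 6434

def chkTab (n : ℕ) : Bool :=
  force n fun n =>
  force (Nat.mul (nat_lit 8) n) fun m =>
  Nat.blt NPs n ||
  (decide (tabS m - (tS2 n : ℤ) * 4503599627370496 ≤ 18014398509481984) &&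
  decide (-18014398509481984 ≤ tabS m - (tS2 n : ℤ) * 4503599627370496) &&
  decide (tabC m + ZZ - (tC2 n : ℤ) * 4503599627370496 ≤ 18014398509481984) &&
  decide (-18014398509481984 ≤ tabC m + ZZ - (tC2 n : ℤ) * 4503599627370496))

lemma chkTab_all : allLt (fun a => allLt (fun b => chkTab (Nat.add (Nat.mul 100 a) b)) 100) 65 = true := by
  decide +kernel

theorem tab2_ok : ∀ n : ℕ, n ≤ NPs →
    |(tS2 n : ℝ) - (Zs : ℝ) * sin ((n : ℝ) / 2048)| ≤ (Es : ℝ) ∧
    |(tC2 n : ℝ) - (Zs : ℝ) * (1 + cos ((n : ℝ) / 2048))| ≤ (Es : ℝ) := by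
  intro n hn
  have hn' : n ≤ 6433 := hn
  have h1 := allLt_spec (allLt_spec chkTab_all (n / 100) (by omega)) (n % 100) (by omega)
  have e : Nat.add (Nat.mul 100 (n / 100)) (n % 100) = n := Nat.div_add_mod n 100
  simp only [e] at h1
  unfold chkTab at h1
  rw [force_eq, force_eq] at h1
  have hblt : Nat.blt NPs n = false := by
    rw [← Bool.not_eq_true, Nat.blt_eq]; exact not_lt.mpr hn
  simp only [hblt, Bool.false_or, Bool.and_eq_true, decide_eq_true_eq] at h1
  obtain ⟨⟨⟨h1, h2⟩, h3⟩, h4⟩ := h1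
  have hm : Nat.mul 8 n ≤ NT := by
    have : Nat.mul 8 n = 8 * n := rfl
    rw [this]; unfold NT; omega
  obtain ⟨t1, t2⟩ := tab_ok (Nat.mul 8 n) hm
  have e2 : ((Nat.mul 8 n : ℕ) : ℝ) / 16384 = (n : ℝ) / 2048 := by
    have : Nat.mul 8 n = 8 * n := rfl
    rw [this]; push_cast; ring
  rw [e2] at t1 t2
  have hZZ : (ZZ : ℝ) = 1267650600228229401496703205376 := by unfold ZZ; norm_num
  have hEE : (EE : ℝ) = 18889465931478580854784 := by unfold EE; norm_num
  have hZs : (Zs : ℝ) = 281474976710656 := by unfold Zs; norm_num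
  have hEs : (Es : ℝ) = 4194308 := by unfold Es; norm_num
  rw [hZZ, hEE] at t1 t2
  rw [hZs, hEs]
  have h1' : (tabS (Nat.mul 8 n) : ℝ) - (tS2 n : ℝ) * 4503599627370496 ≤ 18014398509481984 := by
    exact_mod_cast h1
  have h2' : (-18014398509481984 : ℝ) ≤ (tabS (Nat.mul 8 n) : ℝ) - (tS2 n : ℝ) * 4503599627370496 := by
    exact_mod_cast h2
  have h3' : (tabC (Nat.mul 8 n) : ℝ) + ZZ - (tC2 n : ℝ) * 4503599627370496 ≤ 18014398509481984 := by
    exact_mod_cast h3
  have h4' : (-18014398509481984 : ℝ) ≤ (tabC (Nat.mul 8 n) : ℝ) + ZZ - (tC2 n : ℝ) * 4503599627370496 := by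
    exact_mod_cast h4
  rw [hZZ] at h3' h4'
  rw [abs_le] at t1 t2
  obtain ⟨t1, t1'⟩ := t1
  obtain ⟨t2, t2'⟩ := t2
  constructor
  · rw [abs_le]; constructor <;> nlinarith
  · rw [abs_le]; constructor <;> nlinarith

end Pool.Agent.H962
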