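import Pool.Agent.H962.Circle

/-!
# The potential when an endpoint of the chord moves along the circle
-/

set_option autoImplicit false

open Real

namespace Pool.Agent.H962

/-- A circle which meets the axis in `(z, 0)` (right intersection). -/
structure Circ (c1 c2 ρ γ z : ℝ) : Prop where
  hρ : 0 < ρ
  hγ1 : -(π / 2) < γ
  hγ2 : γ < π / 2
  hz : z = c1 + ρ * cos γ
  hc : c2 = -ρ * sin γ

/-- the point lies on the circle -/
def On (c1 c2 ρ p1 p2 : ℝ) : Prop := (p1 - c1) ^ 2 + (p2 - c2) ^ 2 = ρ ^ 2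

/-- orientation: `q` lies to the right of the chord from `a` (top) to `b` (bottom) -/
def ori (a1 a2 b1 b2 q1 q2 : ℝ) : ℝ := (b1 - a1) * (q2 - a2) - (b2 - a2) * (q1 - a1)

section

variable {c1 c2 ρ γ z a1 a2 b1 b2 q1 q2 Da Db Dq : ℝ}

lemma Circ.mirror (h : Circ c1 c2 ρ γ z) : Circ c1 (-c2) ρ (-γ) z :=
  ⟨h.hρ, by linarith [h.hγ2], by linarith [h.hγ1], by rw [cos_neg]; exact h.hz,
    by rw [sin_neg, h.hc]; ring⟩

lemma On.mirror {p1 p2 : ℝ} (h : On c1 c2 ρ p1 p2) : On c1 (-c2) ρ p1 (-p2) := by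
  unfold On at *; rw [← h]; ring

lemma Pot.F_circ (p : Pot) (h : Circ c1 c2 ρ γ z) (ha : 0 < a2) (hb : b2 < 0)
    (hca : On c1 c2 ρ a1 a2) (hcb : On c1 c2 ρ b1 b2) :
    p.F a1 a2 b1 b2 Da Db z = (1 - p.l) / 2 * Da + (1 + p.l) / 2 * Db
      + ρ * ((p.a - p.b) * ang a1 a2 z + (p.a + p.b) * ang b1 (-b2) z + 2 * p.b * γ + p.k) := by
  obtain ⟨_, h2, _⟩ := chord_data h.hρ h.hγ1 h.hγ2 h.hz h.hc ha hb hca hcb
  obtain ⟨h3, h4⟩ := hxy_data h.hρ h.hγ1 h.hγ2 h.hz h.hc ha hb hca hcb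
  unfold Pot.F
  rw [h2, h3, h4]
  ring

lemma ang_le_upper (h : Circ c1 c2 ρ γ z) (ha : 0 < a2) (hb : b2 < 0) (hq : 0 < q2)
    (hca : On c1 c2 ρ a1 a2) (hcb : On c1 c2 ρ b1 b2) (hcq : On c1 c2 ρ q1 q2)
    (ho : 0 < ori a1 a2 b1 b2 q1 q2) : ang q1 q2 z < ang a1 a2 z := by
  obtain ⟨h1, _, _⟩ := chord_data h.hρ h.hγ1 h.hγ2 h.hz h.hc ha hb hca hcb
  obtain ⟨h2, _, _⟩ := chord_data h.hρ h.hγ1 h.hγ2 h.hz h.hc hq hb hcq hcb
  have h3 : tilt q1 q2 b1 b2 < tilt a1 a2 b1 b2 := by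
    unfold tilt
    apply arctan_strictMono
    rw [div_lt_div_iff₀ (by linarith) (by linarith)]
    unfold ori at ho
    nlinarith
  linarith

lemma ang_le_lower (h : Circ c1 c2 ρ γ z) (ha : 0 < a2) (hb : b2 < 0) (hq : q2 < 0)
    (hca : On c1 c2 ρ a1 a2) (hcb : On c1 c2 ρ b1 b2) (hcq : On c1 c2 ρ q1 q2)
    (ho : 0 < ori a1 a2 b1 b2 q1 q2) : ang q1 (-q2) z < ang b1 (-b2) z := by
  obtain ⟨h1, _, _⟩ := chord_data h.hρ h.hγ1 h.hγ2 h.hz h.hc ha hb hca hcb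
  obtain ⟨h2, _, _⟩ := chord_data h.hρ h.hγ1 h.hγ2 h.hz h.hc ha hq hca hcq
  have h3 : tilt a1 a2 b1 b2 < tilt a1 a2 q1 q2 := by
    unfold tilt
    apply arctan_strictMono
    rw [div_lt_div_iff₀ (by linarith) (by linarith)]
    unfold ori at ho
    nlinarith
  linarith

lemma upper_chord' (h : Circ c1 c2 ρ γ z) (ha : 0 < a2) (hq : 0 < q2)
    (hca : On c1 c2 ρ a1 a2) (hcq : On c1 c2 ρ q1 q2) (hle : ang q1 q2 z ≤ ang a1 a2 z) :
    ed a1 a2 q1 q2 ≤ 2 * ρ * (ang a1 a2 z - ang q1 q2 z) :=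
  upper_chord h.hρ h.hγ1 h.hγ2 h.hz h.hc ha hq hca hcq hle

lemma lower_chord' (h : Circ c1 c2 ρ γ z) (hb : b2 < 0) (hq : q2 < 0)
    (hcb : On c1 c2 ρ b1 b2) (hcq : On c1 c2 ρ q1 q2) (hle : ang q1 (-q2) z ≤ ang b1 (-b2) z) :
    ed b1 b2 q1 q2 ≤ 2 * ρ * (ang b1 (-b2) z - ang q1 (-q2) z) := by
  have := upper_chord' h.mirror (by linarith : 0 < -b2) (by linarith : 0 < -q2) hcb.mirror
    hcq.mirror hle
  have e : ed b1 (-b2) q1 (-q2) = ed b1 b2 q1 q2 := by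
    unfold ed; congr 1; ring
  rwa [e] at this

variable {n : ℕ} {t : ℝ} {F : Fin n → Pot}

lemma move_upper (hF : Good t F) (h : Circ c1 c2 ρ γ z) (ha : 0 < a2) (hb : b2 < 0) (hq : 0 < q2)
    (hca : On c1 c2 ρ a1 a2) (hcb : On c1 c2 ρ b1 b2) (hcq : On c1 c2 ρ q1 q2)
    (ho : 0 < ori a1 a2 b1 b2 q1 q2) (hD : Dq ≤ Da + ed a1 a2 q1 q2) (i : Fin n) :
    (F i).F q1 q2 b1 b2 Dq Db z ≤ (F i).F a1 a2 b1 b2 Da Db z := by
  rw [(F i).F_circ h ha hb hca hcb, (F i).F_circ h hq hb hcq hcb]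
  have h1 := ang_le_upper h ha hb hq hca hcb hcq ho
  have h2 := upper_chord' h ha hq hca hcq h1.le
  have h3 := hF.hA i
  have h4 := abs_le.mp (hF.l_le i)
  have hρ := h.hρ
  have h5 : (1 - (F i).l) / 2 * Dq ≤ (1 - (F i).l) / 2 * (Da + 2 * ρ * (ang a1 a2 z - ang q1 q2 z)) :=
    mul_le_mul_of_nonneg_left (by linarith) (by linarith)
  have h6 : (1 - (F i).l) * (ρ * (ang a1 a2 z - ang q1 q2 z))
      ≤ ((F i).a - (F i).b) * (ρ * (ang a1 a2 z - ang q1 q2 z)) :=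
    mul_le_mul_of_nonneg_right h3 (mul_nonneg hρ.le (by linarith))
  nlinarith

lemma move_lower (hF : Good t F) (h : Circ c1 c2 ρ γ z) (ha : 0 < a2) (hb : b2 < 0) (hq : q2 < 0)
    (hca : On c1 c2 ρ a1 a2) (hcb : On c1 c2 ρ b1 b2) (hcq : On c1 c2 ρ q1 q2)
    (ho : 0 < ori a1 a2 b1 b2 q1 q2) (hD : Dq ≤ Db + ed b1 b2 q1 q2) (i : Fin n) :
    (F i).F a1 a2 q1 q2 Da Dq z ≤ (F i).F a1 a2 b1 b2 Da Db z := by
  rw [(F i).F_circ h ha hb hca hcb, (F i).F_circ h ha hq hca hcq]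
  have h1 := ang_le_lower h ha hb hq hca hcb hcq ho
  have h2 := lower_chord' h hb hq hcb hcq h1.le
  have h3 := hF.hB i
  have h4 := abs_le.mp (hF.l_le i)
  have hρ := h.hρ
  have h5 : (1 + (F i).l) / 2 * Dq
      ≤ (1 + (F i).l) / 2 * (Db + 2 * ρ * (ang b1 (-b2) z - ang q1 (-q2) z)) :=
    mul_le_mul_of_nonneg_left (by linarith) (by linarith)
  have h6 : (1 + (F i).l) * (ρ * (ang b1 (-b2) z - ang q1 (-q2) z))
      ≤ ((F i).a + (F i).b) * (ρ * (ang b1 (-b2) z - ang q1 (-q2) z)) :=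
    mul_le_mul_of_nonneg_right h3 (mul_nonneg hρ.le (by linarith))
  nlinarith

/-- The first triangle. -/
lemma start_pot (hF : Good t F) (h : Circ c1 c2 ρ γ z) (ha : 0 < a2) (hb : b2 < 0)
    (hca : On c1 c2 ρ a1 a2) (hcb : On c1 c2 ρ b1 b2) {u1 : ℝ} (hu : u1 = c1 - ρ * cos γ) :
    ∃ i, (F i).F a1 a2 b1 b2 (ed u1 0 a1 a2) (ed u1 0 b1 b2) z ≤ t * (z - u1) := by
  obtain ⟨i, hi⟩ := hF.start γ h.hγ1 h.hγ2
  refine ⟨i, ?_⟩
  rw [(F i).F_circ h ha hb hca hcb]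
  have h1 : ed u1 0 a1 a2 ≤ ρ * (π - 2 * ang a1 a2 z) := by
    rw [hu]; exact upper_left h.hρ h.hγ1 h.hγ2 h.hz h.hc ha hca
  have h2 : ed u1 0 b1 b2 ≤ ρ * (π - 2 * ang b1 (-b2) z) := by
    have := upper_left h.mirror.hρ h.mirror.hγ1 h.mirror.hγ2 h.mirror.hz h.mirror.hc
      (by linarith : 0 < -b2) hcb.mirror
    rw [cos_neg, ← hu] at this
    have e : ed u1 0 b1 (-b2) = ed u1 0 b1 b2 := by unfold ed; congr 1; ring
    rwa [e] at this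
  have h3 := hF.hA i
  have h3' := hF.hB i
  have h4 := abs_le.mp (hF.l_le i)
  have hρ := h.hρ
  have hlt := ang_lt a1 a2 z
  have hlt' := ang_lt b1 (-b2) z
  have h5 : (1 - (F i).l) / 2 * ed u1 0 a1 a2 ≤ (1 - (F i).l) / 2 * (ρ * (π - 2 * ang a1 a2 z)) :=
    mul_le_mul_of_nonneg_left h1 (by linarith)
  have h6 : (1 + (F i).l) / 2 * ed u1 0 b1 b2 ≤ (1 + (F i).l) / 2 * (ρ * (π - 2 * ang b1 (-b2) z)) :=
    mul_le_mul_of_nonneg_left h2 (by linarith)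
  have h7 : (1 - (F i).l) * (ρ * (π / 2 - ang a1 a2 z))
      ≤ ((F i).a - (F i).b) * (ρ * (π / 2 - ang a1 a2 z)) :=
    mul_le_mul_of_nonneg_right h3 (mul_nonneg hρ.le (by linarith))
  have h8 : (1 + (F i).l) * (ρ * (π / 2 - ang b1 (-b2) z))
      ≤ ((F i).a + (F i).b) * (ρ * (π / 2 - ang b1 (-b2) z)) :=
    mul_le_mul_of_nonneg_right h3' (mul_nonneg hρ.le (by linarith))
  have h9 : z - u1 = 2 * ρ * cos γ := by rw [hu, h.hz]; ring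
  rw [h9]
  have h10 := mul_le_mul_of_nonneg_left hi hρ.le
  nlinarith

/-- The last step: the target point is the right intersection of the circle. -/
lemma final_pot (hF : Good t F) (h : Circ c1 c2 ρ γ z) (ha : 0 < a2) (hb : b2 < 0)
    (hca : On c1 c2 ρ a1 a2) (hcb : On c1 c2 ρ b1 b2) (i : Fin n) :
    min (Da + ed a1 a2 z 0) (Db + ed b1 b2 z 0) ≤ (F i).F a1 a2 b1 b2 Da Db z := by
  rw [(F i).F_circ h ha hb hca hcb]
  have h1 : ed a1 a2 z 0 ≤ 2 * ρ * (ang a1 a2 z - γ) :=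
    upper_right h.hρ h.hγ1 h.hγ2 h.hz h.hc ha hca
  have h2 : ed b1 b2 z 0 ≤ 2 * ρ * (ang b1 (-b2) z + γ) := by
    have := upper_right h.mirror.hρ h.mirror.hγ1 h.mirror.hγ2 h.mirror.hz h.mirror.hc
      (by linarith : 0 < -b2) hcb.mirror
    have e : ed b1 (-b2) z 0 = ed b1 b2 z 0 := by unfold ed; congr 1; ring
    rw [e, sub_neg_eq_add] at this
    exact this
  obtain ⟨_, _, hY0, _⟩ := upper_point h.hρ h.hγ1 h.hγ2 h.hz h.hc ha hca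
  obtain ⟨_, _, hX0, _⟩ := lower_point h.hρ h.hγ1 h.hγ2 h.hz h.hc hb hcb
  have h3 := hF.hA i
  have h3' := hF.hB i
  have hk := hF.k_nonneg i
  have h4 := abs_le.mp (hF.l_le i)
  have hρ := h.hρ
  set m := min (Da + ed a1 a2 z 0) (Db + ed b1 b2 z 0) with hm
  have h5 : (1 - (F i).l) / 2 * m ≤ (1 - (F i).l) / 2 * (Da + 2 * ρ * (ang a1 a2 z - γ)) :=
    mul_le_mul_of_nonneg_left (by linarith [min_le_left (Da + ed a1 a2 z 0) (Db + ed b1 b2 z 0)])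
      (by linarith)
  have h6 : (1 + (F i).l) / 2 * m ≤ (1 + (F i).l) / 2 * (Db + 2 * ρ * (ang b1 (-b2) z + γ)) :=
    mul_le_mul_of_nonneg_left (by linarith [min_le_right (Da + ed a1 a2 z 0) (Db + ed b1 b2 z 0)])
      (by linarith)
  have h7 : (1 - (F i).l) * (ρ * (ang a1 a2 z - γ))
      ≤ ((F i).a - (F i).b) * (ρ * (ang a1 a2 z - γ)) :=
    mul_le_mul_of_nonneg_right h3 (mul_nonneg hρ.le hY0.le)
  have h8 : (1 + (F i).l) * (ρ * (ang b1 (-b2) z + γ))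
      ≤ ((F i).a + (F i).b) * (ρ * (ang b1 (-b2) z + γ)) :=
    mul_le_mul_of_nonneg_right h3' (mul_nonneg hρ.le hX0.le)
  have h9 : 0 ≤ ρ * (F i).k := mul_nonneg hρ.le hk
  nlinarith

end

end Pool.Agent.H962
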