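import Pool.Agent.H962.Sound3

/-!
# Assembling the chunks of the certificate
-/

set_option autoImplicit false

namespace Pool.Agent.H962

namespace CData

/-- the potentials in a range of indices are checked -/
def Rng (c : CData) (TN : ℤ) (i0 a b : ℕ) : Prop := ∀ i, a ≤ i → i < b →
  c.planeOK TN i = true ∧ ∃ k code, c.strips i k code (bif Nat.beq i i0 then NS else 0) = true

lemma rng_of_allOK {c : CData} {TN : ℤ} {i0 : ℕ} : ∀ (l : List (ℕ × ℕ)) (a b : ℕ),
    c.allOK TN i0 a l = true → a + l.length = b → c.Rng TN i0 a b := by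
  intro l
  induction l with
  | nil => intro a b _ hb i h1 h2; simp at hb; omega
  | cons p ps ih =>
    intro a b h hb i h1 h2
    unfold allOK at h
    simp only [Bool.and_eq_true] at h
    obtain ⟨⟨h3, h4⟩, h5⟩ := h
    rcases h1.eq_or_lt with h6 | h6
    · rw [← h6]
      exact ⟨h3, p.1, p.2, h4⟩
    · exact ih (a + 1) b h5 (by simp at hb; omega) i h6 h2

lemma Rng.trans {c : CData} {TN : ℤ} {i0 a b d : ℕ} (h1 : c.Rng TN i0 a b) (h2 : c.Rng TN i0 b d) :
    c.Rng TN i0 a d := by
  intro i h3 h4
  rcases lt_or_ge i b with h | h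
  · exact h1 i h3 h
  · exact h2 i h h4

end CData

end Pool.Agent.H962
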