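import Pool.Agent.H962.Sound

/-!
# Soundness of the certificate checker, second part
-/

set_option autoImplicit false

open Real Set

namespace Pool.Agent.H962

namespace CData

lemma fL_own {c : CData} {i : ℕ} (h : i < c.n) : c.fL i = c.L i := by
  unfold fL
  have : Nat.blt i c.n = true := by simpa [Nat.blt_eq] using h
  rw [this]; rfl

lemma fA_own {c : CData} {i : ℕ} (h : i < c.n) : c.fA i = c.A i := by
  unfold fA
  have : Nat.blt i c.n = true := by simpa [Nat.blt_eq] using h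
  rw [this]; rfl

lemma fB_own {c : CData} {i : ℕ} (h : i < c.n) : c.fB i = c.B i := by
  unfold fB
  have : Nat.blt i c.n = true := by simpa [Nat.blt_eq] using h
  rw [this]; rfl

lemma fK_own {c : CData} {i : ℕ} (h : i < c.n) : c.fK i = c.K i := by
  unfold fK
  have : Nat.blt i c.n = true := by simpa [Nat.blt_eq] using h
  rw [this]; rfl

lemma fT_own {c : CData} {i : ℕ} (h : i < c.n) : c.fT i = c.T i := by
  unfold fT
  have : Nat.blt i c.n = true := by simpa [Nat.blt_eq] using h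
  rw [this]; rfl

lemma fL_mir {c : CData} {i : ℕ} : c.fL (c.n + i) = - c.L i := by
  unfold fL
  have : Nat.blt (c.n + i) c.n = false := by
    rw [← Bool.not_eq_true]; simp [Nat.blt_eq]
  rw [this]; simp

lemma fA_mir {c : CData} {i : ℕ} : c.fA (c.n + i) = c.B i := by
  unfold fA
  have : Nat.blt (c.n + i) c.n = false := by
    rw [← Bool.not_eq_true]; simp [Nat.blt_eq]
  rw [this]; simp

lemma fB_mir {c : CData} {i : ℕ} : c.fB (c.n + i) = c.A i := by
  unfold fB
  have : Nat.blt (c.n + i) c.n = false := by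
    rw [← Bool.not_eq_true]; simp [Nat.blt_eq]
  rw [this]; simp

lemma fK_mir {c : CData} {i : ℕ} : c.fK (c.n + i) = c.K i := by
  unfold fK
  have : Nat.blt (c.n + i) c.n = false := by
    rw [← Bool.not_eq_true]; simp [Nat.blt_eq]
  rw [this]; simp

lemma fT_mir {c : CData} {i : ℕ} : c.fT (c.n + i) = c.T i := by
  unfold fT
  have : Nat.blt (c.n + i) c.n = false := by
    rw [← Bool.not_eq_true]; simp [Nat.blt_eq]
  rw [this]; simp

lemma POK.bnn {c : CData} {TN : ℤ} {i : ℕ} (h : POK c TN i) : 0 ≤ c.B i := by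
  have := h.b0; have := h.l1; omega

lemma POK.ann {c : CData} {TN : ℤ} {i : ℕ} (h : POK c TN i) : 0 ≤ c.A i := by
  have := h.a0; have := h.l0; unfold DD at *; omega

lemma POK.ab {c : CData} {TN : ℤ} {i : ℕ} (h : POK c TN i) : 0 ≤ c.A i - c.B i := by
  have := h.a0; have := h.l0; have := h.b0; omega

lemma fpos_sound {c : CData} (hT : Tab c) {TN : ℤ} {i e y : ℕ} (hi : i < c.n) (hp : POK c TN i)
    (he : e + y ≤ NT) (h : c.fpos i e y = true) :
    0 < fF (c.T i) (c.A i) (c.B i) (c.K i) ((e : ℝ) / 16384) ((y : ℝ) / 16384) := by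
  unfold fpos at h
  have h2 := of_decide_eq_true h
  have h3 : ((QQ * (2 * c.T i + c.A i + c.B i) * EE * (2 * ZZ + EE) + c.cv i e y * ZZ * EE : ℤ) : ℝ)
      < ((QQ * (2 * c.T i * (c.S e * c.S y) - c.A i * (c.S e * c.C y) - c.B i * (c.C e * c.S y))
      + c.cv i e y * ZZ * c.C (e + y) : ℤ) : ℝ) := by exact_mod_cast h2
  push_cast at h3
  have hZ := Z_pos
  have hE := E_nonneg
  rw [cv_cast] at h3
  have hcr : cr c i ((e : ℝ) / 16384) ((y : ℝ) / 16384) =
      (c.A i : ℝ) * ((e : ℝ) / 16384) + (c.B i : ℝ) * ((y : ℝ) / 16384) + (c.K i : ℝ) := by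
    unfold cr; rw [fA_own hi, fB_own hi, fK_own hi]
  rw [hcr] at h3
  have hA : (0 : ℝ) ≤ c.A i := by exact_mod_cast hp.ann
  have hB : (0 : ℝ) ≤ c.B i := by exact_mod_cast hp.bnn
  have hK : (0 : ℝ) ≤ c.K i := by exact_mod_cast hp.k0
  have hTT : (0 : ℝ) ≤ c.T i := by exact_mod_cast hp.t0
  set X := (c.A i : ℝ) * ((e : ℝ) / 16384) + (c.B i : ℝ) * ((y : ℝ) / 16384) + (c.K i : ℝ) with hX
  have hX0 : 0 ≤ X := by positivity
  have hse := hT.s e (by omega)
  have hsy := hT.s y (by omega)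
  have hce := hT.c e (by omega)
  have hcy := hT.c y (by omega)
  have hcc := hT.c (e + y) he
  have hss := prod_err hZ.le hE hse hsy (abs_sin_le_one _) (abs_sin_le_one _)
  have hsc := prod_err hZ.le hE hse hcy (abs_sin_le_one _) (abs_cos_le_one _)
  have hcs := prod_err hZ.le hE hce hsy (abs_cos_le_one _) (abs_sin_le_one _)
  have hQ : (QQ : ℝ) = 16384 := by unfold QQ; norm_num
  rw [hQ] at h3
  set z : ℝ := (ZZ : ℝ)
  set ε : ℝ := (EE : ℝ)
  have b1 := mul_le_mul_of_nonneg_left (abs_le.mp hss).2 hTT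
  have b2 := mul_le_mul_of_nonneg_left (abs_le.mp hsc).1 hA
  have b3 := mul_le_mul_of_nonneg_left (abs_le.mp hcs).1 hB
  have b4 := mul_le_mul_of_nonneg_left (abs_le.mp hcc).2 (mul_nonneg hX0 hZ.le)
  have hadd : (((e + y : ℕ) : ℝ) / 16384) = (e : ℝ) / 16384 + (y : ℝ) / 16384 := by
    push_cast; ring
  rw [hadd] at b4
  have hfin : 0 < (16384 * (z * z)) *
      fF (c.T i) (c.A i) (c.B i) (c.K i) ((e : ℝ) / 16384) ((y : ℝ) / 16384) := by
    unfold fF
    rw [← hX]
    nlinarith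
  exact (mul_pos_iff_of_pos_left (by positivity)).mp hfin

lemma epos_sound {c : CData} (hT : Tab c) {TN : ℤ} {i e : ℕ} (hp : POK c TN i)
    (he : e ≤ NT) (h : c.epos i e = true) :
    0 < eF (c.T i) (c.A i) (c.B i) (c.K i) ((e : ℝ) / 16384) := by
  unfold epos at h
  have h2 := of_decide_eq_true h
  have h3 : ((10000 * QQ * (2 * c.T i + (c.A i - c.B i)) * EE * (2 * ZZ + EE) +
      (10000 * ((c.A i - c.B i) * Int.ofNat e + c.K i * QQ) + c.B i * QQ * 31416) * ZZ * ZZ : ℤ) : ℝ) <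
    ((10000 * QQ * (2 * c.T i * (c.S e * c.S e) + (c.A i - c.B i) * (c.S e * c.C e)) : ℤ) : ℝ) := by
    exact_mod_cast h2
  push_cast [Int.ofNat_eq_natCast] at h3
  have hZ := Z_pos
  have hE := E_nonneg
  have hAB : (0 : ℝ) ≤ (c.A i : ℝ) - c.B i := by exact_mod_cast hp.ab
  have hB : (0 : ℝ) ≤ c.B i := by exact_mod_cast hp.bnn
  have hTT : (0 : ℝ) ≤ c.T i := by exact_mod_cast hp.t0
  have hse := hT.s e (by omega)
  have hce := hT.c e (by omega)
  have hss := prod_err hZ.le hE hse hse (abs_sin_le_one _) (abs_sin_le_one _)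
  have hsc := prod_err hZ.le hE hse hce (abs_sin_le_one _) (abs_cos_le_one _)
  have hQ : (QQ : ℝ) = 16384 := by unfold QQ; norm_num
  rw [hQ] at h3
  set z : ℝ := (ZZ : ℝ)
  set ε : ℝ := (EE : ℝ)
  have b1 := mul_le_mul_of_nonneg_left (abs_le.mp hss).2 hTT
  have b2 := mul_le_mul_of_nonneg_left (abs_le.mp hsc).2 hAB
  have hpi : (c.B i : ℝ) * π * (z * z) ≤ (c.B i : ℝ) * 3.1416 * (z * z) := by
    apply mul_le_mul_of_nonneg_right _ (by positivity)
    exact mul_le_mul_of_nonneg_left pi_lt_d4.le hB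
  have hfin : 0 < (16384 * 10000 * (z * z)) *
      eF (c.T i) (c.A i) (c.B i) (c.K i) ((e : ℝ) / 16384) := by
    unfold eF
    nlinarith
  exact (mul_pos_iff_of_pos_left (by positivity)).mp hfin

lemma NP_le : ((NP : ℕ) : ℝ) / 16384 ≤ π := by
  have := pi_gt_d6
  unfold NP
  norm_num at this ⊢
  linarith

lemma NX_gt : π < ((NX : ℕ) : ℝ) / 16384 := by
  have := pi_lt_d4
  unfold NX
  norm_num at this ⊢
  linarith

/-- `i` is active at the point -/
def Act (c : CData) (i : ℕ) (x y h : ℝ) : Prop := ∀ j, j < 2 * c.n → V c i x y h ≤ V c j x y h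

lemma loOK_sound {c : CData} (hT : Tab c) {i e0 e1 y0 t j1 j2 : ℕ} (he : e0 < e1)
    (h : c.loOK i e0 e1 y0 t j1 j2 = true) {x y hh : ℝ} (hx0 : (e0 : ℝ) / 16384 ≤ x)
    (hx1 : x ≤ (e1 : ℝ) / 16384) (hy : 0 < y) (hh1 : |hh| ≤ sin (x + y))
    (hact : Act c i x y hh) : (y0 : ℝ) / 16384 < y := by
  unfold loOK at h
  rcases ht0 : Nat.beq t 0 with _ | _
  · rw [ht0] at h
    rcases ht1 : Nat.beq t 1 with _ | _
    · rw [ht1] at h
      simp only [cond_false, Bool.and_eq_true, Nat.blt_eq] at h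
      by_contra hc
      exact pairLo_sound he h.2 hx0 hx1 (not_lt.mp hc) (hact _ h.1.1) (hact _ h.1.2)
    · rw [ht1] at h
      simp only [cond_false, cond_true, Bool.and_eq_true, Nat.blt_eq] at h
      by_contra hc
      exact loS_sound hT he h.2 hx0 hx1 (not_lt.mp hc) hh1 (hact _ h.1)
  · rw [ht0] at h
    simp only [cond_true] at h
    have : y0 = 0 := Nat.eq_of_beq_eq_true h
    rw [this]; simpa using hy

lemma hiOK_sound {c : CData} (hT : Tab c) {i e0 e1 y0 t j1 j2 : ℕ} (he : e0 < e1)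
    (h : c.hiOK i e0 e1 y0 t j1 j2 = true) (ht0 : Nat.beq t 0 = false)
    {x y hh : ℝ} (hx0 : (e0 : ℝ) / 16384 ≤ x)
    (hx1 : x ≤ (e1 : ℝ) / 16384) (hh1 : |hh| ≤ sin (x + y))
    (hact : Act c i x y hh) : y < (y0 : ℝ) / 16384 := by
  unfold hiOK at h
  rw [ht0] at h
  rcases ht1 : Nat.beq t 1 with _ | _
  · rw [ht1] at h
    simp only [cond_false, Bool.and_eq_true, Nat.blt_eq] at h
    by_contra hc
    exact pairHi_sound he h.2 hx0 hx1 (not_lt.mp hc) (hact _ h.1.1) (hact _ h.1.2)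
  · rw [ht1] at h
    simp only [cond_false, cond_true, Bool.and_eq_true, Nat.blt_eq] at h
    by_contra hc
    exact hiS_sound hT he h.2 hx0 hx1 (not_lt.mp hc) hh1 (hact _ h.1)

lemma div_le_div_nat {a b : ℕ} (h : a ≤ b) : (a : ℝ) / 16384 ≤ (b : ℝ) / 16384 := by
  have : (a : ℝ) ≤ b := by exact_mod_cast h
  linarith

lemma stripOK_sound {c : CData} (hT : Tab c) {TN : ℤ} {i e0 e1 ylo lt lj1 lj2 yhi ht hj1 hj2 : ℕ}
    (hi : i < c.n) (hp : POK c TN i)
    (h : c.stripOK i e0 e1 ylo lt lj1 lj2 yhi ht hj1 hj2 = true)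
    {x y hh : ℝ} (hx0 : (e0 : ℝ) / 16384 ≤ x) (hx1 : x ≤ (e1 : ℝ) / 16384) (hy : 0 < y)
    (hxy : x + y ≤ π) (hh1 : |hh| ≤ sin (x + y)) (hact : Act c i x y hh) :
    0 < fF (c.T i) (c.A i) (c.B i) (c.K i) x y := by
  unfold stripOK at h
  simp only [Bool.and_eq_true, Bool.or_eq_true, Nat.blt_eq] at h
  obtain ⟨⟨⟨he, hlo⟩, hhi⟩, hcase⟩ := h
  have hylo := loOK_sound hT he hlo hx0 hx1 hy hh1 hact
  have hA : (0 : ℝ) ≤ c.A i := by exact_mod_cast hp.ann
  have hB : (0 : ℝ) ≤ c.B i := by exact_mod_cast hp.bnn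
  have hTT : (0 : ℝ) ≤ c.T i := by exact_mod_cast hp.t0
  have hNP := NP_le
  have hNX := NX_gt
  have he0 : (0 : ℝ) ≤ (e0 : ℝ) / 16384 := by positivity
  have hy0 : (0 : ℝ) ≤ (ylo : ℝ) / 16384 := by positivity
  rcases hcase with (hv | hr) | hh
  · exfalso
    unfold vac at hv
    simp only [Bool.or_eq_true, Bool.and_eq_true, Bool.not_eq_true'] at hv
    rcases hv with ⟨h1, h2⟩ | h1
    · have h3 := hiOK_sound hT he hhi h1 hx0 hx1 hh1 hact
      have h4 := div_le_div_nat (Nat.le_of_ble_eq_true h2)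
      linarith
    · have h4 := div_le_div_nat (Nat.le_of_ble_eq_true h1)
      push_cast at h4
      have h5 : ((e0 : ℝ) + ylo) / 16384 = (e0 : ℝ) / 16384 + (ylo : ℝ) / 16384 := by ring
      rw [h5] at h4
      linarith
  · unfold rect at hr
    simp only [Bool.and_eq_true, Bool.not_eq_true'] at hr
    obtain ⟨⟨⟨⟨⟨⟨h1, h2⟩, h3⟩, h4⟩, h5⟩, h6⟩, h7⟩ := hr
    have h2' := Nat.le_of_ble_eq_true h2
    have h3' := Nat.le_of_ble_eq_true h3
    have h8 := hiOK_sound hT he hhi h1 hx0 hx1 hh1 hact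
    have h9 := div_le_div_nat h2'
    push_cast at h9
    have h10 : ((e1 : ℝ) + yhi) / 16384 = (e1 : ℝ) / 16384 + (yhi : ℝ) / 16384 := by ring
    rw [h10] at h9
    have hNPT : NP ≤ NT := by unfold NP NT; norm_num
    exact fF_pos_rect hA hB he0 hy0 (by linarith) hx0 hx1 hylo.le h8.le
      (fpos_sound hT hi hp (by omega) h4) (fpos_sound hT hi hp (by omega) h5)
      (fpos_sound hT hi hp (by omega) h6) (fpos_sound hT hi hp (by omega) h7)
  · unfold hyp at hh
    simp only [Bool.and_eq_true] at hh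
    obtain ⟨⟨⟨⟨h1, h2⟩, h3⟩, h4⟩, h5⟩ := hh
    have h1' := Nat.le_of_ble_eq_true h1
    have h9 := div_le_div_nat h1'
    push_cast at h9
    have h10 : ((e1 : ℝ) + ylo) / 16384 = (e1 : ℝ) / 16384 + (ylo : ℝ) / 16384 := by ring
    rw [h10] at h9
    have hNPT : NP ≤ NT := by unfold NP NT; norm_num
    exact fF_pos_hyp hTT hA hB he0 hy0 (by linarith) (by linarith) hx0 hx1 hylo.le hxy
      (fpos_sound hT hi hp (by omega) h2) (fpos_sound hT hi hp (by omega) h3)
      (epos_sound hT hp (by omega) h4) (epos_sound hT hp (by omega) h5)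

lemma strips_sound {c : CData} (hT : Tab c) {TN : ℤ} {i : ℕ} (hi : i < c.n) (hp : POK c TN i) :
    ∀ (k code e0 : ℕ), c.strips i k code e0 = true →
    ∀ {x y hh : ℝ}, (e0 : ℝ) / 16384 ≤ x → 0 < y → x + y ≤ π → |hh| ≤ sin (x + y) →
      Act c i x y hh → 0 < fF (c.T i) (c.A i) (c.B i) (c.K i) x y := by
  intro k
  induction k with
  | zero =>
    intro code e0 h x y hh hx0 hy hxy _ _
    exfalso
    unfold strips at h
    have h4 := div_le_div_nat (Nat.le_of_ble_eq_true h)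
    have := NX_gt
    linarith
  | succ k ih =>
    intro code e0 h x y hh hx0 hy hxy hh1 hact
    unfold strips at h
    rw [Bool.and_eq_true] at h
    rcases le_total x (((code % 65536 : ℕ) : ℝ) / 16384) with hx1 | hx1
    · exact stripOK_sound hT hi hp h.1 hx0 hx1 hy hxy hh1 hact
    · exact ih _ _ h.2 hx1 hy hxy hh1 hact

end CData

end Pool.Agent.H962
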