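import Pool.Agent.H962.Rng
import Pool.Agent.H962.Table
import Pool.Agent.H962.TaC0
import Pool.Agent.H962.TaC1
import Pool.Agent.H962.TaC2
import Pool.Agent.H962.TaC3
import Pool.Agent.H962.TaC4
import Pool.Agent.H962.TaC5
import Pool.Agent.H962.TaC6
import Pool.Agent.H962.TaC7

/-!
# The certificate is correct
-/

set_option autoImplicit false

namespace Pool.Agent.H962

open CData

lemma specTa : cTa.specOK 0 = true := by decide +kernel

lemma rngTa : cTa.Rng 16600 0 0 316 := by
  have h0 := rng_of_allOK lTaC0 0 41 okTaC0 (by rw [lenTaC0])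
  have h1 := rng_of_allOK lTaC1 41 69 okTaC1 (by rw [lenTaC1])
  have h2 := rng_of_allOK lTaC2 69 87 okTaC2 (by rw [lenTaC2])
  have h3 := rng_of_allOK lTaC3 87 132 okTaC3 (by rw [lenTaC3])
  have h4 := rng_of_allOK lTaC4 132 168 okTaC4 (by rw [lenTaC4])
  have h5 := rng_of_allOK lTaC5 168 217 okTaC5 (by rw [lenTaC5])
  have h6 := rng_of_allOK lTaC6 217 266 okTaC6 (by rw [lenTaC6])
  have h7 := rng_of_allOK lTaC7 266 316 okTaC7 (by rw [lenTaC7])
  exact (((((((h0.trans h1).trans h2).trans h3).trans h4).trans h5).trans h6).trans h7)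

theorem certTa : Cert cTa 16600 0 where
  tab := ⟨fun n hn => (tab_ok n hn).1, fun n hn => (tab_ok n hn).2⟩
  npos := by decide
  tpos := by norm_num
  plane := fun i hi => (rngTa i (Nat.zero_le i) hi).1
  spec := specTa
  st := fun i hi => (rngTa i (Nat.zero_le i) hi).2

end Pool.Agent.H962
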